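import Pool.Agent.Mg.F7b7a6d.G71ec6f

section

open scoped Classical
open MeasureTheory Metric Real

noncomputable section
namespace MP7b

theorem mem_D2 {X : Finset ℂ} {R : ℂ → ℂ → Prop} {q : ℂ × ℂ} :
    q ∈ D2 X R ↔ q.1 ∈ X ∧ q.2 ∈ X ∧ R q.1 q.2 := by
  simp [D2, and_assoc]

theorem mem_T3 {X : Finset ℂ} {P : ℂ → ℂ → ℂ → Prop} {q : ℂ × ℂ × ℂ} :
    q ∈ T3 X P ↔ q.1 ∈ X ∧ q.2.1 ∈ X ∧ q.2.2 ∈ X ∧ P q.1 q.2.1 q.2.2 := by
  simp [T3, and_assoc]

theorem Del_nonneg {X t R g δ} (h : Cx X t R g δ) (V : Finset ℂ) : 0 ≤ Del V g δ := by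
  unfold Del
  refine div_nonneg (Finset.sum_nonneg fun q hq => ?_) (by norm_num)
  exact (abs_nonneg _).trans (h.dev (mem_T3.1 hq).2.2.2)

theorem peel_ind (hs : PEs_st) (ha : PEa_st) (hb : PEb_st) {X t R g δ} (h : Cx X t R g δ)
    (hE : Exa X (E t) t) (n : ℕ) : ∀ V : Finset ℂ, V.card = n → V ⊆ X → V.Nonempty →
    Solid t (rV V R) (pV V g) → ∀ S : ℤ,
    2 * (V.card : ℝ) - ((T3 V g).card : ℝ) / 3 + Del V g δ < S →
    12 * (V.card : ℤ) - 3 ≤ S ^ 2 := by
  induction n using Nat.strong_induction_on with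
  | _ n ih =>
  intro V hn hV hne hS S hlt
  have hD := Del_nonneg h V
  by_cases he : (D2 V R).Nonempty
  · obtain ⟨h1, h2⟩ := ha X t R g δ h hE V hV hS
    have h1 := h1 hne
    have h2 := h2 he
    have hUV : inn t V g ⊆ V := Finset.filter_subset _ _
    set U := inn t V g with hU
    unfold chi6 at h1 h2
    have h1r : (6 : ℝ) ≤ 6 * (V.card : ℝ) - 3 * ((D2 V R).card : ℝ) + 2 * ((T3 V g).card : ℝ) := by
      exact_mod_cast h1
    have h2r : 6 * ((V.card : ℝ) - U.card) + 6 ≤ 6 * (((D2 V R).card : ℝ) - (T3 V g).card) +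
        (6 * (V.card : ℝ) - 3 * ((D2 V R).card : ℝ) + 2 * ((T3 V g).card : ℝ)) := by
      exact_mod_cast h2
    have hW : ((V.card : ℤ) - U.card) + 2 < S := by
      have : ((V.card : ℝ) - U.card) + 2 < S := by linarith
      exact_mod_cast this
    by_cases hUe : U.Nonempty
    · have hSU := hs X t R g δ h V hS
      have h3 := (ha X t R g δ h hE U (hUV.trans hV) hSU).1 hUe
      unfold chi6 at h3
      have h3r : (6 : ℝ) ≤ 6 * (U.card : ℝ) - 3 * ((D2 U R).card : ℝ) +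
          2 * ((T3 U g).card : ℝ) := by exact_mod_cast h3
      have h4 := hb X t R g δ h V hV
      rw [← hU] at h4
      have hlt' : U.card < n := by
        rcases (Finset.card_le_card hUV).lt_or_eq with h5 | h5
        · exact hn ▸ h5
        · have h6 : U = V := Finset.eq_of_subset_of_card_le hUV h5.ge
          rw [h6] at h4 h3r h2r
          exfalso
          linarith
      have h7 := ih _ hlt' U rfl (hUV.trans hV) hUe hSU (S - 6) (by push_cast; linarith)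
      nlinarith
    · rw [Finset.not_nonempty_iff_eq_empty] at hUe
      rw [hUe] at hW
      simp only [Finset.card_empty, Nat.cast_zero, sub_zero] at hW
      nlinarith [sq_nonneg (S - 6)]
  · have hT : T3 V g = ∅ := by
      rw [Finset.eq_empty_iff_forall_notMem]
      intro q hq
      obtain ⟨a1, a2, -, a4⟩ := mem_T3.1 hq
      exact he ⟨(q.1, q.2.1), mem_D2.2 ⟨a1, a2, h.gR a4⟩⟩
    rw [hT] at hlt
    simp only [Finset.card_empty, Nat.cast_zero, zero_div, sub_zero] at hlt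
    have h1 : 2 * (V.card : ℤ) < S := by
      have : 2 * (V.card : ℝ) < S := by linarith
      exact_mod_cast this
    have h2 : (0 : ℤ) ≤ V.card := Int.natCast_nonneg _
    nlinarith [sq_nonneg ((V.card : ℤ) - 1)]

theorem E_mem {X t} (h : Tri X t) {a b} (e : E t a b) : a ∈ X ∧ b ∈ X := by
  rcases e with ⟨c, e⟩ | ⟨c, e⟩
  · exact ⟨h.mem e, h.mem (h.rot e)⟩
  · exact ⟨h.mem (h.rot e), h.mem e⟩

theorem peel (hs : PEs_st) (ha : PEa_st) (hb : PEb_st) : PEEL_st := by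
  intro X t R g δ h hne hE hS S hlt
  refine peel_ind hs ha hb h hE _ X rfl subset_rfl hne ?_ S hlt
  intro c hc hsym a b d ht hn
  refine hS c hc (fun a b hR => hsym a b fun h' => hR h'.2.2) a b d ht fun hg => hn ?_
  exact ⟨h.tri.mem ht, h.tri.mem (h.tri.rot ht), h.tri.mem (h.tri.rot (h.tri.rot ht)), hg⟩

theorem D_rot (a b c : ℂ) : D b c a = D a b c := by unfold D; ring

theorem tri (hg : GEN_st) (ha : TRa_st)
    (hb : ∀ X h, Gen X h → (∀ a b c x, tH X h a b c → x ∈ X → D a b x < 0 → ∃ d, tH X h b a d) ∧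
      (Sep X → NonCol X → ∀ x ∈ X, ∃ a b, tH X h x a b))
    (hc : ∀ X h, Gen X h → ∀ a b c, tH X h a b c → ∃ O : ℂ, dist b O = dist a O ∧
      dist c O = dist a O ∧ ∀ x ∈ X, dist a O ≤ dist x O) : TRI_st := by
  intro X hS hN
  obtain ⟨h, hh⟩ := hg X
  obtain ⟨a1, a2, a3⟩ := ha X h hh
  obtain ⟨b1, b2⟩ := hb X h hh
  refine ⟨tH X h, fun e => e.1, ?_, fun e => e.2.2.2.1, fun e e' => a1 _ _ _ _ e e',
    fun e hx hd => b1 _ _ _ _ e hx hd, fun e e' hp hp' => a2 _ _ _ _ _ _ _ e e' hp hp',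
    fun e e' h1 h2 => a3 _ _ _ _ _ e e' h1 h2, fun hx => b2 hS hN _ hx,
    fun e => hc X h hh _ _ _ e⟩
  rintro a b c ⟨h1, h2, h3, h4, p, q, r, h5, h6, h7, h8⟩
  exact ⟨h2, h3, h1, by rwa [D_rot], p, q, r, h5, h7, h8, h6⟩

theorem sti (hU : STU_st) (hL : STL_st) : STI_st := fun a b c h0 h1 h2 h3 h4 =>
  abs_le.2 ⟨by have := hL a b c h0 h1 h2 h3 h4; linarith, hU a b c h0 h1 h2 h3 h4⟩

end MP7b

end
end

section

open scoped Classical
open MeasureTheory Metric Real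

noncomputable section
namespace MP7b

/-- side data of an equiangular hexagon with `n` lattice points and `b` boundary points -/
def Sides (n b : ℕ) (a : ℕ → ℕ) : Prop :=
  a 0 + a 5 = a 2 + a 3 ∧ a 1 + a 2 = a 4 + a 5 ∧ b = a 0 + a 1 + a 2 + a 3 + a 4 + a 5 ∧
    2 * n + a 5 * (a 5 + 1) + a 2 * (a 2 + 1) = 2 * (a 0 + a 5 + 1) * (a 1 + a 2 + 1)

def Corners (X : Finset ℂ) (a : ℕ → ℕ) : Prop :=
  ∃ (u : ℂ) (z : ℕ → ℂ), ‖u‖ = 1 ∧ (∀ j, z j ∈ X) ∧
    ∀ j < 5, z (j + 1) = z j + 2 * (a j : ℂ) * u * om ^ j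

def CORE_st : Prop := ∀ X : Finset ℂ, Sep X → Sat X → NonCol X → ∀ K : Set ℂ, Convex ℝ K →
  (∀ x ∈ X, closedBall x 1 ⊆ K) → ∃ (b : ℕ) (Δ : ℝ), 0 ≤ Δ ∧
    ENNReal.ofReal (2 * √3 * ((X.card : ℝ) - 1) + nu * b + 2 * nu * Δ + π) ≤ volume K ∧
    (∀ S : ℤ, (b : ℝ) + 2 + Δ < S → 12 * (X.card : ℤ) - 3 ≤ S ^ 2) ∧
    (Δ < 1 / 2 → ∃ a, Sides X.card b a ∧ (Δ ≤ 0 → Corners X a))

theorem sqrt3_bounds : 1.732 < √3 ∧ √3 < 1.7321 := by
  constructor
  · rw [Real.lt_sqrt (by norm_num)]; norm_num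
  · rw [Real.sqrt_lt' (by norm_num)]; norm_num

theorem nu_pos : 0 < nu := by unfold nu; linarith [sqrt3_bounds.2]

theorem E_symm {t : ℂ → ℂ → ℂ → Prop} {a b} (e : E t a b) : E t b a := Or.symm e

theorem t_ne {X t} (h : Tri X t) {a b c} (e : t a b c) : a ≠ b := by
  rintro rfl
  have := h.pos e
  simp [D] at this

theorem E_ne {X t} (h : Tri X t) {a b} (e : E t a b) : a ≠ b := by
  rcases e with ⟨c, e⟩ | ⟨c, e⟩
  · exact t_ne h e
  · exact (t_ne h e).symm

theorem t_sep {X t} (h : Tri X t) (hS : Sep X) {a b c} (e : t a b c) : 2 ≤ dist a b :=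
  hS a (h.mem e) b (h.mem (h.rot e)) (t_ne h e)

theorem good_rot {X t} (h : Tri X t) {a b c} (e : good t a b c) : good t b c a :=
  ⟨h.rot e.1, by rw [D_rot]; have := e.2; linarith⟩

theorem dl_rot (a b c : ℂ) : dl b c a = dl a b c := by
  unfold dl; rw [D_rot a b c]; ring

theorem cx_of (hI : STI_st) (hC : COL_st) {X t} (h : Tri X t) (hS : Sep X) (hT : Sat X) :
    Cx X t (e0 t) (good t) dl where
  tri := h
  gt e := e.1
  grot e := good_rot h e
  gR e := (hC X t h hT).2.2.2 _ _ _ e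
  Rsymm e := ⟨E_symm e.1, e.2.2, e.2.1⟩
  RE e := e.1
  drot _ := dl_rot _ _ _
  dev e := hI _ _ _ (h.pos e.1) (t_sep h hS e.1) (t_sep h hS (h.rot e.1))
    (t_sep h hS (h.rot (h.rot e.1))) e.2

theorem SL_term (hA : ANG_st) {X t} (h : Tri X t) :
    ∀ q ∈ T3 X (ap t), 0 < 3 - ang q.1 q.2.1 q.2.2 := fun q hq => by
  have := (hA _ _ _ (h.pos (mem_T3.1 hq).2.2.2.1.1)).2.1
  linarith

theorem vol_lb (hM : MID_st) (hG : GST_st) (hV : TRV_st) {X t} (h : Tri X t) (hne : X.Nonempty)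
    {K : Set ℂ} (hK : Convex ℝ K) (hb : ∀ x ∈ X, closedBall x 1 ⊆ K) :
    ENNReal.ofReal ((∑ q ∈ T3 X t, D q.1 q.2.1 q.2.2) / 6 +
      (∑ q ∈ D2 X (bd (E t) t), dist q.1 q.2 + π)) ≤ volume K := by
  refine ENNReal.ofReal_add_le.trans ?_
  refine le_trans (add_le_add (hV X t h) le_rfl) (hG X _ K hne hK hb fun q hq => ?_)
  obtain ⟨h1, h2, h3, h4⟩ := mem_D2.1 hq
  refine ⟨h1, h2, E_ne h h3, fun x hx => ?_, fun x hx s s0 s1 => hM X t h _ _ x s h3 hx s0 s1⟩
  rcases h3 with h3 | ⟨c, h3⟩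
  · exact absurd h3 h4
  · by_contra hlt
    refine h4 (h.nbr h3 hx ?_)
    have : D q.2 q.1 x = - D q.1 q.2 x := by unfold D; ring
    linarith

theorem core (hT : TRI_st) (hA : ANG_st) (hM : MID_st) (h1 : CH1_st) (hH : H1_st) (hX : CHI_st)
    (hB : BAD_st) (hI : STI_st) (hC : COL_st) (hP : PEEL_st) (hG : GST_st) (hV : TRV_st)
    (hab : ACb_st) (hag : ACg_st) (hN : CNT_st) (hR : RA_st) (hg : RIG_st) (hq : EQ0_st) :
    CORE_st := by
  intro X hS hSat hNC K hK hb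
  obtain ⟨t, h⟩ := hT X hS hNC
  have hne : X.Nonempty := by obtain ⟨a, ha, -⟩ := hNC; exact ⟨a, ha⟩
  have cx := cx_of hI hC h hS hSat
  obtain ⟨c1, c2, c3, c4⟩ := hC X t h hSat
  obtain ⟨d1, d2⟩ := h1 X t h hne
  have hE := hH X t h
  have hE0 : Exa X (e0 t) (good t) := exs X t _ _ h hE (fun _ _ e => e.1) (fun _ _ _ e => e.1) c1
  have hchi : chi6 X (e0 t) (good t) = 6 := by
    refine le_antisymm (c3 ▸ d1) (hX X X _ _ subset_rfl hne ?_ ?_ ?_ hE0)
    · exact fun a b e => ⟨(E_mem h e.1).1, E_ne h e.1, cx.Rsymm e⟩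
    · exact fun a b c e => ⟨cx.gR e, cx.grot e⟩
    · exact fun a b c c' e e' => h.uniq e.1 e'.1
  have hcnt := (hN X t _ _ _ cx).1
  set b := (D2 X (bd (e0 t) (good t))).card with hbdef
  set N := (T3 X (good t)).card with hNdef
  have hchi' := hchi
  unfold chi6 at hchi'
  rw [hcnt] at hchi'
  have hz : 6 * (X.card : ℤ) - 3 * b - N = 6 := by push_cast at hchi'; linarith
  have hr : 6 * (X.card : ℝ) - 3 * b - N = 6 := by exact_mod_cast hz
  have hD := Del_nonneg cx X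
  have hSL : 0 ≤ SL X t := Finset.sum_nonneg fun q hq => (SL_term hA h q hq).le
  refine ⟨b, Del X (good t) dl + SL X t, by linarith, ?_, fun S hlt => ?_, fun hlt => ?_⟩
  · refine le_trans (ENNReal.ofReal_le_ofReal ?_) (vol_lb hM hG hV h hne hK hb)
    have e1 := hab X t h hS hSat
    have e2 := hag X t h hS c4
    have e3 : (N : ℝ) = 6 * X.card - 3 * b - 6 := by linarith
    rw [← hbdef, ← hNdef, e3] at e2
    unfold nu at *
    linarith
  · exact hP X t _ _ _ cx hne hE c1 S (by linarith)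
  · by_cases hTe : (T3 X (good t)).Nonempty
    · obtain ⟨a, s1, s2, s3, s4, s5⟩ := hg X t _ _ _ cx (c2 d2) hE0 hchi hTe (by linarith)
        (hR X t cx hSat (by linarith))
      refine ⟨a, ⟨s1, s2, s3, s4⟩, fun h0 => s5 (by linarith) fun a b c e => ?_⟩
      have hz : ∀ a b c, good t a b c → dl a b c ≤ 0 := by
        intro a b c e
        have m : (a, b, c) ∈ T3 X (good t) :=
          mem_T3.2 ⟨h.mem e.1, h.mem (h.rot e.1), h.mem (h.rot (h.rot e.1)), e⟩
        have := Finset.single_le_sum (f := fun q : ℂ × ℂ × ℂ => dl q.1 q.2.1 q.2.2)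
          (fun q hq => (abs_nonneg _).trans (cx.dev (mem_T3.1 hq).2.2.2)) m
        unfold Del at h0
        simp only at this
        linarith
      have ha : ∀ a b c, good t a b c → ang a b c = 1 := by
        intro a b c e
        have := abs_nonpos_iff.1 ((cx.dev e).trans (hz a b c e))
        linarith
      exact hq a b c (h.pos e.1) (t_sep h hS e.1) (t_sep h hS (h.rot e.1))
        (t_sep h hS (h.rot (h.rot e.1))) (ha _ _ _ e) (ha _ _ _ (cx.grot e)) (hz _ _ _ e)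
    · have hN0 : N = 0 := by
        rw [hNdef, Finset.card_eq_zero]; exact Finset.not_nonempty_iff_eq_empty.1 hTe
      refine ⟨fun j => if j = 0 ∨ j = 3 then X.card - 1 else 0, ?_, fun h0 => ?_⟩
      · unfold Sides
        simp only [true_or, or_true, if_true]
        norm_num
        omega
      · exfalso
        obtain ⟨x, hx⟩ := hne
        obtain ⟨p, q, e⟩ := h.cover hx
        have m1 := h.mem e
        have m2 := h.mem (h.rot e)
        have m3 := h.mem (h.rot (h.rot e))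
        have hbad : bad t x p q := ⟨e, fun e' => hTe ⟨(x, p, q), mem_T3.2 ⟨m1, m2, m3, e, e'⟩⟩⟩
        have hap : (T3 X (ap t)).Nonempty := by
          rcases (hB X t h).1 hSat _ _ _ hbad with e' | e' | e'
          · exact ⟨(x, p, q), mem_T3.2 ⟨m1, m2, m3, e'⟩⟩
          · exact ⟨(p, q, x), mem_T3.2 ⟨m2, m3, m1, e'⟩⟩
          · exact ⟨(q, x, p), mem_T3.2 ⟨m3, m1, m2, e'⟩⟩
        have := Finset.sum_pos (SL_term hA h) hap
        unfold SL at h0
        linarith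

end MP7b

end
end

section

/-! Statements for the equality cases. -/

open scoped Classical
open MeasureTheory Metric Real

noncomputable section
namespace MP7b

/-- slack on the boundary darts -/
def BS (X : Finset ℂ) (t : ℂ → ℂ → ℂ → Prop) : ℝ :=
  ∑ q ∈ D2 X (bd (e0 t) (good t)), (dist q.1 q.2 - 2 - cap q.1 q.2)

def ACg2_st : Prop := ∀ X t, Tri X t → Sep X → (∀ a b c, good t a b c → e0 t a b) →
  √3 * ((T3 X (good t)).card : ℝ) / 3 + 2 * ((D2 X (bd (e0 t) (good t))).card : ℝ) +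
    2 * nu * Del X (good t) dl + BS X t ≤
  (∑ q ∈ T3 X (good t), D q.1 q.2.1 q.2.2) / 6 + ∑ q ∈ D2 X (bd (e0 t) (good t)), dist q.1 q.2

def PEb2_st : Prop := ∀ X t R g δ, Cx X t R g δ → ∀ V : Finset ℂ, V ⊆ X →
  6 * ((inn t V g).card : ℝ) ≤ ((D2 (inn t V g) R).card : ℝ) +
    (((T3 V g).card : ℝ) - (T3 (inn t V g) g).card) / 3 + Del V g δ - Del (inn t V g) g δ -
    Del (V \ inn t V g) g δ

def STS_st : Prop := ∀ a b c : ℂ, 0 < D a b c → 2 ≤ dist a b → 2 ≤ dist b c → 2 ≤ dist c a →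
  dist a b * dist b c * dist c a ≤ 4 * D a b c →
  dist a b ^ 2 < 8 → dist b c ^ 2 < 8 → dist c a ^ 2 < 8 → 0 < dl a b c →
  |ang a b c - 1| < dl a b c

def TIE_st : Prop := ∀ X t, Cx X t (e0 t) (good t) dl → Sep X → Del X (good t) dl ≤ 1 →
  (∀ a b, bd (e0 t) (good t) a b → dist a b = 2) → ∀ a b c, good t a b c → 8 ≤ dist a b ^ 2 →
  1 ≤ Del X (good t) dl ∧ 1 / 2 ≤ Del (X \ inn t X (good t)) (good t) dl

end MP7b

end
end

section

open scoped Classical
open MeasureTheory Metric Real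

noncomputable section
namespace MP7b

theorem Del_mono {X t R g δ} (h : Cx X t R g δ) {V W : Finset ℂ} (hVW : V ⊆ W) :
    Del V g δ ≤ Del W g δ := by
  unfold Del
  refine div_le_div_of_nonneg_right (Finset.sum_le_sum_of_subset_of_nonneg ?_ ?_) (by norm_num)
  · intro q hq
    obtain ⟨a1, a2, a3, a4⟩ := mem_T3.1 hq
    exact mem_T3.2 ⟨hVW a1, hVW a2, hVW a3, a4⟩
  · exact fun q hq _ => (abs_nonneg _).trans (h.dev (mem_T3.1 hq).2.2.2)

theorem peel2 (hs : PEs_st) (ha : PEa_st) (hb : PEb_st) (hb2 : PEb2_st) {X t R g δ}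
    (h : Cx X t R g δ) (he : (T3 X g).Nonempty) (hE : Exa X (E t) t) (hS0 : Solid t R g) (S : ℤ)
    (hlt : 2 * (X.card : ℝ) - ((T3 X g).card : ℝ) / 3 + Del X g δ -
      Del (X \ inn t X g) g δ < S) : 12 * (X.card : ℤ) - 3 ≤ S ^ 2 := by
  have hS : Solid t (rV X R) (pV X g) := by
    intro c hc hsym a b d ht hn
    refine hS0 c hc (fun a b hR => hsym a b fun h' => hR h'.2.2) a b d ht fun hg => hn ?_
    exact ⟨h.tri.mem ht, h.tri.mem (h.tri.rot ht), h.tri.mem (h.tri.rot (h.tri.rot ht)), hg⟩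
  obtain ⟨q, hq⟩ := he
  obtain ⟨a1, a2, -, a4⟩ := mem_T3.1 hq
  have hD := Del_mono h (Finset.sdiff_subset (s := X) (t := inn t X g))
  obtain ⟨h1, h2⟩ := ha X t R g δ h hE X subset_rfl hS
  have h1 := h1 ⟨_, a1⟩
  have h2 := h2 ⟨(q.1, q.2.1), mem_D2.2 ⟨a1, a2, h.gR a4⟩⟩
  have hUV : inn t X g ⊆ X := Finset.filter_subset _ _
  have h4 := hb2 X t R g δ h X subset_rfl
  have hSU := hs X t R g δ h X hS
  set U := inn t X g with hU
  unfold chi6 at h1 h2
  have h1r : (6 : ℝ) ≤ 6 * (X.card : ℝ) - 3 * ((D2 X R).card : ℝ) + 2 * ((T3 X g).card : ℝ) := by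
    exact_mod_cast h1
  have h2r : 6 * ((X.card : ℝ) - U.card) + 6 ≤ 6 * (((D2 X R).card : ℝ) - (T3 X g).card) +
      (6 * (X.card : ℝ) - 3 * ((D2 X R).card : ℝ) + 2 * ((T3 X g).card : ℝ)) := by
    exact_mod_cast h2
  have hW : ((X.card : ℤ) - U.card) + 2 < S := by
    have : ((X.card : ℝ) - U.card) + 2 < S := by linarith
    exact_mod_cast this
  by_cases hUe : U.Nonempty
  · have h3 := (ha X t R g δ h hE U hUV hSU).1 hUe
    unfold chi6 at h3
    have h3r : (6 : ℝ) ≤ 6 * (U.card : ℝ) - 3 * ((D2 U R).card : ℝ) +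
        2 * ((T3 U g).card : ℝ) := by exact_mod_cast h3
    have h7 := peel_ind hs ha hb h hE _ U rfl hUV hUe hSU (S - 6) (by push_cast; linarith)
    nlinarith
  · rw [Finset.not_nonempty_iff_eq_empty] at hUe
    rw [hUe] at hW
    simp only [Finset.card_empty, Nat.cast_zero, sub_zero] at hW
    nlinarith [sq_nonneg (S - 6)]

/-- largest deviation of an angle from `π/3` -/
def md (a b c : ℂ) : ℝ := max (max |ang a b c - 1| |ang b c a - 1|) |ang c a b - 1|

theorem md_rot (a b c : ℂ) : md b c a = md a b c := by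
  unfold md
  rw [max_comm, max_assoc]

theorem cx_md {X t R g δ} (h : Cx X t R g δ) : Cx X t R g md where
  tri := h.tri
  gt := h.gt
  grot := h.grot
  gR := h.gR
  Rsymm := h.Rsymm
  RE := h.RE
  drot _ := md_rot _ _ _
  dev _ := (le_max_left _ _).trans (le_max_left _ _)

theorem md_le {X t R g δ} (h : Cx X t R g δ) {a b c} (e : g a b c) : md a b c ≤ δ a b c := by
  refine max_le (max_le (h.dev e) ?_) ?_
  · rw [← h.drot e]; exact h.dev (h.grot e)
  · rw [← h.drot e, ← h.drot (h.grot e)]; exact h.dev (h.grot (h.grot e))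

theorem Del_md_le {X t R g δ} (h : Cx X t R g δ) : Del X g md ≤ Del X g δ :=
  div_le_div_of_nonneg_right
    (Finset.sum_le_sum fun _ hq => md_le h (mem_T3.1 hq).2.2.2) (by norm_num)

theorem Del_md_lt (hT : STS_st) {X t} (h : Cx X t (e0 t) (good t) dl) (hS : Sep X)
    (hs : ∀ a b c, good t a b c → dist a b ^ 2 < 8) (hp : 0 < Del X (good t) dl) :
    Del X (good t) md < Del X (good t) dl := by
  unfold Del at *
  refine div_lt_div_of_pos_right (Finset.sum_lt_sum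
    (fun _ hq => md_le h (mem_T3.1 hq).2.2.2) ?_) (by norm_num)
  by_contra hn
  push Not at hn
  have hk : ∀ a b c, good t a b c → 0 < dl a b c → |ang a b c - 1| < dl a b c := fun a b c e =>
    hT a b c (h.tri.pos e.1) (t_sep h.tri hS e.1) (t_sep h.tri hS (h.tri.rot e.1))
      (t_sep h.tri hS (h.tri.rot (h.tri.rot e.1))) e.2 (hs _ _ _ e) (hs _ _ _ (h.grot e))
      (hs _ _ _ (h.grot (h.grot e)))
  have : ∑ q ∈ T3 X (good t), dl q.1 q.2.1 q.2.2 ≤ 0 := by
    refine Finset.sum_nonpos fun q hq => ?_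
    by_contra h0
    push Not at h0
    have e := (mem_T3.1 hq).2.2.2
    have m1 := hk _ _ _ e h0
    have m2 := hk _ _ _ (h.grot e) (by rwa [dl_rot])
    have m3 := hk _ _ _ (h.grot (h.grot e)) (by rwa [dl_rot, dl_rot])
    rw [dl_rot] at m2
    rw [dl_rot, dl_rot] at m3
    exact absurd (hn q hq) (not_le.2 (max_lt (max_lt m1 m2) m3))
  linarith

theorem cap_lt {a b : ℂ} (h : 2 < dist a b) : cap a b < dist a b - 2 := by
  unfold cap
  have h1 := nu_pos
  have h2 : nu < 0.268 := by unfold nu; linarith [sqrt3_bounds.1]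
  by_cases h3 : dist a b ^ 2 ≤ 8
  · rw [max_eq_right (by linarith), min_eq_left (by norm_num)]; linarith
  · have h4 : 2.8 < dist a b := by nlinarith
    have h5 := min_le_right (max (dist a b ^ 2 - 8) 0) 4
    nlinarith

theorem cap_two {a b : ℂ} (h : dist a b = 2) : cap a b = 0 := by
  unfold cap; rw [h]; norm_num

theorem BS_term {X t} (h : Tri X t) (hS : Sep X) : ∀ q ∈ D2 X (bd (e0 t) (good t)),
    0 ≤ dist q.1 q.2 - 2 - cap q.1 q.2 := fun q hq => by
  obtain ⟨a1, a2, a3⟩ := mem_D2.1 hq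
  rcases (hS _ a1 _ a2 (E_ne h a3.1.1)).lt_or_eq with h1 | h1
  · linarith [cap_lt h1]
  · rw [cap_two h1.symm]; linarith

theorem BS_zero {X t} (h : Tri X t) (hS : Sep X) (h0 : BS X t ≤ 0) (a b)
    (e : bd (e0 t) (good t) a b) : dist a b = 2 := by
  have m : (a, b) ∈ D2 X (bd (e0 t) (good t)) :=
    mem_D2.2 ⟨(E_mem h e.1.1).1, (E_mem h e.1.1).2, e⟩
  have h1 := Finset.single_le_sum (BS_term h hS) m
  rcases (hS _ (E_mem h e.1.1).1 _ (E_mem h e.1.1).2 (E_ne h e.1.1)).lt_or_eq with h2 | h2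
  · have := cap_lt h2
    unfold BS at h0
    simp only at h1
    linarith
  · exact h2.symm

def CORE2_st : Prop := ∀ X : Finset ℂ, Sep X → Sat X → NonCol X → ∀ K : Set ℂ, Convex ℝ K →
  (∀ x ∈ X, closedBall x 1 ⊆ K) → ∃ (b : ℕ) (Δ : ℝ), 0 ≤ Δ ∧
    ENNReal.ofReal (2 * √3 * ((X.card : ℝ) - 1) + nu * b + 2 * nu * Δ + π) ≤ volume K ∧
    (∀ S : ℤ, (b : ℝ) + 2 + Δ < S → 12 * (X.card : ℤ) - 3 ≤ S ^ 2) ∧
    (Δ ≤ 1 → 12 * (X.card : ℤ) - 3 ≤ ((b : ℤ) + 3) ^ 2) ∧
    (Δ ≤ 1 / 2 → ∃ a, Sides X.card b a ∧ (Δ ≤ 0 → Corners X a))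

theorem core2 (hT : TRI_st) (hA : ANG_st) (hM : MID_st) (h1 : CH1_st) (hH : H1_st) (hX : CHI_st)
    (hB : BAD_st) (hI : STI_st) (hC : COL_st) (hs : PEs_st) (ha : PEa_st) (hb' : PEb_st)
    (hb2 : PEb2_st) (hG : GST_st) (hV : TRV_st) (hab : ACb_st) (hag : ACg2_st) (hN : CNT_st)
    (hR : RA_st) (hg : RIG_st) (hq : EQ0_st) (hts : STS_st) (hti : TIE_st) : CORE2_st := by
  intro X hS hSat hNC K hK hb
  have hP := peel hs ha hb'
  obtain ⟨t, h⟩ := hT X hS hNC
  have hne : X.Nonempty := by obtain ⟨a, ha, -⟩ := hNC; exact ⟨a, ha⟩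
  have cx := cx_of hI hC h hS hSat
  obtain ⟨c1, c2, c3, c4⟩ := hC X t h hSat
  obtain ⟨d1, d2⟩ := h1 X t h hne
  have hE := hH X t h
  have hE0 : Exa X (e0 t) (good t) := exs X t _ _ h hE (fun _ _ e => e.1) (fun _ _ _ e => e.1) c1
  have hchi : chi6 X (e0 t) (good t) = 6 := by
    refine le_antisymm (c3 ▸ d1) (hX X X _ _ subset_rfl hne ?_ ?_ ?_ hE0)
    · exact fun a b e => ⟨(E_mem h e.1).1, E_ne h e.1, cx.Rsymm e⟩
    · exact fun a b c e => ⟨cx.gR e, cx.grot e⟩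
    · exact fun a b c c' e e' => h.uniq e.1 e'.1
  have hcnt := (hN X t _ _ _ cx).1
  set b := (D2 X (bd (e0 t) (good t))).card with hbdef
  set N := (T3 X (good t)).card with hNdef
  have hchi' := hchi
  unfold chi6 at hchi'
  rw [hcnt] at hchi'
  have hz : 6 * (X.card : ℤ) - 3 * b - N = 6 := by push_cast at hchi'; linarith
  have hr : 6 * (X.card : ℝ) - 3 * b - N = 6 := by exact_mod_cast hz
  have hD := Del_nonneg cx X
  have hSL : 0 ≤ SL X t := Finset.sum_nonneg fun q hq => (SL_term hA h q hq).le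
  have hBS : 0 ≤ BS X t := Finset.sum_nonneg (BS_term h hS)
  have hnu := nu_pos
  obtain ⟨β, hβ⟩ : ∃ β, β = BS X t / (2 * nu) := ⟨_, rfl⟩
  have hβ1 : 2 * nu * β = BS X t := by rw [hβ]; field_simp
  have hβ0 : 0 ≤ β := by rw [hβ]; positivity
  have hbz : β ≤ 0 → ∀ a b, bd (e0 t) (good t) a b → dist a b = 2 := fun h0 =>
    BS_zero h hS (by nlinarith)
  refine ⟨b, Del X (good t) dl + SL X t + β, by linarith, ?_, fun S hlt => ?_, fun hle => ?_,
    fun hle => ?_⟩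
  · refine le_trans (ENNReal.ofReal_le_ofReal ?_) (vol_lb hM hG hV h hne hK hb)
    have e1 := hab X t h hS hSat
    have e2 := hag X t h hS c4
    have e3 : (N : ℝ) = 6 * X.card - 3 * b - 6 := by linarith
    rw [← hbdef, ← hNdef, e3, ← hβ1] at e2
    unfold nu at *
    linarith
  · exact hP X t _ _ _ cx hne hE c1 S (by linarith)
  · by_cases hlt : Del X (good t) dl < 1
    · exact hP X t _ _ _ cx hne hE c1 _ (by push_cast; linarith)
    by_cases hl : ∀ a b c, good t a b c → dist a b ^ 2 < 8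
    · have := Del_md_lt hts cx hS hl (by linarith)
      exact hP X t _ _ _ (cx_md cx) hne hE c1 _ (by push_cast; linarith)
    · push Not at hl
      obtain ⟨p, q, r, e, hl⟩ := hl
      have := (hti X t cx hS (by linarith) (hbz (by linarith)) p q r e hl).2
      exact peel2 hs ha hb' hb2 cx ⟨(p, q, r), mem_T3.2
        ⟨h.mem e.1, h.mem (h.rot e.1), h.mem (h.rot (h.rot e.1)), e⟩⟩ hE c1 _
        (by push_cast; linarith)
  · by_cases hTe : (T3 X (good t)).Nonempty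
    · have hmd := Del_md_le cx
      have hlt : Del X (good t) md < 1 / 2 := by
        by_cases hlt : Del X (good t) dl < 1 / 2
        · linarith
        by_cases hl : ∀ a b c, good t a b c → dist a b ^ 2 < 8
        · have := Del_md_lt hts cx hS hl (by linarith)
          linarith
        · push Not at hl
          obtain ⟨p, q, r, e, hl⟩ := hl
          have := (hti X t cx hS (by linarith) (hbz (by linarith)) p q r e hl).1
          linarith
      obtain ⟨a, s1, s2, s3, s4, s5⟩ := hg X t _ _ _ (cx_md cx) (c2 d2) hE0 hchi hTe hlt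
        (hR X t cx hSat (by linarith))
      refine ⟨a, ⟨s1, s2, s3, s4⟩, fun h0 => s5 (by linarith) fun a b c e => ?_⟩
      have hz : ∀ a b c, good t a b c → dl a b c ≤ 0 := by
        intro a b c e
        have m : (a, b, c) ∈ T3 X (good t) :=
          mem_T3.2 ⟨h.mem e.1, h.mem (h.rot e.1), h.mem (h.rot (h.rot e.1)), e⟩
        have := Finset.single_le_sum (f := fun q : ℂ × ℂ × ℂ => dl q.1 q.2.1 q.2.2)
          (fun q hq => (abs_nonneg _).trans (cx.dev (mem_T3.1 hq).2.2.2)) m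
        have h00 : Del X (good t) dl ≤ 0 := by linarith
        unfold Del at h00
        simp only at this
        linarith
      have ha : ∀ a b c, good t a b c → ang a b c = 1 := by
        intro a b c e
        have := abs_nonpos_iff.1 ((cx.dev e).trans (hz a b c e))
        linarith
      exact hq a b c (h.pos e.1) (t_sep h hS e.1) (t_sep h hS (h.rot e.1))
        (t_sep h hS (h.rot (h.rot e.1))) (ha _ _ _ e) (ha _ _ _ (cx.grot e)) (hz _ _ _ e)
    · have hN0 : N = 0 := by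
        rw [hNdef, Finset.card_eq_zero]; exact Finset.not_nonempty_iff_eq_empty.1 hTe
      refine ⟨fun j => if j = 0 ∨ j = 3 then X.card - 1 else 0, ?_, fun h0 => ?_⟩
      · unfold Sides
        simp only [true_or, or_true, if_true]
        norm_num
        omega
      · exfalso
        obtain ⟨x, hx⟩ := hne
        obtain ⟨p, q, e⟩ := h.cover hx
        have m1 := h.mem e
        have m2 := h.mem (h.rot e)
        have m3 := h.mem (h.rot (h.rot e))
        have hbad : bad t x p q := ⟨e, fun e' => hTe ⟨(x, p, q), mem_T3.2 ⟨m1, m2, m3, e, e'⟩⟩⟩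
        have hap : (T3 X (ap t)).Nonempty := by
          rcases (hB X t h).1 hSat _ _ _ hbad with e' | e' | e'
          · exact ⟨(x, p, q), mem_T3.2 ⟨m1, m2, m3, e'⟩⟩
          · exact ⟨(p, q, x), mem_T3.2 ⟨m2, m3, m1, e'⟩⟩
          · exact ⟨(q, x, p), mem_T3.2 ⟨m3, m1, m2, e'⟩⟩
        have := Finset.sum_pos (SL_term hA h) hap
        have h00 : SL X t ≤ 0 := by linarith
        unfold SL at h00
        linarith

end MP7b

end
end

section

open scoped Classical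
open MeasureTheory Metric Real

noncomputable section
namespace MP7b

def pz (n : ℕ) : ℕ := ⌈√(12 * (n : ℝ) - 3) - 3⌉₊

def ps (n : ℕ) : ℕ := if Groemer n (pz n) then pz n else pz n + 1

def val (n : ℕ) : ℝ := 2 * √3 * ((n : ℝ) - 1) + nu * ps n + π

theorem pz_spec {n : ℕ} (hn : 1 ≤ n) : (pz n + 2) ^ 2 + 3 < 12 * n ∧ 12 * n ≤ (pz n + 3) ^ 2 + 3 := by
  have h0 : (1 : ℝ) ≤ n := by exact_mod_cast hn
  have h1 : (0 : ℝ) ≤ 12 * (n : ℝ) - 3 := by linarith
  have h2 := Real.sq_sqrt h1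
  have h3 : 3 ≤ √(12 * (n : ℝ) - 3) := Real.le_sqrt_of_sq_le (by linarith)
  have h4 : (pz n : ℝ) < √(12 * (n : ℝ) - 3) - 3 + 1 := Nat.ceil_lt_add_one (by linarith)
  have h5 : √(12 * (n : ℝ) - 3) - 3 ≤ pz n := Nat.le_ceil _
  have h6 : (0 : ℝ) ≤ pz n := Nat.cast_nonneg _
  constructor
  · have : ((pz n : ℝ) + 2) ^ 2 + 3 < 12 * n := by nlinarith
    exact_mod_cast this
  · have : 12 * (n : ℝ) ≤ ((pz n : ℝ) + 3) ^ 2 + 3 := by nlinarith
    exact_mod_cast this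

theorem groemer_le {n p : ℕ} (h : Groemer n p) : 12 * n ≤ (p + 3) ^ 2 + 3 := by
  obtain ⟨α, β, c, c', -, -, -, -, h1, h2⟩ := h
  zify at *
  have e : (p : ℤ) = 2 * α + 2 * β - c - c' := by linarith
  nlinarith [sq_nonneg ((α : ℤ) + β - 2 * c - 2 * c'), sq_nonneg ((α : ℤ) - β),
    sq_nonneg ((c : ℤ) - c')]

theorem pz_le {n p : ℕ} (hn : 1 ≤ n) (h : 12 * n ≤ (p + 3) ^ 2 + 3) : pz n ≤ p := by
  have h1 := (pz_spec hn).1
  by_contra h2
  have : (p + 3) ^ 2 ≤ (pz n + 2) ^ 2 := Nat.pow_le_pow_left (by omega) 2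
  omega

theorem ps_le_succ (n : ℕ) : ps n ≤ pz n + 1 := by unfold ps; split_ifs <;> omega

theorem ps_le {n p : ℕ} (hn : 1 ≤ n) (h : Groemer n p) : ps n ≤ p := by
  have h1 := pz_le hn (groemer_le h)
  unfold ps
  split_ifs with h2
  · exact h1
  · rcases h1.lt_or_eq with h3 | h3
    · exact h3
    · exact absurd (h3 ▸ h) h2

theorem groemer_ps (h3 : NT3_st) {n : ℕ} (hn : 1 ≤ n) : Groemer n (ps n) := by
  unfold ps
  split_ifs with h
  · exact h
  · exact (h3 n _ (pz_spec hn).1 (pz_spec hn).2).resolve_left h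

theorem sides_groemer {n b a} (h : Sides n b a) : Groemer n b := by
  obtain ⟨h1, h2, h3, h4⟩ := h
  exact ⟨a 0 + a 5, a 1 + a 2, a 5, a 2, by omega, by omega, by omega, by omega, by omega, h4⟩

theorem ball_hull {X : Finset ℂ} {K : Set ℂ} (hK : Convex ℝ K) (hb : ∀ x ∈ X, closedBall x 1 ⊆ K)
    {p : ℂ} (hp : p ∈ convexHull ℝ (X : Set ℂ)) : closedBall p 1 ⊆ K := by
  intro y hy
  have h1 : convexHull ℝ (X : Set ℂ) ⊆ (fun x => (y - p) + x) ⁻¹' K := by
    refine convexHull_min (fun x hx => hb x hx ?_) (hK.translate_preimage_right _)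
    rw [mem_closedBall, dist_eq_norm] at *
    simpa using hy
  simpa using h1 hp

theorem val_nonneg {n : ℕ} (hn : 1 ≤ n) : 0 ≤ val n := by
  have h0 : (1 : ℝ) ≤ n := by exact_mod_cast hn
  have := nu_pos
  have h1 : 0 ≤ (n : ℝ) - 1 := by linarith
  unfold val
  positivity

theorem main_nc (hc : CORE2_st) (hs : SAT_st) {X : Finset ℂ} (hS : Sep X) (hN : NonCol X)
    {K : Set ℂ} (hK : Convex ℝ K) (hb : ∀ x ∈ X, closedBall x 1 ⊆ K) :
    ENNReal.ofReal (val X.card) ≤ volume K ∧ (volume K ≤ ENNReal.ofReal (val X.card) →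
      ∃ a, Sides X.card (ps X.card) a ∧ Corners X a) := by
  obtain ⟨Y, hXY, hSY, hT, hY⟩ := hs X hS
  have hn : 1 ≤ X.card := by
    obtain ⟨a, ha, -⟩ := hN
    exact Finset.card_pos.2 ⟨a, ha⟩
  have hNY : NonCol Y := by
    obtain ⟨a, ha, b, hb, c, hc, h⟩ := hN
    exact ⟨a, hXY ha, b, hXY hb, c, hXY hc, h⟩
  obtain ⟨b, Δ, h0, hv, h1, h2, h3⟩ :=
    hc Y hSY hT hNY K hK fun y hy => ball_hull hK hb (hY hy)
  have hm := Finset.card_le_card hXY
  have hj := h1 ((b : ℤ) + 3 + (⌊Δ⌋₊ : ℕ)) (by push_cast; linarith [Nat.lt_floor_add_one Δ])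
  have hj1 : pz X.card ≤ b + ⌊Δ⌋₊ := by
    refine pz_le hn ?_
    zify at *
    nlinarith
  have hj2 : (pz X.card : ℝ) ≤ b + ⌊Δ⌋₊ := by exact_mod_cast hj1
  have hj3 : (⌊Δ⌋₊ : ℝ) ≤ Δ := Nat.floor_le h0
  have hp : (ps X.card : ℝ) ≤ pz X.card + 1 := by exact_mod_cast ps_le_succ X.card
  have hnu := nu_pos
  have hs3 := sqrt3_bounds
  have key : ∀ (h : val X.card <
      2 * √3 * ((Y.card : ℝ) - 1) + nu * b + 2 * nu * Δ + π),
      ENNReal.ofReal (val X.card) ≤ volume K ∧ (volume K ≤ ENNReal.ofReal (val X.card) →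
      ∃ a, Sides X.card (ps X.card) a ∧ Corners X a) := fun h =>
    ⟨(ENNReal.ofReal_le_ofReal h.le).trans hv, fun h' => absurd
      ((ENNReal.ofReal_le_ofReal_iff (val_nonneg hn)).1 (hv.trans h')) (not_le.2 h)⟩
  rcases hm.lt_or_eq with hm | hm
  · refine key ?_
    have : (X.card : ℝ) + 1 ≤ Y.card := by exact_mod_cast hm
    have h5 : nu * ps X.card ≤ nu * (b + 2 * Δ + 1) := mul_le_mul_of_nonneg_left (by linarith) hnu.le
    have h6 : nu < 1 := by unfold nu; linarith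
    unfold val
    nlinarith
  · have hYX : X = Y := Finset.eq_of_subset_of_card_le hXY hm.ge
    subst hYX
    have key2 : (ps X.card : ℝ) < b + 2 * Δ → val X.card <
        2 * √3 * ((X.card : ℝ) - 1) + nu * b + 2 * nu * Δ + π := fun h => by
      have := mul_lt_mul_of_pos_left h hnu
      unfold val
      linarith
    by_cases c1 : Δ ≤ 1 / 2
    · obtain ⟨a, ha, ha'⟩ := h3 c1
      have h5 := ps_le hn (sides_groemer ha)
      have h6 : (ps X.card : ℝ) ≤ b := by exact_mod_cast h5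
      by_cases c2 : (ps X.card : ℝ) < b + 2 * Δ
      · exact key (key2 c2)
      · have h7 : (b : ℝ) ≤ ps X.card := by linarith
        have h8 : b = ps X.card := le_antisymm (by exact_mod_cast h7) h5
        refine ⟨le_trans (ENNReal.ofReal_le_ofReal ?_) hv, fun _ => ⟨a, h8 ▸ ha, ha' (by linarith)⟩⟩
        have := mul_le_mul_of_nonneg_left h6 hnu.le
        have := mul_nonneg hnu.le h0
        unfold val
        linarith
    · by_cases c2 : Δ ≤ 1
      · have h5 : pz X.card ≤ b := by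
          refine pz_le hn ?_
          have := h2 c2
          zify at *
          linarith
        have h6 : (pz X.card : ℝ) ≤ b := by exact_mod_cast h5
        exact key (key2 (by linarith))
      · exact key (key2 (by linarith))

theorem om_cube : om ^ 3 = -1 := by
  have h : √3 * √3 = 3 := Real.mul_self_sqrt (by norm_num)
  apply Complex.ext
  · simp [om, pow_succ]; nlinarith
  · simp [om, pow_succ]; linear_combination (-√3 / 8) * h

theorem main_col (hl : LIN_st) (hG : GST_st) {X : Finset ℂ} (hne : X.Nonempty) (hS : Sep X)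
    (hN : ¬ NonCol X) {K : Set ℂ} (hK : Convex ℝ K) (hb : ∀ x ∈ X, closedBall x 1 ⊆ K) :
    ENNReal.ofReal (val X.card) ≤ volume K ∧ (volume K ≤ ENNReal.ofReal (val X.card) →
      ∃ a, Sides X.card (ps X.card) a ∧ Corners X a) := by
  have hn : 1 ≤ X.card := Finset.card_pos.2 hne
  have hv := hl X hne hS hN K hK hb
  obtain ⟨m, hm⟩ : ∃ m, X.card = m + 1 := ⟨X.card - 1, by omega⟩
  have h1 : ps X.card ≤ 2 * m := ps_le hn ⟨m, 0, 0, 0, by omega, by omega, by omega, by omega,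
    by omega, by omega⟩
  have h2 : (ps X.card : ℝ) ≤ 2 * m := by exact_mod_cast h1
  have h3 : (X.card : ℝ) - 1 = m := by rw [hm]; push_cast; ring
  have hnu := nu_pos
  refine ⟨le_trans (ENNReal.ofReal_le_ofReal ?_) hv, fun h => ?_⟩
  · have := mul_le_mul_of_nonneg_left h2 hnu.le
    unfold val
    rw [h3]
    unfold nu at *
    linarith
  have h4 := (ENNReal.ofReal_le_ofReal_iff (val_nonneg hn)).1 (hv.trans h)
  have h5 : 2 * m ≤ ps X.card := by
    have : (2 * m : ℝ) ≤ ps X.card := by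
      refine le_of_mul_le_mul_left ?_ hnu
      unfold val at h4
      rw [h3] at h4
      unfold nu at *
      linarith
    exact_mod_cast this
  have h6 := ps_le_succ X.card
  have h7 := (pz_spec hn).1
  have h8 : m ≤ 2 := by
    by_contra h8
    have : (2 * m + 1) ^ 2 ≤ (pz X.card + 2) ^ 2 := Nat.pow_le_pow_left (by omega) 2
    nlinarith
  have h9 : ps X.card = 2 * m := le_antisymm h1 h5
  interval_cases m
  · obtain ⟨x, hx⟩ := hne
    refine ⟨fun _ => 0, ?_, 1, fun _ => x, by simp, fun _ => hx, fun j _ => by simp⟩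
    unfold Sides
    rw [h9, hm]
    norm_num
  · obtain ⟨p, q, hpq, rfl⟩ := Finset.card_eq_two.1 hm
    have hp : p ∈ ({p, q} : Finset ℂ) := by simp
    have hq : q ∈ ({p, q} : Finset ℂ) := by simp
    have hd := hS p hp q hq hpq
    have hmid : ∀ p q : ℂ, p ≠ q → ∀ x, x = p ∨ x = q → ∀ s : ℝ, 0 < s → s < 1 →
        x ≠ p + s * (q - p) := by
      intro p q hpq x hx s s0 s1 e
      have hqp : q - p ≠ 0 := sub_ne_zero.2 hpq.symm
      rcases hx with rfl | rfl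
      · have : (s : ℂ) * (q - x) = 0 := by linear_combination -e
        rcases mul_eq_zero.1 this with h | h
        · exact s0.ne' (by exact_mod_cast h)
        · exact hqp h
      · have : ((s : ℂ) - 1) * (x - p) = 0 := by linear_combination -e
        rcases mul_eq_zero.1 this with h | h
        · exact s1.ne (by exact_mod_cast sub_eq_zero.1 h)
        · exact hqp h
    have hg := hG {p, q} {(p, q), (q, p)} K hne hK hb (by
      intro r hr
      simp only [Finset.mem_insert, Finset.mem_singleton] at hr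
      rcases hr with rfl | rfl
      · refine ⟨hp, hq, hpq, fun x hx => ?_, fun x hx => hmid p q hpq x (by simpa using hx)⟩
        simp only [Finset.mem_insert, Finset.mem_singleton] at hx
        rcases hx with rfl | rfl <;> simp [D, mul_comm]
      · refine ⟨hq, hp, hpq.symm, fun x hx => ?_,
          fun x hx => hmid q p hpq.symm x (by simpa [or_comm] using hx)⟩
        simp only [Finset.mem_insert, Finset.mem_singleton] at hx
        rcases hx with rfl | rfl <;> simp [D, mul_comm])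
    have hg2 := (ENNReal.ofReal_le_ofReal_iff (val_nonneg hn)).1 ((le_add_self.trans hg).trans h)
    rw [Finset.sum_pair (by simp [hpq])] at hg2
    unfold val at hg2
    rw [h3, h9] at hg2
    have hd2 : dist p q = 2 := by
      simp only [dist_comm q p] at hg2
      unfold nu at hg2
      push_cast at hg2
      linarith
    refine ⟨fun j => if j = 0 ∨ j = 3 then 1 else 0, ?_, (q - p) / 2,
      fun j => if j = 0 ∨ 4 ≤ j then p else q, ?_, fun j => ?_, fun j hj => ?_⟩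
    · unfold Sides
      rw [h9, hm]
      norm_num
    · rw [norm_div, ← dist_eq_norm, dist_comm, hd2]; simp
    · beta_reduce
      split_ifs <;> assumption
    · interval_cases j <;> simp [om_cube] <;> ring
  · have : ps X.card ≤ 3 := ps_le hn (by
      rw [hm]; exact ⟨1, 1, 0, 1, by omega, by omega, by omega, by omega, by omega, by omega⟩)
    omega

end MP7b

end
end

section

open scoped Classical
open MeasureTheory Metric Real

noncomputable section
namespace MP7b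

theorem nu_Acg : 0 < nu ∧ nu < 3 / 10 := by
  have h1 : √3 < 2 := by rw [Real.sqrt_lt' two_pos]; norm_num
  have h2 : 17 / 10 < √3 := by rw [Real.lt_sqrt (by norm_num)]; norm_num
  unfold nu
  constructor <;> linarith

theorem cap_nonneg_Acg (a b : ℂ) : 0 ≤ cap a b :=
  mul_nonneg (half_pos nu_Acg.1).le (le_min (le_max_right _ _) (by norm_num))

theorem cap_symm_Acg (a b : ℂ) : cap b a = cap a b := by unfold cap; rw [dist_comm]

theorem cap_le_Acg {a b : ℂ} (h : 2 ≤ dist a b) : cap a b ≤ dist a b - 2 := by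
  unfold cap
  by_cases h8 : dist a b ^ 2 ≤ 8
  · rw [max_eq_right (by linarith), min_eq_left (by norm_num)]; linarith
  · have h1 : 14 / 5 ≤ dist a b := by
      by_contra hc
      nlinarith [not_le.1 hc]
    have h2 := mul_le_mul_of_nonneg_left (min_le_right (max (dist a b ^ 2 - 8) 0) 4)
      (half_pos nu_Acg.1).le
    linarith [nu_Acg.2]

theorem sg_le_Acg (c a b : ℂ) : sg c a b ≤ 1 := by unfold sg; split_ifs <;> norm_num

theorem good_rot_Acg {X : Finset ℂ} {t : ℂ → ℂ → ℂ → Prop} (hT : Tri X t) {a b c : ℂ}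
    (h : good t a b c) : good t b c a := by
  refine ⟨hT.rot h.1, ?_⟩
  have : D b c a = D a b c := by unfold D; ring
  rw [this]
  linarith [h.2, show dist b c * dist c a * dist a b = dist a b * dist b c * dist c a by ring]

theorem mem_T3_Acg {X : Finset ℂ} {t : ℂ → ℂ → ℂ → Prop} (hT : Tri X t) {q : ℂ × ℂ × ℂ} :
    q ∈ T3 X (good t) ↔ good t q.1 q.2.1 q.2.2 := by
  simp only [T3, Finset.mem_filter, Finset.mem_product, and_iff_right_iff_imp]
  exact fun h => ⟨hT.mem h.1, hT.mem (hT.rot h.1), hT.mem (hT.rot (hT.rot h.1))⟩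

theorem ne_Acg {X : Finset ℂ} {t : ℂ → ℂ → ℂ → Prop} (hT : Tri X t) {a b : ℂ} (h : E t a b) :
    a ≠ b := by
  rintro rfl
  rcases h with ⟨c, h⟩ | ⟨c, h⟩ <;> simpa [D] using hT.pos h

theorem rot_sum_Acg {X : Finset ℂ} {t : ℂ → ℂ → ℂ → Prop} (hT : Tri X t) (f : ℂ → ℂ → ℂ → ℝ) :
    ∑ q ∈ T3 X (good t), f q.2.1 q.2.2 q.1 = ∑ q ∈ T3 X (good t), f q.1 q.2.1 q.2.2 :=
  Finset.sum_nbij' (fun q => (q.2.1, q.2.2, q.1)) (fun q => (q.2.2, q.1, q.2.1))
    (fun _ h => (mem_T3_Acg hT).2 (good_rot_Acg hT ((mem_T3_Acg hT).1 h)))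
    (fun _ h => (mem_T3_Acg hT).2 (good_rot_Acg hT (good_rot_Acg hT ((mem_T3_Acg hT).1 h))))
    (fun _ _ => rfl) (fun _ _ => rfl) (fun _ _ => rfl)

theorem acg (hB : BAD_st) : ACg_st := by
  intro X t hT hS he
  set f : ℂ → ℂ → ℂ → ℝ := fun a b c => sg c a b * cap a b with hf
  have h1 : 2 * nu * Del X (good t) dl = (∑ q ∈ T3 X (good t), D q.1 q.2.1 q.2.2) / 6 -
      √3 * ((T3 X (good t)).card : ℝ) / 3 + ∑ q ∈ T3 X (good t), f q.1 q.2.1 q.2.2 := by
    have r1 := rot_sum_Acg hT f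
    have r2 := rot_sum_Acg hT fun a b c => f b c a
    have e : ∀ q : ℂ × ℂ × ℂ, 2 * nu * dl q.1 q.2.1 q.2.2 = D q.1 q.2.1 q.2.2 / 2 - √3 +
        f q.1 q.2.1 q.2.2 + f q.2.1 q.2.2 q.1 + f q.2.2 q.1 q.2.1 := fun q => by
      have := nu_Acg.1.ne'
      simp only [dl, hf]
      field_simp
    rw [Del, ← mul_div_assoc, Finset.mul_sum]
    simp only [e, Finset.sum_add_distrib, Finset.sum_sub_distrib, Finset.sum_const, nsmul_eq_mul,
      ← Finset.sum_div]
    rw [r2, r1]; ring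
  have h2 : ∑ q ∈ (T3 X (good t)).filter (fun q => ∃ d, good t q.2.1 q.1 d),
      f q.1 q.2.1 q.2.2 ≤ 0 := by
    have hd : ∀ a b : ℂ, ∃ d, (∃ d, good t b a d) → good t b a d := fun a b => by
      by_cases h : ∃ d, good t b a d
      · obtain ⟨d, hd⟩ := h
        exact ⟨d, fun _ => hd⟩
      · exact ⟨0, fun h' => absurd h' h⟩
    choose d hd using hd
    have hm : ∀ q ∈ (T3 X (good t)).filter (fun q => ∃ d, good t q.2.1 q.1 d),
        (q.2.1, q.1, d q.1 q.2.1) ∈ (T3 X (good t)).filter (fun q => ∃ d, good t q.2.1 q.1 d) :=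
      fun q hq => by
        rw [Finset.mem_filter, mem_T3_Acg hT] at hq ⊢
        exact ⟨hd _ _ hq.2, _, hq.1⟩
    have hi : ∀ q ∈ (T3 X (good t)).filter (fun q => ∃ d, good t q.2.1 q.1 d),
        (q.1, q.2.1, d q.2.1 q.1) = q := fun q hq => by
      rw [Finset.mem_filter, mem_T3_Acg hT] at hq
      rw [hT.uniq (hd _ _ ⟨_, hq.1⟩).1 hq.1.1]
    have h3 : ∑ q ∈ (T3 X (good t)).filter (fun q => ∃ d, good t q.2.1 q.1 d),
        f q.2.1 q.1 (d q.1 q.2.1) =
        ∑ q ∈ (T3 X (good t)).filter (fun q => ∃ d, good t q.2.1 q.1 d), f q.1 q.2.1 q.2.2 :=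
      Finset.sum_nbij' (fun q => (q.2.1, q.1, d q.1 q.2.1)) (fun q => (q.2.1, q.1, d q.1 q.2.1))
        hm hm hi hi (fun _ _ => rfl)
    have h4 : ∑ q ∈ (T3 X (good t)).filter (fun q => ∃ d, good t q.2.1 q.1 d),
        (f q.1 q.2.1 q.2.2 + f q.2.1 q.1 (d q.1 q.2.1)) ≤ 0 := by
      refine Finset.sum_nonpos fun q hq => ?_
      rw [Finset.mem_filter, mem_T3_Acg hT] at hq
      simp only [hf]
      rw [cap_symm_Acg q.1, ← add_mul]
      refine mul_nonpos_of_nonpos_of_nonneg ?_ (cap_nonneg_Acg _ _)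
      by_cases h : Ip q.2.2 q.1 q.2.1 < 0
      · have := (hB X t hT).2.2 _ _ _ _ hq.1.1 (hd _ _ hq.2).1 h
        rw [sg, sg, if_pos h, if_neg (not_lt.2 this.le)]; norm_num
      · have := sg_le_Acg (d q.1 q.2.1) q.2.1 q.1
        rw [sg, if_neg h]; linarith
    rw [Finset.sum_add_distrib, h3] at h4
    linarith
  have h5 : ∑ q ∈ (T3 X (good t)).filter (fun q => ¬ ∃ d, good t q.2.1 q.1 d),
      f q.1 q.2.1 q.2.2 ≤ ∑ q ∈ D2 X (bd (e0 t) (good t)), (dist q.1 q.2 - 2) := by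
    have hn : ∀ q ∈ D2 X (bd (e0 t) (good t)), 2 ≤ dist q.1 q.2 := fun q hq => by
      simp only [D2, Finset.mem_filter, Finset.mem_product] at hq
      exact hS _ hq.1.1 _ hq.1.2 (ne_Acg hT hq.2.1.1)
    have hm : ∀ q ∈ (T3 X (good t)).filter (fun q => ¬ ∃ d, good t q.2.1 q.1 d),
        (q.2.1, q.1) ∈ D2 X (bd (e0 t) (good t)) := fun q hq => by
      rw [Finset.mem_filter, mem_T3_Acg hT] at hq
      have := he _ _ _ hq.1
      simp only [D2, Finset.mem_filter, Finset.mem_product]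
      exact ⟨⟨hT.mem (hT.rot hq.1.1), hT.mem hq.1.1⟩, ⟨this.1.symm, this.2.2, this.2.1⟩, hq.2⟩
    calc _ ≤ ∑ q ∈ (T3 X (good t)).filter (fun q => ¬ ∃ d, good t q.2.1 q.1 d),
          (dist q.2.1 q.1 - 2) := by
          refine Finset.sum_le_sum fun q hq => ?_
          refine le_trans ?_ (cap_le_Acg (hn _ (hm q hq)))
          rw [cap_symm_Acg q.1]
          exact mul_le_of_le_one_left (cap_nonneg_Acg _ _) (sg_le_Acg _ _ _)
      _ = ∑ q ∈ ((T3 X (good t)).filter (fun q => ¬ ∃ d, good t q.2.1 q.1 d)).image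
            (fun q => (q.2.1, q.1)), (dist q.1 q.2 - 2) := by
          rw [Finset.sum_image]
          rintro ⟨a, b, c⟩ hq ⟨a', b', c'⟩ hq' h
          simp only [Prod.mk.injEq] at h
          obtain ⟨rfl, rfl⟩ := h
          rw [Finset.mem_coe, Finset.mem_filter, mem_T3_Acg hT] at hq hq'
          rw [show c = c' from hT.uniq hq.1.1 hq'.1.1]
      _ ≤ _ := Finset.sum_le_sum_of_subset_of_nonneg
            (Finset.image_subset_iff.2 hm) fun q hq _ => sub_nonneg.2 (hn q hq)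
  have h6 := Finset.sum_filter_add_sum_filter_not (T3 X (good t))
    (fun q => ∃ d, good t q.2.1 q.1 d) fun q => f q.1 q.2.1 q.2.2
  rw [Finset.sum_sub_distrib, Finset.sum_const, nsmul_eq_mul] at h5
  linarith

end MP7b

end
end

section

open scoped Classical
open MeasureTheory Metric Real

noncomputable section
namespace MP7b

theorem acg2 (hB : BAD_st) : ACg2_st := by
  intro X t hT _ he
  set f : ℂ → ℂ → ℂ → ℝ := fun a b c => sg c a b * cap a b with hf
  have h1 : 2 * nu * Del X (good t) dl = (∑ q ∈ T3 X (good t), D q.1 q.2.1 q.2.2) / 6 -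
      √3 * ((T3 X (good t)).card : ℝ) / 3 + ∑ q ∈ T3 X (good t), f q.1 q.2.1 q.2.2 := by
    have r1 := rot_sum_Acg hT f
    have r2 := rot_sum_Acg hT fun a b c => f b c a
    have e : ∀ q : ℂ × ℂ × ℂ, 2 * nu * dl q.1 q.2.1 q.2.2 = D q.1 q.2.1 q.2.2 / 2 - √3 +
        f q.1 q.2.1 q.2.2 + f q.2.1 q.2.2 q.1 + f q.2.2 q.1 q.2.1 := fun q => by
      have := nu_Acg.1.ne'
      simp only [dl, hf]
      field_simp
    rw [Del, ← mul_div_assoc, Finset.mul_sum]
    simp only [e, Finset.sum_add_distrib, Finset.sum_sub_distrib, Finset.sum_const, nsmul_eq_mul,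
      ← Finset.sum_div]
    rw [r2, r1]; ring
  have h2 : ∑ q ∈ (T3 X (good t)).filter (fun q => ∃ d, good t q.2.1 q.1 d),
      f q.1 q.2.1 q.2.2 ≤ 0 := by
    have hd : ∀ a b : ℂ, ∃ d, (∃ d, good t b a d) → good t b a d := fun a b => by
      by_cases h : ∃ d, good t b a d
      · obtain ⟨d, hd⟩ := h
        exact ⟨d, fun _ => hd⟩
      · exact ⟨0, fun h' => absurd h' h⟩
    choose d hd using hd
    have hm : ∀ q ∈ (T3 X (good t)).filter (fun q => ∃ d, good t q.2.1 q.1 d),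
        (q.2.1, q.1, d q.1 q.2.1) ∈ (T3 X (good t)).filter (fun q => ∃ d, good t q.2.1 q.1 d) :=
      fun q hq => by
        rw [Finset.mem_filter, mem_T3_Acg hT] at hq ⊢
        exact ⟨hd _ _ hq.2, _, hq.1⟩
    have hi : ∀ q ∈ (T3 X (good t)).filter (fun q => ∃ d, good t q.2.1 q.1 d),
        (q.1, q.2.1, d q.2.1 q.1) = q := fun q hq => by
      rw [Finset.mem_filter, mem_T3_Acg hT] at hq
      rw [hT.uniq (hd _ _ ⟨_, hq.1⟩).1 hq.1.1]
    have h3 : ∑ q ∈ (T3 X (good t)).filter (fun q => ∃ d, good t q.2.1 q.1 d),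
        f q.2.1 q.1 (d q.1 q.2.1) =
        ∑ q ∈ (T3 X (good t)).filter (fun q => ∃ d, good t q.2.1 q.1 d), f q.1 q.2.1 q.2.2 :=
      Finset.sum_nbij' (fun q => (q.2.1, q.1, d q.1 q.2.1)) (fun q => (q.2.1, q.1, d q.1 q.2.1))
        hm hm hi hi (fun _ _ => rfl)
    have h4 : ∑ q ∈ (T3 X (good t)).filter (fun q => ∃ d, good t q.2.1 q.1 d),
        (f q.1 q.2.1 q.2.2 + f q.2.1 q.1 (d q.1 q.2.1)) ≤ 0 := by
      refine Finset.sum_nonpos fun q hq => ?_
      rw [Finset.mem_filter, mem_T3_Acg hT] at hq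
      simp only [hf]
      rw [cap_symm_Acg q.1, ← add_mul]
      refine mul_nonpos_of_nonpos_of_nonneg ?_ (cap_nonneg_Acg _ _)
      by_cases h : Ip q.2.2 q.1 q.2.1 < 0
      · have := (hB X t hT).2.2 _ _ _ _ hq.1.1 (hd _ _ hq.2).1 h
        rw [sg, sg, if_pos h, if_neg (not_lt.2 this.le)]; norm_num
      · have := sg_le_Acg (d q.1 q.2.1) q.2.1 q.1
        rw [sg, if_neg h]; linarith
    rw [Finset.sum_add_distrib, h3] at h4
    linarith
  have h5 : ∑ q ∈ (T3 X (good t)).filter (fun q => ¬ ∃ d, good t q.2.1 q.1 d),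
      f q.1 q.2.1 q.2.2 ≤ ∑ q ∈ D2 X (bd (e0 t) (good t)), cap q.1 q.2 := by
    have hm : ∀ q ∈ (T3 X (good t)).filter (fun q => ¬ ∃ d, good t q.2.1 q.1 d),
        (q.2.1, q.1) ∈ D2 X (bd (e0 t) (good t)) := fun q hq => by
      rw [Finset.mem_filter, mem_T3_Acg hT] at hq
      have := he _ _ _ hq.1
      simp only [D2, Finset.mem_filter, Finset.mem_product]
      exact ⟨⟨hT.mem (hT.rot hq.1.1), hT.mem hq.1.1⟩, ⟨this.1.symm, this.2.2, this.2.1⟩, hq.2⟩
    calc _ ≤ ∑ q ∈ (T3 X (good t)).filter (fun q => ¬ ∃ d, good t q.2.1 q.1 d),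
          cap q.2.1 q.1 := by
          refine Finset.sum_le_sum fun q _ => ?_
          rw [cap_symm_Acg q.1]
          exact mul_le_of_le_one_left (cap_nonneg_Acg _ _) (sg_le_Acg _ _ _)
      _ = ∑ q ∈ ((T3 X (good t)).filter (fun q => ¬ ∃ d, good t q.2.1 q.1 d)).image
            (fun q => (q.2.1, q.1)), cap q.1 q.2 := by
          rw [Finset.sum_image]
          rintro ⟨a, b, c⟩ hq ⟨a', b', c'⟩ hq' h
          simp only [Prod.mk.injEq] at h
          obtain ⟨rfl, rfl⟩ := h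
          rw [Finset.mem_coe, Finset.mem_filter, mem_T3_Acg hT] at hq hq'
          rw [show c = c' from hT.uniq hq.1.1 hq'.1.1]
      _ ≤ _ := Finset.sum_le_sum_of_subset_of_nonneg
            (Finset.image_subset_iff.2 hm) fun q _ _ => cap_nonneg_Acg _ _
  have h6 := Finset.sum_filter_add_sum_filter_not (T3 X (good t))
    (fun q => ∃ d, good t q.2.1 q.1 d) fun q => f q.1 q.2.1 q.2.2
  rw [BS, Finset.sum_sub_distrib, Finset.sum_sub_distrib, Finset.sum_const, nsmul_eq_mul]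
  linarith

end MP7b

end
end

section

open scoped Classical
open MeasureTheory Metric Real

noncomputable section
namespace MP7b

open Finset

theorem mem3_Peb {V : Finset ℂ} {g : ℂ → ℂ → ℂ → Prop} {q : ℂ × ℂ × ℂ} :
    q ∈ T3 V g ↔ (q.1 ∈ V ∧ q.2.1 ∈ V ∧ q.2.2 ∈ V) ∧ g q.1 q.2.1 q.2.2 := by
  simp [T3]

theorem mem2_Peb {V : Finset ℂ} {R : ℂ → ℂ → Prop} {q : ℂ × ℂ} :
    q ∈ D2 V R ↔ (q.1 ∈ V ∧ q.2 ∈ V) ∧ R q.1 q.2 := by
  simp [D2]

theorem rot_Peb {V : Finset ℂ} {g : ℂ → ℂ → ℂ → Prop} (h : ∀ {a b c}, g a b c → g b c a)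
    (F : ℂ → ℂ → ℂ → ℝ) :
    ∑ q ∈ T3 V g, F q.2.1 q.2.2 q.1 = ∑ q ∈ T3 V g, F q.1 q.2.1 q.2.2 :=
  sum_nbij' (fun q => (q.2.1, q.2.2, q.1)) (fun q => (q.2.2, q.1, q.2.1))
    (fun _ hq => mem3_Peb.2 ⟨⟨(mem3_Peb.1 hq).1.2.1, (mem3_Peb.1 hq).1.2.2, (mem3_Peb.1 hq).1.1⟩,
      h (mem3_Peb.1 hq).2⟩)
    (fun _ hq => mem3_Peb.2 ⟨⟨(mem3_Peb.1 hq).1.2.2, (mem3_Peb.1 hq).1.1, (mem3_Peb.1 hq).1.2.1⟩,
      h (h (mem3_Peb.1 hq).2)⟩) (fun _ _ => rfl) (fun _ _ => rfl) fun _ _ => rfl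

theorem peb (hA : ANG_st) (h2 : AN2_st) : PEb_st := by
  intro X t R g δ C V hV
  have hU : inn t V g ⊆ V := filter_subset _ _
  have s1 : ∀ u ∈ inn t V g, ∑ q ∈ D2 V (g u), ang u q.1 q.2 = 6 := by
    intro u hu
    have hi := (mem_filter.1 hu).2
    rw [← h2 X t C.tri u (hV (hU hu)) fun a ha => (hi a ha).imp fun b hb => C.gt hb.2.2.2]
    refine sum_congr (Finset.ext fun q => ?_) fun _ _ => rfl
    rw [mem2_Peb, mem2_Peb]
    refine ⟨fun h => ⟨⟨hV h.1.1, hV h.1.2⟩, C.gt h.2⟩, fun h => ?_⟩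
    obtain ⟨b, -, b1, b2, b3⟩ := hi q.1 (Or.inl ⟨_, h.2⟩)
    obtain rfl := C.tri.uniq (C.gt b3) h.2
    exact ⟨⟨b1, b2⟩, b3⟩
  generalize inn t V g = U at *
  have s2 : ∑ q ∈ T3 V g, (if q.1 ∈ U then ang q.1 q.2.1 q.2.2 else 0) = 6 * (U.card : ℝ) := by
    rw [T3, sum_filter, sum_product, ← sum_subset hU fun x _ hx => by simp [hx], mul_comm,
      ← nsmul_eq_mul, ← sum_const]
    refine sum_congr rfl fun u hu => ?_
    rw [← s1 u hu, D2, sum_filter]
    simp [hu]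
  have s3 : ∑ q ∈ T3 V g, (if q.1 ∈ U ∧ q.2.1 ∈ U then (1 : ℝ) else 0) ≤ (D2 U R).card := by
    rw [sum_boole, Nat.cast_le]
    refine card_le_card_of_injOn (fun q => (q.1, q.2.1)) (fun q hq => ?_) ?_
    · have := mem_filter.1 (mem_coe.1 hq)
      exact mem_coe.2 (mem2_Peb.2 ⟨this.2, C.gR (mem3_Peb.1 this.1).2⟩)
    · rintro ⟨a, b, c⟩ hq ⟨a', b', c'⟩ hq' e
      obtain ⟨rfl, rfl⟩ := Prod.mk.inj e
      obtain rfl : c = c' := C.tri.uniq (C.gt (mem3_Peb.1 (mem_filter.1 (mem_coe.1 hq)).1).2)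
        (C.gt (mem3_Peb.1 (mem_filter.1 (mem_coe.1 hq')).1).2)
      rfl
  have s4 : ∑ q ∈ T3 V g, (if q.1 ∈ U ∧ q.2.1 ∈ U ∧ q.2.2 ∈ U then 1 + δ q.1 q.2.1 q.2.2 else 0) =
      ∑ q ∈ T3 U g, (1 + δ q.1 q.2.1 q.2.2) := by
    rw [← sum_filter]
    refine sum_congr (Finset.ext fun q => ?_) fun _ _ => rfl
    rw [mem_filter, mem3_Peb, mem3_Peb]
    exact ⟨fun h => ⟨h.2, h.1.2⟩, fun h => ⟨⟨⟨hU h.1.1, hU h.1.2.1, hU h.1.2.2⟩, h.2⟩, h.1⟩⟩
  have r1 := rot_Peb (V := V) (g := g) C.grot fun a b c => if a ∈ U then ang a b c else 0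
  have r2 := rot_Peb (V := V) (g := g) C.grot fun a b c => if b ∈ U then ang b c a else 0
  have r3 := rot_Peb (V := V) (g := g) C.grot fun a b _ => if a ∈ U ∧ b ∈ U then (1 : ℝ) else 0
  have r4 := rot_Peb (V := V) (g := g) C.grot fun _ b c => if b ∈ U ∧ c ∈ U then (1 : ℝ) else 0
  have key : ∑ q ∈ T3 V g, ((if q.1 ∈ U then ang q.1 q.2.1 q.2.2 else 0) +
      (if q.2.1 ∈ U then ang q.2.1 q.2.2 q.1 else 0) +
      (if q.2.2 ∈ U then ang q.2.2 q.1 q.2.1 else 0) +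
      (if q.1 ∈ U ∧ q.2.1 ∈ U ∧ q.2.2 ∈ U then 1 + δ q.1 q.2.1 q.2.2 else 0)) ≤
      ∑ q ∈ T3 V g, ((if q.1 ∈ U ∧ q.2.1 ∈ U then (1 : ℝ) else 0) +
      (if q.2.1 ∈ U ∧ q.2.2 ∈ U then (1 : ℝ) else 0) +
      (if q.2.2 ∈ U ∧ q.1 ∈ U then (1 : ℝ) else 0) + (1 + δ q.1 q.2.1 q.2.2)) := by
    refine sum_le_sum fun ⟨a, b, c⟩ hq => ?_
    have g1 : g a b c := (mem3_Peb.1 hq).2
    have a0 := (hA a b c (C.tri.pos (C.gt g1))).2.2.1
    have a1 := abs_le.1 (C.dev g1)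
    have a2 := abs_le.1 (C.dev (C.grot g1))
    have a3 := abs_le.1 (C.dev (C.grot (C.grot g1)))
    rw [C.drot (C.grot g1), C.drot g1] at a3
    rw [C.drot g1] at a2
    by_cases ha : a ∈ U <;> by_cases hb : b ∈ U <;> by_cases hc : c ∈ U <;>
      simp only [ha, hb, hc, and_self, and_true, and_false, if_true, if_false] <;>
      linarith [a1.1, a1.2, a2.1, a2.2, a3.1, a3.2]
  simp only [sum_add_distrib, sum_const, nsmul_eq_mul, mul_one] at key s4
  unfold Del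
  linarith

end MP7b

end
end

section

open scoped Classical
open MeasureTheory Metric Real

noncomputable section
namespace MP7b

open Finset

theorem peb2 (hA : ANG_st) (h2 : AN2_st) : PEb2_st := by
  intro X t R g δ C V hV
  have hU : inn t V g ⊆ V := filter_subset _ _
  have s1 : ∀ u ∈ inn t V g, ∑ q ∈ D2 V (g u), ang u q.1 q.2 = 6 := by
    intro u hu
    have hi := (mem_filter.1 hu).2
    rw [← h2 X t C.tri u (hV (hU hu)) fun a ha => (hi a ha).imp fun b hb => C.gt hb.2.2.2]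
    refine sum_congr (Finset.ext fun q => ?_) fun _ _ => rfl
    rw [mem2_Peb, mem2_Peb]
    refine ⟨fun h => ⟨⟨hV h.1.1, hV h.1.2⟩, C.gt h.2⟩, fun h => ?_⟩
    obtain ⟨b, -, b1, b2, b3⟩ := hi q.1 (Or.inl ⟨_, h.2⟩)
    obtain rfl := C.tri.uniq (C.gt b3) h.2
    exact ⟨⟨b1, b2⟩, b3⟩
  generalize inn t V g = U at *
  have s2 : ∑ q ∈ T3 V g, (if q.1 ∈ U then ang q.1 q.2.1 q.2.2 else 0) = 6 * (U.card : ℝ) := by
    rw [T3, sum_filter, sum_product, ← sum_subset hU fun x _ hx => by simp [hx], mul_comm,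
      ← nsmul_eq_mul, ← sum_const]
    refine sum_congr rfl fun u hu => ?_
    rw [← s1 u hu, D2, sum_filter]
    simp [hu]
  have s3 : ∑ q ∈ T3 V g, (if q.1 ∈ U ∧ q.2.1 ∈ U then (1 : ℝ) else 0) ≤ (D2 U R).card := by
    rw [sum_boole, Nat.cast_le]
    refine card_le_card_of_injOn (fun q => (q.1, q.2.1)) (fun q hq => ?_) ?_
    · have := mem_filter.1 (mem_coe.1 hq)
      exact mem_coe.2 (mem2_Peb.2 ⟨this.2, C.gR (mem3_Peb.1 this.1).2⟩)
    · rintro ⟨a, b, c⟩ hq ⟨a', b', c'⟩ hq' e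
      obtain ⟨rfl, rfl⟩ := Prod.mk.inj e
      obtain rfl : c = c' := C.tri.uniq (C.gt (mem3_Peb.1 (mem_filter.1 (mem_coe.1 hq)).1).2)
        (C.gt (mem3_Peb.1 (mem_filter.1 (mem_coe.1 hq')).1).2)
      rfl
  have s4 : ∑ q ∈ T3 V g, (if q.1 ∈ U ∧ q.2.1 ∈ U ∧ q.2.2 ∈ U then 1 + δ q.1 q.2.1 q.2.2 else 0) =
      ∑ q ∈ T3 U g, (1 + δ q.1 q.2.1 q.2.2) := by
    rw [← sum_filter]
    refine sum_congr (Finset.ext fun q => ?_) fun _ _ => rfl
    rw [mem_filter, mem3_Peb, mem3_Peb]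
    exact ⟨fun h => ⟨h.2, h.1.2⟩, fun h => ⟨⟨⟨hU h.1.1, hU h.1.2.1, hU h.1.2.2⟩, h.2⟩, h.1⟩⟩
  have s5 : ∑ q ∈ T3 V g, (if q.1 ∉ U ∧ q.2.1 ∉ U ∧ q.2.2 ∉ U then δ q.1 q.2.1 q.2.2 else 0) =
      ∑ q ∈ T3 (V \ U) g, δ q.1 q.2.1 q.2.2 := by
    rw [← sum_filter]
    refine sum_congr (Finset.ext fun q => ?_) fun _ _ => rfl
    rw [mem_filter, mem3_Peb, mem3_Peb]
    simp only [mem_sdiff]
    tauto
  have r1 := rot_Peb (V := V) (g := g) C.grot fun a b c => if a ∈ U then ang a b c else 0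
  have r2 := rot_Peb (V := V) (g := g) C.grot fun a b c => if b ∈ U then ang b c a else 0
  have r3 := rot_Peb (V := V) (g := g) C.grot fun a b _ => if a ∈ U ∧ b ∈ U then (1 : ℝ) else 0
  have r4 := rot_Peb (V := V) (g := g) C.grot fun _ b c => if b ∈ U ∧ c ∈ U then (1 : ℝ) else 0
  have key : ∑ q ∈ T3 V g, ((if q.1 ∈ U then ang q.1 q.2.1 q.2.2 else 0) +
      (if q.2.1 ∈ U then ang q.2.1 q.2.2 q.1 else 0) +
      (if q.2.2 ∈ U then ang q.2.2 q.1 q.2.1 else 0) +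
      (if q.1 ∈ U ∧ q.2.1 ∈ U ∧ q.2.2 ∈ U then 1 + δ q.1 q.2.1 q.2.2 else 0) +
      (if q.1 ∉ U ∧ q.2.1 ∉ U ∧ q.2.2 ∉ U then δ q.1 q.2.1 q.2.2 else 0)) ≤
      ∑ q ∈ T3 V g, ((if q.1 ∈ U ∧ q.2.1 ∈ U then (1 : ℝ) else 0) +
      (if q.2.1 ∈ U ∧ q.2.2 ∈ U then (1 : ℝ) else 0) +
      (if q.2.2 ∈ U ∧ q.1 ∈ U then (1 : ℝ) else 0) + (1 + δ q.1 q.2.1 q.2.2)) := by
    refine sum_le_sum fun ⟨a, b, c⟩ hq => ?_
    have g1 : g a b c := (mem3_Peb.1 hq).2
    have a0 := (hA a b c (C.tri.pos (C.gt g1))).2.2.1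
    have a1 := abs_le.1 (C.dev g1)
    have a2 := abs_le.1 (C.dev (C.grot g1))
    have a3 := abs_le.1 (C.dev (C.grot (C.grot g1)))
    rw [C.drot (C.grot g1), C.drot g1] at a3
    rw [C.drot g1] at a2
    by_cases ha : a ∈ U <;> by_cases hb : b ∈ U <;> by_cases hc : c ∈ U <;>
      simp only [ha, hb, hc, and_self, and_true, and_false, if_true, if_false, not_true,
        not_false_iff] <;>
      linarith [a1.1, a1.2, a2.1, a2.2, a3.1, a3.2]
  simp only [sum_add_distrib, sum_const, nsmul_eq_mul, mul_one] at key s4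
  unfold Del
  linarith

end MP7b

end
end

section

/-! The case of a long side. -/

open scoped Classical
open MeasureTheory Metric Real

noncomputable section
namespace MP7b

theorem cos_Tie (a b c : ℂ) : dist b c ^ 2 = dist a b ^ 2 + dist c a ^ 2 - 2 * Ip a b c := by
  simp only [Complex.dist_eq_re_im, Ip]
  rw [sq_sqrt (by positivity), sq_sqrt (by positivity), sq_sqrt (by positivity)]
  ring

theorem ang_Tie (hA : ANG_st) {a b c : ℂ} (h0 : 0 < D a b c) (h1 : dist b c = 2)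
    (h2 : dist c a = 2) (h8 : 8 ≤ dist a b ^ 2) (h : |ang c a b - 1| ≤ 1 / 2) :
    ang a b c = 3 / 4 ∧ ang b c a = 3 / 4 ∧ ang c a b = 3 / 2 := by
  obtain ⟨a0, a1, a2, -, a3⟩ := hA a b c h0
  obtain ⟨b0, b1, -, -, b3⟩ := hA b c a (by rwa [D_rot])
  obtain ⟨c0, -, -, -, c3⟩ := hA c a b (by rwa [← D_rot])
  have e1 := cos_Tie a b c
  have e2 := cos_Tie b c a
  have e3 := cos_Tie c a b
  rw [h1, h2] at *
  have p := pi_pos
  have c4 : 3 / 2 ≤ ang c a b := not_lt.1 fun k => by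
    have := cos_pos_of_mem_Ioo (x := π / 3 * ang c a b) ⟨by nlinarith, by nlinarith⟩
    linarith
  have d0 : dist a b ≠ 0 := fun k => by rw [k] at h8; norm_num at h8
  have := injOn_cos (x₁ := π / 3 * ang a b c) (x₂ := π / 3 * ang b c a)
    ⟨by positivity, by nlinarith⟩ ⟨by positivity, by nlinarith⟩
    (mul_left_cancel₀ d0 (by linarith))
  have := mul_left_cancel₀ (by positivity) this
  have := (abs_le.1 h).2
  exact ⟨by linarith, by linarith, by linarith⟩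

theorem six_Tie {a b c d : ℂ} (n1 : a ≠ b) (n2 : b ≠ c) (n3 : c ≠ a) (n4 : a ≠ d) (n5 : d ≠ b)
    (n6 : c ≠ d) {F : Finset (ℂ × ℂ × ℂ)}
    (e : F = {(a, b, c), (b, c, a), (c, a, b), (b, a, d), (a, d, b), (d, b, a)}) :
    (∀ f : ℂ × ℂ × ℂ → ℝ, ∑ q ∈ F, f q = f (a, b, c) + (f (b, c, a) + (f (c, a, b) +
      (f (b, a, d) + (f (a, d, b) + f (d, b, a))))) ∧
      ∑ q ∈ {(a, b, c), (b, c, a), (c, a, b)}, f q = f (a, b, c) + (f (b, c, a) + f (c, a, b))) ∧
    ((∀ z, (c, b, z) ∉ F) ∧ (∀ z, (a, c, z) ∉ F) ∧ (∀ z, (d, a, z) ∉ F) ∧ ∀ z, (b, d, z) ∉ F) ∧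
    (∀ x y, (a, x, y) ∈ F → (x, y) ∈ ({(b, c), (d, b)} : Finset (ℂ × ℂ))) ∧
    (∀ x y, (b, x, y) ∈ F → (x, y) ∈ ({(c, a), (a, d)} : Finset (ℂ × ℂ))) ∧
    ∀ x y, (c, x, y) ∈ F → (x, y) ∈ ({(a, b)} : Finset (ℂ × ℂ)) := by
  simp [e, n1, n2, n3, n4, n5, n6, n1.symm, n2.symm, n3.symm, n4.symm, n5.symm, n6.symm]

theorem tie (hA : ANG_st) (hS : STA_st) (hq : EQ0_st) (h2 : AN2_st) : TIE_st := by
  intro X t cx hX hD hb a b c g1 h8
  have h := cx.tri
  have nb : ∀ {x y}, e0 t x y → dist x y = 2 ∨ ∃ z, good t x y z := fun e =>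
    (em _).symm.imp_left fun k => hb _ _ ⟨e, k⟩
  obtain ⟨d, g2⟩ := (nb (cx.Rsymm (cx.gR g1))).resolve_left fun k => by
    rw [dist_comm, k] at h8
    norm_num at h8
  have r := fun {x y z} (e : good t x y z) => cx.grot e
  have mT : ∀ {V x y z}, x ∈ V → y ∈ V → z ∈ V → good t x y z → (x, y, z) ∈ T3 V (good t) :=
    fun a b c e => mem_T3.2 ⟨a, b, c, e⟩
  have mX : ∀ {x y z}, good t x y z → (x, y, z) ∈ T3 X (good t) := fun e =>
    mT (h.mem e.1) (h.mem (r e).1) (h.mem (r (r e)).1) e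
  have big : ∀ {x y z}, good t x y z → 8 ≤ dist x y ^ 2 → 1 / 2 ≤ dl x y z := fun e k =>
    hS _ _ _ (h.pos e.1) (t_sep h hX e.1) (t_sep h hX (r e).1) (t_sep h hX (r (r e)).1) e.2 (.inl k)
  have nn : ∀ V, ∀ q ∈ T3 V (good t), 0 ≤ dl q.1 q.2.1 q.2.2 := fun V q hq =>
    (abs_nonneg _).trans (cx.dev (mem_T3.1 hq).2.2.2)
  have h8' : 8 ≤ dist b a ^ 2 := by rwa [dist_comm]
  have b1 := big g1 h8
  have b2 := big g2 h8'
  have n1 := t_ne h g1.1
  have n2 := t_ne h (r g1).1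
  have n3 := t_ne h (r (r g1)).1
  have n4 := t_ne h (r g2).1
  have n5 := t_ne h (r (r g2)).1
  have n6 : c ≠ d := by
    rintro rfl
    have := h.pos g1.1
    have := h.pos g2.1
    unfold D at *
    linarith
  obtain ⟨F, hF⟩ : ∃ F : Finset (ℂ × ℂ × ℂ),
      F = {(a, b, c), (b, c, a), (c, a, b), (b, a, d), (a, d, b), (d, b, a)} := ⟨_, rfl⟩
  obtain ⟨f1, ⟨f2, f3, f4, f5⟩, f6, f7, f8⟩ := six_Tie n1 n2 n3 n4 n5 n6 hF
  have sF : F ⊆ T3 X (good t) := by
    simp only [hF, Finset.insert_subset_iff, Finset.singleton_subset_iff]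
    exact ⟨mX g1, mX (r g1), mX (r (r g1)), mX g2, mX (r g2), mX (r (r g2))⟩
  have e1 := Finset.sum_sdiff (f := fun q : ℂ × ℂ × ℂ => dl q.1 q.2.1 q.2.2) sF
  have e2 : ∑ q ∈ F, dl q.1 q.2.1 q.2.2 = 3 * dl a b c + 3 * dl b a d := by
    rw [(f1 _).1]
    simp only [dl_rot a b c, ← dl_rot c a b, dl_rot b a d, ← dl_rot d b a]
    ring
  have nn' : ∀ q ∈ T3 X (good t) \ F, 0 ≤ dl q.1 q.2.1 q.2.2 := fun q hq =>
    nn X q (Finset.mem_sdiff.1 hq).1
  have e3 := Finset.sum_nonneg nn'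
  rw [e2] at e1
  have lin : ∀ R S x y : ℝ, R + (3 * x + 3 * y) = S → 0 ≤ R → S / 3 ≤ 1 → 1 / 2 ≤ x → 1 / 2 ≤ y →
      1 ≤ S / 3 ∧ R ≤ 0 ∧ x ≤ 1 / 2 ∧ y ≤ 1 / 2 := fun R S x y k1 k2 k3 k4 k5 =>
    ⟨by linarith, by linarith, by linarith, by linarith⟩
  obtain ⟨l1, l2, l3, l4⟩ := lin _ _ _ _ e1 e3 hD b1 b2
  refine ⟨l1, ?_⟩
  have oth : ∀ {x y z}, good t x y z → (x, y, z) ∉ F → ang x y z = 1 ∧ dist x y = 2 :=
    fun {x y z} e k => by
      have z0 : dl x y z ≤ 0 :=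
        (Finset.single_le_sum nn' (Finset.mem_sdiff.2 ⟨mX e, k⟩)).trans l2
      have a1 := sub_eq_zero.1 (abs_nonpos_iff.1 ((cx.dev e).trans z0))
      exact ⟨a1, hq _ _ _ (h.pos e.1) (t_sep h hX e.1) (t_sep h hX (r e).1) (t_sep h hX (r (r e)).1)
        a1 (sub_eq_zero.1 (abs_nonpos_iff.1 ((cx.dev (r e)).trans ((dl_rot _ _ _).trans_le z0)))) z0⟩
  have side : ∀ {x y w}, good t x y w → (∀ z, (y, x, z) ∉ F) → dist x y = 2 := fun e k =>
    (dist_comm _ _).trans ((nb (cx.Rsymm (cx.gR e))).elim id fun ⟨z, e'⟩ => (oth e' (k z)).2)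
  obtain ⟨p1, p2, p3⟩ := ang_Tie hA (h.pos g1.1) (side (r g1) f2) (side (r (r g1)) f3)
    h8 ((cx.dev (r (r g1))).trans (by rw [← dl_rot]; exact l3))
  obtain ⟨q1, q2, -⟩ := ang_Tie hA (h.pos g2.1) (side (r g2) f4) (side (r (r g2)) f5)
    h8' ((cx.dev (r (r g2))).trans (by rw [← dl_rot]; exact l4))
  have out : ∀ v ∈ X, ∀ Z ⊆ D2 X (t v), (∀ x y, (v, x, y) ∈ F → (x, y) ∈ Z) →
      |∑ q ∈ Z, (ang v q.1 q.2 - 1)| = 1 / 2 → v ∈ X \ inn t X (good t) := by
    intro v hv Z z1 z2 z3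
    rw [Finset.mem_sdiff, and_iff_right hv]
    intro i
    have i := (Finset.mem_filter.1 i).2
    rw [Finset.sum_subset z1 fun q k1 k2 => by
      have k := (mem_D2.1 k1).2.2
      obtain ⟨y, hy⟩ := i q.1 (.inl ⟨_, k⟩)
      obtain rfl := h.uniq hy.2.2.2.1 k
      exact sub_eq_zero.2 (oth hy.2.2.2 fun e => k2 (z2 _ _ e)).1, Finset.sum_sub_distrib,
      h2 X t h v hv fun x e => (i x e).imp fun y hy => hy.2.2.2.1, Finset.sum_const, nsmul_one] at z3
    have : 2 * |6 - ((D2 X (t v)).card : ℤ)| = 1 := by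
      have : 2 * |6 - ((D2 X (t v)).card : ℝ)| = 1 := by linarith
      exact_mod_cast this
    omega
  have mD : ∀ {x y z}, good t x y z → (y, z) ∈ D2 X (t x) := fun e =>
    mem_D2.2 ⟨h.mem (r e).1, h.mem (r (r e)).1, e.1⟩
  have oa := out a (h.mem g1.1) {(b, c), (d, b)}
    (Finset.insert_subset (mD g1) (Finset.singleton_subset_iff.2 (mD (r g2)))) f6 (by
      rw [Finset.sum_pair fun e => n5 (congrArg Prod.fst e).symm, p1, q2]
      norm_num [abs_of_nonneg])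
  have ob := out b (h.mem g2.1) {(c, a), (a, d)}
    (Finset.insert_subset (mD (r g1)) (Finset.singleton_subset_iff.2 (mD g2))) f7 (by
      rw [Finset.sum_pair fun e => n3 (congrArg Prod.fst e), p2, q1]
      norm_num [abs_of_nonneg])
  have oc := out c (h.mem (r (r g1)).1) {(a, b)} (Finset.singleton_subset_iff.2 (mD (r (r g1))))
    f8 (by
      rw [Finset.sum_singleton, p3]
      norm_num [abs_of_nonneg])
  have sub : {(a, b, c), (b, c, a), (c, a, b)} ⊆ T3 (X \ inn t X (good t)) (good t) := by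
    simp only [Finset.insert_subset_iff, Finset.singleton_subset_iff]
    exact ⟨mT oa ob oc g1, mT ob oc oa (r g1), mT oc oa ob (r (r g1))⟩
  have := Finset.sum_le_sum_of_subset_of_nonneg (f := fun q : ℂ × ℂ × ℂ => dl q.1 q.2.1 q.2.2) sub
    fun q k _ => nn _ q k
  rw [(f1 _).2] at this
  simp only [dl_rot a b c, ← dl_rot c a b] at this
  have lin2 : ∀ S x : ℝ, x + (x + x) ≤ S → 1 / 2 ≤ x → 1 / 2 ≤ S / 3 := fun S x k1 k2 => by
    linarith
  exact lin2 _ _ this b1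

end MP7b

end
end
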