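import Pool.Agent.Mg.F7b7a6d.G71ec6f
import Pool.Agent.Mg.F7b7a6d.G28590b

section

/-! Lattice points in the equiangular hexagon. -/

open scoped Classical
open MeasureTheory Metric Real

noncomputable section
namespace MP7b

theorem tri_Uba (c : ℕ) (B : Finset (ℕ × ℕ)) (f : ℕ × ℕ → ℕ × ℕ) (hf : Set.InjOn f B)
    (h : ∀ q ∈ B, (f q).1 + (f q).2 < c) : 2 * B.card ≤ c * (c + 1) := by
  have h1 : B.card ≤ ((Finset.range c).biUnion Finset.HasAntidiagonal.antidiagonal).card :=
    Finset.card_le_card_of_injOn f (fun q hq => by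
      simp only [Finset.coe_biUnion, Set.mem_iUnion, Finset.mem_coe, Finset.mem_range,
        Finset.HasAntidiagonal.mem_antidiagonal]
      exact ⟨_, h q hq, rfl⟩) hf
  have h2 : ((Finset.range c).biUnion Finset.HasAntidiagonal.antidiagonal).card ≤
      ∑ k ∈ Finset.range c, (k + 1) :=
    Finset.card_biUnion_le.trans (le_of_eq (Finset.sum_congr rfl fun k _ =>
      Finset.Nat.card_antidiagonal k))
  have h3 : ∀ m : ℕ, 2 * ∑ k ∈ Finset.range m, (k + 1) = m * (m + 1) := fun m => by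
    induction m with
    | zero => simp
    | succ m ih =>
      rw [Finset.sum_range_succ, mul_add, ih]
      ring
  have := h3 c
  omega

theorem cnt_Uba (α β c c' n : ℕ)
    (h : 2 * n + c * (c + 1) + c' * (c' + 1) ≤ 2 * (α + 1) * (β + 1)) :
    ∃ Y : Finset (ℕ × ℕ), Y.card = n ∧
      ∀ q ∈ Y, q.1 ≤ α ∧ q.2 ≤ β ∧ c ≤ q.1 + q.2 ∧ q.1 + q.2 + c' ≤ α + β := by
  set B := Finset.range (α + 1) ×ˢ Finset.range (β + 1) with hB
  have m : ∀ q ∈ B, q.1 ≤ α ∧ q.2 ≤ β := fun q hq => by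
    simpa [hB, Nat.lt_succ_iff] using hq
  have h1 := tri_Uba c (B.filter fun q => q.1 + q.2 < c) id (Set.injOn_id _)
    fun q hq => (Finset.mem_filter.1 hq).2
  have h2 := tri_Uba c' (B.filter fun q => α + β < q.1 + q.2 + c') (fun q => (α - q.1, β - q.2))
    (fun q hq q' hq' e => by
      have a := m q (Finset.mem_filter.1 hq).1
      have a' := m q' (Finset.mem_filter.1 hq').1
      simp only [Prod.mk.injEq] at e
      exact Prod.ext (by omega) (by omega))
    fun q hq => by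
      have a := m q (Finset.mem_filter.1 hq).1
      have a' := (Finset.mem_filter.1 hq).2
      simp only
      omega
  have h3 : B ⊆ (B.filter fun q => c ≤ q.1 + q.2 ∧ q.1 + q.2 + c' ≤ α + β) ∪
      ((B.filter fun q => q.1 + q.2 < c) ∪ B.filter fun q => α + β < q.1 + q.2 + c') :=
    fun q hq => by
      simp only [Finset.mem_union, Finset.mem_filter, hq, true_and]
      omega
  have h4 := (Finset.card_le_card h3).trans ((Finset.card_union_le _ _).trans
    (Nat.add_le_add_left (Finset.card_union_le _ _) _))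
  have h5 : B.card = (α + 1) * (β + 1) := by simp [hB]
  rw [mul_assoc, ← h5] at h
  obtain ⟨Y, hY, hc⟩ := Finset.exists_subset_card_eq
    (s := B.filter fun q => c ≤ q.1 + q.2 ∧ q.1 + q.2 + c' ≤ α + β) (n := n) (by omega)
  exact ⟨Y, hc, fun q hq => ⟨(m q (Finset.mem_filter.1 (hY hq)).1).1,
    (m q (Finset.mem_filter.1 (hY hq)).1).2, (Finset.mem_filter.1 (hY hq)).2⟩⟩

theorem sep_Uba {q q' : ℕ × ℕ} (h : q ≠ q') :
    2 ≤ dist (2 * (q.1 : ℂ) + 2 * (q.2 : ℂ) * om) (2 * (q'.1 : ℂ) + 2 * (q'.2 : ℂ) * om) := by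
  have h1 : (1 : ℤ) ≤ ((q.1 : ℤ) - q'.1) ^ 2 + ((q.1 : ℤ) - q'.1) * ((q.2 : ℤ) - q'.2) +
      ((q.2 : ℤ) - q'.2) ^ 2 := by
    have : (q.1 : ℤ) - q'.1 ≠ 0 ∨ (q.2 : ℤ) - q'.2 ≠ 0 := by
      by_contra e
      push Not at e
      exact h (Prod.ext (by omega) (by omega))
    generalize (q.1 : ℤ) - q'.1 = s at this
    generalize (q.2 : ℤ) - q'.2 = u at this
    rcases this with e | e
    · nlinarith [sq_pos_of_ne_zero e, sq_nonneg (s + 2 * u)]
    · nlinarith [sq_pos_of_ne_zero e, sq_nonneg (2 * s + u)]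
  have h2 : (1 : ℝ) ≤ ((q.1 : ℝ) - q'.1) ^ 2 + ((q.1 : ℝ) - q'.1) * ((q.2 : ℝ) - q'.2) +
      ((q.2 : ℝ) - q'.2) ^ 2 := by exact_mod_cast h1
  have h3 : √3 * √3 = 3 := Real.mul_self_sqrt (by norm_num)
  rw [Complex.dist_eq]
  refine le_of_sq_le_sq (a := 2) ?_ (norm_nonneg _)
  rw [Complex.sq_norm, Complex.normSq_apply]
  simp [om]
  nlinarith [sq_nonneg ((q.2 : ℝ) - q'.2)]

theorem cvx_Uba (α β c c' : ℝ) : Convex ℝ (Hx α β c c') := by
  rintro _ ⟨s, u, rfl, h1, h2, h3, h4, h5, h6⟩ _ ⟨s', u', rfl, k1, k2, k3, k4, k5, k6⟩ a b ha hb hab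
  obtain rfl : b = 1 - a := by linarith
  refine ⟨a * s + (1 - a) * s', a * u + (1 - a) * u', ?_, by positivity, by nlinarith,
    by positivity, by nlinarith, by nlinarith, by nlinarith⟩
  simp only [Complex.real_smul]
  push_cast
  ring

theorem rd_Uba {H : Set ℂ} (h : Convex ℝ H) : Convex ℝ (Rd H) := by
  rintro x ⟨z, hz, h1⟩ y ⟨w, hw, h2⟩ a b ha hb hab
  refine ⟨a • z + b • w, h hz hw ha hb hab, (dist_add_add_le _ _ _ _).trans ?_⟩
  rw [dist_smul₀, dist_smul₀, Real.norm_of_nonneg ha, Real.norm_of_nonneg hb]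
  nlinarith

theorem uba : UBa_st := by
  intro α β c c' n h _ _
  refine ⟨?_, rd_Uba (cvx_Uba _ _ _ _)⟩
  obtain ⟨Y, hc, hY⟩ := cnt_Uba α β c c' n h
  refine ⟨Y.image fun q => 2 * (q.1 : ℂ) + 2 * (q.2 : ℂ) * om, ?_, ?_, ?_⟩
  · rw [Finset.card_image_of_injective _ fun q q' e => ?_, hc]
    by_contra ne
    have := sep_Uba ne
    rw [e, dist_self] at this
    norm_num at this
  · intro a ha b hb hab
    obtain ⟨q, -, rfl⟩ := Finset.mem_image.1 ha
    obtain ⟨q', -, rfl⟩ := Finset.mem_image.1 hb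
    exact sep_Uba fun e => hab (by rw [e])
  · intro x hx
    obtain ⟨q, hq, rfl⟩ := Finset.mem_image.1 hx
    obtain ⟨h1, h2, h3, h4⟩ := hY q hq
    refine ⟨q.1, q.2, by simp, by positivity, by exact_mod_cast h1, by positivity,
      by exact_mod_cast h2, by exact_mod_cast h3, ?_⟩
    rw [le_sub_iff_add_le]
    exact_mod_cast h4

end MP7b

end
end

section

open scoped Classical
open MeasureTheory Metric Real

noncomputable section
namespace MP7b

def box_Ubb (L : ℝ) : Set ℂ := {w | 0 ≤ w.re ∧ w.re ≤ L ∧ -1 ≤ w.im ∧ w.im ≤ 0}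

theorem vol_box_Ubb (L : ℝ) : volume (box_Ubb L) = ENNReal.ofReal L := by
  have h := Complex.volume_preserving_equiv_real_prod.measure_preimage_equiv
    (Set.Icc (0 : ℝ) L ×ˢ Set.Icc (-1 : ℝ) 0)
  have e : box_Ubb L = Complex.measurableEquivRealProd ⁻¹'
      (Set.Icc (0 : ℝ) L ×ˢ Set.Icc (-1 : ℝ) 0) := by
    ext w
    constructor
    · rintro ⟨h1, h2, h3, h4⟩
      exact ⟨⟨h1, h2⟩, h3, h4⟩
    · rintro ⟨⟨h1, h2⟩, h3, h4⟩
      exact ⟨h1, h2, h3, h4⟩
  rw [e, h, Measure.volume_eq_prod, Measure.prod_prod, Real.volume_Icc, Real.volume_Icc]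
  simp

theorem meas_box_Ubb (L : ℝ) : MeasurableSet (box_Ubb L) := by
  unfold box_Ubb
  measurability

def rect_Ubb (v d : ℂ) (L : ℝ) : Set ℂ := {x | (starRingEnd ℂ) d * (x - v) ∈ box_Ubb L}

theorem vol_rect_Ubb (v d : ℂ) (hd : ‖d‖ = 1) (L : ℝ) :
    volume (rect_Ubb v d L) = ENNReal.ofReal L := by
  have hc : (starRingEnd ℂ) d ∈ Metric.sphere (0 : ℂ) 1 := by
    simp [hd]
  let e : Circle := ⟨(starRingEnd ℂ) d, hc⟩
  have h1 : MeasurePreserving (rotation e) volume volume := (rotation e).measurePreserving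
  have h2 : MeasurePreserving (fun x : ℂ => x - v) volume volume := measurePreserving_sub_right _ v
  have h3 := (h1.comp h2).measure_preimage (meas_box_Ubb L).nullMeasurableSet
  rw [← vol_box_Ubb L, ← h3]
  congr 1

theorem mem_rect_Ubb (v d u : ℂ) (L t : ℝ) (hd : ‖d‖ = 1) (h0 : 0 ≤ t) (hL : t ≤ L)
    (hu : ‖u‖ ≤ 1) (hre : d.re * u.re + d.im * u.im = 0) (him : d.re * u.im - d.im * u.re ≤ 0) :
    v + t * d + u ∈ rect_Ubb v d L := by
  have hdd : (starRingEnd ℂ) d * d = 1 := by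
    rw [Complex.conj_mul', hd]; simp
  have e : (starRingEnd ℂ) d * (v + t * d + u - v) = t + (starRingEnd ℂ) d * u := by
    have : (starRingEnd ℂ) d * (v + t * d + u - v) =
        t * ((starRingEnd ℂ) d * d) + (starRingEnd ℂ) d * u := by ring
    rw [this, hdd, mul_one]
  have hn : ‖(starRingEnd ℂ) d * u‖ ≤ 1 := by
    rw [norm_mul, Complex.norm_conj, hd, one_mul]; exact hu
  have hi := (abs_le.1 ((Complex.abs_im_le_norm _).trans hn)).1
  have r1 : ((starRingEnd ℂ) d * u).re = 0 := by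
    simp [Complex.mul_re]; linarith
  have r2 : ((starRingEnd ℂ) d * u).im ≤ 0 := by
    simp [Complex.mul_im]; linarith
  show (starRingEnd ℂ) d * (v + t * d + u - v) ∈ box_Ubb L
  rw [e]
  refine ⟨?_, ?_, ?_, ?_⟩
  · rw [Complex.add_re, r1]; simpa using h0
  · rw [Complex.add_re, r1]; simpa using hL
  · rw [Complex.add_im]; simpa using hi
  · rw [Complex.add_im]; simpa using r2

/-- inner product with the second lattice direction -/
def bb_Ubb (u : ℂ) : ℝ := (u.re + √3 * u.im) / 2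

def sec_Ubb : Fin 6 → Set ℂ :=
  ![{u | ‖u‖ ≤ 1 ∧ bb_Ubb u < u.re ∧ u.re < 0}, {u | ‖u‖ ≤ 1 ∧ 0 < u.re ∧ bb_Ubb u < 0},
    {u | ‖u‖ ≤ 1 ∧ 0 < bb_Ubb u ∧ bb_Ubb u < u.re}, {u | ‖u‖ ≤ 1 ∧ u.re < bb_Ubb u ∧ 0 < u.re},
    {u | ‖u‖ ≤ 1 ∧ u.re < 0 ∧ 0 < bb_Ubb u}, {u | ‖u‖ ≤ 1 ∧ bb_Ubb u < 0 ∧ u.re < bb_Ubb u}]

theorem meas_sec_Ubb (j : Fin 6) : MeasurableSet (sec_Ubb j) := by
  have hb : Measurable bb_Ubb := by
    unfold bb_Ubb
    fun_prop
  have hr : Measurable Complex.re := Complex.measurable_re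
  have hn : MeasurableSet {u : ℂ | ‖u‖ ≤ 1} := measurableSet_le measurable_norm measurable_const
  fin_cases j
  · exact hn.inter ((measurableSet_lt hb hr).inter (measurableSet_lt hr measurable_const))
  · exact hn.inter ((measurableSet_lt measurable_const hr).inter
      (measurableSet_lt hb measurable_const))
  · exact hn.inter ((measurableSet_lt measurable_const hb).inter (measurableSet_lt hb hr))
  · exact hn.inter ((measurableSet_lt hr hb).inter (measurableSet_lt measurable_const hr))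
  · exact hn.inter ((measurableSet_lt hr measurable_const).inter
      (measurableSet_lt measurable_const hb))
  · exact hn.inter ((measurableSet_lt hb measurable_const).inter (measurableSet_lt hr hb))

theorem sum_sec_Ubb : ∑ j, volume (sec_Ubb j) ≤ ENNReal.ofReal π := by
  have hd : Set.PairwiseDisjoint (↑(Finset.univ : Finset (Fin 6))) sec_Ubb := by
    intro i _ j _ hij
    rw [Function.onFun, Set.disjoint_left]
    intro u hi hj
    fin_cases i <;> fin_cases j <;> first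
      | exact hij rfl
      | (obtain ⟨-, h1, h2⟩ := hi
         obtain ⟨-, h3, h4⟩ := hj
         linarith)
  rw [← measure_biUnion_finset hd fun j _ => meas_sec_Ubb j]
  have hs : (⋃ j ∈ (Finset.univ : Finset (Fin 6)), sec_Ubb j) ⊆ closedBall (0 : ℂ) 1 := by
    intro u hu
    obtain ⟨j, -, hj⟩ := Set.mem_iUnion₂.1 hu
    rw [mem_closedBall_zero_iff]
    fin_cases j <;> exact hj.1
  refine (measure_mono hs).trans ?_
  rw [Complex.volume_closedBall]
  simp [← NNReal.coe_real_pi]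

/-- the lattice point with skew coordinates `s`, `w` -/
def pt_Ubb (s w : ℝ) : ℂ := 2 * s + 2 * w * om

theorem compact_Ubb (α β c c' : ℝ) : IsCompact (Hx α β c c') := by
  have hK : IsCompact ((Set.Icc 0 α ×ˢ Set.Icc 0 β) ∩
      {q : ℝ × ℝ | c ≤ q.1 + q.2 ∧ q.1 + q.2 ≤ α + β - c'}) := by
    refine (isCompact_Icc.prod isCompact_Icc).inter_right ?_
    have ha : Continuous fun q : ℝ × ℝ => q.1 + q.2 := continuous_fst.add continuous_snd
    exact (isClosed_le continuous_const ha).inter (isClosed_le ha continuous_const)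
  have hc : Continuous fun q : ℝ × ℝ => (2 * q.1 + 2 * q.2 * om : ℂ) := by fun_prop
  convert hK.image hc using 1
  ext z
  constructor
  · rintro ⟨s, u, rfl, h1, h2, h3, h4, h5, h6⟩
    exact ⟨(s, u), ⟨⟨⟨h1, h2⟩, h3, h4⟩, h5, h6⟩, rfl⟩
  · rintro ⟨⟨s, u⟩, ⟨⟨⟨h1, h2⟩, h3, h4⟩, h5, h6⟩, rfl⟩
    exact ⟨s, u, rfl, h1, h2, h3, h4, h5, h6⟩

theorem convex_Ubb (α β c c' : ℝ) : Convex ℝ (Hx α β c c') := by
  rintro _ ⟨s, u, rfl, h1, h2, h3, h4, h5, h6⟩ _ ⟨s', u', rfl, k1, k2, k3, k4, k5, k6⟩ a b ha hb hab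
  refine ⟨a * s + b * s', a * u + b * u', ?_, by positivity, ?_, by positivity, ?_, ?_, ?_⟩
  · simp only [Complex.real_smul]
    push_cast
    ring
  · nlinarith [mul_le_mul_of_nonneg_left h2 ha, mul_le_mul_of_nonneg_left k2 hb]
  · nlinarith [mul_le_mul_of_nonneg_left h4 ha, mul_le_mul_of_nonneg_left k4 hb]
  · nlinarith [mul_le_mul_of_nonneg_left h5 ha, mul_le_mul_of_nonneg_left k5 hb]
  · nlinarith [mul_le_mul_of_nonneg_left h6 ha, mul_le_mul_of_nonneg_left k6 hb]

theorem near_Ubb (α β c c' : ℝ) (x : ℂ) (hx : x ∈ Rd (Hx α β c c')) :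
    ∃ s w : ℝ, ∃ u : ℂ, x = pt_Ubb s w + u ∧ ‖u‖ ≤ 1 ∧ 0 ≤ s ∧ s ≤ α ∧ 0 ≤ w ∧ w ≤ β ∧
      c ≤ s + w ∧ s + w ≤ α + β - c' ∧
      ∀ s' w' : ℝ, 0 ≤ s' → s' ≤ α → 0 ≤ w' → w' ≤ β → c ≤ s' + w' → s' + w' ≤ α + β - c' →
        (s' - s) * u.re + (w' - w) * bb_Ubb u ≤ 0 := by
  obtain ⟨z, hz, hxz⟩ := hx
  obtain ⟨p, hp, hmin⟩ := exists_norm_eq_iInf_of_complete_convex ⟨z, hz⟩
    (compact_Ubb α β c c').isComplete (convex_Ubb α β c c') x
  have hv := (norm_eq_iInf_iff_real_inner_le_zero (convex_Ubb α β c c') hp).1 hmin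
  have hle : ‖x - p‖ ≤ 1 := by
    rw [hmin]
    refine le_trans (ciInf_le ⟨0, ?_⟩ (⟨z, hz⟩ : Hx α β c c')) ?_
    · rintro _ ⟨y, rfl⟩
      exact norm_nonneg _
    · rwa [dist_eq_norm] at hxz
  obtain ⟨s, w, rfl, h1, h2, h3, h4, h5, h6⟩ := hp
  refine ⟨s, w, x - (2 * s + 2 * w * om), by simp [pt_Ubb], hle, h1, h2, h3, h4, h5, h6, ?_⟩
  intro s' w' k1 k2 k3 k4 k5 k6
  have := hv _ ⟨s', w', rfl, k1, k2, k3, k4, k5, k6⟩
  generalize x - (2 * s + 2 * w * om) = u at this ⊢
  rw [Complex.inner] at this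
  simp [om, Complex.mul_re, Complex.mul_im] at this
  unfold bb_Ubb
  nlinarith [this]

theorem both_Ubb {x y a b : ℝ} (hx : 0 ≤ x) (hy : 0 ≤ y) (ha : 0 < a) (hb : 0 < b)
    (h : x * a + y * b ≤ 0) : x = 0 ∧ y = 0 := by
  have h1 := mul_nonneg hx ha.le
  have h2 := mul_nonneg hy hb.le
  have h3 : x * a = 0 := by linarith
  have h4 : y * b = 0 := by linarith
  exact ⟨(mul_eq_zero.1 h3).resolve_right ha.ne', (mul_eq_zero.1 h4).resolve_right hb.ne'⟩

theorem one_Ubb {x a : ℝ} (hx : 0 ≤ x) (ha : 0 < a) (h : x * a ≤ 0) : x = 0 :=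
  (both_Ubb hx le_rfl ha ha (by linarith)).1

/-- the six vertices -/
def vx_Ubb (α β c c' : ℝ) : Fin 6 → ℂ :=
  ![pt_Ubb c 0, pt_Ubb α 0, pt_Ubb α (β - c'), pt_Ubb (α - c') β, pt_Ubb 0 β, pt_Ubb 0 c]

/-- the six directions -/
def dir_Ubb : Fin 6 → ℂ := ![1, om, om - 1, -1, -om, 1 - om]

/-- the six side lengths -/
def len_Ubb (α β c c' : ℝ) : Fin 6 → ℝ :=
  ![2 * (α - c), 2 * (β - c'), 2 * c', 2 * (α - c'), 2 * (β - c), 2 * c]

theorem norm_dir_Ubb (j : Fin 6) : ‖dir_Ubb j‖ = 1 := by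
  have hq : √3 * √3 = 3 := Real.mul_self_sqrt (by norm_num)
  have key : ∀ d : ℂ, d.re * d.re + d.im * d.im = 1 → ‖d‖ = 1 := fun d h => by
    rw [Complex.norm_def, Complex.normSq_apply, h, Real.sqrt_one]
  apply key
  fin_cases j <;> simp [dir_Ubb, om] <;> nlinarith [hq]

theorem cover_Ubb (α β c c' : ℝ) (hc : 0 ≤ c) (hc' : 0 ≤ c') (h1 : c ≤ α) (h2 : c ≤ β)
    (h3 : c' ≤ α) (h4 : c' ≤ β) :
    Rd (Hx α β c c') ⊆ Hx α β c c' ∪
      ((⋃ j, rect_Ubb (vx_Ubb α β c c' j) (dir_Ubb j) (len_Ubb α β c c' j)) ∪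
        ⋃ j, (fun x => x - vx_Ubb α β c c' j) ⁻¹' sec_Ubb j) := by
  intro x hx
  obtain ⟨s, w, u, rfl, hu, k1, k2, k3, k4, k5, k6, hv⟩ := near_Ubb α β c c' x hx
  have hq : √3 * √3 = 3 := Real.mul_self_sqrt (by norm_num)
  have hq0 : 0 < √3 := Real.sqrt_pos.2 (by norm_num)
  have hb : bb_Ubb u = (u.re + √3 * u.im) / 2 := rfl
  have v0 := hv c 0 hc h1 le_rfl (by linarith) (by linarith) (by linarith)
  have v1 := hv α 0 (by linarith) le_rfl le_rfl (by linarith) (by linarith) (by linarith)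
  have v2 := hv α (β - c') (by linarith) le_rfl (by linarith) (by linarith) (by linarith)
    (by linarith)
  have v3 := hv (α - c') β (by linarith) (by linarith) (by linarith) le_rfl (by linarith)
    (by linarith)
  have v4 := hv 0 β le_rfl (by linarith) (by linarith) le_rfl (by linarith) (by linarith)
  have v5 := hv 0 c le_rfl (by linarith) hc h2 (by linarith) (by linarith)
  have R : ∀ (j : Fin 6) (t : ℝ), pt_Ubb s w = vx_Ubb α β c c' j + t * dir_Ubb j → 0 ≤ t →
      t ≤ len_Ubb α β c c' j → (dir_Ubb j).re * u.re + (dir_Ubb j).im * u.im = 0 →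
      (dir_Ubb j).re * u.im - (dir_Ubb j).im * u.re ≤ 0 →
      pt_Ubb s w + u ∈ Hx α β c c' ∪
      ((⋃ j, rect_Ubb (vx_Ubb α β c c' j) (dir_Ubb j) (len_Ubb α β c c' j)) ∪
        ⋃ j, (fun x => x - vx_Ubb α β c c' j) ⁻¹' sec_Ubb j) := by
    intro j t e t0 t1 r1 r2
    refine Or.inr (Or.inl (Set.mem_iUnion.2 ⟨j, ?_⟩))
    rw [e]
    exact mem_rect_Ubb _ _ _ _ _ (norm_dir_Ubb j) t0 t1 hu r1 r2
  have S : ∀ j : Fin 6, pt_Ubb s w = vx_Ubb α β c c' j → u ∈ sec_Ubb j →
      pt_Ubb s w + u ∈ Hx α β c c' ∪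
      ((⋃ j, rect_Ubb (vx_Ubb α β c c' j) (dir_Ubb j) (len_Ubb α β c c' j)) ∪
        ⋃ j, (fun x => x - vx_Ubb α β c c' j) ⁻¹' sec_Ubb j) := by
    intro j e hj
    refine Or.inr (Or.inr (Set.mem_iUnion.2 ⟨j, ?_⟩))
    rw [e]
    simpa using hj
  rcases lt_trichotomy u.re 0 with ha | ha | ha
  · rcases lt_trichotomy (bb_Ubb u) 0 with hb0 | hb0 | hb0
    · rcases lt_trichotomy (bb_Ubb u) u.re with hab | hab | hab
      · obtain ⟨e1, e2⟩ := both_Ubb (x := s + w - c) (y := w) (a := -u.re)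
          (b := u.re - bb_Ubb u) (by linarith) k3 (by linarith) (by linarith) (by nlinarith [v0])
        refine S 0 ?_ ⟨hu, hab, ha⟩
        have e3 : s = c := by linarith
        rw [e2, e3]; rfl
      · have e1 := one_Ubb (x := s + w - c) (a := -u.re) (by linarith) (by linarith)
          (by rw [hab] at v0; nlinarith [v0])
        refine R 5 (2 * s) ?_ (by linarith) ?_ ?_ ?_
        · have e3 : c = s + w := by linarith
          show pt_Ubb s w = pt_Ubb 0 c + ((2 * s : ℝ) : ℂ) * (1 - om)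
          rw [e3]; unfold pt_Ubb; push_cast; ring
        · show 2 * s ≤ 2 * c
          linarith
        · simp [dir_Ubb, om]; linarith
        · simp [dir_Ubb, om]; nlinarith
      · obtain ⟨e1, e2⟩ := both_Ubb (x := s + w - c) (y := s) (a := -bb_Ubb u)
          (b := bb_Ubb u - u.re) (by linarith) k1 (by linarith) (by linarith) (by nlinarith [v5])
        refine S 5 ?_ ⟨hu, hb0, hab⟩
        have e3 : w = c := by linarith
        rw [e2, e3]; rfl
    · have e1 := one_Ubb (x := s) (a := -u.re) k1 (by linarith)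
        (by rw [hb0] at v4; nlinarith [v4])
      refine R 4 (2 * (β - w)) ?_ (by linarith) ?_ ?_ ?_
      · show pt_Ubb s w = pt_Ubb 0 β + ((2 * (β - w) : ℝ) : ℂ) * (-om)
        rw [e1]; unfold pt_Ubb; push_cast; ring
      · show 2 * (β - w) ≤ 2 * (β - c)
        linarith
      · simp [dir_Ubb, om]; linarith
      · simp [dir_Ubb, om]; nlinarith
    · obtain ⟨e1, e2⟩ := both_Ubb (x := s) (y := β - w) (a := -u.re)
        (b := bb_Ubb u) k1 (by linarith) (by linarith) hb0 (by nlinarith [v4])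
      refine S 4 ?_ ⟨hu, ha, hb0⟩
      have e3 : w = β := by linarith
      rw [e1, e3]; rfl
  · rcases lt_trichotomy (bb_Ubb u) 0 with hb0 | hb0 | hb0
    · have e1 := one_Ubb (x := w) (a := -bb_Ubb u) k3 (by linarith)
        (by rw [ha] at v0; nlinarith [v0])
      refine R 0 (2 * (s - c)) ?_ (by linarith) ?_ ?_ ?_
      · show pt_Ubb s w = pt_Ubb c 0 + ((2 * (s - c) : ℝ) : ℂ) * 1
        rw [e1]; unfold pt_Ubb; push_cast; ring
      · show 2 * (s - c) ≤ 2 * (α - c)
        linarith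
      · simp [dir_Ubb, ha]
      · simp [dir_Ubb]; nlinarith
    · have him : u.im = 0 := by
        have : √3 * u.im = 0 := by linarith
        exact (mul_eq_zero.1 this).resolve_left hq0.ne'
      have hu0 : u = 0 := Complex.ext ha him
      rw [hu0, add_zero]
      exact Or.inl ⟨s, w, rfl, k1, k2, k3, k4, k5, k6⟩
    · have e1 := one_Ubb (x := β - w) (a := bb_Ubb u) (by linarith) hb0
        (by rw [ha] at v4; nlinarith [v4])
      refine R 3 (2 * (α - c' - s)) ?_ (by linarith) ?_ ?_ ?_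
      · have e3 : w = β := by linarith
        show pt_Ubb s w = pt_Ubb (α - c') β + ((2 * (α - c' - s) : ℝ) : ℂ) * (-1)
        rw [e3]; unfold pt_Ubb; push_cast; ring
      · show 2 * (α - c' - s) ≤ 2 * (α - c')
        linarith
      · simp [dir_Ubb, ha]
      · simp [dir_Ubb]; nlinarith
  · rcases lt_trichotomy (bb_Ubb u) 0 with hb0 | hb0 | hb0
    · obtain ⟨e1, e2⟩ := both_Ubb (x := α - s) (y := w) (a := u.re)
        (b := -bb_Ubb u) (by linarith) k3 ha (by linarith) (by nlinarith [v1])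
      refine S 1 ?_ ⟨hu, ha, hb0⟩
      have e3 : s = α := by linarith
      rw [e2, e3]; rfl
    · have e1 := one_Ubb (x := α - s) (a := u.re) (by linarith) ha
        (by rw [hb0] at v1; nlinarith [v1])
      refine R 1 (2 * w) ?_ (by linarith) ?_ ?_ ?_
      · have e3 : s = α := by linarith
        show pt_Ubb s w = pt_Ubb α 0 + ((2 * w : ℝ) : ℂ) * om
        rw [e3]; unfold pt_Ubb; push_cast; ring
      · show 2 * w ≤ 2 * (β - c')
        linarith
      · simp [dir_Ubb, om]; linarith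
      · simp [dir_Ubb, om]; nlinarith
    · rcases lt_trichotomy (bb_Ubb u) u.re with hab | hab | hab
      · obtain ⟨e1, e2⟩ := both_Ubb (x := α - s) (y := α + β - c' - s - w)
          (a := u.re - bb_Ubb u) (b := bb_Ubb u) (by linarith) (by linarith) (by linarith) hb0
          (by nlinarith [v2])
        refine S 2 ?_ ⟨hu, hb0, hab⟩
        have e3 : s = α := by linarith
        have e4 : w = β - c' := by linarith
        rw [e3, e4]; rfl
      · have e1 := one_Ubb (x := α + β - c' - s - w) (a := u.re) (by linarith) ha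
          (by rw [hab] at v2; nlinarith [v2])
        refine R 2 (2 * (α - s)) ?_ (by linarith) ?_ ?_ ?_
        · have e3 : w = α + β - c' - s := by linarith
          show pt_Ubb s w = pt_Ubb α (β - c') + ((2 * (α - s) : ℝ) : ℂ) * (om - 1)
          rw [e3]; unfold pt_Ubb; push_cast; ring
        · show 2 * (α - s) ≤ 2 * c'
          linarith
        · simp [dir_Ubb, om]; linarith
        · simp [dir_Ubb, om]; nlinarith
      · obtain ⟨e1, e2⟩ := both_Ubb (x := β - w) (y := α + β - c' - s - w)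
          (a := bb_Ubb u - u.re) (b := u.re) (by linarith) (by linarith) (by linarith) ha
          (by nlinarith [v3])
        refine S 3 ?_ ⟨hu, hab, ha⟩
        have e3 : w = β := by linarith
        have e4 : s = α - c' := by linarith
        rw [e3, e4]; rfl

theorem ubb : UBb_st := by
  intro α β c c' hc hc' h1 h2 h3 h4
  refine (measure_mono (cover_Ubb α β c c' hc hc' h1 h2 h3 h4)).trans ?_
  refine (measure_union_le _ _).trans (add_le_add le_rfl ?_)
  refine (measure_union_le _ _).trans ?_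
  have hA : volume (⋃ j, rect_Ubb (vx_Ubb α β c c' j) (dir_Ubb j) (len_Ubb α β c c' j)) ≤
      ENNReal.ofReal (2 * (2 * α + 2 * β - c - c')) := by
    refine (measure_iUnion_fintype_le _ _).trans ?_
    simp only [vol_rect_Ubb _ _ (norm_dir_Ubb _)]
    rw [← ENNReal.ofReal_sum_of_nonneg]
    · apply le_of_eq
      congr 1
      simp [Fin.sum_univ_six, len_Ubb]
      ring
    · intro j _
      fin_cases j <;> simp [len_Ubb] <;> linarith
  have hB : volume (⋃ j, (fun x => x - vx_Ubb α β c c' j) ⁻¹' sec_Ubb j) ≤ ENNReal.ofReal π := by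
    refine (measure_iUnion_fintype_le _ _).trans (le_trans (le_of_eq ?_) sum_sec_Ubb)
    refine Finset.sum_congr rfl fun j _ => ?_
    exact (measurePreserving_sub_right volume _).measure_preimage
      (meas_sec_Ubb j).nullMeasurableSet
  rw [ENNReal.ofReal_add (by linarith) Real.pi_pos.le]
  exact add_le_add hA hB

end MP7b

end
end

section

/-! The area of the equiangular hexagon. -/

open scoped Classical
open MeasureTheory Metric Real

noncomputable section
namespace MP7b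

theorem int_Ubh {c β : ℝ} (h0 : 0 ≤ c) (h1 : c ≤ β) :
    ∫ u in (0 : ℝ)..β, max 0 (c - u) = c ^ 2 / 2 := by
  have hc : Continuous fun u : ℝ => max 0 (c - u) := by fun_prop
  rw [← intervalIntegral.integral_add_adjacent_intervals (hc.intervalIntegrable 0 c)
    (hc.intervalIntegrable c β),
    intervalIntegral.integral_congr (a := 0) (b := c) (g := fun u => c - u) (fun u hu => by
      rw [Set.uIcc_of_le h0] at hu
      exact max_eq_right (sub_nonneg.mpr hu.2)),
    intervalIntegral.integral_congr (a := c) (b := β) (g := fun _ => 0) (fun u hu => by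
      rw [Set.uIcc_of_le h1] at hu
      exact max_eq_left (sub_nonpos.mpr hu.1)),
    intervalIntegral.integral_sub (by simp) (by simp)]
  simp
  ring

theorem slab_Ubh {f g : ℝ → ℝ} (hf : Continuous f) (hg : Continuous g) {b : ℝ} (hb : 0 ≤ b)
    (h : ∀ y ∈ Set.Icc 0 b, f y ≤ g y) :
    volume {z : ℂ | z.im ∈ Set.Icc 0 b ∧ z.re ∈ Set.Icc (f z.im) (g z.im)} =
      ENNReal.ofReal (∫ y in (0 : ℝ)..b, (g y - f y)) := by
  have hm : MeasurableSet {p : ℝ × ℝ | p.2 ∈ Set.Icc 0 b ∧ p.1 ∈ Set.Icc (f p.2) (g p.2)} :=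
    (measurable_snd measurableSet_Icc).inter
      ((measurableSet_le (hf.measurable.comp measurable_snd) measurable_fst).inter
        (measurableSet_le measurable_fst (hg.measurable.comp measurable_snd)))
  refine (Complex.volume_preserving_equiv_real_prod.measure_preimage
    hm.nullMeasurableSet).trans ?_
  rw [Measure.volume_eq_prod, Measure.prod_apply_symm hm, intervalIntegral.integral_of_le hb,
    ← integral_Icc_eq_integral_Ioc,
    ofReal_integral_eq_lintegral_ofReal (f := fun y => g y - f y) ((hg.sub hf).integrableOn_Icc)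
      ((ae_restrict_iff' measurableSet_Icc).mpr (Filter.Eventually.of_forall fun y hy =>
        sub_nonneg.mpr (h y hy))), ← lintegral_indicator measurableSet_Icc]
  congr 1
  ext y
  by_cases hy : y ∈ Set.Icc 0 b
  · rw [Set.indicator_of_mem hy, ← Real.volume_Icc]
    congr 1
    ext x
    simp [hy.1, hy.2]
  · rw [Set.indicator_of_notMem hy]
    convert measure_empty (μ := (volume : Measure ℝ))
    ext x
    simp only [Set.mem_preimage, Set.mem_ofPred_eq, hy, false_and, Set.mem_empty_iff_false]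

theorem ubh : UBh_st := by
  intro α β c c' h0 h0' h1 h2 h3 h4
  have hs : (0 : ℝ) < √3 := by positivity
  have hβ : 0 ≤ β := h0.trans h2
  set F : ℝ → ℝ := fun u => u + 2 * max 0 (c - u) with hF
  set G : ℝ → ℝ := fun u => u + 2 * (α - max 0 (c' - (β - u))) with hG
  have cF : Continuous F := by fun_prop
  have cG : Continuous G := by fun_prop
  have key := slab_Ubh (f := fun y => F (y / √3)) (g := fun y => G (y / √3)) (b := √3 * β)
    (by fun_prop) (by fun_prop) (by positivity) fun y hy => by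
      have a1 : 0 ≤ y / √3 := div_nonneg hy.1 hs.le
      have a2 : y / √3 ≤ β := by
        rw [div_le_iff₀' hs]
        exact hy.2
      simp only [hF, hG]
      rcases max_cases 0 (c - y / √3) with h | h <;>
        rcases max_cases 0 (c' - (β - y / √3)) with h' | h' <;> linarith [h.1, h'.1]
  have e1 : ∫ y in (0 : ℝ)..√3 * β, (G (y / √3) - F (y / √3)) =
      √3 * (2 * α * β - c ^ 2 - c' ^ 2) := by
    rw [intervalIntegral.integral_comp_div (fun u => G u - F u) hs.ne', zero_div,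
      mul_div_cancel_left₀ _ hs.ne', smul_eq_mul]
    congr 1
    have e2 : ∀ u, G u - F u = 2 * α - 2 * max 0 (c - u) - 2 * max 0 (c' - (β - u)) := fun u => by
      simp only [hF, hG]
      ring
    simp only [e2]
    rw [intervalIntegral.integral_sub (Continuous.intervalIntegrable (by fun_prop) _ _)
        (Continuous.intervalIntegrable (by fun_prop) _ _),
      intervalIntegral.integral_sub (by simp) (Continuous.intervalIntegrable (by fun_prop) _ _),
      intervalIntegral.integral_const_mul, intervalIntegral.integral_const_mul,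
      intervalIntegral.integral_const_mul,
      intervalIntegral.integral_comp_sub_left (fun u => max 0 (c' - u)), sub_self, sub_zero,
      int_Ubh h0 h2, int_Ubh h0' h4]
    simp
    ring
  rw [← e1, ← key]
  refine measure_mono ?_
  rintro z ⟨s, u, rfl, a1, a2, a3, a4, a5, a6⟩
  have e3 : (2 * (s : ℂ) + 2 * u * om).im = √3 * u := by
    simp [om]
    ring
  have e4 : (2 * (s : ℂ) + 2 * u * om).re = 2 * s + u := by
    simp [om]
    ring
  simp only [Set.mem_ofPred_eq, e3, e4, mul_div_cancel_left₀ _ hs.ne', hF, hG]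
  refine ⟨⟨by positivity, mul_le_mul_of_nonneg_left a4 hs.le⟩, ?_, ?_⟩
  · rcases max_cases 0 (c - u) with h | h <;> linarith [h.1]
  · rcases max_cases 0 (c' - (β - u)) with h | h <;> linarith [h.1]

end MP7b

end
end

section

open scoped Classical
open MeasureTheory Metric Real

noncomputable section
namespace MP7b

theorem line_Hxc {P : Set ℂ} (hP : Convex ℝ P) (w v : ℂ) {a b r : ℝ} (ha : w + a * v ∈ P)
    (hb : w + b * v ∈ P) (h1 : a ≤ r) (h2 : r ≤ b) : w + r * v ∈ P := by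
  have : Convex ℝ {r : ℝ | w + r * v ∈ P} := fun x hx y hy s t hs ht hst => by
    have e : (s : ℂ) + t = 1 := by exact_mod_cast hst
    have := hP hx hy hs ht hst
    simp only [Set.mem_ofPred_eq, smul_eq_mul, Complex.real_smul] at this ⊢
    convert this using 1
    push_cast
    linear_combination -w * e
  exact this.ordConnected.out ha hb ⟨h1, h2⟩

theorem om_sq_Hxc : om ^ 2 = om - 1 := by
  have : √3 * √3 = 3 := Real.mul_self_sqrt (by norm_num)
  apply Complex.ext <;> simp [om, sq] <;> linarith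

theorem hxc : HXC_st := by
  rintro a u z P e1 e2 hP hz hr _ ⟨s, t, rfl, s0, s1, t0, t1, h1, h2⟩
  have o := om_sq_Hxc
  have E1 : (a 0 : ℂ) + a 5 = a 2 + a 3 := by exact_mod_cast e1
  have E2 : (a 1 : ℂ) + a 2 = a 4 + a 5 := by exact_mod_cast e2
  have r0 := hr 0 (by norm_num)
  have r1 := hr 1 (by norm_num)
  have r2 := hr 2 (by norm_num)
  have r3 := hr 3 (by norm_num)
  have r4 := hr 4 (by norm_num)
  norm_num at r0 r1 r2 r3 r4
  push_cast at s1 t1 h2
  obtain ⟨G, hG⟩ : ∃ G : ℝ → ℝ → Prop, ∀ s t, G s t ↔ z 0 + u * (2 * s + 2 * t * om - 2 * a 5) ∈ P :=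
    ⟨_, fun _ _ => Iff.rfl⟩
  have L : ∀ s t ds dt x y r : ℝ, G (s + x * ds) (t + x * dt) → G (s + y * ds) (t + y * dt) →
      x ≤ r → r ≤ y → G (s + r * ds) (t + r * dt) := fun s t ds dt x y r hx hy k1 k2 => by
    have f : ∀ x : ℝ, G (s + x * ds) (t + x * dt) ↔
        z 0 + u * (2 * s + 2 * t * om - 2 * a 5) + x * (u * (2 * ds + 2 * dt * om)) ∈ P := fun x => by
      rw [hG]
      push_cast
      exact iff_of_eq (congrArg (· ∈ P) (by ring))
    rw [f] at hx hy ⊢
    exact line_Hxc hP _ _ hx hy k1 k2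
  have p0 : G (a 5) 0 := by
    rw [hG]; convert hz 0 using 1; push_cast; ring
  have p1 : G (a 0 + a 5) 0 := by
    rw [hG]; convert hz 1 using 1; push_cast; linear_combination -r0
  have p2 : G (a 0 + a 5) (a 1) := by
    rw [hG]; convert hz 2 using 1; push_cast; linear_combination -r0 - r1
  have p3 : G (a 0 + a 5 - a 2) (a 1 + a 2) := by
    rw [hG]; convert hz 3 using 1; push_cast
    linear_combination -r0 - r1 - r2 - 2 * a 2 * u * o
  have p4 : G 0 (a 1 + a 2) := by
    rw [hG]; convert hz 4 using 1; push_cast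
    linear_combination -r0 - r1 - r2 - r3 - 2 * a 2 * u * o - 2 * a 3 * u * (om + 1) * o -
      2 * u * E1
  have p5 : G 0 (a 5) := by
    rw [hG]; convert hz 5 using 1; push_cast
    linear_combination -r0 - r1 - r2 - r3 - r4 - 2 * a 2 * u * o - 2 * a 3 * u * (om + 1) * o -
      2 * u * E1 - 2 * a 4 * u * (om ^ 2 + om) * o - 2 * u * om * E2
  have A : ∃ s', s' ≤ s ∧ G s' t := by
    rcases le_total t (a 5) with h | h
    · exact ⟨a 5 - t, by linarith, by
        simpa [sub_eq_add_neg] using L (a 5) 0 (-1) 1 0 (a 5) t (by simpa) (by simpa) t0 h⟩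
    · exact ⟨0, s0, by simpa using L 0 0 0 1 (a 5) (a 1 + a 2) t (by simpa) (by simpa) h t1⟩
  have B : ∃ s', s ≤ s' ∧ G s' t := by
    rcases le_total t (a 1) with h | h
    · exact ⟨a 0 + a 5, s1, by
        simpa using L (a 0 + a 5) 0 0 1 0 (a 1) t (by simpa) (by simpa) t0 h⟩
    · refine ⟨a 0 + a 5 + a 1 - t, by linarith, ?_⟩
      have := L (a 0 + a 5 + a 1) 0 (-1) 1 (a 1) (a 1 + a 2) t (by convert p2 using 1 <;> ring)
        (by convert p3 using 1 <;> ring) h t1
      convert this using 1 <;> ring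
  obtain ⟨x, hx, gx⟩ := A
  obtain ⟨y, hy, gy⟩ := B
  rw [← hG]
  simpa using L 0 t 1 0 x y s (by simpa) (by simpa) hx hy

theorem keq : KEQ_st := by
  intro H K hH hn _ hK hR hv
  refine Set.Subset.antisymm (fun x hx => ?_) hR
  by_contra hx'
  obtain ⟨p, hp, hm⟩ := hH.exists_isMinOn hn (f := fun z => dist x z) (by fun_prop)
  have d1 : 1 < dist x p := not_le.1 fun h => hx' ⟨p, hp, h⟩
  obtain ⟨ε, hε⟩ : ∃ ε, ε = (dist x p - 1) / (dist x p + 1) := ⟨_, rfl⟩
  have e0 : 0 < ε := by rw [hε]; exact div_pos (by linarith) (by linarith)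
  have e1 : ε * (dist x p + 1) = dist x p - 1 := by rw [hε]; field_simp
  have e2 : ε ≤ 1 := by nlinarith
  have eC : (ε : ℂ) ≠ 0 := by exact_mod_cast e0.ne'
  have sub : ball (x + ε * (p - x)) ε ⊆ K := fun w hw => by
    have m : p + (w - (x + ε * (p - x))) / ε ∈ K := hR ⟨p, hp, by
      rw [mem_ball, dist_eq_norm] at hw
      rw [dist_eq_norm, add_sub_cancel_left, norm_div, Complex.norm_real, Real.norm_of_nonneg e0.le,
        div_le_one e0]
      exact hw.le⟩
    convert hK.add_smul_sub_mem hx m ⟨e0.le, e2⟩ using 1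
    rw [Complex.real_smul]
    field_simp
    ring
  have dis : Disjoint (Rd H) (ball (x + ε * (p - x)) ε) := Set.disjoint_left.2 fun w ⟨z, hz, h⟩ hw => by
    have a : dist x p ≤ dist x z := hm hz
    have b : dist x (x + ε * (p - x)) = ε * dist x p := by
      rw [dist_self_add_right, norm_mul, Complex.norm_real, Real.norm_of_nonneg e0.le,
        dist_comm, dist_eq_norm]
    have c := dist_triangle4 x (x + ε * (p - x)) w z
    rw [mem_ball'] at hw
    linarith
  have fin : volume (Rd H) ≠ ⊤ :=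
    ((measure_mono (show Rd H ⊆ cthickening 1 H from fun w ⟨z, hz, h⟩ =>
      mem_cthickening_of_dist_le w z 1 H hz h)).trans_lt hH.cthickening.measure_lt_top).ne
  have le := (measure_mono (μ := volume) (Set.union_subset hR sub)).trans hv
  rw [measure_union dis measurableSet_ball] at le
  exact absurd le (not_le.2 (ENNReal.lt_add_right fin (measure_ball_pos _ _ e0).ne'))

end MP7b

end
end

section

open scoped Classical
open MeasureTheory Metric Real

noncomputable section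
namespace MP7b

theorem vol_iso {E F : Type*} [NormedAddCommGroup E] [InnerProductSpace ℝ E]
    [FiniteDimensional ℝ E] [MeasurableSpace E] [BorelSpace E] [NormedAddCommGroup F]
    [InnerProductSpace ℝ F] [FiniteDimensional ℝ F] [MeasurableSpace F] [BorelSpace F]
    (f : E ≃ᵢ F) (s : Set E) : volume (f '' s) = volume s := by
  have h1 : f '' s = (fun x => x + f 0) '' (f.toRealLinearIsometryEquiv '' s) := by
    rw [Set.image_image]
    simp
  rw [h1, Set.image_add_right, measure_preimage_add_right]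
  have h2 := MeasurePreserving.measure_preimage_equiv
    (f := f.toRealLinearIsometryEquiv.symm.toMeasurableEquiv)
    f.toRealLinearIsometryEquiv.symm.measurePreserving s
  rw [← h2]
  congr 1
  exact f.toRealLinearIsometryEquiv.toEquiv.image_eq_preimage_symm s

def MAIN_st : Prop := ∀ X : Finset ℂ, X.Nonempty → Sep X → ∀ K : Set ℂ, Convex ℝ K →
  (∀ x ∈ X, closedBall x 1 ⊆ K) → ENNReal.ofReal (val X.card) ≤ volume K ∧
    (volume K ≤ ENNReal.ofReal (val X.card) → ∃ a, Sides X.card (ps X.card) a ∧ Corners X a)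

theorem mainC (hc : CORE2_st) (hs : SAT_st) (hl : LIN_st) (hG : GST_st) : MAIN_st := by
  intro X hne hS K hK hb
  by_cases hN : NonCol X
  · exact main_nc hc hs hS hN hK hb
  · exact main_col hl hG hne hS hN hK hb

def Data (n p α β c c' : ℕ) : Prop :=
  c ≤ α ∧ c ≤ β ∧ c' ≤ α ∧ c' ≤ β ∧ p + c + c' = 2 * α + 2 * β ∧
    2 * n + c * (c + 1) + c' * (c' + 1) = 2 * (α + 1) * (β + 1)

theorem upper {n p α β c c' : ℕ} (h : Data n p α β c c') :
    (∃ X : Finset ℂ, X.card = n ∧ Sep X ∧ ∀ x ∈ X, x ∈ Hx α β c c') ∧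
    volume (Rd (Hx α β c c')) ≤ ENNReal.ofReal (2 * √3 * ((n : ℝ) - 1) + nu * p + π) := by
  obtain ⟨h1, h2, h3, h4, h5, h6⟩ := h
  refine ⟨(uba α β c c' n h6.le h3 h4).1, ?_⟩
  have k1 : (c : ℝ) ≤ α := by exact_mod_cast h1
  have k2 : (c : ℝ) ≤ β := by exact_mod_cast h2
  have k3 : (c' : ℝ) ≤ α := by exact_mod_cast h3
  have k4 : (c' : ℝ) ≤ β := by exact_mod_cast h4
  have k5 : (p : ℝ) + c + c' = 2 * α + 2 * β := by exact_mod_cast h5
  have k6 : 2 * (n : ℝ) + c * (c + 1) + c' * (c' + 1) = 2 * (α + 1) * (β + 1) := by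
    exact_mod_cast h6
  have c0 : (0 : ℝ) ≤ c := Nat.cast_nonneg _
  have c1 : (0 : ℝ) ≤ c' := Nat.cast_nonneg _
  refine (ubb _ _ _ _ c0 c1 k1 k2 k3 k4).trans ?_
  refine (add_le_add (ubh _ _ _ _ c0 c1 k1 k2 k3 k4) le_rfl).trans ?_
  have p0 : (0 : ℝ) ≤ 2 * α * β - c ^ 2 - c' ^ 2 := by nlinarith
  have p1 : (0 : ℝ) ≤ p := Nat.cast_nonneg _
  rw [← ENNReal.ofReal_add (by positivity) (by linarith [pi_pos])]
  refine ENNReal.ofReal_le_ofReal (le_of_eq ?_)
  unfold nu
  linear_combination (-√3) * k6 + (√3 - 2) * k5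

theorem ball_Rd {H : Set ℂ} {x : ℂ} (hx : x ∈ H) : closedBall x 1 ⊆ Rd H :=
  fun _ hy => ⟨x, hx, hy⟩

theorem Rd_image (f : ℂ ≃ᵢ ℂ) (H : Set ℂ) : Rd (f '' H) = f '' Rd H := by
  ext x
  constructor
  · rintro ⟨_, ⟨z, hz, rfl⟩, h⟩
    exact ⟨f.symm x, ⟨z, hz, by rwa [← f.dist_eq, f.apply_symm_apply]⟩, f.apply_symm_apply x⟩
  · rintro ⟨y, ⟨z, hz, h⟩, rfl⟩
    exact ⟨f z, ⟨z, hz, rfl⟩, by rwa [f.dist_eq]⟩

/-- the motion `x ↦ z + u (x - w)` -/
def mot (z u w : ℂ) (hu : ‖u‖ = 1) : ℂ ≃ᵢ ℂ where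
  toFun x := z + u * (x - w)
  invFun y := w + (y - z) / u
  left_inv x := by
    have : u ≠ 0 := by rintro rfl; simp at hu
    field_simp
    ring
  right_inv y := by
    have : u ≠ 0 := by rintro rfl; simp at hu
    field_simp
    ring
  isometry_toFun := Isometry.of_dist_eq fun x y => by
    rw [dist_eq_norm, dist_eq_norm, show z + u * (x - w) - (z + u * (y - w)) = u * (x - y) by ring,
      norm_mul, hu, one_mul]

theorem vol_hex (hm : MAIN_st) {n α β c c' : ℕ} (hn : 1 ≤ n) (h : Data n (ps n) α β c c') :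
    volume (Rd (Hx α β c c')) = ENNReal.ofReal (val n) := by
  obtain ⟨⟨X, rfl, hS, hX⟩, h2⟩ := upper h
  exact le_antisymm h2 (hm X (Finset.card_pos.1 hn) hS _ (rd_Uba (cvx_Uba _ _ _ _))
    fun x hx => ball_Rd (hX x hx)).1

theorem shape (hm : MAIN_st) {X : Finset ℂ} (hne : X.Nonempty) (hS : Sep X) {K : Set ℂ}
    (hK : Convex ℝ K) (hb : ∀ x ∈ X, closedBall x 1 ⊆ K)
    (hv : volume K ≤ ENNReal.ofReal (val X.card)) :
    ∃ α β c c', Data X.card (ps X.card) α β c c' ∧ ∃ f : ℂ ≃ᵢ ℂ, K = f '' Rd (Hx α β c c') := by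
  obtain ⟨a, ⟨s1, s2, s3, s4⟩, u, z, hu, hz, hz'⟩ := (hm X hne hS K hK hb).2 hv
  have hd : Data X.card (ps X.card) (a 0 + a 5) (a 1 + a 2) (a 5) (a 2) :=
    ⟨by omega, by omega, by omega, by omega, by omega, s4⟩
  refine ⟨_, _, _, _, hd, mot (z 0) u (2 * (a 5 : ℂ)) hu, ?_⟩
  set f := mot (z 0) u (2 * (a 5 : ℂ)) hu with hf
  have hn : 1 ≤ X.card := Finset.card_pos.2 hne
  rw [← Rd_image]
  refine keq _ K ((compact_Ubb _ _ _ _).image f.continuous) ?_ ?_ hK ?_ ?_
  · obtain ⟨⟨Y, hY, -, hY'⟩, -⟩ := upper hd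
    obtain ⟨y, hy⟩ := Finset.card_pos.1 (hY ▸ hn)
    exact ⟨f y, y, hY' y hy, rfl⟩
  · exact (cvx_Uba _ _ _ _).affine_image f.toRealAffineIsometryEquiv.toAffineEquiv.toAffineMap
  · rintro x ⟨_, ⟨y, hy, rfl⟩, h⟩
    exact ball_hull hK hb (hxc a u z _ s1 s2 (convex_convexHull ℝ _)
      (fun j => subset_convexHull ℝ _ (hz j)) hz' y hy) h
  · rw [Rd_image, vol_iso, vol_hex hm hn hd]
    exact hv

end MP7b

end
end
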