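import Pool.Agent.Mg.F7b7a6d.G71ec6f

section

open scoped Classical
open MeasureTheory Metric Real

noncomputable section
namespace MP7b

/-- squared distance -/
def Nq_Bad (u v : ℂ) : ℝ := (u.re - v.re) ^ 2 + (u.im - v.im) ^ 2

theorem dist_sq_Bad (u v : ℂ) : dist u v ^ 2 = Nq_Bad u v := by
  rw [Complex.dist_eq_re_im, Real.sq_sqrt (by positivity), Nq_Bad]

theorem le_iff_Bad {a b c : ℂ} (h : 0 < D a b c) :
    dist a b * dist b c * dist c a ≤ 4 * D a b c ↔
      Nq_Bad a b * Nq_Bad b c * Nq_Bad c a ≤ 16 * D a b c ^ 2 := by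
  rw [← dist_sq_Bad, ← dist_sq_Bad, ← dist_sq_Bad, ← mul_pow, ← mul_pow,
    show 16 * D a b c ^ 2 = (4 * D a b c) ^ 2 by ring,
    pow_le_pow_iff_left₀ (by positivity) (by positivity) two_ne_zero]

theorem centre_Bad {a b c O : ℂ} (h1 : dist b O = dist a O) (h2 : dist c O = dist a O) :
    2 * D a b c * (O.re - a.re) = Nq_Bad b a * (c.im - a.im) - Nq_Bad c a * (b.im - a.im) ∧
    2 * D a b c * (O.im - a.im) = Nq_Bad c a * (b.re - a.re) - Nq_Bad b a * (c.re - a.re) := by
  have e1 := congrArg (· ^ 2) h1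
  have e2 := congrArg (· ^ 2) h2
  simp only [dist_sq_Bad] at e1 e2
  unfold Nq_Bad D at *
  constructor
  · linear_combination (b.im - a.im) * e2 - (c.im - a.im) * e1
  · linear_combination (c.re - a.re) * e1 - (b.re - a.re) * e2

theorem key_Bad {X : Finset ℂ} {t : ℂ → ℂ → ℂ → Prop} (hT : Tri X t) {a b c d : ℂ} (h : t a b c)
    (h' : t b a d) : 0 ≤ Ip c a b * D b a d + Ip d b a * D a b c := by
  obtain ⟨O, h1, h2, h3⟩ := hT.del h
  obtain ⟨e1, e2⟩ := centre_Bad h1 h2
  have := pow_le_pow_left₀ dist_nonneg (h3 d (hT.mem (hT.rot (hT.rot h')))) 2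
  rw [dist_sq_Bad, dist_sq_Bad] at this
  have p := mul_nonneg (hT.pos h).le (sub_nonneg.2 this)
  refine p.trans_eq ?_
  have e : D a b c * (Nq_Bad d O - Nq_Bad a O) = D a b c * Nq_Bad d a -
      (d.re - a.re) * (2 * D a b c * (O.re - a.re)) -
      (d.im - a.im) * (2 * D a b c * (O.im - a.im)) := by
    unfold Nq_Bad; ring
  rw [e, e1, e2]
  unfold Nq_Bad D Ip
  ring

theorem three_Bad {X : Finset ℂ} {t : ℂ → ℂ → ℂ → Prop} (hT : Tri X t) {a b c d : ℂ}
    (h : t a b c) (h' : t b a d) (hI : Ip c a b < 0) : 0 < Ip d b a := by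
  have k := key_Bad hT h h'
  have := mul_neg_of_neg_of_pos hI (hT.pos h')
  exact (mul_pos_iff_of_pos_right (hT.pos h)).1 (by linarith)

theorem rot_Bad {X : Finset ℂ} {t : ℂ → ℂ → ℂ → Prop} (hT : Tri X t) {a b c : ℂ}
    (h : bad t a b c) : bad t b c a := by
  refine ⟨hT.rot h.1, fun e => h.2 ?_⟩
  have : D b c a = D a b c := by unfold D; ring
  rw [this] at e
  linarith

theorem badf : BAD_st := by
  intro X t hT
  refine ⟨fun hS a b c h => ?_, fun a b c d h h' => ?_, fun a b c d h h' => three_Bad hT h h'⟩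
  · by_contra hn
    have i1 : 0 ≤ Ip a b c := not_lt.1 fun e => hn (.inl ⟨h, e⟩)
    have i2 : 0 ≤ Ip b c a := not_lt.1 fun e => hn (.inr (.inl ⟨rot_Bad hT h, e⟩))
    have i3 : 0 ≤ Ip c a b := not_lt.1 fun e => hn (.inr (.inr ⟨rot_Bad hT (rot_Bad hT h), e⟩))
    obtain ⟨O, h1, h2, h3⟩ := hT.del h.1
    obtain ⟨e1, e2⟩ := centre_Bad h1 h2
    have p := hT.pos h.1
    have n : ∀ u v, 0 ≤ Nq_Bad u v := fun u v => by unfold Nq_Bad; positivity
    have hO : O ∈ convexHull ℝ (X : Set ℂ) := by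
      have m := (convex_convexHull ℝ (X : Set ℂ)).sum_mem (t := Finset.univ)
        (w := ![Nq_Bad b c * Ip a b c / (2 * D a b c ^ 2), Nq_Bad c a * Ip b c a / (2 * D a b c ^ 2),
          Nq_Bad b a * Ip c a b / (2 * D a b c ^ 2)]) (z := ![a, b, c])
        (fun i _ => by
          have := n b c
          have := n c a
          have := n b a
          fin_cases i <;> simp <;> positivity)
        (by
          simp only [Fin.sum_univ_three, Matrix.cons_val_zero, Matrix.cons_val_one, Matrix.cons_val]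
          field_simp
          unfold Nq_Bad D Ip
          ring)
        fun i _ => subset_convexHull ℝ _ (by
          fin_cases i
          · exact hT.mem h.1
          · exact hT.mem (hT.rot h.1)
          · exact hT.mem (hT.rot (hT.rot h.1)))
      convert m using 1
      simp only [Fin.sum_univ_three, Matrix.cons_val_zero, Matrix.cons_val_one, Matrix.cons_val]
      apply Complex.ext
      · simp only [Complex.add_re, Complex.smul_re, smul_eq_mul]
        field_simp
        have : O.re * 2 * D a b c ^ 2 =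
            D a b c * (2 * D a b c * (O.re - a.re)) + 2 * D a b c ^ 2 * a.re := by ring
        rw [this, e1]
        unfold Nq_Bad D Ip
        ring
      · simp only [Complex.add_im, Complex.smul_im, smul_eq_mul]
        field_simp
        have : O.im * 2 * D a b c ^ 2 =
            D a b c * (2 * D a b c * (O.im - a.im)) + 2 * D a b c ^ 2 * a.im := by ring
        rw [this, e2]
        unfold Nq_Bad D Ip
        ring
    obtain ⟨x, hx, h4⟩ := hS O hO
    have r := pow_le_pow_left₀ dist_nonneg ((h3 x hx).trans (dist_comm O x ▸ h4)) 2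
    rw [dist_sq_Bad] at r
    refine h.2 ((le_iff_Bad p).2 ?_)
    have e : Nq_Bad a b * Nq_Bad b c * Nq_Bad c a = 4 * D a b c ^ 2 * Nq_Bad a O := by
      have : 4 * D a b c ^ 2 * Nq_Bad a O =
          (2 * D a b c * (O.re - a.re)) ^ 2 + (2 * D a b c * (O.im - a.im)) ^ 2 := by
        unfold Nq_Bad; ring
      rw [this, e1, e2]
      unfold Nq_Bad
      ring
    rw [e]
    nlinarith [sq_nonneg (D a b c)]
  · obtain ⟨⟨h, hb⟩, hI⟩ := h
    have h0 := hT.rot h
    have i := three_Bad hT h0 h' hI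
    refine ⟨⟨h', fun e => hb ?_⟩, i⟩
    have k := key_Bad hT h0 h'
    have p1 := hT.pos h0
    have p2 := hT.pos h'
    rw [le_iff_Bad p2] at e
    rw [le_iff_Bad (hT.pos h), show D c a b = D a b c by unfold D; ring]
    have l1 : Nq_Bad c a * Nq_Bad a b * Nq_Bad b c =
        Nq_Bad a b * (D a b c ^ 2 + Ip c a b ^ 2) := by unfold Nq_Bad D Ip; ring
    have l2 : Nq_Bad b a * Nq_Bad a d * Nq_Bad d b =
        Nq_Bad a b * (D b a d ^ 2 + Ip d b a ^ 2) := by unfold Nq_Bad D Ip; ring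
    rw [l1]
    rw [l2] at e
    have n : 0 ≤ Nq_Bad a b := by unfold Nq_Bad; positivity
    have q : (-Ip c a b * D b a d) ^ 2 ≤ (Ip d b a * D a b c) ^ 2 :=
      pow_le_pow_left₀ (mul_nonneg (by linarith) p2.le) (by linarith) 2
    refine le_of_mul_le_mul_right ?_ (pow_pos p2 2)
    nlinarith [mul_le_mul_of_nonneg_left q n, mul_le_mul_of_nonneg_right e (sq_nonneg (D a b c))]

end MP7b

end
end

section

open scoped Classical
open MeasureTheory Metric Real

noncomputable section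
namespace MP7b

open Set

/-- `p` is the point of the hull nearest to `w`, at distance at most one -/
def Out_Gst (X : Finset ℂ) (p w : ℂ) : Prop :=
  p ∈ convexHull ℝ (X : Set ℂ) ∧ w ≠ p ∧ ‖w - p‖ ≤ 1 ∧ ∀ y ∈ X, Ip p w y ≤ 0

theorem all_Gst {X : Finset ℂ} {p w y : ℂ} (h : Out_Gst X p w)
    (hy : y ∈ convexHull ℝ (X : Set ℂ)) : Ip p w y ≤ 0 := by
  refine convexHull_min (t := {y | Ip p w y ≤ 0}) h.2.2.2 (fun y hy z hz a b ha hb hab => ?_) hy
  have h1 := mul_nonpos_of_nonneg_of_nonpos ha hy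
  have h2 := mul_nonpos_of_nonneg_of_nonpos hb hz
  obtain rfl : b = 1 - a := by linarith
  simp only [mem_ofPred_eq, Ip, Complex.add_re, Complex.add_im, Complex.smul_re, Complex.smul_im,
    smul_eq_mul] at *
  linarith

theorem eq_Gst {a b : ℂ} (h : (a.re - b.re) ^ 2 + (a.im - b.im) ^ 2 ≤ 0) : a = b :=
  Complex.ext (by nlinarith [sq_nonneg (a.re - b.re), sq_nonneg (a.im - b.im)])
    (by nlinarith [sq_nonneg (a.re - b.re), sq_nonneg (a.im - b.im)])

theorem uniq_Gst {X : Finset ℂ} {p p' w : ℂ} (h : Out_Gst X p w) (h' : Out_Gst X p' w) :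
    p = p' := by
  have h1 := all_Gst h h'.1
  have h2 := all_Gst h' h.1
  unfold Ip at h1 h2
  exact eq_Gst (by linarith)

theorem not_Gst {X : Finset ℂ} {p w : ℂ} (h : Out_Gst X p w) : w ∉ convexHull ℝ (X : Set ℂ) :=
  fun hw => h.2.1 (eq_Gst (by have := all_Gst h hw; unfold Ip at this; linarith))

theorem add_Gst {X : Finset ℂ} {K : Set ℂ} (hK : Convex ℝ K) (hX : ∀ x ∈ X, closedBall x 1 ⊆ K)
    {p u : ℂ} (hp : p ∈ convexHull ℝ (X : Set ℂ)) (hu : ‖u‖ ≤ 1) : p + u ∈ K :=
  convexHull_min (t := (fun x => x + u) ⁻¹' K) (fun x hx => hX x hx (by simpa using hu))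
    (hK.translate_preimage_left u) hp

/-- the unit vector along a dart -/
def e_Gst (q : ℂ × ℂ) : ℂ := (q.2 - q.1) / ‖q.2 - q.1‖

/-- the rectangle over a dart -/
def R_Gst (q : ℂ × ℂ) : Set ℂ :=
  (fun w => (e_Gst q)⁻¹ * (w - q.1)) ⁻¹' (Ioo 0 ‖q.2 - q.1‖ ×ℂ Ioo 0 1)

theorem en_Gst {q : ℂ × ℂ} (h : q.1 ≠ q.2) : ‖e_Gst q‖ = 1 := by
  rw [e_Gst, norm_div, Complex.norm_real, norm_norm, div_self (norm_sub_pos_iff.2 h.symm).ne']

theorem ee_Gst {q : ℂ × ℂ} (h : q.1 ≠ q.2) : q.2 - q.1 = e_Gst q * ‖q.2 - q.1‖ := by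
  rw [e_Gst, div_mul_cancel₀ _ (Complex.ofReal_ne_zero.2 (norm_sub_pos_iff.2 h.symm).ne')]

theorem Rm_Gst (q : ℂ × ℂ) : MeasurableSet (R_Gst q) :=
  (isOpen_Ioo.reProdIm isOpen_Ioo).measurableSet.preimage (by fun_prop)

theorem Rv_Gst {q : ℂ × ℂ} (h : q.1 ≠ q.2) : volume (R_Gst q) = ENNReal.ofReal (dist q.1 q.2) := by
  have h1 : MeasurePreserving (fun w => (e_Gst q)⁻¹ * (w - q.1)) volume volume :=
    (rotation ⟨(e_Gst q)⁻¹, by simp [Submonoid.unitSphere, en_Gst h]⟩).measurePreserving.comp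
      (measurePreserving_sub_right volume q.1)
  rw [R_Gst, h1.measure_preimage (isOpen_Ioo.reProdIm isOpen_Ioo).measurableSet.nullMeasurableSet]
  have h2 := Complex.volume_preserving_equiv_real_prod.measure_preimage
    (s := Ioo 0 ‖q.2 - q.1‖ ×ˢ Ioo 0 1) (measurableSet_Ioo.prod measurableSet_Ioo).nullMeasurableSet
  rw [Measure.volume_eq_prod, Measure.prod_prod, Real.volume_Ioo, Real.volume_Ioo] at h2
  refine Eq.trans rfl (h2.trans ?_)
  simp [dist_comm q.1, dist_eq_norm]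

theorem Ro_Gst {X : Finset ℂ} {q : ℂ × ℂ} (h1 : q.1 ∈ X) (h2 : q.2 ∈ X) (h : q.1 ≠ q.2)
    (hD : ∀ x ∈ X, D q.1 q.2 x ≤ 0) {w : ℂ} (hw : w ∈ R_Gst q) :
    ∃ s r : ℝ, 0 < s ∧ s < ‖q.2 - q.1‖ ∧ 0 < r ∧ w = q.1 + e_Gst q * s + e_Gst q * (r * Complex.I) ∧
      Out_Gst X (q.1 + e_Gst q * s) w := by
  have n1 := en_Gst h
  have n0 : e_Gst q ≠ 0 := norm_ne_zero_iff.1 (n1 ▸ one_ne_zero)
  have e1 := ee_Gst h
  have L0 := norm_sub_pos_iff.2 h.symm
  obtain ⟨z, rfl⟩ : ∃ z, w = q.1 + e_Gst q * z := ⟨(e_Gst q)⁻¹ * (w - q.1), by field_simp; ring⟩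
  rw [R_Gst, mem_preimage, add_sub_cancel_left, inv_mul_cancel_left₀ n0] at hw
  obtain ⟨⟨a1, a2⟩, b1, b2⟩ := hw
  have e2 : q.1 + e_Gst q * z - (q.1 + e_Gst q * z.re) = e_Gst q * (z.im * Complex.I) := by
    conv_lhs => rw [← Complex.re_add_im z]
    simp only [Complex.add_re, Complex.ofReal_re, Complex.mul_I_re, Complex.ofReal_im]
    push_cast
    ring
  refine ⟨z.re, z.im, a1, a2, b1, by rw [← e2]; ring, ?_, ?_, ?_, fun y hy => ?_⟩
  · have := (convex_convexHull ℝ (X : Set ℂ)).add_smul_sub_mem (subset_convexHull ℝ _ h1)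
      (subset_convexHull ℝ _ h2) (t := z.re / ‖q.2 - q.1‖)
      ⟨by positivity, (div_le_one L0).2 a2.le⟩
    rwa [Complex.real_smul, Complex.ofReal_div, div_mul_comm, mul_comm, mul_comm] at this
  · rw [← sub_ne_zero, e2]
    exact mul_ne_zero n0 (mul_ne_zero (Complex.ofReal_ne_zero.2 b1.ne') Complex.I_ne_zero)
  · rw [e2]
    simp [n1, abs_of_pos b1, b2.le]
  · have d := hD y hy
    have r1 := congrArg Complex.re e1
    have r2 := congrArg Complex.im e1
    rw [D, ← Complex.sub_re q.2, ← Complex.sub_im q.2, r1, r2] at d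
    rw [Ip, ← Complex.sub_re (_ + _ * z), ← Complex.sub_im (_ + _ * z), e2]
    generalize e_Gst q = e at *
    generalize ‖q.2 - q.1‖ = L at *
    simp at d ⊢
    have : e.re * (y.im - q.1.im) - e.im * (y.re - q.1.re) ≤ 0 :=
      nonpos_of_mul_nonpos_left (by linarith) L0
    linarith [mul_nonpos_of_nonneg_of_nonpos b1.le this]

theorem Sm_Gst (X : Finset ℂ) {x : ℂ} (hx : x ∈ X) : MeasurableSet {w | Out_Gst X x w} := by
  have : {w | Out_Gst X x w} = {x}ᶜ ∩ (closedBall x 1 ∩ ⋂ y ∈ X, {w | Ip x w y ≤ 0}) := by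
    ext w
    simp [Out_Gst, subset_convexHull ℝ (X : Set ℂ) hx, dist_eq_norm]
  rw [this]
  refine (measurableSet_singleton x).compl.inter (measurableSet_closedBall.inter
    (X.measurableSet_biInter fun y _ => (isClosed_le ?_ continuous_const).measurableSet))
  unfold Ip
  fun_prop

theorem Sv_Gst {X : Finset ℂ} (hX : X.Nonempty) :
    ENNReal.ofReal π ≤ ∑ x ∈ X, volume {w | Out_Gst X x w} := by
  have h1 : ENNReal.ofReal π = volume (closedBall (0 : ℂ) 1 \ {0}) := by
    rw [measure_sdiff_null (measure_singleton _), Complex.volume_closedBall]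
    simp [← NNReal.coe_real_pi]
  rw [h1, Finset.sum_congr rfl fun x _ => (measure_preimage_add volume x _).symm]
  refine (measure_mono fun u hu => ?_).trans (measure_biUnion_finset_le _ _)
  obtain ⟨x, hx, h⟩ := X.exists_max_image (fun y => u.re * y.re + u.im * y.im) hX
  refine mem_biUnion hx ⟨subset_convexHull ℝ _ hx, by simpa using hu.2, by simpa using hu.1,
    fun y hy => ?_⟩
  have := h y hy
  simp only [Ip, Complex.add_re, Complex.add_im]
  linarith

theorem gst : GST_st := by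
  intro X H K hX hK hb hH
  have seg : ∀ q ∈ H, ∀ x ∈ X, ∀ s : ℝ, 0 < s → s < ‖q.2 - q.1‖ → x ≠ q.1 + e_Gst q * s := by
    intro q hq x hx s h0 h1 e
    refine (hH q hq).2.2.2.2 x hx (s / ‖q.2 - q.1‖) (div_pos h0 (h0.trans h1))
      ((div_lt_one (h0.trans h1)).2 h1) ?_
    rw [e, e_Gst]
    push_cast
    ring
  have ro := fun q (hq : q ∈ H) => @Ro_Gst X q (hH q hq).1 (hH q hq).2.1 (hH q hq).2.2.1
    (hH q hq).2.2.2.1
  have dR : (H : Set (ℂ × ℂ)).PairwiseDisjoint R_Gst := by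
    intro q hq q' hq' ne
    refine Set.disjoint_left.2 fun w hw hw' => ne ?_
    obtain ⟨s, r, a1, a2, a3, a4, a5⟩ := ro q hq hw
    obtain ⟨s', r', b1, b2, b3, b4, b5⟩ := ro q' hq' hw'
    have c1 := uniq_Gst a5 b5
    have c2 : e_Gst q * (r * Complex.I) = e_Gst q' * (r' * Complex.I) := by
      rw [c1] at a4
      exact add_left_cancel (a4.symm.trans b4)
    obtain rfl : r = r' := by
      simpa [en_Gst (hH q hq).2.2.1, en_Gst (hH q' hq').2.2.1, abs_of_pos a3, abs_of_pos b3]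
        using congrArg norm c2
    have c3 := mul_right_cancel₀
      (mul_ne_zero (Complex.ofReal_ne_zero.2 a3.ne') Complex.I_ne_zero) c2
    have c4 := ee_Gst (hH q hq).2.2.1
    have c5 := ee_Gst (hH q' hq').2.2.1
    obtain rfl : s = s' := le_antisymm
      (not_lt.1 fun h => seg q hq _ (hH q' hq').1 (s - s') (by linarith) (by linarith)
        (by push_cast; rw [c3] at c1 ⊢; linear_combination -c1))
      (not_lt.1 fun h => seg q' hq' _ (hH q hq).1 (s' - s) (by linarith) (by linarith)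
        (by push_cast; rw [c3] at c1; linear_combination c1))
    have c6 : q.1 = q'.1 := by
      rw [c3] at c1
      exact add_right_cancel c1
    have c7 : ‖q.2 - q.1‖ = ‖q'.2 - q'.1‖ := le_antisymm
      (not_lt.1 fun h => seg q hq _ (hH q' hq').2.1 _ (b1.trans b2) h
        (by rw [c3]; linear_combination c5 - c6))
      (not_lt.1 fun h => seg q' hq' _ (hH q hq).2.1 _ (a1.trans a2) h
        (by rw [← c3]; linear_combination c4 + c6))
    refine Prod.ext c6 ?_
    rw [c7, c3] at c4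
    linear_combination c4 - c5 + c6
  have dS : (X : Set ℂ).PairwiseDisjoint fun x => {w | Out_Gst X x w} := fun x _ x' _ ne =>
    Set.disjoint_left.2 fun w hw hw' => ne (uniq_Gst hw hw')
  have mR := H.measurableSet_biUnion fun q _ => Rm_Gst q
  have mS := X.measurableSet_biUnion fun x hx => Sm_Gst X hx
  have out : ∀ w ∈ (⋃ q ∈ H, R_Gst q) ∪ ⋃ x ∈ X, {w | Out_Gst X x w}, ∃ p, Out_Gst X p w := by
    rintro w (hw | hw)
    · obtain ⟨q, hq, hw⟩ := mem_iUnion₂.1 hw
      obtain ⟨s, r, -, -, -, -, h⟩ := ro q hq hw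
      exact ⟨_, h⟩
    · obtain ⟨x, -, hw⟩ := mem_iUnion₂.1 hw
      exact ⟨_, hw⟩
  refine le_trans ?_ (measure_mono (s := convexHull ℝ (X : Set ℂ) ∪
    ((⋃ q ∈ H, R_Gst q) ∪ ⋃ x ∈ X, {w | Out_Gst X x w})) ?_)
  · rw [measure_union _ (mR.union mS), measure_union _ mS,
      measure_biUnion_finset dR fun q _ => Rm_Gst q,
      measure_biUnion_finset dS fun x hx => Sm_Gst X hx,
      ENNReal.ofReal_add (Finset.sum_nonneg fun _ _ => dist_nonneg) pi_pos.le,
      ENNReal.ofReal_sum_of_nonneg fun _ _ => dist_nonneg,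
      Finset.sum_congr rfl fun q hq => Rv_Gst (hH q hq).2.2.1]
    · exact add_le_add le_rfl (add_le_add le_rfl (Sv_Gst hX))
    · refine Set.disjoint_left.2 fun w hw hw' => ?_
      obtain ⟨q, hq, hw⟩ := mem_iUnion₂.1 hw
      obtain ⟨x, hx, hw'⟩ := mem_iUnion₂.1 hw'
      obtain ⟨s, r, a1, a2, -, -, h⟩ := ro q hq hw
      exact seg q hq x hx s a1 a2 (uniq_Gst hw' h)
    · exact Set.disjoint_right.2 fun w hw => (out w hw).elim fun p hp => not_Gst hp
  · rintro w (hw | hw)
    · simpa using add_Gst hK hb hw (u := 0) (by simp)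
    · obtain ⟨p, hp⟩ := out w hw
      simpa using add_Gst hK hb hp.1 hp.2.2.1

end MP7b

end
end

section

/-! Slack of an obtuse triangle and the equality case. -/

open scoped Classical
open MeasureTheory Metric Real

noncomputable section
namespace MP7b

lemma cosine_Slk (a b c : ℂ) :
    dist a b ^ 2 = dist c a ^ 2 + dist b c ^ 2 - 2 * Ip c a b := by
  rw [Complex.dist_eq_re_im, Complex.dist_eq_re_im, Complex.dist_eq_re_im,
    Real.sq_sqrt (by positivity), Real.sq_sqrt (by positivity), Real.sq_sqrt (by positivity)]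
  unfold Ip
  ring

lemma sqrt3_Slk : 1.732 < √3 ∧ √3 < 1.7321 := by
  constructor
  · exact Real.lt_sqrt_of_sq_lt (by norm_num)
  · rw [Real.sqrt_lt' (by norm_num)]; norm_num

theorem slk (hA : ANG_st) : SLK_st := by
  intro a b c hD hI hp hq
  obtain ⟨h0, h3, -, hS, hC⟩ := hA c a b hD
  have hl := cosine_Slk a b c
  have h3' := sqrt3_Slk
  have hpi := Real.pi_pos
  have hl0 : 0 ≤ dist a b := dist_nonneg
  set p := dist c a
  set q := dist b c
  set l := dist a b
  set θ := ang c a b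
  have hpq : 4 ≤ p * q := by nlinarith
  have hsc := Real.sin_sq_add_cos_sq (π / 3 * θ)
  have hC0 : cos (π / 3 * θ) < 0 := by
    by_contra h
    have := mul_nonneg (show 0 ≤ p * q by linarith) (not_lt.1 h)
    linarith
  have hφ : π / 3 * (3 - θ) = π - π / 3 * θ := by ring
  have hφ0 : 0 ≤ π / 3 * (3 - θ) := mul_nonneg (by positivity) (by linarith)
  have hφ1 : π / 3 * (3 - θ) ≤ π / 2 := by
    by_contra h
    have h1 : 0 ≤ π / 3 * θ := by positivity
    have h2 := Real.cos_nonneg_of_neg_pi_div_two_le_of_le (x := π / 3 * θ) (by linarith)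
      (by linarith)
    linarith
  have h4 := Real.mul_le_sin hφ0 hφ1
  have h5 : 2 / π * (π / 3 * (3 - θ)) = 2 / 3 * (3 - θ) := by field_simp
  rw [h5, hφ, Real.sin_pi_sub] at h4
  set S := sin (π / 3 * θ)
  set C := cos (π / 3 * θ)
  have hS0 : 0 ≤ S := by linarith
  have h6 : 1 + C ≤ S := by
    by_contra h
    nlinarith [mul_nonneg hS0 (neg_nonneg.2 hC0.le)]
  have h7 : 2.8 ≤ l := by
    by_contra h
    nlinarith
  have h8 : (q + p - l) * (q + p + l) ≤ 2 * D c a b := by
    have := mul_le_mul_of_nonneg_left h6 (show 0 ≤ p * q by linarith)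
    nlinarith
  have h9 : (q + p - l) * 6.8 ≤ 2 * D c a b := by
    rcases le_total (q + p - l) 0 with h | h
    · nlinarith
    · have := mul_le_mul_of_nonneg_left (show 6.8 ≤ q + p + l by linarith) h
      linarith
  have h10 : 4 * S ≤ D c a b := by
    rw [hS]; exact mul_le_mul_of_nonneg_right hpq hS0
  have h11 : 2 * nu * (3 - θ) ≤ 0.536 * (3 - θ) := by
    apply mul_le_mul_of_nonneg_right _ (by linarith)
    unfold nu; linarith
  linarith

theorem eq0 (hA : ANG_st) : EQ0_st := by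
  intro a b c hD hab hbc hca h1 h2 hd
  have hD2 : D b c a = D a b c := by unfold D; ring
  have hD3 : D c a b = D a b c := by unfold D; ring
  obtain ⟨-, -, hsum, hS1, hC1⟩ := hA a b c hD
  obtain ⟨-, -, -, hS2, hC2⟩ := hA b c a (by rw [hD2]; exact hD)
  obtain ⟨-, -, -, hS3, hC3⟩ := hA c a b (by rw [hD3]; exact hD)
  have h3 : ang c a b = 1 := by linarith
  rw [h1, mul_one] at hS1 hC1
  rw [h2, mul_one] at hS2 hC2
  rw [h3, mul_one] at hS3 hC3
  rw [Real.sin_pi_div_three] at hS1 hS2 hS3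
  rw [Real.cos_pi_div_three] at hC1 hC2 hC3
  rw [hD2] at hS2
  rw [hD3] at hS3
  have hs := sqrt3_Slk
  have hnu : 0 < nu := by unfold nu; linarith
  have e1 : dist c a = dist b c := by
    have h : dist a b * (√3 / 2) * dist c a = dist a b * (√3 / 2) * dist b c := by linarith
    exact mul_left_cancel₀ (by positivity) h
  have e2 : dist b c = dist a b := by
    have h : dist c a * (√3 / 2) * dist b c = dist c a * (√3 / 2) * dist a b := by linarith
    exact mul_left_cancel₀ (by positivity) h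
  have s1 : sg c a b = -1 := by
    unfold sg; rw [if_neg]; rw [hC3, not_lt]; positivity
  have s2 : sg a b c = -1 := by
    unfold sg; rw [if_neg]; rw [hC1, not_lt]; positivity
  have s3 : sg b c a = -1 := by
    unfold sg; rw [if_neg]; rw [hC2, not_lt]; positivity
  unfold dl at hd
  rw [div_le_iff₀ (by linarith), s1, s2, s3, zero_mul] at hd
  unfold cap at hd
  rw [e1, e2] at hd hS1
  rw [hS1] at hd
  set l := dist a b
  rcases le_or_gt (l ^ 2) 8 with h | h
  · rw [max_eq_right (by linarith), min_eq_left (by norm_num)] at hd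
    have h4 : l * l * √3 ≤ 4 * √3 := by linarith
    have h5 : l * l ≤ 4 := le_of_mul_le_mul_right h4 (by linarith)
    nlinarith
  · exfalso
    have h4 : nu / 2 * min (max (l ^ 2 - 8) 0) 4 ≤ nu / 2 * 4 :=
      mul_le_mul_of_nonneg_left (min_le_right _ _) (by linarith)
    have h5 : 8 * √3 ≤ l * l * √3 := mul_le_mul_of_nonneg_right (by nlinarith) (by linarith)
    have h6 : nu = 2 - √3 := rfl
    linarith

end MP7b

end
end

section

open scoped Classical
open MeasureTheory Metric Real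

noncomputable section
namespace MP7b

theorem conc_Stu {x y t : ℝ} (hx : 0 ≤ x) (hxy : x ≤ y) (hy : y ≤ π) (h0 : 0 ≤ t) (h1 : t ≤ 1) :
    (1 - t) * sin x + t * sin y ≤ sin ((1 - t) * x + t * y) :=
  strictConcaveOn_sin_Icc.concaveOn.2 ⟨hx, hxy.trans hy⟩ ⟨hx.trans hxy, hy⟩ (by linarith) h0
    (by ring)

theorem half_Stu {x : ℝ} (h0 : 0 < x) (h : 1 / 2 ≤ sin (π / 3 * x)) : 1 / 2 ≤ x := by
  by_contra hx
  have hp := pi_pos
  have := sin_lt_sin_of_lt_of_le_pi_div_two (x := π / 3 * x) (y := π / 6) (by nlinarith)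
    (by linarith) (by nlinarith)
  rw [sin_pi_div_six] at this
  linarith

theorem s3_Stu : (1.7 : ℝ) < √3 ∧ √3 < 1.8 :=
  ⟨Real.lt_sqrt_of_sq_lt (by norm_num), (Real.sqrt_lt' (by norm_num)).2 (by norm_num)⟩

theorem low_Stu {x : ℝ} (h1 : 1 ≤ x) (h2 : x ≤ 3 / 2) :
    √3 + 2 * nu * (x - 1) ≤ 2 * sin (π / 3 * x) := by
  have hp := pi_pos
  have := conc_Stu (x := π / 3) (y := π / 2) (t := 2 * (x - 1)) (by linarith) (by linarith)
    (by linarith) (by linarith) (by linarith)
  rw [sin_pi_div_three, sin_pi_div_two,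
    show (1 - 2 * (x - 1)) * (π / 3) + 2 * (x - 1) * (π / 2) = π / 3 * x by ring] at this
  unfold nu
  linarith

theorem high_Stu {x : ℝ} (h1 : 3 / 2 ≤ x) (h2 : x ≤ 2) :
    √3 + 2 * nu * (x - 1) ≤ 2 * sin (π / 3 * x) - 4 * nu * cos (π / 3 * x) := by
  have hp := pi_pos
  have a1 := conc_Stu (x := π / 2) (y := π - π / 3) (t := 2 * x - 3) (by linarith) (by linarith)
    (by linarith) (by linarith) (by linarith)
  rw [sin_pi_sub, sin_pi_div_three, sin_pi_div_two,
    show (1 - (2 * x - 3)) * (π / 2) + (2 * x - 3) * (π - π / 3) = π / 3 * x by ring] at a1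
  have a2 := conc_Stu (x := 0) (y := π / 6) (t := 2 * x - 3) le_rfl (by linarith)
    (by linarith) (by linarith) (by linarith)
  rw [sin_zero, sin_pi_div_six,
    show (1 - (2 * x - 3)) * 0 + (2 * x - 3) * (π / 6) = π / 3 * x - π / 2 by ring,
    sin_sub_pi_div_two] at a2
  have hn : 0 ≤ nu := by unfold nu; linarith [s3_Stu.2]
  have a3 := mul_le_mul_of_nonneg_left a2 hn
  unfold nu at *
  linarith

theorem dsq_Stu (a b : ℂ) : dist a b ^ 2 = (a.re - b.re) ^ 2 + (a.im - b.im) ^ 2 := by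
  rw [Complex.dist_eq, Complex.sq_norm, Complex.normSq_apply, Complex.sub_re, Complex.sub_im]
  ring

theorem cap0_Stu {a b : ℂ} (h : dist a b ^ 2 ≤ 8) : cap a b = 0 := by
  unfold cap
  rw [max_eq_right (by linarith), min_eq_left (by norm_num), mul_zero]

theorem capm_Stu {a b c d : ℂ} (h : dist a b ^ 2 ≤ dist c d ^ 2) : cap a b ≤ cap c d := by
  have hn : 0 ≤ nu / 2 := by unfold nu; linarith [s3_Stu.2]
  exact mul_le_mul_of_nonneg_left (min_le_min_right _ (max_le_max_right _ (by linarith))) hn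

theorem area_Stu {A B C I d : ℝ} (hd : 0 < d) (h1 : C = A + B - 2 * I)
    (h2 : d ^ 2 + I ^ 2 = A * B) (a4 : 4 ≤ A) (b4 : 4 ≤ B) (c4 : 4 ≤ C) (a8 : A < 8) (b8 : B < 8)
    (c8 : C < 8) : 2 * √3 ≤ d := by
  refine abs_le_of_sq_le_sq' ?_ hd.le |>.2
  rw [mul_pow, Real.sq_sqrt (by norm_num)]
  have : I = (A + B - C) / 2 := by linarith
  subst this
  nlinarith [mul_nonneg (sub_nonneg.2 a4) (sub_nonneg.2 b4),
    mul_nonneg (sub_nonneg.2 a4) (sub_nonneg.2 c4), mul_nonneg (sub_nonneg.2 c4) (sub_nonneg.2 b4),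
    mul_nonneg (sub_nonneg.2 a4) (sub_nonneg.2 a8.le),
    mul_nonneg (sub_nonneg.2 b4) (sub_nonneg.2 b8.le),
    mul_nonneg (sub_nonneg.2 c4) (sub_nonneg.2 c8.le)]

theorem side_Stu {p q l s d : ℝ} (hp : 2 ≤ p) (hq : 2 ≤ q) (h : p * q * l ≤ 4 * d)
    (hd : d = p * q * s) : l ≤ 4 * s :=
  le_of_mul_le_mul_left (a := p * q) (by rw [hd] at h; linarith) (by positivity)

theorem cos1_Stu {x : ℝ} (h3 : x < 3) (h : 0 ≤ cos (π / 3 * x)) : x ≤ 3 / 2 := by
  by_contra hx
  have hpi := pi_pos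
  have := cos_neg_of_pi_div_two_lt_of_lt (x := π / 3 * x) (by nlinarith) (by nlinarith)
  linarith

theorem cos2_Stu {x : ℝ} (h0 : 0 < x) (h : cos (π / 3 * x) < 0) : 3 / 2 ≤ x := by
  by_contra hx
  have hpi := pi_pos
  have := cos_nonneg_of_neg_pi_div_two_le_of_le (x := π / 3 * x) (by nlinarith) (by nlinarith)
  linarith

theorem cos3_Stu {x : ℝ} (h0 : 0 < x) (h : x ≤ 2) : -(1 / 2) ≤ cos (π / 3 * x) := by
  have hpi := pi_pos
  have := cos_le_cos_of_nonneg_of_le_pi (x := π / 3 * x) (y := π - π / 3) (by positivity)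
    (by linarith) (by nlinarith)
  rwa [cos_pi_sub, cos_pi_div_three] at this

theorem big_Stu {m s c d x : ℝ} (hd : 0 < d) (e : d = m * s) (h1 : s ^ 2 + c ^ 2 = 1)
    (c0 : c ≤ 0) (c1 : -(1 / 2) ≤ c) (hx : x ≤ 2) (h : 32 ≤ m ^ 2) :
    √3 + (x - 1) * (2 * nu) ≤ d / 2 := by
  obtain ⟨s1, s2⟩ := s3_Stu
  have e1 : 3 / 4 ≤ s ^ 2 := by nlinarith
  have e2 : 24 ≤ d ^ 2 := by rw [e, mul_pow]; nlinarith
  have e3 : 4.8 ≤ d := by nlinarith
  unfold nu
  nlinarith

theorem sq4_Stu {p : ℝ} (hp : 2 ≤ p) : 4 ≤ p ^ 2 := by nlinarith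

theorem stu (hA : ANG_st) (hS : STA_st) : STU_st := by
  intro a b c hD hp hl hq hR
  have hn : 0 < nu := by unfold nu; linarith [s3_Stu.2]
  obtain ⟨a0, a3, asum, aD, aI⟩ := hA a b c hD
  have eb : D b c a = D a b c := by unfold D; ring
  have ec : D c a b = D a b c := by unfold D; ring
  obtain ⟨b0, -, -, bD, -⟩ := hA b c a (by rwa [eb])
  obtain ⟨c0, -, -, cD, -⟩ := hA c a b (by rwa [ec])
  rw [eb] at bD
  rw [ec] at cD
  have hlaw : dist b c ^ 2 = dist a b ^ 2 + dist c a ^ 2 - 2 * Ip a b c := by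
    simp only [dsq_Stu, Ip]; ring
  have hIb : Ip b c a = dist a b ^ 2 - Ip a b c := by simp only [dsq_Stu, Ip]; ring
  have hIc : Ip c a b = dist c a ^ 2 - Ip a b c := by simp only [dsq_Stu, Ip]; ring
  have hDI : D a b c ^ 2 + Ip a b c ^ 2 = dist a b ^ 2 * dist c a ^ 2 := by
    simp only [dsq_Stu, Ip, D]; ring
  have hS' := hS a b c hD hp hl hq hR
  have k0 := @cap0_Stu a b
  have k1 := @cap0_Stu b c
  have k2 := @cap0_Stu c a
  have m0 := @capm_Stu a b b c
  have m2 := @capm_Stu c a b c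
  have kl : cap b c = nu / 2 * min (max (dist b c ^ 2 - 8) 0) 4 := rfl
  unfold dl at hS' ⊢
  unfold sg at hS' ⊢
  clear eb ec hA hS
  generalize cap a b = u0, cap b c = u1, cap c a = u2, Ip b c a = Ib, Ip c a b = Ic,
    Ip a b c = I, D a b c = d, ang a b c = x, ang b c a = y, ang c a b = z, dist a b = p,
    dist b c = l, dist c a = q at *
  have hpq : 4 ≤ p * q := by
    have := mul_le_mul hp hq (by norm_num) (by linarith)
    linarith
  have hb : 1 / 2 ≤ y := half_Stu b0 (by linarith [side_Stu (l := q) hl hp (by linarith) bD])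
  have hc : 1 / 2 ≤ z := half_Stu c0 (by linarith [side_Stu (l := p) hq hl (by linarith) cD])
  have hls := side_Stu (l := l) hp hq (by linarith) aD
  have hl4 : l ≤ 4 := by linarith [sin_le_one (π / 3 * x)]
  have hd4 : 4 * sin (π / 3 * x) ≤ d := by
    rw [aD]; exact mul_le_mul_of_nonneg_right hpq (by linarith)
  have hp2 := sq4_Stu hp
  have hq2 := sq4_Stu hq
  have hl2 := sq4_Stu hl
  clear bD cD hR
  rcases le_or_gt 0 I with hI | hI
  · have hx : x ≤ 3 / 2 :=
      cos1_Stu a3 (nonneg_of_mul_nonneg_right (aI ▸ hI) (by linarith : 0 < p * q))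
    by_cases h8 : 8 ≤ p ^ 2 ∨ 8 ≤ l ^ 2 ∨ 8 ≤ q ^ 2
    · exact le_trans (by linarith) (hS' h8)
    push Not at h8
    rw [k0 h8.1.le, k1 h8.2.1.le, k2 h8.2.2.le, le_div_iff₀ (by positivity)]
    simp only [mul_zero, add_zero]
    rcases le_total 1 x with h1 | h1
    · linarith [low_Stu h1 hx]
    · have e2 := area_Stu hD hlaw hDI hp2 hq2 hl2 h8.1 h8.2.2 h8.2.1
      have e3 : (x - 1) * (2 * nu) ≤ 0 :=
        mul_nonpos_of_nonpos_of_nonneg (by linarith) (by linarith)
      linarith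
  · have hc0 : cos (π / 3 * x) < 0 := neg_of_mul_neg_right (aI ▸ hI) (by linarith : 0 ≤ p * q)
    have hx := cos2_Stu a0 hc0
    have hx2 : x ≤ 2 := by linarith
    have hcos := cos3_Stu a0 hx2
    clear hS'
    rw [if_pos hI, if_neg (by linarith), if_neg (by linarith), le_div_iff₀ (by positivity)]
    have hl16 : l ^ 2 ≤ 4 ^ 2 := pow_le_pow_left₀ (by linarith) hl4 2
    have big := big_Stu hD aD (sin_sq_add_cos_sq _) hc0.le hcos hx2
    rw [mul_pow] at big
    rcases le_total (p ^ 2) 8 with g1 | g1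
    · rcases le_total (q ^ 2) 8 with g2 | g2
      · have e0 := mul_le_mul_of_nonpos_right hpq hc0.le
        have e1 : -(8 * cos (π / 3 * x)) ≤ min (max (l ^ 2 - 8) 0) 4 :=
          le_min (le_max_of_le_left (by linarith)) (by linarith)
        have e2 := mul_le_mul_of_nonneg_left e1 (by positivity : 0 ≤ nu / 2)
        rw [k0 g1, k2 g2, kl]
        linarith [high_Stu hx hx2]
      · rw [k0 g1]
        have := mul_le_mul hp2 g2 (by norm_num) (by linarith)
        linarith [big (by linarith), m2 (by linarith)]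
    · rw [k2 (by linarith)]
      have := mul_le_mul g1 hq2 (by norm_num) (by linarith)
      linarith [big (by linarith), m0 (by linarith)]

end MP7b

end
end

section

open scoped Classical
open MeasureTheory Metric Real

noncomputable section
namespace MP7b

theorem tilt_TRb (X : Finset ℂ) (h A φ : ℂ → ℝ) (hA : ∀ x ∈ X, A x ≤ h x) (x0 : ℂ) (hx0 : x0 ∈ X)
    (hφ : 0 < φ x0) : ∃ c ∈ X, 0 < φ c ∧ ∃ s : ℝ, (∀ x ∈ X, A x + s * φ x ≤ h x) ∧
      A c + s * φ c = h c := by
  obtain ⟨c, hc, hmin⟩ := Finset.exists_min_image (X.filter fun x => 0 < φ x)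
    (fun x => (h x - A x) / φ x) ⟨x0, Finset.mem_filter.2 ⟨hx0, hφ⟩⟩
  obtain ⟨hcX, hc0⟩ := Finset.mem_filter.1 hc
  refine ⟨c, hcX, hc0, (h c - A c) / φ c, fun x hx => ?_, ?_⟩
  · by_cases hp : 0 < φ x
    · have := hmin x (Finset.mem_filter.2 ⟨hx, hp⟩)
      rw [le_div_iff₀ hp] at this
      linarith
    · have h1 : 0 ≤ (h c - A c) / φ c := div_nonneg (by linarith [hA c hcX]) hc0.le
      have h2 := mul_nonpos_of_nonneg_of_nonpos h1 (not_lt.1 hp)
      linarith [hA x hx]
  · field_simp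
    ring

/-- tilting about the line through a and b -/
theorem turn_TRb (X : Finset ℂ) (h : ℂ → ℝ) (a b x : ℂ) (ha : a ∈ X) (hb : b ∈ X) (hx : x ∈ X)
    (hD : 0 < D a b x) (p q r : ℝ) (h1 : ∀ x ∈ X, p + q * x.re + r * x.im ≤ h x)
    (h2 : p + q * a.re + r * a.im = h a) (h3 : p + q * b.re + r * b.im = h b) :
    ∃ d, tH X h a b d := by
  obtain ⟨d, hd, hd0, s, h4, h5⟩ := tilt_TRb X h (fun x => p + q * x.re + r * x.im) (D a b) h1
    x hx hD
  refine ⟨d, ha, hb, hd, hd0, p + s * ((b.im - a.im) * a.re - (b.re - a.re) * a.im),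
    q - s * (b.im - a.im), r + s * (b.re - a.re), fun y hy => ?_, ?_, ?_, ?_⟩
  · have := h4 y hy
    unfold D at this
    linarith
  · linarith
  · linarith
  · unfold D at h5
    linarith

theorem rot_TRb {X : Finset ℂ} {h : ℂ → ℝ} {a b c : ℂ} (H : tH X h a b c) : tH X h b c a := by
  obtain ⟨ha, hb, hc, hD, p, q, r, h1, h2, h3, h4⟩ := H
  refine ⟨hb, hc, ha, ?_, p, q, r, h1, h3, h4, h2⟩
  unfold D at hD ⊢
  linarith

theorem trb : ∀ X h, Gen X h → (∀ a b c x, tH X h a b c → x ∈ X → D a b x < 0 → ∃ d, tH X h b a d) ∧ (Sep X → NonCol X → ∀ x ∈ X, ∃ a b, tH X h x a b) := by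
  intro X h hG
  refine ⟨?_, ?_⟩
  · rintro a b c x ⟨ha, hb, -, -, p, q, r, h1, h2, h3, -⟩ hx hD
    refine turn_TRb X h b a x hb ha hx ?_ p q r h1 h3 h2
    unfold D at hD ⊢
    linarith
  · rintro hS ⟨a', ha', b', hb', c', hc', hN⟩ v hv
    have hx0 : ∃ x0 ∈ X, x0 ≠ v := by
      by_contra hcon
      push Not at hcon
      apply hN
      rw [hcon a' ha', hcon b' hb', hcon c' hc']
      simp [D]
    obtain ⟨x0, hx0, hne⟩ := hx0
    have hA : ∀ x ∈ X, (h v - 2 * (v.re * v.re + v.im * v.im)) + 2 * v.re * x.re +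
        2 * v.im * x.im ≤ h x := by
      intro x hx
      by_cases hxv : x = v
      · subst hxv
        linarith
      · have h1 := hS x hx v hv hxv
        have h2 := abs_lt.1 (hG.2.2 x hx)
        have h3 := abs_lt.1 (hG.2.2 v hv)
        rw [Complex.normSq_apply] at h2 h3
        have h4 : dist x v ^ 2 = (x.re - v.re) ^ 2 + (x.im - v.im) ^ 2 := by
          rw [Complex.dist_eq, Complex.sq_norm, Complex.normSq_apply]
          simp only [Complex.sub_re, Complex.sub_im]
          ring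
        nlinarith
    have hpos : 0 < Ip v x0 x0 := by
      unfold Ip
      by_contra hcon
      apply hne
      apply Complex.ext <;> nlinarith [sq_nonneg (x0.re - v.re), sq_nonneg (x0.im - v.im)]
    obtain ⟨a, ha, ha0, s, h4, h5⟩ := tilt_TRb X h _ (fun x => Ip v x x0) hA x0 hx0 hpos
    have hav : ¬ (a.re - v.re = 0 ∧ a.im - v.im = 0) := by
      rintro ⟨e1, e2⟩
      unfold Ip at ha0
      rw [e1, e2] at ha0
      simp at ha0
    have hB : ∀ x ∈ X, (h v - 2 * (v.re * v.re + v.im * v.im) -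
        s * (v.re * (x0.re - v.re) + v.im * (x0.im - v.im))) +
        (2 * v.re + s * (x0.re - v.re)) * x.re + (2 * v.im + s * (x0.im - v.im)) * x.im ≤ h x := by
      intro x hx
      have := h4 x hx
      unfold Ip at this
      linarith
    have hBv : (h v - 2 * (v.re * v.re + v.im * v.im) -
        s * (v.re * (x0.re - v.re) + v.im * (x0.im - v.im))) +
        (2 * v.re + s * (x0.re - v.re)) * v.re + (2 * v.im + s * (x0.im - v.im)) * v.im = h v := by
      ring
    have hBa : (h v - 2 * (v.re * v.re + v.im * v.im) -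
        s * (v.re * (x0.re - v.re) + v.im * (x0.im - v.im))) +
        (2 * v.re + s * (x0.re - v.re)) * a.re + (2 * v.im + s * (x0.im - v.im)) * a.im = h a := by
      unfold Ip at h5
      linarith
    have hx : ∃ x ∈ X, D v a x ≠ 0 := by
      by_contra hcon
      push Not at hcon
      have e1 := hcon a' ha'
      have e2 := hcon b' hb'
      have e3 := hcon c' hc'
      unfold D at e1 e2 e3
      apply hav
      constructor
      · refine (mul_eq_zero.1 (?_ : (a.re - v.re) * D a' b' c' = 0)).resolve_right hN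
        unfold D
        linear_combination (b'.re - a'.re) * (e3 - e1) - (c'.re - a'.re) * (e2 - e1)
      · refine (mul_eq_zero.1 (?_ : (a.im - v.im) * D a' b' c' = 0)).resolve_right hN
        unfold D
        linear_combination (b'.im - a'.im) * (e3 - e1) - (c'.im - a'.im) * (e2 - e1)
    obtain ⟨x, hx, hD⟩ := hx
    rcases lt_or_gt_of_ne hD with hD | hD
    · obtain ⟨d, hd⟩ := turn_TRb X h a v x ha hv hx (by unfold D at hD ⊢; linarith) _ _ _ hB hBa hBv
      exact ⟨d, a, rot_TRb hd⟩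
    · obtain ⟨d, hd⟩ := turn_TRb X h v a x hv ha hx hD _ _ _ hB hBv hBa
      exact ⟨a, d, hd⟩

end MP7b

end
end
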