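import Pool.Agent.Mg.F7b7a6d.G71ec6f
import Pool.Agent.Mg.F7b7a6d.G28590b

section

/-! The lower local inequality. -/

open scoped Classical
open MeasureTheory Metric Real

noncomputable section
namespace MP7b

theorem sq_Stl (a b : ℂ) : dist a b ^ 2 = (a.re - b.re) ^ 2 + (a.im - b.im) ^ 2 := by
  rw [Complex.dist_eq_re_im, Real.sq_sqrt (by positivity)]

theorem box_Stl {p q : ℝ} (hp : 2 ≤ p) (h : p ≤ q) (hq : q ^ 2 < 8) :
    p ^ 2 + q ^ 2 - 4 ≤ 3 / 2 * (p * q) := by
  have : q ≤ 4 := by nlinarith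
  nlinarith [mul_nonneg (sub_nonneg.2 hp) (sub_nonneg.2 h),
    mul_nonneg (sub_nonneg.2 this) (sub_nonneg.2 h)]

theorem key_Stl {p q s c r : ℝ} (hp : 2 ≤ p) (hq : 2 ≤ q) (hp' : p ^ 2 < 8) (hq' : q ^ 2 < 8)
    (hl : 4 ≤ p ^ 2 + q ^ 2 - 2 * (p * q * c)) (hs : s ^ 2 + c ^ 2 = 1) (s0 : 0 ≤ s)
    (hc : 1 / 2 ≤ c) (hr : r ^ 2 = 3) (r1 : 1 ≤ r) (r2 : r ≤ 7 / 4) :
    r + (r - 1) * (c - 1 / 2) ≤ p * q * s / 2 := by
  have m0 : 0 < p * q := by positivity
  have m1 : 8 * c ≤ p * q := le_of_mul_le_mul_left (by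
    nlinarith [mul_nonneg (show 0 ≤ p ^ 2 - 4 by nlinarith) (show 0 ≤ q ^ 2 - 4 by nlinarith)]) m0
  have m2 : c ≤ 3 / 4 := le_of_mul_le_mul_left (by
    rcases le_total p q with h | h
    · linarith [box_Stl hp h hq']
    · linarith [box_Stl hq h hp', mul_comm p q]) m0
  refine le_trans (abs_le_of_sq_le_sq' (b := 4 * c * s) ?_ (by positivity)).2
    (by nlinarith [mul_le_mul_of_nonneg_right m1 s0])
  obtain ⟨t, rfl⟩ : ∃ t, c = 1 / 2 + t := ⟨c - 1 / 2, by ring⟩
  have t0 : 0 ≤ t := by linarith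
  have u0 : 0 ≤ t + t ^ 2 := by positivity
  have u1 : t + t ^ 2 ≤ 5 / 16 := by nlinarith
  have e : (4 * (1 / 2 + t) * s) ^ 2 = 3 + 8 * (t + t ^ 2) - 16 * (t + t ^ 2) ^ 2 := by
    linear_combination 16 * (1 / 2 + t) ^ 2 * hs
  have e' : (r + (r - 1) * (1 / 2 + t - 1 / 2)) ^ 2 =
      3 + (6 - 2 * r) * t + (4 - 2 * r) * t ^ 2 := by
    linear_combination (1 + t) ^ 2 * hr
  have r3 : 3 / 2 ≤ r := by nlinarith
  rw [e, e']
  nlinarith [mul_nonneg u0 (sub_nonneg.2 u1), mul_nonneg t0 (sub_nonneg.2 r3),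
    mul_nonneg (sq_nonneg t) (sub_nonneg.2 r3)]

theorem stl (hA : ANG_st) (hS : STA_st) : STL_st := by
  intro a b c h0 h1 h2 h3 h4
  obtain ⟨a0, -, -, a1, a2⟩ := hA a b c h0
  have m0 : 0 < dist a b * dist c a := by positivity
  have x1 : 1 / 2 ≤ ang a b c := by
    by_contra! h
    have := sin_lt_sin_of_lt_of_le_pi_div_two (x := π / 3 * ang a b c) (y := π / 6)
      (by nlinarith [pi_pos]) (by linarith [pi_pos]) (by nlinarith [pi_pos])
    rw [sin_pi_div_six] at this
    rw [a1] at h4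
    nlinarith [mul_lt_mul_of_pos_left this m0, mul_le_mul_of_nonneg_left h2 m0.le]
  by_cases h8 : 8 ≤ dist a b ^ 2 ∨ 8 ≤ dist b c ^ 2 ∨ 8 ≤ dist c a ^ 2
  · linarith [hS a b c h0 h1 h2 h3 h4 h8]
  simp only [not_or, not_le] at h8
  obtain ⟨k1, k2, k3⟩ := h8
  have z : ∀ x y : ℂ, dist x y ^ 2 < 8 → cap x y = 0 := fun x y h => by
    rw [cap, max_eq_right (by linarith), min_eq_left (by norm_num), mul_zero]
  have hr : √3 ^ 2 = (3 : ℝ) := sq_sqrt (by norm_num)
  have r1 : (1 : ℝ) ≤ √3 := le_sqrt_of_sq_le (by norm_num)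
  have r2 : √3 ≤ (7 / 4 : ℝ) := sqrt_le_iff.2 (by norm_num)
  have lc : dist b c ^ 2 = dist a b ^ 2 + dist c a ^ 2 - 2 * Ip a b c := by
    simp only [sq_Stl, Ip]
    ring
  rw [dl, z _ _ k1, z _ _ k2, z _ _ k3, nu, le_div_iff₀ (by linarith)]
  simp only [mul_zero, add_zero]
  rcases le_total 1 (ang a b c) with h | h
  · have lg : D a b c ^ 2 + Ip a b c ^ 2 = dist a b ^ 2 * dist c a ^ 2 := by
      simp only [sq_Stl, Ip, D]
      ring
    have b1 : 0 ≤ dist a b ^ 2 - 4 := by nlinarith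
    have b2 : 0 ≤ dist b c ^ 2 - 4 := by nlinarith
    have b3 : 0 ≤ dist c a ^ 2 - 4 := by nlinarith
    have : (2 * √3) ^ 2 ≤ D a b c ^ 2 := by
      have i : Ip a b c = (dist a b ^ 2 + dist c a ^ 2 - dist b c ^ 2) / 2 := by linarith
      rw [i] at lg
      generalize dist a b ^ 2 = P at *
      generalize dist b c ^ 2 = L at *
      generalize dist c a ^ 2 = Q at *
      nlinarith [mul_nonneg b1 b2, mul_nonneg b2 b3, mul_nonneg b1 b3,
        mul_nonneg b1 (sub_nonneg.2 k1.le), mul_nonneg b2 (sub_nonneg.2 k2.le),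
        mul_nonneg b3 (sub_nonneg.2 k3.le)]
    nlinarith [(abs_le_of_sq_le_sq' this h0.le).2,
      mul_nonneg (sub_nonneg.2 h) (show 0 ≤ 2 - √3 by linarith)]
  · have cv := strictConcaveOn_cos_Icc.concaveOn.2 (x := π / 3) (y := π / 6)
      ⟨by linarith [pi_pos], by linarith [pi_pos]⟩ ⟨by linarith [pi_pos], by linarith [pi_pos]⟩
      (show 0 ≤ 2 * ang a b c - 1 by linarith) (show 0 ≤ 2 - 2 * ang a b c by linarith) (by ring)
    simp only [smul_eq_mul, cos_pi_div_three, cos_pi_div_six] at cv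
    rw [show (2 * ang a b c - 1) * (π / 3) + (2 - 2 * ang a b c) * (π / 6) = π / 3 * ang a b c by
      ring] at cv
    have cv' : (√3 - 1) * (1 - ang a b c) ≤ cos (π / 3 * ang a b c) - 1 / 2 := by linarith
    have := key_Stl (s := sin (π / 3 * ang a b c)) (c := cos (π / 3 * ang a b c)) h1 h3 k1 k3
      (by rw [← a2, ← lc]; nlinarith) (sin_sq_add_cos_sq _)
      (nonneg_of_mul_nonneg_right (a1 ▸ h0.le) m0)
      (by nlinarith [mul_nonneg (sub_nonneg.2 r1) (sub_nonneg.2 h)]) hr r1 r2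
    rw [← a1] at this
    nlinarith [mul_le_mul_of_nonneg_left cv' (sub_nonneg.2 r1)]

end MP7b

end
end

section

/-! The strict local inequality for short sides. -/

open scoped Classical
open MeasureTheory Metric Real

noncomputable section
namespace MP7b

theorem sts (hA : ANG_st) : STS_st := by
  intro a b c h0 h1 h2 h3 _ k1 k2 k3 hd
  obtain ⟨a0, a3, -, a1, a2⟩ := hA a b c h0
  have m0 : 0 < dist a b * dist c a := by positivity
  have z : ∀ x y : ℂ, dist x y ^ 2 < 8 → cap x y = 0 := fun x y h => by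
    rw [cap, max_eq_right (by linarith), min_eq_left (by norm_num), mul_zero]
  have hr : √3 ^ 2 = (3 : ℝ) := sq_sqrt (by norm_num)
  have r1 := sqrt3_bounds.1
  have r2 := sqrt3_bounds.2
  have lc : dist b c ^ 2 = dist a b ^ 2 + dist c a ^ 2 - 2 * Ip a b c := by
    simp only [sq_Stl, Ip]
    ring
  have pp := pi_pos
  rcases lt_trichotomy (ang a b c) 1 with h | h | h
  · have m2 : cos (π / 3 * ang a b c) ≤ 3 / 4 := le_of_mul_le_mul_left (by
      rcases le_total (dist a b) (dist c a) with e | e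
      · nlinarith [box_Stl h1 e k3]
      · nlinarith [box_Stl h3 e k1]) m0
    have x1 : 1 / 2 < ang a b c := by
      by_contra! e
      have := cos_le_cos_of_nonneg_of_le_pi (x := π / 3 * ang a b c) (y := π / 6)
        (by positivity) (by linarith) (by nlinarith)
      rw [cos_pi_div_six] at this
      linarith
    have cv := strictConcaveOn_cos_Icc.2 (x := π / 3) (y := π / 6)
      ⟨by linarith, by linarith⟩ ⟨by linarith, by linarith⟩ (by linarith)
      (show 0 < 2 * ang a b c - 1 by linarith) (show 0 < 2 - 2 * ang a b c by linarith) (by ring)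
    simp only [smul_eq_mul, cos_pi_div_three, cos_pi_div_six] at cv
    rw [show (2 * ang a b c - 1) * (π / 3) + (2 - 2 * ang a b c) * (π / 6) = π / 3 * ang a b c by
      ring] at cv
    have cv' : (√3 - 1) * (1 - ang a b c) < cos (π / 3 * ang a b c) - 1 / 2 := by linarith
    have := key_Stl (s := sin (π / 3 * ang a b c)) (c := cos (π / 3 * ang a b c)) h1 h3 k1 k3
      (by rw [← a2, ← lc]; nlinarith) (sin_sq_add_cos_sq _)
      (nonneg_of_mul_nonneg_right (a1 ▸ h0.le) m0)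
      (by nlinarith [mul_pos (show 0 < √3 - 1 by linarith) (sub_pos.2 h)]) hr (by linarith)
      (by linarith)
    rw [← a1] at this
    rw [abs_of_neg (by linarith), dl, z _ _ k1, z _ _ k2, z _ _ k3, nu, lt_div_iff₀ (by linarith)]
    nlinarith [mul_lt_mul_of_pos_left cv' (show 0 < √3 - 1 by linarith)]
  · rwa [h, sub_self, abs_zero]
  · have x1 : ang a b c < 3 / 2 := by
      by_contra! e
      have := cos_nonpos_of_pi_div_two_le_of_le (x := π / 3 * ang a b c) (by nlinarith)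
        (by nlinarith)
      nlinarith [mul_nonneg m0.le (neg_nonneg.2 this)]
    have cv := strictConcaveOn_sin_Icc.2 (x := π / 3) (y := π / 2)
      ⟨by linarith, by linarith⟩ ⟨by linarith, by linarith⟩ (by linarith)
      (show 0 < 3 - 2 * ang a b c by linarith) (show 0 < 2 * ang a b c - 2 by linarith) (by ring)
    simp only [smul_eq_mul, sin_pi_div_three, sin_pi_div_two] at cv
    rw [show (3 - 2 * ang a b c) * (π / 3) + (2 * ang a b c - 2) * (π / 2) = π / 3 * ang a b c by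
      ring] at cv
    have s0 := nonneg_of_mul_nonneg_right (a1 ▸ h0.le) m0
    have m4 : 4 ≤ dist a b * dist c a := by nlinarith
    rw [abs_of_pos (by linarith), dl, z _ _ k1, z _ _ k2, z _ _ k3, nu, lt_div_iff₀ (by linarith)]
    nlinarith [mul_le_mul_of_nonneg_right m4 s0]

end MP7b

end
end
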