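import Pool.Agent.Mg.F7b7a6d.G71ec6f

section

/-! A closed chain of triangles at a vertex meets every neighbour. -/

open scoped Classical
open MeasureTheory Metric Real

noncomputable section
namespace MP7b

theorem arg_Lc {z w : ℂ} (h : 0 < z.re * w.im - z.im * w.re) (h1 : w.arg ≤ z.arg)
    (h2 : z.arg ≠ π) : 0 < z.im ∧ w.im < 0 := by
  have e : z.re * w.im - z.im * w.re = -(‖z‖ * ‖w‖ * sin (z.arg - w.arg)) := by
    rw [sin_sub, ← Complex.norm_mul_cos_arg z, ← Complex.norm_mul_sin_arg z,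
      ← Complex.norm_mul_cos_arg w, ← Complex.norm_mul_sin_arg w]
    ring
  have h3 : π < z.arg - w.arg := by
    by_contra hn
    have := sin_nonneg_of_nonneg_of_le_pi (sub_nonneg.mpr h1) (not_lt.mp hn)
    have : 0 ≤ ‖z‖ * ‖w‖ * sin (z.arg - w.arg) := by positivity
    linarith
  have h4 := Complex.neg_pi_lt_arg w
  have h5 := Complex.arg_le_pi z
  refine ⟨?_, Complex.arg_neg_iff.mp (by linarith)⟩
  have h6 : 0 < z.arg := by linarith
  have h7 : z ≠ 0 := by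
    rintro rfl
    simp at h6
  rw [← Complex.norm_mul_sin_arg z]
  exact mul_pos (norm_pos_iff.mpr h7) (sin_pos_of_pos_of_lt_pi h6 (h5.lt_of_ne h2))

theorem lc (hM : MID_st) : LC_st := by
  intro X t hT v a0 S h0 hS c hc
  by_contra hn
  have hE : ∀ a, S a → E t v a ∧ a ∈ X := fun a ha => by
    obtain ⟨b, -, hb⟩ := hS a ha
    exact ⟨Or.inl ⟨b, hb⟩, hT.mem (hT.rot hb)⟩
  obtain ⟨d, hd⟩ : ∃ d, t v c d ∨ t v d c := by
    rcases hc with ⟨d, h⟩ | ⟨d, h⟩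
    · exact ⟨d, Or.inl h⟩
    · exact ⟨d, Or.inr (hT.rot h)⟩
  have hcX : c ∈ X := hd.elim (fun h => hT.mem (hT.rot h)) fun h => hT.mem (hT.rot (hT.rot h))
  have hI : 0 < Ip v c c := by
    have h1 : c ≠ v := by
      rintro rfl
      rcases hd with h | h <;> simpa [D] using hT.pos h
    by_contra h2
    refine h1 (Complex.ext ?_ ?_) <;> unfold Ip at h2 <;>
      nlinarith [sq_nonneg (c.re - v.re), sq_nonneg (c.im - v.im)]
  obtain ⟨a, ha, hmax⟩ := (X.filter S).exists_max_image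
    (fun x => Complex.arg ⟨-Ip v x c, D v x c⟩) ⟨a0, Finset.mem_filter.mpr ⟨(hE a0 h0).2, h0⟩⟩
  have haS := (Finset.mem_filter.mp ha).2
  obtain ⟨b, hb, hab⟩ := hS a haS
  have key := arg_Lc (z := ⟨-Ip v a c, D v a c⟩) (w := ⟨-Ip v b c, D v b c⟩) (by
    have e : -Ip v a c * D v b c - D v a c * -Ip v b c = D v a b * Ip v c c := by
      unfold Ip D
      ring
    exact e ▸ mul_pos (hT.pos hab) hI)
    (hmax b (Finset.mem_filter.mpr ⟨(hE b hb).2, hb⟩)) fun h => by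
      obtain ⟨h1, h2⟩ := Complex.arg_eq_pi_iff.mp h
      change -Ip v a c < 0 at h1
      change D v a c = 0 at h2
      obtain ⟨s, hs⟩ : ∃ s, Ip v a c = s * Ip v c c := ⟨Ip v a c / Ip v c c, by field_simp⟩
      have hs0 : 0 < s := by
        by_contra h3
        nlinarith [mul_nonneg (neg_nonneg.mpr (not_lt.mp h3)) hI.le]
      have e : a = v + s * (c - v) := by
        refine Complex.ext (mul_right_cancel₀ hI.ne' ?_) (mul_right_cancel₀ hI.ne' ?_)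
        · simp only [Complex.add_re, Complex.re_ofReal_mul, Complex.sub_re]
          unfold Ip D at *
          linear_combination (c.re - v.re) * hs + (c.im - v.im) * h2
        · simp only [Complex.add_im, Complex.im_ofReal_mul, Complex.sub_im]
          unfold Ip D at *
          linear_combination (c.im - v.im) * hs - (c.re - v.re) * h2
      rcases lt_trichotomy s 1 with h3 | h3 | h3
      · exact hM X t hT v c a s hc (hE a haS).2 hs0 h3 e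
      · rw [h3] at e
        simp only [Complex.ofReal_one, one_mul, add_sub_cancel] at e
        exact hn (e ▸ haS)
      · refine hM X t hT v a c s⁻¹ (hE a haS).1 hcX (inv_pos.mpr hs0) (inv_lt_one_of_one_lt₀ h3) ?_
        have : (s : ℂ) ≠ 0 := Complex.ofReal_ne_zero.mpr hs0.ne'
        rw [e]
        push_cast
        field_simp
        ring
  refine hT.nocross hab hd key.1 ?_
  have h4 : D v b c < 0 := key.2
  unfold D at h4 ⊢
  linarith

end MP7b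

end
end

section

open scoped Classical
open MeasureTheory Metric Real

noncomputable section
namespace MP7b

theorem col_Lin {p q x : ℂ} (hpq : p ≠ q) (h : D p q x = 0) :
    ∃ s : ℝ, x = p + s * (q - p) := by
  have h1 : q - p ≠ 0 := sub_ne_zero.mpr hpq.symm
  have h2 : ((x - p) / (q - p)).im = 0 := by
    rw [Complex.div_im, ← sub_div, div_eq_zero_iff]
    left
    simp only [D] at h
    simp only [Complex.sub_re, Complex.sub_im]
    linarith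
  refine ⟨((x - p) / (q - p)).re, ?_⟩
  have h3 : (((x - p) / (q - p)).re : ℂ) = (x - p) / (q - p) :=
    Complex.ext (by simp) (by rw [h2]; simp)
  rw [h3, div_mul_cancel₀ _ h1]
  ring

theorem lin (hG : GST_st) : LIN_st := by
  intro X hX hS hN K hK hB
  obtain ⟨⟨p, q⟩, hm, hmax⟩ := Finset.exists_max_image (X ×ˢ X) (fun z => dist z.1 z.2)
    (hX.product hX)
  obtain ⟨hp, hq⟩ := Finset.mem_product.mp hm
  dsimp only at hp hq hmax
  have hle : ∀ a ∈ X, ∀ b ∈ X, dist a b ≤ dist p q := fun a ha b hb =>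
    hmax (a, b) (Finset.mem_product.mpr ⟨ha, hb⟩)
  by_cases hpq : p = q
  · have h1 : X.card ≤ 1 := Finset.card_le_one.mpr fun a ha b hb => by
      have := hle a ha b hb
      rw [hpq, dist_self] at this
      exact dist_le_zero.mp this
    have h2 := hG X ∅ K hX hK hB fun z hz => absurd hz (Finset.notMem_empty z)
    refine le_trans (ENNReal.ofReal_le_ofReal ?_) (le_trans le_add_self h2)
    have h3 : (X.card : ℝ) ≤ 1 := by exact_mod_cast h1
    rw [Finset.sum_empty]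
    linarith
  have hD : ∀ x ∈ X, D p q x = 0 := fun x hx => by
    by_contra h
    exact hN ⟨p, hp, q, hq, x, hx, h⟩
  choose! s hs using fun x hx => col_Lin hpq (hD x hx)
  have hL : 0 < dist p q := dist_pos.mpr hpq
  have hd : ∀ u v : ℝ, dist (p + u * (q - p)) (p + v * (q - p)) = |u - v| * dist p q := by
    intro u v
    rw [dist_add_left, dist_eq_norm, ← sub_mul, norm_mul, ← Complex.ofReal_sub, Complex.norm_real,
      Real.norm_eq_abs, dist_eq_norm, norm_sub_rev]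
  have h01 : ∀ x ∈ X, 0 ≤ s x ∧ s x ≤ 1 := fun x hx => by
    have a1 := hle x hx p hp
    have a2 := hle x hx q hq
    have a3 := hd (s x) 0
    have a4 := hd (s x) 1
    rw [← hs x hx] at a3 a4
    simp only [Complex.ofReal_zero, zero_mul, add_zero, sub_zero] at a3
    simp only [Complex.ofReal_one, one_mul, add_sub_cancel] at a4
    rw [a3] at a1
    rw [a4] at a2
    have a5 := abs_le.mp (le_of_mul_le_mul_right (a1.trans (one_mul _).symm.le) hL)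
    have a6 := abs_le.mp (le_of_mul_le_mul_right (a2.trans (one_mul _).symm.le) hL)
    constructor <;> linarith [a5.2, a6.1]
  have hc : X.card ≤ ⌊dist p q / 2⌋₊ + 1 := by
    rw [← Finset.card_range (⌊dist p q / 2⌋₊ + 1)]
    refine Finset.card_le_card_of_injOn (fun x => ⌊s x * dist p q / 2⌋₊) (fun x hx => ?_)
      fun a ha b hb e => ?_
    · refine Finset.mem_coe.mpr (Finset.mem_range.mpr (Nat.lt_succ_of_le (Nat.floor_le_floor ?_)))
      nlinarith [(h01 x hx).2]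
    · by_contra hab
      have a1 := hS a ha b hb hab
      rw [hs a ha, hs b hb, hd, ← abs_of_pos hL, ← abs_mul] at a1
      have a2 := Nat.floor_le (a := s a * dist p q / 2) (by have := (h01 a ha).1; positivity)
      have a3 := Nat.floor_le (a := s b * dist p q / 2) (by have := (h01 b hb).1; positivity)
      have a4 := Nat.lt_floor_add_one (s a * dist p q / 2)
      have a5 := Nat.lt_floor_add_one (s b * dist p q / 2)
      dsimp only at e
      rw [e] at a2 a4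
      exact absurd a1 (not_le.mpr (abs_lt.mpr ⟨by linarith, by linarith⟩))
  have hc' : (X.card : ℝ) ≤ dist p q / 2 + 1 := by
    have a1 : (X.card : ℝ) ≤ (⌊dist p q / 2⌋₊ : ℝ) + 1 := by exact_mod_cast hc
    linarith [Nat.floor_le (a := dist p q / 2) (by positivity)]
  have key : ∀ a b : ℂ, a ≠ b → ∀ x, x = a ∨ x = b → D a b x ≤ 0 ∧
      ∀ u : ℝ, 0 < u → u < 1 → x ≠ a + u * (b - a) := by
    intro a b hab x hx
    have h1 : b - a ≠ 0 := sub_ne_zero.mpr hab.symm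
    rcases hx with rfl | rfl
    · refine ⟨le_of_eq (by simp [D]), fun u u0 _ e => ?_⟩
      have : (u : ℂ) * (b - x) = 0 := by linear_combination -e
      exact u0.ne' (by exact_mod_cast (mul_eq_zero.mp this).resolve_right h1)
    · refine ⟨le_of_eq (by simp only [D]; ring), fun u _ u1 e => ?_⟩
      have : ((u : ℂ) - 1) * (x - a) = 0 := by linear_combination -e
      exact u1.ne (by exact_mod_cast sub_eq_zero.mp ((mul_eq_zero.mp this).resolve_right h1))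
  have h2 := hG {p, q} {(p, q), (q, p)} K (Finset.insert_nonempty _ _) hK
    (fun x hx => hB x (by rcases Finset.mem_insert.mp hx with rfl | h
                          exacts [hp, Finset.mem_singleton.mp h ▸ hq]))
    (fun z hz => by
      simp only [Finset.mem_insert, Finset.mem_singleton] at hz ⊢
      rcases hz with rfl | rfl
      · exact ⟨Or.inl rfl, Or.inr rfl, hpq, fun x hx => (key p q hpq x hx).1,
          fun x hx => (key p q hpq x hx).2⟩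
      · exact ⟨Or.inr rfl, Or.inl rfl, Ne.symm hpq, fun x hx => (key q p (Ne.symm hpq) x hx.symm).1,
          fun x hx => (key q p (Ne.symm hpq) x hx.symm).2⟩)
  refine le_trans (ENNReal.ofReal_le_ofReal ?_) (le_trans le_add_self h2)
  rw [Finset.sum_pair fun e => hpq (Prod.mk.inj e).1, dist_comm q p]
  linarith

end MP7b

end
end

section

open scoped Classical
open MeasureTheory Metric Real

noncomputable section
namespace MP7b

theorem sq_Mid (a b : ℂ) : dist a b ^ 2 = (a.re - b.re) ^ 2 + (a.im - b.im) ^ 2 := by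
  rw [Complex.dist_eq, Complex.sq_norm, Complex.normSq_apply, Complex.sub_re, Complex.sub_im]
  ring

theorem ne_Mid {a b c : ℂ} (h : 0 < D a b c) : 0 < (a.re - b.re) ^ 2 + (a.im - b.im) ^ 2 := by
  by_contra hc
  have h1 : a.re - b.re = 0 := by nlinarith [sq_nonneg (a.re - b.re), sq_nonneg (a.im - b.im)]
  have h2 : a.im - b.im = 0 := by nlinarith [sq_nonneg (a.re - b.re), sq_nonneg (a.im - b.im)]
  have h3 : b.re - a.re = 0 := by linarith
  have h4 : b.im - a.im = 0 := by linarith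
  unfold D at h
  rw [h3, h4] at h
  simp at h

theorem mid : MID_st := by
  intro X t H v a x s hE hx s0 s1 e
  have key : (0 < (v.re - a.re) ^ 2 + (v.im - a.im) ^ 2) ∧
      ∃ O : ℂ, dist a O = dist v O ∧ dist v O ≤ dist x O := by
    rcases hE with ⟨c, hc⟩ | ⟨c, hc⟩
    · obtain ⟨O, h1, -, h3⟩ := H.del hc
      exact ⟨ne_Mid (H.pos hc), O, h1, h3 x hx⟩
    · obtain ⟨O, h1, -, h3⟩ := H.del hc
      refine ⟨?_, O, h1.symm, h1 ▸ h3 x hx⟩
      have := ne_Mid (H.pos hc)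
      nlinarith
  obtain ⟨hne, O, h1, h2⟩ := key
  have h3 : dist a O ^ 2 = dist v O ^ 2 := by rw [h1]
  have h4 : dist v O ^ 2 ≤ dist x O ^ 2 := pow_le_pow_left₀ dist_nonneg h2 2
  rw [sq_Mid, sq_Mid] at h3 h4
  have e1 : x.re = v.re + s * (a.re - v.re) := by rw [e]; simp
  have e2 : x.im = v.im + s * (a.im - v.im) := by rw [e]; simp
  rw [e1, e2] at h4
  have h5 : 0 < s * (1 - s) * ((v.re - a.re) ^ 2 + (v.im - a.im) ^ 2) :=
    mul_pos (mul_pos s0 (by linarith)) hne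
  have h6 : (v.re + s * (a.re - v.re) - O.re) ^ 2 + (v.im + s * (a.im - v.im) - O.im) ^ 2 =
      (v.re - O.re) ^ 2 + (v.im - O.im) ^ 2 -
        s * (1 - s) * ((v.re - a.re) ^ 2 + (v.im - a.im) ^ 2) := by
    linear_combination s * h3
  linarith

theorem hu (hM : MID_st) : HU_st := by
  intro X t H v a a' h h'
  obtain ⟨c, hc⟩ : ∃ c, t a v c := h.1.resolve_left h.2
  obtain ⟨c', hc'⟩ : ∃ c, t a' v c := h'.1.resolve_left h'.2
  have n1 : ∀ x ∈ X, 0 ≤ D a v x := fun x hx => not_lt.1 fun hl => h.2 (H.nbr hc hx hl)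
  have n2 : ∀ x ∈ X, 0 ≤ D a' v x := fun x hx => not_lt.1 fun hl => h'.2 (H.nbr hc' hx hl)
  have ma : a ∈ X := H.mem hc
  have ma' : a' ∈ X := H.mem hc'
  have mc : c ∈ X := H.mem (H.rot (H.rot hc))
  have p1 := n1 a' ma'
  have p2 := n2 a ma
  have p3 := n2 c mc
  have p4 := H.pos hc
  have q1 := ne_Mid (H.pos hc)
  have q2 := ne_Mid (H.pos hc')
  unfold D at p1 p2 p3 p4
  have z : (a.re - v.re) * (a'.im - v.im) - (a.im - v.im) * (a'.re - v.re) = 0 := by nlinarith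
  obtain ⟨s, hs⟩ : ∃ s : ℝ, s * ((a.re - v.re) ^ 2 + (a.im - v.im) ^ 2) =
      (a.re - v.re) * (a'.re - v.re) + (a.im - v.im) * (a'.im - v.im) :=
    ⟨_, div_mul_cancel₀ _ q1.ne'⟩
  have e1 : a'.re - v.re = s * (a.re - v.re) := by
    apply mul_left_cancel₀ q1.ne'
    linear_combination (- (a.re - v.re)) * hs - (a.im - v.im) * z
  have e2 : a'.im - v.im = s * (a.im - v.im) := by
    apply mul_left_cancel₀ q1.ne'
    linear_combination (- (a.im - v.im)) * hs + (a.re - v.re) * z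
  have e3 : (v.re - a'.re) * (c.im - a'.im) - (v.im - a'.im) * (c.re - a'.re) =
      s * ((v.re - a.re) * (c.im - a.im) - (v.im - a.im) * (c.re - a.re)) := by
    have r1 : a'.re = v.re + s * (a.re - v.re) := by linarith
    have r2 : a'.im = v.im + s * (a.im - v.im) := by linarith
    rw [r1, r2]; ring
  have s0 : 0 ≤ s := by
    rw [e3] at p3
    exact nonneg_of_mul_nonneg_left p3 p4
  have s1 : s ≠ 0 := by
    intro e
    rw [e1, e2, e] at q2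
    simp at q2
  have s2 : 0 < s := lt_of_le_of_ne s0 s1.symm
  rcases lt_trichotomy s 1 with h1 | h1 | h1
  · refine absurd ?_ (hM X t H v a a' s h.1 ma' s2 h1)
    apply Complex.ext <;> simp <;> linarith
  · rw [h1] at e1 e2
    apply Complex.ext <;> linarith
  · refine absurd ?_ (hM X t H v a' a s⁻¹ h'.1 ma (inv_pos.2 s2) (inv_lt_one_of_one_lt₀ h1))
    apply Complex.ext
    · simp only [Complex.add_re, Complex.mul_re, Complex.ofReal_re, Complex.ofReal_im,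
        Complex.sub_re, Complex.sub_im, zero_mul, sub_zero]
      rw [e1, ← mul_assoc, inv_mul_cancel₀ s1]; ring
    · simp only [Complex.add_im, Complex.mul_im, Complex.ofReal_re, Complex.ofReal_im,
        Complex.sub_re, Complex.sub_im, zero_mul, add_zero]
      rw [e2, ← mul_assoc, inv_mul_cancel₀ s1]; ring

end MP7b

end
end

section

/-! Rational representations by `x² + 3 y² + 3 z²`. -/

open scoped Classical
open MeasureTheory Metric Real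

noncomputable section
namespace MP7b

theorem jac_Nt1 {M q : ℕ} (hM : M % 3 = 1) (h8 : q % 8 = 5) (hq : (M : ℤ) ∣ q + 3) :
    jacobiSym M q = 1 := by
  obtain ⟨k, m, hm, rfl⟩ := Nat.exists_eq_two_pow_mul_odd (n := M) (by omega)
  have h2 : jacobiSym 2 q = jacobiSym 2 3 := by
    rw [jacobiSym.at_two (Nat.odd_iff.mpr (by omega)), jacobiSym.at_two (by decide),
      ZMod.χ₈_nat_mod_eight q, h8]
    decide
  have h3 : jacobiSym m q = jacobiSym m 3 := by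
    have hd : (m : ℤ) ∣ q + 3 := Dvd.dvd.trans ⟨2 ^ k, by push_cast; ring⟩ hq
    have he : (q : ℤ) % m = (-3) % m := (Int.emod_emod_of_dvd _ dvd_rfl).symm.trans
      ((Int.emod_emod_of_dvd _ dvd_rfl).trans (Int.modEq_iff_dvd.mpr (by
        rw [show (-3 : ℤ) - q = -(q + 3) by ring]
        exact hd.neg_right)))
    rw [jacobiSym.quadratic_reciprocity_one_mod_four' hm (by omega), jacobiSym.mod_left' he,
      jacobiSym.neg _ hm]
    have ho := Nat.odd_iff.mp hm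
    rcases (by omega : m % 4 = 1 ∨ m % 4 = 3) with h | h
    · rw [ZMod.χ₄_nat_one_mod_four h, one_mul]
      exact (jacobiSym.quadratic_reciprocity_one_mod_four h (by decide)).symm
    · rw [ZMod.χ₄_nat_three_mod_four h, neg_one_mul]
      exact (jacobiSym.quadratic_reciprocity_three_mod_four h (by decide)).symm
  have h4 : jacobiSym ((2 ^ k * m : ℕ) : ℤ) 3 = 1 := by
    rw [jacobiSym.mod_left' (a₂ := 1) (by exact_mod_cast hM), jacobiSym.one_left]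
  rw [← h4]
  push_cast
  rw [jacobiSym.mul_left, jacobiSym.mul_left, jacobiSym.pow_left, jacobiSym.pow_left, h2, h3]

theorem dif_Nt1 {n a b : ℕ} (ha : a < n.sqrt + 1) (hb : b < n.sqrt + 1) :
    ((a : ℤ) - b) ^ 2 ≤ n := by
  have h : ((n.sqrt : ℤ)) ^ 2 ≤ n := by exact_mod_cast Nat.sqrt_le' n
  exact (sq_le_sq' (by omega) (by omega)).trans h

theorem box_Nt1 {M q : ℕ} (hM : 0 < M) (hq : 0 < q) (r : ℤ) : ∃ x w t : ℤ,
    ¬ (x = 0 ∧ w = 0 ∧ t = 0) ∧ x ^ 2 ≤ 3 * q * M ∧ w ^ 2 ≤ M ∧ t ^ 2 ≤ 3 * q ∧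
    (q : ℤ) ∣ x - r * t ∧ (3 : ℤ) ∣ x - t ∧ (M : ℤ) ∣ x - 3 * w := by
  have : NeZero M := ⟨hM.ne'⟩
  have : NeZero q := ⟨hq.ne'⟩
  have hc : (Finset.univ : Finset (ZMod q × ZMod 3 × ZMod M)).card <
      (Finset.range ((3 * q * M).sqrt + 1) ×ˢ Finset.range (M.sqrt + 1) ×ˢ
        Finset.range ((3 * q).sqrt + 1)).card := by
    simp only [Finset.card_univ, Fintype.card_prod, ZMod.card, Finset.card_product,
      Finset.card_range]
    refine lt_of_pow_lt_pow_left₀ 2 (Nat.zero_le _) ?_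
    have h1 := Nat.mul_lt_mul'' (Nat.lt_succ_sqrt' (3 * q * M))
      (Nat.mul_lt_mul'' (Nat.lt_succ_sqrt' M) (Nat.lt_succ_sqrt' (3 * q)))
    calc (q * (3 * M)) ^ 2 = 3 * q * M * (M * (3 * q)) := by ring
      _ < _ := h1
      _ = _ := by simp only [Nat.succ_eq_add_one]; ring
  obtain ⟨⟨a, b, c⟩, h1, ⟨a', b', c'⟩, h2, hne, he⟩ :=
    Finset.exists_ne_map_eq_of_card_lt_of_maps_to hc
      (f := fun v : ℕ × ℕ × ℕ => ((((v.1 : ℤ) - r * v.2.2 : ℤ) : ZMod q),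
        (((v.1 : ℤ) - v.2.2 : ℤ) : ZMod 3), (((v.1 : ℤ) - 3 * v.2.1 : ℤ) : ZMod M)))
      (fun _ _ => Finset.mem_coe.mpr (Finset.mem_univ _))
  simp only [Finset.mem_product, Finset.mem_range] at h1 h2
  simp only [Prod.mk.injEq, ZMod.intCast_eq_intCast_iff_dvd_sub] at he
  refine ⟨(a' : ℤ) - a, (b' : ℤ) - b, (c' : ℤ) - c, fun h => hne ?_, ?_, dif_Nt1 h2.2.1 h1.2.1,
    ?_, ?_, ?_, ?_⟩
  · simp only [Prod.mk.injEq]
    omega
  · exact_mod_cast dif_Nt1 h2.1 h1.1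
  · exact_mod_cast dif_Nt1 h2.2.2 h1.2.2
  · exact he.1.trans (dvd_of_eq (by ring))
  · exact he.2.1.trans (dvd_of_eq (by ring))
  · exact he.2.2.trans (dvd_of_eq (by ring))

theorem nt1 : NT1_st := by
  intro M hM
  have hM0 : 0 < M := by omega
  obtain ⟨q, hqM, hq, hm⟩ := Nat.forall_exists_prime_gt_and_zmodEq (M + 3) (q := 8 * M) (a := -3)
    (by omega) ⟨-(8 * (M / 3 : ℕ) + 3), -1, by push_cast; omega⟩
  have : Fact q.Prime := ⟨hq⟩
  obtain ⟨k, hk⟩ : ((8 * M : ℕ) : ℤ) ∣ q + 3 := by simpa using hm.symm.dvd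
  push_cast at hk
  have h8 : q % 8 = 5 := by
    have : (q : ℤ) + 3 = 8 * (M * k) := by linarith
    omega
  have hd : (M : ℤ) ∣ q + 3 := ⟨8 * k, by linarith⟩
  obtain ⟨r', hr'⟩ := ZMod.isSquare_of_jacobiSym_eq_one (jac_Nt1 hM h8 hd)
  obtain ⟨r, rfl⟩ := ZMod.intCast_surjective r'
  have hr : (q : ℤ) ∣ r * r - M := by
    rw [← ZMod.intCast_eq_intCast_iff_dvd_sub, hr']
    push_cast
    rfl
  obtain ⟨c, d, hcd⟩ := Nat.Prime.sq_add_sq (p := q) (by omega)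
  have hcd' : (c : ℤ) ^ 2 + d ^ 2 = q := by exact_mod_cast hcd
  obtain ⟨x, w, t, hne, hx, hw, ht, d1, d2, d3⟩ := box_Nt1 hM0 hq.pos r
  rcases hw.eq_or_lt with hw | hw
  · exact ⟨w, 0, 0, 1, one_ne_zero, by linarith⟩
  have ht' : t ^ 2 < 3 * q := by
    refine lt_of_le_of_ne ht fun h => ?_
    have h1 : t ^ 2 % 4 = 0 ∨ t ^ 2 % 4 = 1 := by
      rcases Int.even_or_odd' t with ⟨s, rfl | rfl⟩
      · exact Or.inl (by rw [show (2 * s) ^ 2 = 4 * s ^ 2 by ring]; omega)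
      · exact Or.inr (by rw [show (2 * s + 1) ^ 2 = 4 * (s ^ 2 + s) + 1 by ring]; omega)
    omega
  have hq0 : (0 : ℤ) < q := by exact_mod_cast hq.pos
  have hM1 : (0 : ℤ) < M := by exact_mod_cast hM0
  have e1 : (q : ℤ) ∣ x ^ 2 + 3 * q * w ^ 2 - M * t ^ 2 := by
    rw [show x ^ 2 + 3 * q * w ^ 2 - M * t ^ 2 =
      (x - r * t) * (x + r * t) + (r * r - M) * t ^ 2 + q * (3 * w ^ 2) by ring]
    exact ((d1.mul_right _).add (hr.mul_right _)).add (dvd_mul_right _ _)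
  have e2 : (3 : ℤ) ∣ x ^ 2 + 3 * q * w ^ 2 - M * t ^ 2 := by
    rw [show x ^ 2 + 3 * q * w ^ 2 - M * t ^ 2 =
      (x - t) * (x + t) - (M - 1) * t ^ 2 + 3 * (q * w ^ 2) by ring]
    exact ((d2.mul_right _).sub (Dvd.dvd.mul_right (by omega) _)).add (dvd_mul_right _ _)
  have e3 : (M : ℤ) ∣ x ^ 2 + 3 * q * w ^ 2 - M * t ^ 2 := by
    rw [show x ^ 2 + 3 * q * w ^ 2 - M * t ^ 2 =
      (x - 3 * w) * (x + 3 * w) + (q + 3) * (3 * w ^ 2) - M * t ^ 2 by ring]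
    exact ((d3.mul_right _).add (hd.mul_right _)).sub (dvd_mul_right _ _)
  have c1 : Nat.Coprime q 3 := (Nat.coprime_primes hq Nat.prime_three).mpr (by omega)
  have c2 : Nat.Coprime q M :=
    (Nat.Prime.coprime_iff_not_dvd hq).mpr fun h => by have := Nat.le_of_dvd hM0 h; omega
  have c3 : Nat.Coprime 3 M := (Nat.Prime.coprime_iff_not_dvd Nat.prime_three).mpr (by omega)
  obtain ⟨j, hj⟩ := IsCoprime.mul_dvd (Nat.isCoprime_iff_coprime.mpr (c2.mul_left c3))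
    (by exact_mod_cast IsCoprime.mul_dvd (Nat.isCoprime_iff_coprime.mpr c1) e1 e2) e3
  push_cast at hj
  have hN : (0 : ℤ) < q * 3 * M := by positivity
  have j1 : -1 < j := by
    refine lt_of_mul_lt_mul_left (a := (q : ℤ) * 3 * M) ?_ hN.le
    have := mul_lt_mul_of_pos_left ht' hM1
    have : 0 ≤ x ^ 2 + 3 * q * w ^ 2 := by positivity
    linarith
  have j2 : j < 2 := by
    refine lt_of_mul_lt_mul_left (a := (q : ℤ) * 3 * M) ?_ hN.le
    have := mul_lt_mul_of_pos_left hw hq0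
    have : 0 ≤ M * t ^ 2 := by positivity
    linarith
  rcases (by omega : j = 0 ∨ j = 1) with rfl | rfl
  · refine ⟨x, c * w, d * w, t, fun h0 => hne ?_, by linear_combination hj + 3 * w ^ 2 * hcd'⟩
    subst h0
    have h1 : 0 ≤ q * w ^ 2 := by positivity
    have h2 : x ^ 2 = 0 := by nlinarith [sq_nonneg x]
    have h3 : q * w ^ 2 = 0 := by linarith
    exact ⟨pow_eq_zero_iff two_ne_zero |>.mp h2,
      pow_eq_zero_iff two_ne_zero |>.mp ((mul_eq_zero.mp h3).resolve_left hq0.ne'), rfl⟩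
  · exact ⟨x * t - 3 * q * w, c * (x + w * t), d * (x + w * t), t ^ 2 + 3 * q, by positivity,
      by linear_combination (t ^ 2 + 3 * q) * hj + 3 * (x + w * t) ^ 2 * hcd'⟩

end MP7b

end
end

section

/-! Existence of Groemer hexagons with perimeter `p` or `p + 1`. -/

open scoped Classical
open MeasureTheory Metric Real

noncomputable section
namespace MP7b

/-- hexagons for small `n` -/
def tab_Nt3 : List (ℕ × ℕ × ℕ × ℕ) :=
  [(0, 0, 0, 0), (0, 0, 0, 0), (0, 1, 0, 0), (1, 1, 0, 1), (1, 1, 0, 0), (1, 2, 0, 1),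
    (1, 2, 0, 0), (2, 2, 1, 1), (2, 2, 0, 1), (2, 2, 0, 0), (2, 3, 1, 1), (2, 3, 0, 1),
    (3, 3, 1, 2), (2, 4, 1, 1), (3, 3, 1, 1), (3, 3, 0, 1), (3, 4, 1, 2), (3, 4, 0, 2),
    (3, 4, 1, 1), (4, 4, 2, 2), (3, 5, 1, 2), (4, 4, 1, 2), (3, 5, 1, 1), (4, 4, 1, 1),
    (4, 5, 2, 2), (5, 5, 1, 4), (4, 5, 1, 2), (5, 5, 2, 3), (4, 5, 1, 1), (4, 6, 2, 2),
    (5, 5, 2, 2), (4, 6, 1, 2), (5, 5, 1, 2), (5, 6, 2, 3), (4, 7, 2, 2), (5, 6, 1, 3),
    (5, 6, 2, 2), (6, 6, 3, 3), (5, 6, 1, 2), (5, 7, 2, 3), (6, 6, 2, 3), (5, 7, 1, 3),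
    (5, 7, 2, 2), (6, 6, 2, 2), (6, 7, 3, 3), (5, 8, 2, 3), (7, 7, 2, 5), (6, 7, 2, 3),
    (7, 7, 3, 4), (6, 7, 1, 3), (6, 7, 2, 2), (6, 8, 3, 3), (7, 7, 3, 3), (7, 7, 1, 4),
    (6, 8, 2, 3), (7, 7, 2, 3), (7, 8, 3, 4), (6, 8, 2, 2), (6, 9, 3, 3), (7, 8, 2, 4),
    (7, 8, 3, 3), (8, 8, 4, 4), (7, 9, 2, 5), (7, 8, 2, 3), (7, 9, 3, 4), (8, 8, 3, 4),
    (7, 8, 2, 2), (7, 9, 2, 4), (7, 9, 3, 3), (8, 8, 3, 3), (8, 9, 4, 4), (7, 9, 2, 3),
    (7, 10, 3, 4), (9, 9, 3, 6), (8, 9, 3, 4), (9, 9, 4, 5), (7, 10, 3, 3), (8, 9, 2, 4),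
    (8, 9, 3, 3), (8, 10, 4, 4), (9, 9, 4, 4), (8, 9, 2, 3), (9, 9, 2, 5), (8, 10, 3, 4),
    (9, 9, 3, 4), (9, 10, 4, 5), (0, 0, 0, 0), (0, 0, 0, 0), (0, 0, 0, 0), (0, 0, 0, 0)]

/-- the test of one hexagon -/
def ok_Nt3 (n p : ℕ) (t : ℕ × ℕ × ℕ × ℕ) : Bool :=
  Nat.ble t.2.2.1 t.1 && Nat.ble t.2.2.1 t.2.1 && Nat.ble t.2.2.2 t.1 && Nat.ble t.2.2.2 t.2.1 &&
    Nat.beq (p + t.2.2.1 + t.2.2.2) (2 * t.1 + 2 * t.2.1) &&
    Nat.beq (2 * n + t.2.2.1 * (t.2.2.1 + 1) + t.2.2.2 * (t.2.2.2 + 1))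
      (2 * (t.1 + 1) * (t.2.1 + 1))

theorem all_Nt3 : ((List.range 30).all fun p => (List.range 90).all fun n =>
    Nat.ble (12 * n) ((p + 2) * (p + 2) + 3) || Nat.blt ((p + 3) * (p + 3) + 3) (12 * n) ||
      ok_Nt3 n p (tab_Nt3.getD n (0, 0, 0, 0))) = true := by
  decide +kernel

theorem small_Nt3 (n p : ℕ) (hp : p < 30) (h1 : (p + 2) ^ 2 + 3 < 12 * n)
    (h2 : 12 * n ≤ (p + 3) ^ 2 + 3) : Groemer n p := by
  have hn : n < 90 := by nlinarith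
  have := List.all_eq_true.1 (List.all_eq_true.1 all_Nt3 p (List.mem_range.2 hp)) n
    (List.mem_range.2 hn)
  rw [sq] at h1 h2
  simp only [Bool.or_eq_true, Nat.ble_eq, Nat.blt_eq, ok_Nt3, Bool.and_eq_true,
    Nat.beq_eq] at this
  rcases this with (h | h) | ⟨⟨⟨⟨⟨a, b⟩, c⟩, d⟩, e⟩, f⟩
  · omega
  · omega
  · exact ⟨_, _, _, _, a, b, c, d, e, f⟩

theorem mk_Nt3 (n P : ℕ) (x y z : ℤ)
    (h : x ^ 2 + 3 * y ^ 2 + 3 * z ^ 2 + 12 * n = (P + 3) ^ 2 + 3)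
    (hM : 7 * (x ^ 2 + 3 * y ^ 2 + 3 * z ^ 2) ≤ P ^ 2) (h3 : (x + P) % 3 = 0)
    (hy : (x + y) % 2 = 0) (hz : (z + P) % 2 = 0) : Groemer n P := by
  have P0 : (0 : ℤ) ≤ P := Int.natCast_nonneg P
  have b1 : ∀ y z : ℤ, 7 * (x ^ 2 + 3 * y ^ 2 + 3 * z ^ 2) ≤ P ^ 2 → 3 * y + 3 * z - x ≤ P :=
    fun y z h => by
      refine abs_le_of_sq_le_sq' ?_ P0 |>.2
      nlinarith [sq_nonneg (y - z), sq_nonneg (x + y), sq_nonneg (x + z)]
  have b2 : ∀ z : ℤ, 7 * (x ^ 2 + 3 * y ^ 2 + 3 * z ^ 2) ≤ P ^ 2 → 2 * x + 3 * z ≤ P :=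
    fun z h => by
      refine abs_le_of_sq_le_sq' ?_ P0 |>.2
      nlinarith [sq_nonneg (x - 2 * z), sq_nonneg y]
  have k1 := b1 y z hM
  have k2 := b1 (-y) z (by simpa using hM)
  have k3 := b1 y (-z) (by simpa using hM)
  have k4 := b1 (-y) (-z) (by simpa using hM)
  have k5 := b2 z hM
  have k6 := b2 (-z) (by simpa using hM)
  obtain ⟨c, hc⟩ : ∃ c : ℕ, 6 * (c : ℤ) = P - 2 * x + 3 * z :=
    ⟨((P - 2 * x + 3 * z) / 6).toNat, by omega⟩
  obtain ⟨d, hd⟩ : ∃ c : ℕ, 6 * (c : ℤ) = P - 2 * x - 3 * z :=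
    ⟨((P - 2 * x - 3 * z) / 6).toNat, by omega⟩
  obtain ⟨a, ha⟩ : ∃ c : ℕ, 6 * (c : ℤ) = 2 * P - x + 3 * y :=
    ⟨((2 * P - x + 3 * y) / 6).toNat, by omega⟩
  obtain ⟨b, hb⟩ : ∃ c : ℕ, 6 * (c : ℤ) = 2 * P - x - 3 * y :=
    ⟨((2 * P - x - 3 * y) / 6).toNat, by omega⟩
  refine ⟨a, b, c, d, by omega, by omega, by omega, by omega, by omega, ?_⟩
  have e1 : x = a + b - 2 * c - 2 * d := by omega
  have e2 : y = a - b := by omega
  have e3 : z = c - d := by omega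
  have e4 : (P : ℤ) = 2 * a + 2 * b - c - d := by omega
  rw [e1, e2, e3, e4] at h
  zify
  nlinarith

theorem big_Nt3 (h1 : NT1_st) (h2 : NT2_st) (n P : ℕ) (hP : 30 ≤ P) (h3 : P % 3 ≠ 0)
    (l : (P + 1) ^ 2 + 3 < 12 * n) (u : 12 * n ≤ (P + 3) ^ 2 + 3) : Groemer n P := by
  obtain ⟨M, hM⟩ := Nat.exists_eq_add_of_le u
  have m3 : M % 3 = 1 := by
    have : (P + 3) ^ 2 % 3 = 1 := by
      have : P % 3 = 1 ∨ P % 3 = 2 := by omega
      rcases this with e | e <;> simp [Nat.pow_mod, e]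
    omega
  obtain ⟨x, y, z, w, hw, e⟩ := h1 M m3
  obtain ⟨x, y, z, e⟩ := h2 M x y z w hw e
  have m7 : 7 * (M : ℤ) ≤ P ^ 2 := by
    have : 7 * M ≤ P ^ 2 := by nlinarith
    exact_mod_cast this
  have hM' : (M : ℤ) + 12 * n = (P + 3) ^ 2 + 3 := by
    zify at hM
    linarith
  have s3 : ∀ t : ℤ, t ^ 2 % 3 = 0 ∧ t % 3 = 0 ∨ t ^ 2 % 3 = 1 ∧ t % 3 ≠ 0 := fun t => by
    have : t % 3 = 0 ∨ t % 3 = 1 ∨ t % 3 = 2 := by omega
    rcases this with e | e | e <;> simp [pow_two, Int.mul_emod, e]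
  have s4 : ∀ t : ℤ, t ^ 2 % 4 = 0 ∧ t % 2 = 0 ∨ t ^ 2 % 4 = 1 ∧ t % 2 = 1 := fun t => by
    have : t % 4 = 0 ∨ t % 4 = 1 ∨ t % 4 = 2 ∨ t % 4 = 3 := by omega
    rcases this with e | e | e | e <;> simp [pow_two, Int.mul_emod, e] <;> omega
  have x3 : x % 3 ≠ 0 := by
    rcases s3 x with a | a
    · omega
    · exact a.2
  have key : ∀ x : ℤ, x ^ 2 + 3 * y ^ 2 + 3 * z ^ 2 = M → (x + P) % 3 = 0 → Groemer n P := by
    intro x e h
    by_cases c : (x + y) % 2 = 0 ∧ (z + P) % 2 = 0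
    · exact mk_Nt3 n P x y z (by linarith) (by linarith) h c.1 c.2
    · have c' : (x + z) % 2 = 0 ∧ (y + P) % 2 = 0 := by
        have a1 := s4 x
        have a2 := s4 y
        have a3 := s4 z
        have a4 := s4 (P + 3)
        omega
      exact mk_Nt3 n P x z y (by linarith) (by linarith) h c'.1 c'.2
  by_cases c : (x + P) % 3 = 0
  · exact key x e c
  · refine key (-x) (by simpa using e) ?_
    have a1 : x % 3 = 1 ∨ x % 3 = 2 := by omega
    have a2 : P % 3 = 1 ∨ P % 3 = 2 := by omega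
    rcases a1 with a1 | a1 <;> rcases a2 with a2 | a2 <;> omega

theorem nt3 (h1 : NT1_st) (h2 : NT2_st) : NT3_st := by
  intro n p l u
  rcases lt_or_ge p 30 with hp | hp
  · exact Or.inl (small_Nt3 n p hp l u)
  by_cases h3 : p % 3 = 0
  · exact Or.inr (big_Nt3 h1 h2 n (p + 1) (by omega) (by omega) l (by nlinarith))
  · exact Or.inl (big_Nt3 h1 h2 n p hp h3 (by nlinarith) u)

end MP7b

end
end

section

open scoped Classical
open MeasureTheory Metric Real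

noncomputable section
namespace MP7b

/-- the direction of the dart a b, in units of a sixth of a turn, measured from φ -/
def Dir_Rb3 (φ : ℝ) (a b : ℂ) (θ : ℝ) : Prop :=
  b - a = dist a b * Complex.exp ((φ + π / 3 * θ : ℝ) * Complex.I)

theorem exp_add_Rb3 (φ θ η : ℝ) : Complex.exp ((φ + π / 3 * (θ + η) : ℝ) * Complex.I) =
    Complex.exp ((φ + π / 3 * θ : ℝ) * Complex.I) * Complex.exp ((π / 3 * η : ℝ) * Complex.I) := by
  rw [← Complex.exp_add]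
  congr 1
  push_cast
  ring

theorem rev_Rb3 {φ : ℝ} {a b : ℂ} {θ : ℝ} (h : Dir_Rb3 φ a b θ) : Dir_Rb3 φ b a (θ + 3) := by
  unfold Dir_Rb3 at h ⊢
  have e : ((π / 3 * 3 : ℝ) : ℂ) * Complex.I = π * Complex.I := by push_cast; ring
  rw [exp_add_Rb3, e, Complex.exp_pi_mul_I, dist_comm b a]
  linear_combination -h

theorem per_Rb3 {φ : ℝ} {a b : ℂ} {θ : ℝ} (h : Dir_Rb3 φ a b θ) (k : ℤ) :
    Dir_Rb3 φ a b (θ + 6 * k) := by
  unfold Dir_Rb3 at h ⊢
  have e : ((π / 3 * (6 * k) : ℝ) : ℂ) * Complex.I = k * (2 * π * Complex.I) := by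
    push_cast; ring
  rw [exp_add_Rb3, e, Complex.exp_int_mul_two_pi_mul_I, mul_one]
  exact h

theorem uniq_Rb3 {φ : ℝ} {a b : ℂ} (hab : a ≠ b) {θ θ' : ℝ} (h : Dir_Rb3 φ a b θ)
    (h' : Dir_Rb3 φ a b θ') : ∃ k : ℤ, θ = θ' + 6 * k := by
  unfold Dir_Rb3 at h h'
  have hd : ((dist a b : ℝ) : ℂ) ≠ 0 := by exact_mod_cast (dist_ne_zero.2 hab)
  obtain ⟨k, hk⟩ := Complex.exp_eq_exp_iff_exists_int.1 (mul_left_cancel₀ hd (h.symm.trans h'))
  refine ⟨k, ?_⟩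
  have h1 := congrArg Complex.im hk
  simp at h1
  have := Real.pi_pos
  have h2 : π * (θ - θ' - 6 * k) = 0 := by linarith
  rcases mul_eq_zero.1 h2 with h3 | h3 <;> linarith

theorem ang_Rb3 {φ : ℝ} {v a b : ℂ} (ha : v ≠ a) (hb : v ≠ b) {θ : ℝ} :
    Dir_Rb3 φ v a θ ↔ Dir_Rb3 φ v b (θ + ang v a b) := by
  have ha' : a - v ≠ 0 := sub_ne_zero.2 ha.symm
  have hb' : b - v ≠ 0 := sub_ne_zero.2 hb.symm
  have hda : ((dist v a : ℝ) : ℂ) ≠ 0 := by exact_mod_cast (dist_ne_zero.2 ha)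
  have hdb : ((dist v b : ℝ) : ℂ) ≠ 0 := by exact_mod_cast (dist_ne_zero.2 hb)
  have e : π / 3 * ang v a b = Complex.arg ((b - v) / (a - v)) := by
    unfold ang
    have := Real.pi_pos
    field_simp
  have h1 := Complex.norm_mul_exp_arg_mul_I ((b - v) / (a - v))
  rw [norm_div, ← dist_eq_norm, ← dist_eq_norm, dist_comm b v, dist_comm a v] at h1
  unfold Dir_Rb3
  rw [exp_add_Rb3, e]
  generalize Complex.exp ((Complex.arg ((b - v) / (a - v)) : ℝ) * Complex.I) = w at h1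
  generalize Complex.exp ((φ + π / 3 * θ : ℝ) * Complex.I) = u
  push_cast at h1
  field_simp at h1
  have hw : w ≠ 0 := by
    rintro rfl
    simp [hda, hb'] at h1
  constructor
  · intro h
    apply mul_left_cancel₀ hda
    rw [h] at h1
    linear_combination -h1
  · intro h
    apply mul_left_cancel₀ (mul_ne_zero hdb hw)
    rw [h] at h1
    linear_combination h1

/-- the dart a b has the label i up to the error ε -/
def Lab_Rb3 (φ : ℝ) (a b : ℂ) (i : ℤ) (ε : ℝ) : Prop := ∃ e, |e| ≤ ε ∧ Dir_Rb3 φ a b (i + e)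

def Lb_Rb3 (φ : ℝ) (a b c : ℂ) (ε : ℝ) : Prop :=
  ∃ i : ℤ, Lab_Rb3 φ a b i ε ∧ Lab_Rb3 φ b c (i + 2) ε ∧ Lab_Rb3 φ c a (i + 4) ε

theorem lab_mono_Rb3 {φ : ℝ} {a b : ℂ} {i : ℤ} {ε ε' : ℝ} (h : Lab_Rb3 φ a b i ε) (hε : ε ≤ ε') :
    Lab_Rb3 φ a b i ε' :=
  let ⟨e, h1, h2⟩ := h
  ⟨e, h1.trans hε, h2⟩

theorem lab_rev_Rb3 {φ : ℝ} {a b : ℂ} {i : ℤ} {ε : ℝ} (h : Lab_Rb3 φ a b i ε) :
    Lab_Rb3 φ b a (i + 3) ε := by
  obtain ⟨e, h1, h2⟩ := h
  refine ⟨e, h1, ?_⟩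
  have := rev_Rb3 h2
  rwa [show (i : ℝ) + e + 3 = ((i + 3 : ℤ) : ℝ) + e by push_cast; ring] at this

theorem lab_per_Rb3 {φ : ℝ} {a b : ℂ} {i : ℤ} {ε : ℝ} (h : Lab_Rb3 φ a b i ε) (k : ℤ) :
    Lab_Rb3 φ a b (i + 6 * k) ε := by
  obtain ⟨e, h1, h2⟩ := h
  refine ⟨e, h1, ?_⟩
  have := per_Rb3 h2 k
  rwa [show (i : ℝ) + e + 6 * k = ((i + 6 * k : ℤ) : ℝ) + e by push_cast; ring] at this

theorem lab_uniq_Rb3 {φ : ℝ} {a b : ℂ} (hab : a ≠ b) {i j : ℤ} {ε : ℝ} (hε : ε < 1 / 2)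
    (h : Lab_Rb3 φ a b i ε) (h' : Lab_Rb3 φ a b j ε) : (i : ZMod 6) = j := by
  obtain ⟨e, h1, h2⟩ := h
  obtain ⟨e', h3, h4⟩ := h'
  obtain ⟨k, hk⟩ := uniq_Rb3 hab h2 h4
  have h5 := abs_le.1 h1
  have h6 := abs_le.1 h3
  have h7 : ((i - j - 6 * k : ℤ) : ℝ) < 1 := by push_cast; linarith
  have h8 : (-1 : ℝ) < ((i - j - 6 * k : ℤ) : ℝ) := by push_cast; linarith
  have h9 : i - j - 6 * k < 1 := by exact_mod_cast h7
  have h10 : -1 < i - j - 6 * k := by exact_mod_cast h8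
  have h11 : i = j + 6 * k := by omega
  rw [h11]
  push_cast
  have : (6 : ZMod 6) = 0 := by decide
  rw [this]
  ring

theorem lb_rot_Rb3 {φ : ℝ} {a b c : ℂ} {ε : ℝ} (h : Lb_Rb3 φ a b c ε) : Lb_Rb3 φ b c a ε := by
  obtain ⟨i, h1, h2, h3⟩ := h
  refine ⟨i + 2, h2, by rwa [show i + 2 + 2 = i + 4 by ring], ?_⟩
  have := lab_per_Rb3 h1 1
  rwa [show i + 6 * 1 = i + 2 + 4 by ring] at this

theorem ne_Rb3 {a b c : ℂ} (h : 0 < D a b c) : a ≠ b ∧ b ≠ c ∧ c ≠ a := by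
  refine ⟨?_, ?_, ?_⟩ <;> rintro rfl <;> simp [D] at h
  linarith

theorem lb_of_lab_Rb3 {φ : ℝ} {a b c : ℂ} (hD : 0 < D a b c) {i : ℤ} {ε d : ℝ}
    (h : Lab_Rb3 φ a b i ε) (h1 : |ang a b c - 1| ≤ d) (h2 : |ang b c a - 1| ≤ d) :
    Lb_Rb3 φ a b c (ε + d) := by
  obtain ⟨hab, hbc, hca⟩ := ne_Rb3 hD
  have hd : 0 ≤ d := (abs_nonneg _).trans h1
  refine ⟨i, lab_mono_Rb3 h (by linarith), ?_, ?_⟩
  · obtain ⟨e, h3, h4⟩ := h
    refine ⟨e - (ang b c a - 1), (abs_sub _ _).trans (by linarith), ?_⟩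
    rw [ang_Rb3 hbc hab.symm]
    have := rev_Rb3 h4
    rwa [show (i : ℝ) + e + 3 = ((i + 2 : ℤ) : ℝ) + (e - (ang b c a - 1)) + ang b c a by
      push_cast; ring] at this
  · obtain ⟨e, h3, h4⟩ := h
    refine ⟨e + (ang a b c - 1), (abs_add_le _ _).trans (by linarith), ?_⟩
    have := rev_Rb3 ((ang_Rb3 hab hca.symm).1 h4)
    rwa [show (i : ℝ) + e + ang a b c + 3 = ((i + 4 : ℤ) : ℝ) + (e + (ang a b c - 1)) by
      push_cast; ring] at this

/-- rotation closed sets of triangles, all labelled up to the total defect of the set -/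
def Good_Rb3 (g : ℂ → ℂ → ℂ → Prop) (δ : ℂ → ℂ → ℂ → ℝ) (φ : ℝ) (C : Finset (ℂ × ℂ × ℂ)) : Prop :=
  ∀ a b c, (a, b, c) ∈ C → g a b c ∧ (b, c, a) ∈ C ∧
    Lb_Rb3 φ a b c ((∑ q ∈ C, δ q.1 q.2.1 q.2.2) / 3)

theorem good_ins_Rb3 {X : Finset ℂ} {t : ℂ → ℂ → ℂ → Prop} {R : ℂ → ℂ → Prop}
    {g : ℂ → ℂ → ℂ → Prop} {δ : ℂ → ℂ → ℂ → ℝ} (H : Cx X t R g δ) {φ : ℝ}
    {C : Finset (ℂ × ℂ × ℂ)} (hC : Good_Rb3 g δ φ C) {a b c : ℂ} (hg : g a b c) {i : ℤ}
    (hl : Lab_Rb3 φ a b i ((∑ q ∈ C, δ q.1 q.2.1 q.2.2) / 3)) :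
    ∃ C', Good_Rb3 g δ φ C' ∧ (a, b, c) ∈ C' := by
  by_cases h0 : (a, b, c) ∈ C
  · exact ⟨C, hC, h0⟩
  have hD := H.tri.pos (H.gt hg)
  obtain ⟨hab, hbc, hca⟩ := ne_Rb3 hD
  have h2 : (c, a, b) ∉ C := fun h => h0 (hC _ _ _ h).2.1
  have h1 : (b, c, a) ∉ C := fun h => h2 (hC _ _ _ h).2.1
  have d1 : δ b c a = δ a b c := H.drot hg
  have d2 : δ c a b = δ a b c := (H.drot (H.grot hg)).trans d1
  have hd : 0 ≤ δ a b c := (abs_nonneg _).trans (H.dev hg)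
  have hs : (∑ q ∈ insert (a, b, c) (insert (b, c, a) (insert (c, a, b) C)),
      δ q.1 q.2.1 q.2.2) / 3 = (∑ q ∈ C, δ q.1 q.2.1 q.2.2) / 3 + δ a b c := by
    rw [Finset.sum_insert (by simp [hab, hca.symm, h0]), Finset.sum_insert (by simp [hbc, h1]),
      Finset.sum_insert h2]
    simp only [d1, d2]
    ring
  have hL := lb_of_lab_Rb3 hD hl (H.dev hg) (d1 ▸ H.dev (H.grot hg))
  refine ⟨insert (a, b, c) (insert (b, c, a) (insert (c, a, b) C)), fun x y z hm => ?_, by simp⟩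
  rw [hs]
  simp only [Finset.mem_insert, Prod.mk.injEq] at hm
  rcases hm with ⟨rfl, rfl, rfl⟩ | ⟨rfl, rfl, rfl⟩ | ⟨rfl, rfl, rfl⟩ | hm
  · exact ⟨hg, by simp, hL⟩
  · exact ⟨H.grot hg, by simp, lb_rot_Rb3 hL⟩
  · exact ⟨H.grot (H.grot hg), by simp, lb_rot_Rb3 (lb_rot_Rb3 hL)⟩
  · obtain ⟨h3, h4, j, h5, h6, h7⟩ := hC _ _ _ hm
    exact ⟨h3, by simp [h4], j, lab_mono_Rb3 h5 (by linarith), lab_mono_Rb3 h6 (by linarith),
      lab_mono_Rb3 h7 (by linarith)⟩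

theorem rb3 (hA : ANG_st) : RB3_st := by
  intro X t R g δ H hDel hR hconn
  by_cases hne : ∃ a b c, g a b c
  swap
  · push Not at hne
    refine ⟨fun _ _ => 0, 0, fun a b c h => (hne a b c h).elim, fun a b h => ?_, fun a b h => ?_⟩ <;>
      rcases hR a b h with ⟨c, hc⟩ | ⟨c, hc⟩ <;> exact (hne _ _ _ hc).elim
  obtain ⟨a0, b0, c0, h0⟩ := hne
  set φ := Complex.arg (b0 - a0) with hφ
  have hroot : Lab_Rb3 φ a0 b0 0 ((∑ q ∈ (∅ : Finset (ℂ × ℂ × ℂ)), δ q.1 q.2.1 q.2.2) / 3) := by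
    refine ⟨0, by simp, ?_⟩
    unfold Dir_Rb3
    have := Complex.norm_mul_exp_arg_mul_I (b0 - a0)
    rw [dist_comm, dist_eq_norm]
    rw [show φ + π / 3 * (((0 : ℤ) : ℝ) + 0) = φ by simp]
    exact this.symm
  have hall := hconn (fun a b c => ∃ C, Good_Rb3 g δ φ C ∧ (a, b, c) ∈ C)
    (fun a b c ⟨C, hC, hm⟩ => ⟨(hC _ _ _ hm).1, C, hC, (hC _ _ _ hm).2.1⟩)
    (fun a b c d ⟨C, hC, hm⟩ hg => by
      obtain ⟨i, h1, -, -⟩ := (hC _ _ _ hm).2.2
      exact good_ins_Rb3 H hC hg (lab_rev_Rb3 h1))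
    ⟨a0, b0, c0, good_ins_Rb3 H (fun _ _ _ h => by simp at h) h0 hroot⟩
  have hL : ∀ a b c, g a b c → Lb_Rb3 φ a b c (Del X g δ) := by
    intro a b c hg
    obtain ⟨C, hC, hm⟩ := hall a b c hg
    obtain ⟨i, h1, h2, h3⟩ := (hC _ _ _ hm).2.2
    have hle : (∑ q ∈ C, δ q.1 q.2.1 q.2.2) / 3 ≤ Del X g δ := by
      unfold Del
      gcongr ?_ / 3
      refine Finset.sum_le_sum_of_subset_of_nonneg (fun q hq => ?_) fun q hq _ => ?_
      · have hq' := (hC q.1 q.2.1 q.2.2 hq).1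
        simp only [T3, Finset.mem_filter, Finset.mem_product]
        exact ⟨⟨H.tri.mem (H.gt hq'), H.tri.mem (H.gt (H.grot hq')),
          H.tri.mem (H.gt (H.grot (H.grot hq')))⟩, hq'⟩
      · exact (abs_nonneg _).trans (H.dev (Finset.mem_filter.1 hq).2)
    exact ⟨i, lab_mono_Rb3 h1 hle, lab_mono_Rb3 h2 hle, lab_mono_Rb3 h3 hle⟩
  let G : ℂ → ℂ → ZMod 6 := fun a b =>
    if h : ∃ i : ℤ, Lab_Rb3 φ a b i (Del X g δ) then (h.choose : ZMod 6) else 0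
  have hG : ∀ a b, a ≠ b → ∀ i : ℤ, Lab_Rb3 φ a b i (Del X g δ) → G a b = i := by
    intro a b hab i hi
    have h : ∃ i : ℤ, Lab_Rb3 φ a b i (Del X g δ) := ⟨i, hi⟩
    simp only [G, dif_pos h]
    exact lab_uniq_Rb3 hab hDel h.choose_spec hi
  have hRl : ∀ a b, R a b → a ≠ b ∧ ∃ i : ℤ, Lab_Rb3 φ a b i (Del X g δ) := by
    intro a b h
    rcases hR a b h with ⟨c, hc⟩ | ⟨c, hc⟩
    · obtain ⟨i, h1, -⟩ := hL _ _ _ hc
      exact ⟨(ne_Rb3 (H.tri.pos (H.gt hc))).1, i, h1⟩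
    · obtain ⟨i, h1, -⟩ := hL _ _ _ hc
      exact ⟨(ne_Rb3 (H.tri.pos (H.gt hc))).1.symm, _, lab_rev_Rb3 h1⟩
  refine ⟨G, φ, fun a b c hg => ?_, fun a b h => ?_, fun a b h => ?_⟩
  · obtain ⟨i, h1, h2, -⟩ := hL _ _ _ hg
    obtain ⟨hab, hbc, -⟩ := ne_Rb3 (H.tri.pos (H.gt hg))
    rw [hG _ _ hab _ h1, hG _ _ hbc _ h2]
    push_cast
    rfl
  · obtain ⟨hab, i, hi⟩ := hRl a b h
    rw [hG _ _ hab _ hi, hG _ _ hab.symm _ (lab_rev_Rb3 hi)]
    push_cast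
    rfl
  · obtain ⟨hab, i, hi⟩ := hRl a b h
    rw [hG _ _ hab _ hi]
    obtain ⟨e, h1, h2⟩ := lab_per_Rb3 hi (-(i / 6))
    refine ⟨e, h1, ?_⟩
    have h3 : (((i : ZMod 6).val : ℕ) : ℤ) = i + 6 * -(i / 6) := by
      rw [ZMod.val_intCast]
      omega
    have h4 : (((i : ZMod 6).val : ℕ) : ℝ) = ((i + 6 * -(i / 6) : ℤ) : ℝ) := by exact_mod_cast h3
    rw [h4]
    exact h2

end MP7b

end
end
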