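import Pool.Agent.Mg.F7b7a6d.G71ec6f

open scoped Classical
open MeasureTheory Metric Real

noncomputable section

namespace MP7b

def mm_Sta (x : ℝ) : ℝ := min (max (x - 8) 0) 4

def ss_Sta (t : ℝ) : ℝ := if t < 0 then 1 else -1

lemma mm_nonneg_Sta (x : ℝ) : 0 ≤ mm_Sta x := by
  unfold mm_Sta
  exact le_min (le_max_right _ _) (by norm_num)

lemma mm_le_Sta (x : ℝ) : mm_Sta x ≤ 4 := min_le_right _ _

lemma mm_zero_Sta {x : ℝ} (h : x ≤ 8) : mm_Sta x = 0 := by
  unfold mm_Sta
  rw [max_eq_right (by linarith), min_eq_left (by norm_num)]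

lemma mm_le_sub_Sta {x : ℝ} (h : 8 ≤ x) : mm_Sta x ≤ x - 8 := by
  unfold mm_Sta
  rw [max_eq_left (by linarith)]
  exact min_le_left _ _

lemma mm_mono_Sta {x y : ℝ} (h : x ≤ y) : mm_Sta x ≤ mm_Sta y := by
  unfold mm_Sta
  exact min_le_min_right _ (max_le_max_right _ (by linarith))

lemma mm_eq_sub_Sta {x : ℝ} (h : 8 ≤ x) (h' : x ≤ 12) : mm_Sta x = x - 8 := by
  unfold mm_Sta
  rw [max_eq_left (by linarith), min_eq_left (by linarith)]

lemma mm_eq_four_Sta {x : ℝ} (h : 12 ≤ x) : mm_Sta x = 4 := by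
  unfold mm_Sta
  rw [max_eq_left (by linarith), min_eq_right (by linarith)]

lemma le_of_sq_Sta {S t : ℝ} (hS : 0 < S) (h : t ^ 2 ≤ S ^ 2) : t ≤ S :=
  (abs_le_of_sq_le_sq' h hS.le).2

lemma core_Sta (A B C S k : ℝ) (hA : 4 ≤ A) (hAB : A ≤ B) (hBC : B ≤ C) (hC : 8 ≤ C)
    (hS : 0 < S) (hH : 16 * S ^ 2 = 4 * A * B - (A + B - C) ^ 2) (hR : A * B * C ≤ 64 * S ^ 2)
    (hk0 : 0.133 ≤ k) (hk1 : k ≤ 0.135) :
    2 ≤ S + ss_Sta (A + B - C) * (k * mm_Sta C) + ss_Sta (B + C - A) * (k * mm_Sta A)
      + ss_Sta (C + A - B) * (k * mm_Sta B) := by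
  have hB : 4 ≤ B := le_trans hA hAB
  have hAB16 : 16 ≤ A * B := by nlinarith
  have hC16 : C ≤ 16 := by
    by_contra h
    push Not at h
    have h1 : A * B * 16 < A * B * C := by nlinarith
    nlinarith [sq_nonneg (A + B - C)]
  have e1 : ss_Sta (B + C - A) = -1 := by
    unfold ss_Sta; rw [if_neg (by linarith)]
  have e2 : ss_Sta (C + A - B) = -1 := by
    unfold ss_Sta; rw [if_neg (by linarith)]
  rw [e1, e2]
  have a0 := mm_nonneg_Sta A
  have b0 := mm_nonneg_Sta B
  have c0 := mm_nonneg_Sta C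
  have a4 := mm_le_Sta A
  have b4 := mm_le_Sta B
  have c4 := mm_le_Sta C
  have cC := mm_le_sub_Sta hC
  by_cases hob : A + B - C < 0
  · have e3 : ss_Sta (A + B - C) = 1 := by
      unfold ss_Sta; rw [if_pos hob]
    rw [e3]
    have hA8 : A ≤ 8 := by linarith
    rw [mm_zero_Sta hA8]
    by_cases hB8 : B ≤ 8
    · rw [mm_zero_Sta hB8]
      by_cases hC12 : C ≤ 12
      · rw [mm_eq_sub_Sta hC hC12]
        set x := C - A - B with hx
        have hx0 : 0 < x := by linarith
        have hx4 : x ≤ C - 8 := by linarith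
        have hx5 : x ≤ 4 := by linarith
        have h1 : 4 - x ^ 2 / 16 ≤ S ^ 2 := by
          have : (A + B - C) ^ 2 = x ^ 2 := by rw [hx]; ring
          nlinarith
        have h2 : (2 - k * x) ^ 2 ≤ 4 - x ^ 2 / 16 := by
          have h3 : x * (k ^ 2 + 1 / 16) ≤ 4 * k := by nlinarith
          nlinarith
        have h3 : 2 - k * x ≤ S := le_of_sq_Sta hS (le_trans h2 h1)
        have h4 : k * x ≤ k * (C - 8) := by nlinarith
        linarith
      · push Not at hC12
        rw [mm_eq_four_Sta hC12.le]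
        have h1 : (1.7 : ℝ) ^ 2 ≤ S ^ 2 := by nlinarith
        have h3 := le_of_sq_Sta hS h1
        linarith
    · push Not at hB8
      have h0 : 32 ≤ A * B := by nlinarith
      have h1 : (2 : ℝ) ^ 2 ≤ S ^ 2 := by nlinarith
      have h3 := le_of_sq_Sta hS h1
      have h4 := mm_mono_Sta hBC
      have h5 : k * mm_Sta B ≤ k * mm_Sta C := by nlinarith
      linarith
  · have e3 : ss_Sta (A + B - C) = -1 := by
      unfold ss_Sta; rw [if_neg hob]
    rw [e3]
    push Not at hob
    by_cases hB8 : B ≤ 8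
    · rw [mm_zero_Sta hB8, mm_zero_Sta (le_trans hAB hB8)]
      set y := A + B - C with hy
      have hy1 : y ≤ 16 := by linarith
      have h1 : C - 4 ≤ S ^ 2 := by
        have e : 16 * S ^ 2 = 16 * (C - 4) + 4 * ((A - 4) * (B - 4)) + y * (16 - y) := by
          rw [hH, hy]; ring
        have p1 : 0 ≤ (A - 4) * (B - 4) := mul_nonneg (by linarith) (by linarith)
        have p2 : 0 ≤ y * (16 - y) := mul_nonneg hob (by linarith)
        linarith
      set m := mm_Sta C
      have h2 : (2 + k * m) ^ 2 ≤ 4 + m := by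
        have h3 : 4 * k + k ^ 2 * m ≤ 1 := by nlinarith
        nlinarith
      have h3 : 2 + k * m ≤ S := le_of_sq_Sta hS (by linarith)
      linarith
    · push Not at hB8
      have bB := mm_le_sub_Sta hB8.le
      by_cases hA8 : A ≤ 8
      · rw [mm_zero_Sta hA8]
        have h1 : (B + C) / 2 - 2 ≤ S ^ 2 := by
          have e : 16 * S ^ 2 = 2 * A * (B + C) - A ^ 2 - (C - B) ^ 2 := by
            rw [hH]; ring
          have p1 : (C - B) ^ 2 ≤ A ^ 2 := by nlinarith
          have p2 : 0 ≤ (A - 4) * (B + C - A - 4) := mul_nonneg (by linarith) (by linarith)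
          nlinarith
        set t := mm_Sta B + mm_Sta C with ht
        have t0 : 0 ≤ t := by linarith
        have t8 : t ≤ 8 := by linarith
        have h2 : (2 + k * t) ^ 2 ≤ 6 + t / 2 := by
          have q1 : k * t ≤ 0.135 * t := by nlinarith
          have q2 : 0 ≤ k * t := by nlinarith
          have q3 : (k * t) ^ 2 ≤ (1.08 : ℝ) ^ 2 := by nlinarith
          nlinarith
        have h3 : 2 + k * t ≤ S := le_of_sq_Sta hS (by linarith)
        have h4 : k * t = k * mm_Sta B + k * mm_Sta C := by rw [ht]; ring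
        linarith
      · push Not at hA8
        have aA := mm_le_sub_Sta hA8.le
        have h1 : (0.43 * A) ^ 2 ≤ S ^ 2 := by
          have p1 : (A + B - C) ^ 2 ≤ A ^ 2 := by nlinarith
          have p2 : A * A ≤ A * B := by nlinarith
          nlinarith
        have h3 := le_of_sq_Sta hS h1
        have q1 : k * mm_Sta A ≤ 0.135 * mm_Sta A := by nlinarith
        have q2 : k * mm_Sta B ≤ 0.135 * 4 := by nlinarith
        have q3 : k * mm_Sta C ≤ 0.135 * 4 := by nlinarith
        linarith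

lemma sym_Sta (A B C S k : ℝ) (hA : 4 ≤ A) (hB : 4 ≤ B) (hC : 4 ≤ C)
    (h8 : 8 ≤ A ∨ 8 ≤ B ∨ 8 ≤ C)
    (hS : 0 < S) (hH : 16 * S ^ 2 = 4 * A * B - (A + B - C) ^ 2) (hR : A * B * C ≤ 64 * S ^ 2)
    (hk0 : 0.133 ≤ k) (hk1 : k ≤ 0.135) :
    2 ≤ S + ss_Sta (A + B - C) * (k * mm_Sta C) + ss_Sta (B + C - A) * (k * mm_Sta A)
      + ss_Sta (C + A - B) * (k * mm_Sta B) := by
  have c1 : A + B - C = B + A - C := by ring
  have c2 : B + C - A = C + B - A := by ring
  have c3 : C + A - B = A + C - B := by ring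
  rcases le_total A B with h1 | h1 <;> rcases le_total B C with h2 | h2 <;>
    rcases le_total A C with h3 | h3
  · have := core_Sta A B C S k hA h1 h2 (by rcases h8 with h | h | h <;> linarith) hS hH hR hk0 hk1
    linarith
  · have := core_Sta A B C S k hA h1 h2 (by rcases h8 with h | h | h <;> linarith) hS hH hR hk0 hk1
    linarith
  · have := core_Sta A C B S k hA h3 h2 (by rcases h8 with h | h | h <;> linarith) hS
      (by rw [hH]; ring) (by linarith [mul_right_comm A B C]) hk0 hk1
    rw [c1, c2, c3]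
    linarith
  · have := core_Sta C A B S k hC h3 h1 (by rcases h8 with h | h | h <;> linarith) hS
      (by rw [hH]; ring) (by have : C * A * B = A * B * C := by ring
                             linarith) hk0 hk1
    linarith
  · have := core_Sta B A C S k hB h1 h3 (by rcases h8 with h | h | h <;> linarith) hS
      (by rw [hH]; ring) (by have : B * A * C = A * B * C := by ring
                             linarith) hk0 hk1
    rw [c1, c2, c3]
    linarith
  · have := core_Sta B C A S k hB h2 h3 (by rcases h8 with h | h | h <;> linarith) hS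
      (by rw [hH]; ring) (by have : B * C * A = A * B * C := by ring
                             linarith) hk0 hk1
    linarith
  · have := core_Sta C B A S k hC h2 h1 (by rcases h8 with h | h | h <;> linarith) hS
      (by rw [hH]; ring) (by have : C * B * A = A * B * C := by ring
                             linarith) hk0 hk1
    rw [c1, c2, c3]
    linarith
  · have := core_Sta C B A S k hC h2 h1 (by rcases h8 with h | h | h <;> linarith) hS
      (by rw [hH]; ring) (by have : C * B * A = A * B * C := by ring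
                             linarith) hk0 hk1
    rw [c1, c2, c3]
    linarith

lemma dist_sq_Sta (a b : ℂ) : dist a b ^ 2 = (a.re - b.re) ^ 2 + (a.im - b.im) ^ 2 := by
  rw [Complex.dist_eq, Complex.sq_norm, Complex.normSq_apply]
  simp only [Complex.sub_re, Complex.sub_im]
  ring

lemma sg_eq_Sta (c a b : ℂ) :
    sg c a b = ss_Sta (dist b c ^ 2 + dist c a ^ 2 - dist a b ^ 2) := by
  have h : dist b c ^ 2 + dist c a ^ 2 - dist a b ^ 2 = 2 * Ip c a b := by
    simp only [dist_sq_Sta, Ip]; ring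
  rw [h]
  unfold sg ss_Sta
  by_cases h0 : Ip c a b < 0
  · rw [if_pos h0, if_pos (by linarith)]
  · rw [if_neg h0, if_neg (by linarith)]

lemma sqrt3_Sta : (1.73 : ℝ) ≤ √3 ∧ √3 ≤ (1.734 : ℝ) := by
  constructor
  · exact Real.le_sqrt_of_sq_le (by norm_num)
  · exact Real.sqrt_le_iff.2 ⟨by norm_num, by norm_num⟩

theorem sta : STA_st := by
  intro a b c hD hab hbc hca hR h8
  obtain ⟨s1, s2⟩ := sqrt3_Sta
  have hnu : 0 < nu := by unfold nu; linarith
  have hA : 4 ≤ dist a b ^ 2 := by nlinarith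
  have hB : 4 ≤ dist b c ^ 2 := by nlinarith
  have hC : 4 ≤ dist c a ^ 2 := by nlinarith
  have hH : 16 * (D a b c / 2) ^ 2 = 4 * dist a b ^ 2 * dist b c ^ 2
      - (dist a b ^ 2 + dist b c ^ 2 - dist c a ^ 2) ^ 2 := by
    simp only [dist_sq_Sta, D]; ring
  have hR2 : dist a b ^ 2 * dist b c ^ 2 * dist c a ^ 2 ≤ 64 * (D a b c / 2) ^ 2 := by
    have p0 : 0 ≤ dist a b * dist b c * dist c a := by positivity
    have p1 : (dist a b * dist b c * dist c a) ^ 2 ≤ (4 * D a b c) ^ 2 :=
      pow_le_pow_left₀ p0 hR 2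
    nlinarith
  have key := sym_Sta (dist a b ^ 2) (dist b c ^ 2) (dist c a ^ 2) (D a b c / 2) (nu / 2)
    hA hB hC h8 (by linarith) hH hR2 (by unfold nu; linarith) (by unfold nu; linarith)
  unfold dl
  rw [le_div_iff₀ (by linarith), sg_eq_Sta c a b, sg_eq_Sta a b c, sg_eq_Sta b c a]
  unfold cap
  unfold mm_Sta at key
  have e : nu = 2 - √3 := rfl
  linarith

end MP7b
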