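import Pool.Agent.Mg.F7b7a6d.G71ec6f
import Pool.Agent.Mg.F7b7a6d.G035af9
import Pool.Agent.Mg.F7b7a6d.G28590b
import Pool.Agent.Mg.F7b7a6d.G0e19cb
import Pool.Agent.Mg.F7b7a6d.G65f82f
import Pool.Agent.Mg.F7b7a6d.G9ebe09
import Pool.Agent.Mg.F7b7a6d.G62dd8c

section

/-! Every cycle of the triangulation is a boundary. -/

open scoped Classical
open MeasureTheory Metric Real

noncomputable section
namespace MP7b

def ht_H1 (ε : ℝ) (x : ℂ) : ℝ := x.re + ε * x.im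

def sl_H1 (ε : ℝ) (v a : ℂ) : ℝ := (a.im - v.im) / (ht_H1 ε v - ht_H1 ε a)

def ky_H1 (ε : ℝ) (q : ℂ × ℂ) : ℝ ×ₗ ℝ := toLex (ht_H1 ε q.1, sl_H1 ε q.1 q.2)

def in_H1 (p q x y : ℂ) : ℚ := if x = p ∧ y = q then 1 else 0

theorem D_H1 {ε : ℝ} {v a b : ℂ} (ha : ht_H1 ε a < ht_H1 ε v) (hb : ht_H1 ε b < ht_H1 ε v) :
    D v a b = (ht_H1 ε v - ht_H1 ε a) * (ht_H1 ε v - ht_H1 ε b) * (sl_H1 ε v a - sl_H1 ε v b) := by
  have h1 := (sub_pos.2 ha).ne'
  have h2 := (sub_pos.2 hb).ne'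
  rw [sl_H1, sl_H1]
  field_simp
  simp only [D, ht_H1]
  ring

theorem ray_H1 {ε : ℝ} {v a b : ℂ} (ha : ht_H1 ε a < ht_H1 ε v) (hb : ht_H1 ε b < ht_H1 ε v)
    (h : sl_H1 ε v a = sl_H1 ε v b) :
    b = v + (((ht_H1 ε v - ht_H1 ε b) / (ht_H1 ε v - ht_H1 ε a) : ℝ) : ℂ) * (a - v) := by
  have h1 := (sub_pos.2 ha).ne'
  have h2 := (sub_pos.2 hb).ne'
  rw [sl_H1, sl_H1, div_eq_div_iff h1 h2] at h
  obtain ⟨s, hs⟩ : ∃ s, s = (ht_H1 ε v - ht_H1 ε b) / (ht_H1 ε v - ht_H1 ε a) := ⟨_, rfl⟩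
  rw [← hs]
  rw [eq_div_iff h1] at hs
  have e1 : b.im - v.im = s * (a.im - v.im) := by
    refine mul_right_cancel₀ h1 ?_
    rw [← h, ← hs]
    ring
  simp only [ht_H1] at hs
  refine Complex.ext ?_ ?_
  · simp only [Complex.add_re, Complex.re_ofReal_mul, Complex.sub_re]
    linear_combination hs - ε * e1
  · simp only [Complex.add_im, Complex.im_ofReal_mul, Complex.sub_im]
    linear_combination e1

theorem Esymm_H1 {t : ℂ → ℂ → ℂ → Prop} {a b : ℂ} (h : E t a b) : E t b a := h.symm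

theorem Emem_H1 {X : Finset ℂ} {t : ℂ → ℂ → ℂ → Prop} (hT : Tri X t) {a b : ℂ} (h : E t a b) :
    a ∈ X ∧ b ∈ X ∧ a ≠ b := by
  have k : ∀ {a b c}, t a b c → a ∈ X ∧ b ∈ X ∧ a ≠ b := fun h =>
    ⟨hT.mem h, hT.mem (hT.rot h), fun e => by
      have := hT.pos h
      rw [e] at this
      simp [D] at this⟩
  rcases h with ⟨c, h⟩ | ⟨c, h⟩
  · exact k h
  · exact ⟨(k h).2.1, (k h).1, (k h).2.2.symm⟩

theorem rot_H1 {X : Finset ℂ} {t : ℂ → ℂ → ℂ → Prop} (hT : Tri X t) {p q r x y d : ℂ}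
    (h : t p q r) (h' : t x y d) : in_H1 p q x y = in_H1 q r y d := by
  refine if_congr ⟨?_, ?_⟩ rfl rfl
  · rintro ⟨rfl, rfl⟩
    exact ⟨rfl, hT.uniq h' h⟩
  · rintro ⟨rfl, rfl⟩
    exact ⟨hT.uniq (hT.rot h') (hT.rot h), rfl⟩

theorem zero_H1 {t : ℂ → ℂ → ℂ → Prop} {p q r x y : ℂ} (h : t p q r) (h' : ¬ ∃ d, t x y d) :
    in_H1 p q x y = 0 := by
  refine if_neg ?_
  rintro ⟨rfl, rfl⟩
  exact h' ⟨r, h⟩

theorem sum1_H1 {X : Finset ℂ} {p q : ℂ} (h : q ∈ X) (x : ℂ) :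
    ∑ y ∈ X, in_H1 p q x y = if x = p then 1 else 0 := by
  by_cases e : x = p <;> simp [in_H1, e, h]

theorem sum2_H1 {X : Finset ℂ} {p q : ℂ} (h : p ∈ X) (x : ℂ) :
    ∑ y ∈ X, in_H1 p q y x = if x = q then 1 else 0 := by
  by_cases e : x = q <;> simp [in_H1, e, h]

/-- the chain of one triangle -/
theorem one_H1 {X : Finset ℂ} {t : ℂ → ℂ → ℂ → Prop} (hT : Tri X t) {v a b : ℂ} (h : t v a b)
    (l : ℚ) : ∃ c, Ch t c ∧ (∀ x, ∑ y ∈ X, (c x y - c y x) = 0) ∧ c v a - c a v = l ∧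
      ∀ x y, c x y ≠ 0 → (x = v ∧ y = a) ∨ (x = a ∧ y = b) ∨ (x = b ∧ y = v) := by
  have h2 := hT.rot h
  have h3 := hT.rot h2
  have n1 := (Emem_H1 hT (Or.inl ⟨_, h⟩)).2.2
  have n2 := (Emem_H1 hT (Or.inl ⟨_, h2⟩)).2.2
  have n3 := (Emem_H1 hT (Or.inl ⟨_, h3⟩)).2.2
  refine ⟨fun x y => l * (in_H1 v a x y + in_H1 a b x y + in_H1 b v x y), ⟨fun x y d h' => ?_,
    fun x y h' => ?_⟩, fun x => ?_, ?_, fun x y hc => ?_⟩
  · simp only [rot_H1 hT h h', rot_H1 hT h2 h', rot_H1 hT h3 h']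
    ring
  · simp only [zero_H1 h h', zero_H1 h2 h', zero_H1 h3 h']
    ring
  · simp only [Finset.sum_sub_distrib, ← Finset.mul_sum, Finset.sum_add_distrib,
      sum1_H1 (hT.mem h), sum1_H1 (hT.mem h2), sum1_H1 (hT.mem h3), sum2_H1 (hT.mem h),
      sum2_H1 (hT.mem h2), sum2_H1 (hT.mem h3)]
    ring
  · simp [in_H1, n1, n2, n1.symm, n3.symm]
  · by_contra hn
    rw [not_or, not_or] at hn
    simp only [in_H1, if_neg hn.1, if_neg hn.2.1, if_neg hn.2.2] at hc
    simp at hc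

theorem h1 (hM : MID_st) (hE : EPS_st) (hL : LL_st) : H1_st := by
  intro X t hT
  obtain ⟨ε, hε⟩ := hE X
  have hne : ∀ {a b}, E t a b → ht_H1 ε a < ht_H1 ε b ∨ ht_H1 ε b < ht_H1 ε a := fun h =>
    lt_or_gt_of_ne fun e => (Emem_H1 hT h).2.2 (hε _ (Emem_H1 hT h).1 _ (Emem_H1 hT h).2.1 e)
  have main : ∀ S : Finset (ℂ × ℂ), (∀ x ∈ S, ∀ y : ℂ × ℂ, E t y.1 y.2 →
      ht_H1 ε y.2 < ht_H1 ε y.1 → ky_H1 ε y < ky_H1 ε x → y ∈ S) → ∀ z, Cyc X (E t) z →
      (∀ v a, ht_H1 ε a < ht_H1 ε v → z v a ≠ 0 → (v, a) ∈ S) →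
      ∃ c, Ch t c ∧ ∀ a b, z a b = c a b - c b a := by
    intro S
    induction S using Finset.induction_on_max_value (ky_H1 ε) with
    | empty =>
      intro _ z hz hs
      refine ⟨fun _ _ => 0, ⟨fun _ _ _ _ => rfl, fun _ _ _ => rfl⟩, fun a b => ?_⟩
      rw [sub_zero]
      by_contra h
      rcases hne (of_not_not fun e => h (hz.2.1 a b e)) with e | e
      · exact Finset.notMem_empty _ (hs b a e fun e' => h (by rw [hz.1, e', neg_zero]))
      · exact Finset.notMem_empty _ (hs a b e h)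
    | insert q s hq hmax ih =>
      obtain ⟨v, a⟩ := q
      intro hd z hz hs
      have hle : ∀ y ∈ insert (v, a) s, ky_H1 ε y ≤ ky_H1 ε (v, a) := fun y hy =>
        (Finset.mem_insert.1 hy).elim (fun e => le_of_eq (congrArg _ e)) (hmax y)
      have hlt : ∀ y : ℂ × ℂ, y ∈ insert (v, a) s → ky_H1 ε y < ky_H1 ε (v, a) → y ∈ s :=
        fun y hy h => (Finset.mem_insert.1 hy).resolve_left fun e => h.ne (congrArg _ e)
      have ih' := ih fun x hx y h1 h2 h3 =>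
        hlt y (hd x (Finset.mem_insert_of_mem hx) y h1 h2 h3) (h3.trans_le (hmax x hx))
      by_cases h0 : ht_H1 ε a < ht_H1 ε v ∧ z v a ≠ 0
      swap
      · refine ih' z hz fun v' a' h1 h2 => (Finset.mem_insert.1 (hs v' a' h1 h2)).resolve_left ?_
        intro e
        obtain ⟨rfl, rfl⟩ := Prod.mk.inj e
        exact h0 ⟨h1, h2⟩
      obtain ⟨ha, hza⟩ := h0
      have Ea : E t v a := of_not_not fun e => hza (hz.2.1 v a e)
      obtain ⟨a', ha'X, ne', hz'⟩ : ∃ a' ∈ X, a' ≠ a ∧ z v a' ≠ 0 := by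
        by_contra hn
        refine hza ((Finset.sum_eq_single_of_mem a (Emem_H1 hT Ea).2.1 fun b hb hba => ?_).symm.trans
          (hz.2.2 v))
        exact of_not_not fun e => hn ⟨b, hb, hba, e⟩
      have Ea' : E t v a' := of_not_not fun e => hz' (hz.2.1 v a' e)
      have ha' : ht_H1 ε a' < ht_H1 ε v := by
        refine (hne Ea').resolve_left fun e => ?_
        have := hle _ (hs a' v e fun e' => hz' (by rw [hz.1, e', neg_zero]))
        rcases Prod.Lex.toLex_le_toLex.1 this with h | h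
        · exact lt_asymm e h
        · exact e.ne' h.1
      have s1 : sl_H1 ε v a' ≤ sl_H1 ε v a :=
        (Prod.Lex.toLex_le_toLex.1 (hle _ (hs v a' ha' hz'))).elim
          (fun h => absurd h (lt_irrefl _)) fun h => h.2
      have p1 := sub_pos.2 ha
      have p2 := sub_pos.2 ha'
      have s2 : sl_H1 ε v a' ≠ sl_H1 ε v a := fun e => by
        rcases lt_trichotomy (ht_H1 ε a) (ht_H1 ε a') with h | h | h
        · exact hM X t hT v a a' _ Ea ha'X (div_pos p2 p1) ((div_lt_one p1).2 (by linarith))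
            (ray_H1 ha ha' e.symm)
        · exact ne' (hε _ ha'X _ (Emem_H1 hT Ea).2.1 h.symm)
        · exact hM X t hT v a' a _ Ea' (Emem_H1 hT Ea).2.1 (div_pos p1 p2)
            ((div_lt_one p2).2 (by linarith)) (ray_H1 ha' ha e)
      obtain ⟨b, hb, hbv, -⟩ := (hL X t hT ε hε v (Emem_H1 hT Ea).1).2 a a' Ea Ea' ha ha' (by
        rw [D_H1 ha ha']
        exact mul_pos (mul_pos p1 p2) (sub_pos.2 (lt_of_le_of_ne s1 s2)))
      have hbv : ht_H1 ε b < ht_H1 ε v := hbv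
      have s3 : sl_H1 ε v b < sl_H1 ε v a := by
        have := hT.pos hb
        rw [D_H1 ha hbv] at this
        exact sub_pos.1 ((mul_pos_iff_of_pos_left (mul_pos p1 (sub_pos.2 hbv))).1 this)
      obtain ⟨c, hc, hsum, hl, hsupp⟩ := one_H1 hT hb (z v a)
      have hcE : ∀ x y, ¬ E t x y → c x y - c y x = 0 := fun x y h => by
        rw [hc.2 x y fun e => h (Or.inl e), hc.2 y x fun e => h (Or.inr e), sub_zero]
      obtain ⟨c', hc', hzc⟩ := ih' (fun x y => z x y - (c x y - c y x))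
        ⟨fun x y => by linarith [hz.1 x y], fun x y h => by linarith [hz.2.1 x y h, hcE x y h],
          fun x => by
            beta_reduce
            rw [Finset.sum_sub_distrib, hz.2.2, hsum, sub_zero]⟩ (by
        intro x y hxy hn
        have nq : (x, y) ≠ (v, a) := fun e => by
          obtain ⟨rfl, rfl⟩ := Prod.mk.inj e
          exact hn (by rw [hl, sub_self])
        by_cases h1 : z x y = 0
        swap
        · exact (Finset.mem_insert.1 (hs x y hxy h1)).resolve_left nq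
        have h2 : c x y - c y x ≠ 0 := fun e => hn (by rw [h1, e, sub_zero])
        have h3 : ky_H1 ε (x, y) < ky_H1 ε (v, a) := by
          refine Prod.Lex.toLex_lt_toLex.2 ?_
          by_cases h4 : c x y = 0
          · rcases hsupp y x fun e => h2 (by rw [h4, e, sub_zero]) with
              ⟨rfl, rfl⟩ | ⟨rfl, rfl⟩ | ⟨rfl, rfl⟩
            · exact Or.inl ha
            · exact Or.inl hbv
            · exact Or.inr ⟨rfl, s3⟩
          · rcases hsupp x y h4 with ⟨rfl, rfl⟩ | ⟨rfl, rfl⟩ | ⟨rfl, rfl⟩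
            · exact absurd rfl nq
            · exact Or.inl ha
            · exact Or.inl hbv
        exact hlt _ (hd _ (Finset.mem_insert_self _ _) (x, y) (of_not_not fun e => h2 (hcE x y e))
          hxy h3) h3)
      refine ⟨fun x y => c x y + c' x y, ⟨fun x y d h => ?_, fun x y h => ?_⟩, fun x y => ?_⟩
      · simp only [hc.1 x y d h, hc'.1 x y d h]
      · simp only [hc.2 x y h, hc'.2 x y h, add_zero]
      · have := hzc x y
        linarith
  intro z hz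
  refine main (X ×ˢ X) (fun _ _ y h _ _ => Finset.mem_product.2
    ⟨(Emem_H1 hT h).1, (Emem_H1 hT h).2.1⟩) z hz fun v a _ h => ?_
  have := Emem_H1 hT (of_not_not fun e => h (hz.2.1 v a e))
  exact Finset.mem_product.2 ⟨this.1, this.2.1⟩

end MP7b

end
end

section

namespace MP7b

theorem tri_all : TRI_st := tri gen tra trb trc

theorem sti_all : STI_st := sti (stu angs sta) (stl angs sta)

theorem rig_all : RIG_st :=
  rig cnt (rb1 (lc mid) (an2 mid angs) cnt) (rb3 angs) pot rb5 l6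

theorem ra_all : RA_st :=
  ra badf obt (hu mid) angs (an1 mid angs (hu mid)) (an2 mid angs) cnt

theorem core_all : CORE2_st :=
  core2 tri_all angs mid (ch1 eps ll) (h1 mid eps ll) chi badf sti_all (col badf obt)
    (pes (lc mid)) (pea (lc mid) chi) (peb angs (an2 mid angs)) (peb2 angs (an2 mid angs)) gst
    (trv otv) (acb badf obt (slk angs)) (acg2 badf) cnt ra_all rig_all (eq0 angs) (sts angs)
    (tie angs sta (eq0 angs) (an2 mid angs))

theorem main_all : MAIN_st := mainC core_all sat (lin gst) gst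

theorem nt_all : NT3_st := nt3 nt1 nt2

end MP7b

end
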