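import Mathlib

section

/-! Finite packings of unit discs: definitions and the statements of the parts. -/

open scoped Classical
open MeasureTheory Metric Real

noncomputable section
namespace MP7b

/-- twice the signed area of the triangle `a b c` -/
def D (a b c : ℂ) : ℝ := (b.re - a.re) * (c.im - a.im) - (b.im - a.im) * (c.re - a.re)

/-- inner product of `a - v` and `b - v` -/
def Ip (v a b : ℂ) : ℝ := (a.re - v.re) * (b.re - v.re) + (a.im - v.im) * (b.im - v.im)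

/-- angle at `v` from `a` to `b`, in units of `π/3` -/
def ang (v a b : ℂ) : ℝ := 3 / π * Complex.arg ((b - v) / (a - v))

/-- open triangle -/
def otri (a b c : ℂ) : Set ℂ := {p | 0 < D a b p ∧ 0 < D b c p ∧ 0 < D c a p}

/-- `t` is a Delaunay triangulation of `X` (positively oriented triples) -/
structure Tri (X : Finset ℂ) (t : ℂ → ℂ → ℂ → Prop) : Prop where
  mem : ∀ {a b c}, t a b c → a ∈ X
  rot : ∀ {a b c}, t a b c → t b c a
  pos : ∀ {a b c}, t a b c → 0 < D a b c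
  uniq : ∀ {a b c c'}, t a b c → t a b c' → c = c'
  nbr : ∀ {a b c x}, t a b c → x ∈ X → D a b x < 0 → ∃ d, t b a d
  disj : ∀ {a b c a' b' c' p}, t a b c → t a' b' c' → p ∈ otri a b c → p ∈ otri a' b' c' →
    (a' = a ∧ b' = b ∧ c' = c) ∨ (a' = b ∧ b' = c ∧ c' = a) ∨ (a' = c ∧ b' = a ∧ c' = b)
  nocross : ∀ {v a b c d}, t v a b → (t v c d ∨ t v d c) → 0 < D v a c → 0 < D v c b → False
  cover : ∀ {x}, x ∈ X → ∃ a b, t x a b
  del : ∀ {a b c}, t a b c → ∃ O : ℂ, dist b O = dist a O ∧ dist c O = dist a O ∧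
    ∀ x ∈ X, dist a O ≤ dist x O

/-- edges (darts) of the triangulation -/
def E (t : ℂ → ℂ → ℂ → Prop) (a b : ℂ) : Prop := (∃ c, t a b c) ∨ ∃ c, t b a c

/-- darts of `R` without a `P`-triangle on the left -/
def bd (R : ℂ → ℂ → Prop) (P : ℂ → ℂ → ℂ → Prop) (a b : ℂ) : Prop := R a b ∧ ¬ ∃ c, P a b c

def D2 (X : Finset ℂ) (R : ℂ → ℂ → Prop) : Finset (ℂ × ℂ) := (X ×ˢ X).filter fun q => R q.1 q.2

def T3 (X : Finset ℂ) (P : ℂ → ℂ → ℂ → Prop) : Finset (ℂ × ℂ × ℂ) :=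
  (X ×ˢ X ×ˢ X).filter fun q => P q.1 q.2.1 q.2.2

/-- six times the Euler characteristic -/
def chi6 (X : Finset ℂ) (R : ℂ → ℂ → Prop) (P : ℂ → ℂ → ℂ → Prop) : ℤ :=
  6 * (X.card : ℤ) - 3 * ((D2 X R).card : ℤ) + 2 * ((T3 X P).card : ℤ)

def Sep (X : Finset ℂ) : Prop := ∀ a ∈ X, ∀ b ∈ X, a ≠ b → 2 ≤ dist a b

def Sat (X : Finset ℂ) : Prop := ∀ p ∈ convexHull ℝ (X : Set ℂ), ∃ x ∈ X, dist p x ≤ 2

def NonCol (X : Finset ℂ) : Prop := ∃ a ∈ X, ∃ b ∈ X, ∃ c ∈ X, D a b c ≠ 0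

/-- circumradius at most 2 -/
def good (t : ℂ → ℂ → ℂ → Prop) (a b c : ℂ) : Prop :=
  t a b c ∧ dist a b * dist b c * dist c a ≤ 4 * D a b c

def bad (t : ℂ → ℂ → ℂ → Prop) (a b c : ℂ) : Prop :=
  t a b c ∧ ¬ dist a b * dist b c * dist c a ≤ 4 * D a b c

/-- bad triangle, obtuse at its first vertex -/
def ap (t : ℂ → ℂ → ℂ → Prop) (c a b : ℂ) : Prop := bad t c a b ∧ Ip c a b < 0

/-- the pair a, b is the long dart of a bad triangle -/
def lng (t : ℂ → ℂ → ℂ → Prop) (a b : ℂ) : Prop := ∃ c, ap t c a b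

/-- edges left after the collapse of the bad triangles -/
def e0 (t : ℂ → ℂ → ℂ → Prop) (a b : ℂ) : Prop := E t a b ∧ ¬ lng t a b ∧ ¬ lng t b a

def nu : ℝ := 2 - √3

def cap (a b : ℂ) : ℝ := nu / 2 * min (max (dist a b ^ 2 - 8) 0) 4

def sg (c a b : ℂ) : ℝ := if Ip c a b < 0 then 1 else -1

/-- normalised defect of a triangle -/
def dl (a b c : ℂ) : ℝ :=
  (D a b c / 2 - √3 + sg c a b * cap a b + sg a b c * cap b c + sg b c a * cap c a) / (2 * nu)

/-- total normalised defect -/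
def Del (X : Finset ℂ) (P : ℂ → ℂ → ℂ → Prop) (δ : ℂ → ℂ → ℂ → ℝ) : ℝ :=
  (∑ q ∈ T3 X P, δ q.1 q.2.1 q.2.2) / 3

/-- total slack of the bad triangles -/
def SL (X : Finset ℂ) (t : ℂ → ℂ → ℂ → Prop) : ℝ := ∑ q ∈ T3 X (ap t), (3 - ang q.1 q.2.1 q.2.2)

/-- 2-chains, as functions on darts -/
def Ch (P : ℂ → ℂ → ℂ → Prop) (c : ℂ → ℂ → ℚ) : Prop :=
  (∀ a b d, P a b d → c a b = c b d) ∧ ∀ a b, (¬ ∃ d, P a b d) → c a b = 0

def Cyc (X : Finset ℂ) (R : ℂ → ℂ → Prop) (z : ℂ → ℂ → ℚ) : Prop :=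
  (∀ a b, z a b = - z b a) ∧ (∀ a b, ¬ R a b → z a b = 0) ∧ ∀ a, ∑ b ∈ X, z a b = 0

def Exa (X : Finset ℂ) (R : ℂ → ℂ → Prop) (P : ℂ → ℂ → ℂ → Prop) : Prop :=
  ∀ z, Cyc X R z → ∃ c, Ch P c ∧ ∀ a b, z a b = c a b - c b a

def Solid (t : ℂ → ℂ → ℂ → Prop) (R : ℂ → ℂ → Prop) (P : ℂ → ℂ → ℂ → Prop) : Prop :=
  ∀ c, Ch t c → (∀ a b, ¬ R a b → c a b = c b a) → ∀ a b d, t a b d → ¬ P a b d → c a b = 0

def Conn (X : Finset ℂ) (R : ℂ → ℂ → Prop) : Prop :=
  ∀ φ : ℂ → Prop, (∀ a b, R a b → φ a → φ b) → ∀ a ∈ X, ∀ b ∈ X, φ a → φ b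

/-- a subcomplex R, g of the triangulation with defects `δ` -/
structure Cx (X : Finset ℂ) (t : ℂ → ℂ → ℂ → Prop) (R : ℂ → ℂ → Prop) (g : ℂ → ℂ → ℂ → Prop)
    (δ : ℂ → ℂ → ℂ → ℝ) : Prop where
  tri : Tri X t
  gt : ∀ {a b c}, g a b c → t a b c
  grot : ∀ {a b c}, g a b c → g b c a
  gR : ∀ {a b c}, g a b c → R a b
  Rsymm : ∀ {a b}, R a b → R b a
  RE : ∀ {a b}, R a b → E t a b
  drot : ∀ {a b c}, g a b c → δ b c a = δ a b c
  dev : ∀ {a b c}, g a b c → |ang a b c - 1| ≤ δ a b c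

/-- number of `g`-triangles at `w` -/
def dg (X : Finset ℂ) (g : ℂ → ℂ → ℂ → Prop) (w : ℂ) : ℕ := (D2 X (g w)).card

/-- number of boundary darts out of `w` -/
def kb (X : Finset ℂ) (R : ℂ → ℂ → Prop) (g : ℂ → ℂ → ℂ → Prop) (w : ℂ) : ℕ :=
  (X.filter (bd R g w)).card

/-- the points `s + t ω` of the triangular lattice with `0 ≤ s ≤ α`, `0 ≤ t ≤ β`,
`c ≤ s + t ≤ α + β - c'` are `n` in number and `p` of them lie on the boundary -/
def Groemer (n p : ℕ) : Prop :=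
  ∃ α β c c' : ℕ, c ≤ α ∧ c ≤ β ∧ c' ≤ α ∧ c' ≤ β ∧ p + c + c' = 2 * α + 2 * β ∧
    2 * n + c * (c + 1) + c' * (c' + 1) = 2 * (α + 1) * (β + 1)

def om : ℂ := ⟨1 / 2, √3 / 2⟩

/-- the equiangular hexagon -/
def Hx (α β c c' : ℝ) : Set ℂ :=
  {z | ∃ s u : ℝ, z = 2 * s + 2 * u * om ∧ 0 ≤ s ∧ s ≤ α ∧ 0 ≤ u ∧ u ≤ β ∧ c ≤ s + u ∧
    s + u ≤ α + β - c'}

/-- outer parallel body at distance one -/
def Rd (H : Set ℂ) : Set ℂ := {x | ∃ z ∈ H, dist x z ≤ 1}

/-- the six lattice directions in skew coordinates -/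
def e1 (i : ZMod 6) : ℚ :=
  if i = 0 then 1 else if i = 2 then -1 else if i = 3 then -1 else if i = 5 then 1 else 0

def e2 (i : ZMod 6) : ℚ :=
  if i = 1 then 1 else if i = 2 then 1 else if i = 4 then -1 else if i = 5 then -1 else 0

/-- 4×4 determinant of the lifted points -/
def Qh (h : ℂ → ℝ) (a b c d : ℂ) : ℝ :=
  h d * D a b c - h a * D d b c - h b * D a d c - h c * D a b d

/-- lower faces of the lifted points -/
def tH (X : Finset ℂ) (h : ℂ → ℝ) (a b c : ℂ) : Prop :=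
  a ∈ X ∧ b ∈ X ∧ c ∈ X ∧ 0 < D a b c ∧ ∃ p q r : ℝ,
    (∀ x ∈ X, p + q * x.re + r * x.im ≤ h x) ∧ p + q * a.re + r * a.im = h a ∧
      p + q * b.re + r * b.im = h b ∧ p + q * c.re + r * c.im = h c

/-- generic heights close to `|x|²` -/
def Gen (X : Finset ℂ) (h : ℂ → ℝ) : Prop :=
  (∀ a ∈ X, ∀ b ∈ X, ∀ c ∈ X, ∀ d ∈ X, D a b c ≠ 0 → d ≠ a → d ≠ b → d ≠ c → Qh h a b c d ≠ 0) ∧
  (∀ a ∈ X, ∀ b ∈ X, ∀ c ∈ X, ∀ d ∈ X, Qh (fun x => Complex.normSq x) a b c d < 0 →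
    Qh h a b c d < 0) ∧
  ∀ x ∈ X, |h x - Complex.normSq x| < 1

/-! ### Statements -/

def GEN_st : Prop := ∀ X : Finset ℂ, ∃ h, Gen X h

def TRa_st : Prop := ∀ X h, Gen X h →
  (∀ a b c c', tH X h a b c → tH X h a b c' → c = c') ∧
  (∀ a b c a' b' c' p, tH X h a b c → tH X h a' b' c' → p ∈ otri a b c → p ∈ otri a' b' c' →
    (a' = a ∧ b' = b ∧ c' = c) ∨ (a' = b ∧ b' = c ∧ c' = a) ∨ (a' = c ∧ b' = a ∧ c' = b)) ∧
  (∀ v a b c d, tH X h v a b → (tH X h v c d ∨ tH X h v d c) → 0 < D v a c → 0 < D v c b → False)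

def TRb_st : Prop := ∀ X h, Gen X h →
  (∀ a b c x, tH X h a b c → x ∈ X → D a b x < 0 → ∃ d, tH X h b a d) ∧
  (Sep X → NonCol X → ∀ x ∈ X, ∃ a b, tH X h x a b) ∧
  (∀ a b c, tH X h a b c → ∃ O : ℂ, dist b O = dist a O ∧ dist c O = dist a O ∧
    ∀ x ∈ X, dist a O ≤ dist x O)

def TRI_st : Prop := ∀ X, Sep X → NonCol X → ∃ t, Tri X t

def ANG_st : Prop := ∀ a b c : ℂ, 0 < D a b c →
  0 < ang a b c ∧ ang a b c < 3 ∧ ang a b c + ang b c a + ang c a b = 3 ∧
  D a b c = dist a b * dist c a * sin (π / 3 * ang a b c) ∧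
  Ip a b c = dist a b * dist c a * cos (π / 3 * ang a b c)

def MID_st : Prop := ∀ X t, Tri X t → ∀ v a x (s : ℝ), E t v a → x ∈ X → 0 < s → s < 1 →
  x ≠ v + s * (a - v)

def LC_st : Prop := ∀ X t, Tri X t → ∀ (v a0 : ℂ) (S : ℂ → Prop), S a0 →
  (∀ a, S a → ∃ b, S b ∧ t v a b) → ∀ c, E t v c → S c

def HU_st : Prop := ∀ X t, Tri X t → ∀ v a a', bd (E t) t v a → bd (E t) t v a' → a = a'

def AN2_st : Prop := ∀ X t, Tri X t → ∀ v ∈ X, (∀ a, E t v a → ∃ b, t v a b) →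
  ∑ q ∈ D2 X (t v), ang v q.1 q.2 = 6

def AN1_st : Prop := ∀ X t, Tri X t → ∀ v a, bd (E t) t v a →
  ∑ q ∈ D2 X (t v), ang v q.1 q.2 ≤ 3

/-- lower links for the height `re + ε im` -/
def LL_st : Prop := ∀ X t, Tri X t → ∀ ε : ℝ,
  (∀ a ∈ X, ∀ b ∈ X, a.re + ε * a.im = b.re + ε * b.im → a = b) → ∀ v ∈ X,
  ((∃ x ∈ X, x.re + ε * x.im < v.re + ε * v.im) →
    ∃ a, E t v a ∧ a.re + ε * a.im < v.re + ε * v.im) ∧
  ∀ a a', E t v a → E t v a' → a.re + ε * a.im < v.re + ε * v.im →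
    a'.re + ε * a'.im < v.re + ε * v.im → 0 < D v a a' →
    ∃ b, t v a b ∧ b.re + ε * b.im < v.re + ε * v.im ∧ D v a' b ≤ 0

def EPS_st : Prop := ∀ X : Finset ℂ, ∃ ε : ℝ,
  ∀ a ∈ X, ∀ b ∈ X, a.re + ε * a.im = b.re + ε * b.im → a = b

def CH1_st : Prop := ∀ X t, Tri X t → X.Nonempty → chi6 X (E t) t ≤ 6 ∧ Conn X (E t)

def H1_st : Prop := ∀ X t, Tri X t → Exa X (E t) t

def CHI_st : Prop := ∀ (X V : Finset ℂ) (R : ℂ → ℂ → Prop) (P : ℂ → ℂ → ℂ → Prop), V ⊆ X →
  V.Nonempty → (∀ a b, R a b → a ∈ V ∧ a ≠ b ∧ R b a) → (∀ a b c, P a b c → R a b ∧ P b c a) →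
  (∀ a b c c', P a b c → P a b c' → c = c') → Exa X R P → 6 ≤ chi6 V R P

def BAD_st : Prop := ∀ X t, Tri X t →
  (Sat X → ∀ a b c, bad t a b c → ap t a b c ∨ ap t b c a ∨ ap t c a b) ∧
  (∀ a b c d, ap t c a b → t b a d → bad t b a d ∧ 0 < Ip d b a) ∧
  (∀ a b c d, t a b c → t b a d → Ip c a b < 0 → 0 < Ip d b a)

def OBT_st : Prop := ∀ a b c : ℂ, Ip c a b < 0 →
  0 < Ip a b c ∧ 0 < Ip b c a ∧ dist b c < dist a b ∧ dist c a < dist a b

def SLK_st : Prop := ∀ a b c : ℂ, 0 < D c a b → Ip c a b < 0 → 2 ≤ dist c a → 2 ≤ dist b c →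
  dist b c + dist c a - dist a b + 2 * nu * (3 - ang c a b) ≤ D c a b / 2

def STI_st : Prop := ∀ a b c : ℂ, 0 < D a b c → 2 ≤ dist a b → 2 ≤ dist b c → 2 ≤ dist c a →
  dist a b * dist b c * dist c a ≤ 4 * D a b c → |ang a b c - 1| ≤ dl a b c

def COL_st : Prop := ∀ X t, Tri X t → Sat X →
  Solid t (e0 t) (good t) ∧ (Conn X (E t) → Conn X (e0 t)) ∧
  chi6 X (e0 t) (good t) = chi6 X (E t) t ∧ ∀ a b c, good t a b c → e0 t a b

def PEEL_st : Prop := ∀ X t R g δ, Cx X t R g δ → X.Nonempty → Exa X (E t) t → Solid t R g →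
  ∀ S : ℤ, 2 * (X.card : ℝ) - ((T3 X g).card : ℝ) / 3 + Del X g δ < S →
    12 * (X.card : ℤ) - 3 ≤ S ^ 2

def GST_st : Prop := ∀ (X : Finset ℂ) (H : Finset (ℂ × ℂ)) (K : Set ℂ), X.Nonempty → Convex ℝ K →
  (∀ x ∈ X, closedBall x 1 ⊆ K) →
  (∀ q ∈ H, q.1 ∈ X ∧ q.2 ∈ X ∧ q.1 ≠ q.2 ∧ (∀ x ∈ X, D q.1 q.2 x ≤ 0) ∧
    ∀ x ∈ X, ∀ s : ℝ, 0 < s → s < 1 → x ≠ q.1 + s * (q.2 - q.1)) →
  volume (convexHull ℝ (X : Set ℂ)) + ENNReal.ofReal (∑ q ∈ H, dist q.1 q.2 + π) ≤ volume K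

def OTV_st : Prop := ∀ a b c : ℂ, 0 < D a b c → volume (otri a b c) = ENNReal.ofReal (D a b c / 2)

def TRV_st : Prop := ∀ X t, Tri X t →
  ENNReal.ofReal ((∑ q ∈ T3 X t, D q.1 q.2.1 q.2.2) / 6) ≤ volume (convexHull ℝ (X : Set ℂ))

def ACb_st : Prop := ∀ X t, Tri X t → Sep X → Sat X →
  (∑ q ∈ T3 X (good t), D q.1 q.2.1 q.2.2) / 6 + ∑ q ∈ D2 X (bd (e0 t) (good t)), dist q.1 q.2 +
    2 * nu * SL X t ≤
  (∑ q ∈ T3 X t, D q.1 q.2.1 q.2.2) / 6 + ∑ q ∈ D2 X (bd (E t) t), dist q.1 q.2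

def ACg_st : Prop := ∀ X t, Tri X t → Sep X → (∀ a b c, good t a b c → e0 t a b) →
  √3 * ((T3 X (good t)).card : ℝ) / 3 + 2 * ((D2 X (bd (e0 t) (good t))).card : ℝ) +
    2 * nu * Del X (good t) dl ≤
  (∑ q ∈ T3 X (good t), D q.1 q.2.1 q.2.2) / 6 + ∑ q ∈ D2 X (bd (e0 t) (good t)), dist q.1 q.2

def CNT_st : Prop := ∀ X t R g δ, Cx X t R g δ →
  (D2 X R).card = (D2 X (bd R g)).card + (T3 X g).card ∧
  ∑ w ∈ X, dg X g w = (T3 X g).card ∧ ∑ w ∈ X, kb X R g w = (D2 X (bd R g)).card ∧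
  ∀ w, ∑ q ∈ D2 X (g w), δ w q.1 q.2 ≤ Del X g δ

def RA_st : Prop := ∀ X t, Cx X t (e0 t) (good t) dl → Sat X → Del X (good t) dl + SL X t < 1 →
  ∀ w ∈ X, dg X (good t) w + 3 * kb X (e0 t) (good t) w ≤ 6

def RB1_st : Prop := ∀ X t R g δ, Cx X t R g δ → Conn X R → (T3 X g).Nonempty → Del X g δ < 1 →
  (∀ w ∈ X, dg X g w + 3 * kb X R g w ≤ 6) →
  (∀ a b, R a b → (∃ c, g a b c) ∨ ∃ c, g b a c) ∧
  (∀ w ∈ X, (kb X R g w = 0 ∧ dg X g w = 6) ∨ (kb X R g w = 1 ∧ dg X g w ≤ 3)) ∧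
  ∀ C : ℂ → ℂ → ℂ → Prop, (∀ a b c, C a b c → g a b c ∧ C b c a) →
    (∀ a b c d, C a b c → g b a d → C b a d) → (∃ a b c, C a b c) → ∀ a b c, g a b c → C a b c

def RB3_st : Prop := ∀ X t R g δ, Cx X t R g δ → Del X g δ < 1 / 2 →
  (∀ a b, R a b → (∃ c, g a b c) ∨ ∃ c, g b a c) →
  (∀ C : ℂ → ℂ → ℂ → Prop, (∀ a b c, C a b c → g a b c ∧ C b c a) →
    (∀ a b c d, C a b c → g b a d → C b a d) → (∃ a b c, C a b c) → ∀ a b c, g a b c → C a b c) →
  ∃ (G : ℂ → ℂ → ZMod 6) (φ : ℝ), (∀ a b c, g a b c → G b c = G a b + 2) ∧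
    (∀ a b, R a b → G b a = G a b + 3) ∧
    ∀ a b, R a b → ∃ e : ℝ, |e| ≤ Del X g δ ∧
      b - a = dist a b * Complex.exp ((φ + π / 3 * (((G a b).val : ℝ) + e) : ℝ) * Complex.I)

def POT_st : Prop := ∀ (X : Finset ℂ) (R : ℂ → ℂ → Prop) (P : ℂ → ℂ → ℂ → Prop),
  (∀ a b, R a b → a ∈ X ∧ R b a) → (∀ a b c, P a b c → R a b ∧ P b c a) →
  (∀ a b c c', P a b c → P a b c' → c = c') → Exa X R P → ∀ γ : ℂ → ℂ → ℚ,
  (∀ a b, R a b → γ b a = - γ a b) → (∀ a b c, P a b c → γ a b + γ b c + γ c a = 0) →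
  ∃ y : ℂ → ℚ, ∀ a b, R a b → y b = y a + γ a b

def L6_st : Prop := ∀ (W : Finset ℂ) (F : ℂ → ℂ) (G : ℂ → ZMod 6) (τ : ℂ → ℕ) (y1 y2 : ℂ → ℚ),
  (∀ w ∈ W, F w ∈ W) → Set.InjOn F W →
  (∀ w ∈ W, y1 (F w) = y1 w + e1 (G w) ∧ y2 (F w) = y2 w + e2 (G w) ∧
    G (F w) = G w + (τ (F w) : ZMod 6)) → ∑ w ∈ W, τ w = 6 →
  ∃ (a : ℕ → ℕ) (G0 : ZMod 6) (z : ℕ → ℂ), a 0 + a 5 = a 2 + a 3 ∧ a 1 + a 2 = a 4 + a 5 ∧
    W.card = a 0 + a 1 + a 2 + a 3 + a 4 + a 5 ∧
    ∑ w ∈ W, (y1 w * y2 (F w) - y2 w * y1 (F w)) =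
      2 * ((a 0 : ℚ) + a 5) * (a 1 + a 2) - (a 5 : ℚ) ^ 2 - (a 2 : ℚ) ^ 2 ∧
    (∀ j, z j ∈ W) ∧ ∀ j < 5, y1 (z (j + 1)) = y1 (z j) + a j * e1 (G0 + (j : ZMod 6)) ∧
      y2 (z (j + 1)) = y2 (z j) + a j * e2 (G0 + (j : ZMod 6))

/-- the boundary cycle of a flat convex disc -/
def RB5_st : Prop := ∀ X t R g δ, Cx X t R g δ →
  (∀ a b, R a b → (∃ c, g a b c) ∨ ∃ c, g b a c) →
  (∀ w ∈ X, (kb X R g w = 0 ∧ dg X g w = 6) ∨ (kb X R g w = 1 ∧ dg X g w ≤ 3)) →
  ∀ (G : ℂ → ℂ → ZMod 6) (y1 y2 : ℂ → ℚ), (∀ a b c, g a b c → G b c = G a b + 2) →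
  (∀ a b, R a b → G b a = G a b + 3) →
  (∀ a b, R a b → y1 b = y1 a + e1 (G a b) ∧ y2 b = y2 a + e2 (G a b)) →
  ∃ F : ℂ → ℂ, (∀ w ∈ X.filter (fun w => kb X R g w = 1), F w ∈ X.filter (fun w => kb X R g w = 1) ∧
      R w (F w) ∧ G (F w) (F (F w)) = G w (F w) + ((3 - dg X g (F w) : ℕ) : ZMod 6)) ∧
    Set.InjOn F (X.filter (fun w => kb X R g w = 1)) ∧
    3 * ∑ w ∈ X.filter (fun w => kb X R g w = 1), (y1 w * y2 (F w) - y2 w * y1 (F w)) =
      ((T3 X g).card : ℚ)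

def RIG_st : Prop := ∀ X t R g δ, Cx X t R g δ → Conn X R → Exa X R g → chi6 X R g = 6 →
  (T3 X g).Nonempty → Del X g δ < 1 / 2 → (∀ w ∈ X, dg X g w + 3 * kb X R g w ≤ 6) →
  ∃ a : ℕ → ℕ, a 0 + a 5 = a 2 + a 3 ∧ a 1 + a 2 = a 4 + a 5 ∧
    (D2 X (bd R g)).card = a 0 + a 1 + a 2 + a 3 + a 4 + a 5 ∧
    2 * X.card + a 5 * (a 5 + 1) + a 2 * (a 2 + 1) = 2 * (a 0 + a 5 + 1) * (a 1 + a 2 + 1) ∧
    (Del X g δ ≤ 0 → (∀ a b c, g a b c → dist a b = 2) → ∃ (u : ℂ) (z : ℕ → ℂ), ‖u‖ = 1 ∧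
      (∀ j, z j ∈ X) ∧ ∀ j < 5, z (j + 1) = z j + 2 * (a j : ℂ) * u * om ^ j)

def EQ0_st : Prop := ∀ a b c : ℂ, 0 < D a b c → 2 ≤ dist a b → 2 ≤ dist b c → 2 ≤ dist c a →
  ang a b c = 1 → ang b c a = 1 → dl a b c ≤ 0 → dist a b = 2

def HXC_st : Prop := ∀ (a : ℕ → ℕ) (u : ℂ) (z : ℕ → ℂ) (P : Set ℂ), a 0 + a 5 = a 2 + a 3 →
  a 1 + a 2 = a 4 + a 5 → Convex ℝ P → (∀ j, z j ∈ P) →
  (∀ j < 5, z (j + 1) = z j + 2 * (a j : ℂ) * u * om ^ j) →
  ∀ x ∈ Hx (a 0 + a 5 : ℕ) (a 1 + a 2 : ℕ) (a 5) (a 2), z 0 + u * (x - 2 * (a 5 : ℂ)) ∈ P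

def KEQ_st : Prop := ∀ H K : Set ℂ, IsCompact H → H.Nonempty → Convex ℝ H → Convex ℝ K →
  Rd H ⊆ K → volume K ≤ volume (Rd H) → K = Rd H

def SAT_st : Prop := ∀ X : Finset ℂ, Sep X → ∃ Y : Finset ℂ, X ⊆ Y ∧ Sep Y ∧ Sat Y ∧
  (Y : Set ℂ) ⊆ convexHull ℝ (X : Set ℂ)

def LIN_st : Prop := ∀ X : Finset ℂ, X.Nonempty → Sep X → ¬ NonCol X → ∀ K : Set ℂ, Convex ℝ K →
  (∀ x ∈ X, closedBall x 1 ⊆ K) → ENNReal.ofReal (4 * ((X.card : ℝ) - 1) + π) ≤ volume K

def LB_st : Prop := ∀ X : Finset ℂ, X.Nonempty → Sep X → ∀ K : Set ℂ, Convex ℝ K →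
  (∀ x ∈ X, closedBall x 1 ⊆ K) → ∃ p : ℕ, (Groemer X.card p ∨ 12 * X.card ≤ (p + 2) ^ 2 + 3) ∧
    ENNReal.ofReal (2 * √3 * ((X.card : ℝ) - 1) + nu * p + π) ≤ volume K

def UBa_st : Prop := ∀ α β c c' n : ℕ, 2 * n + c * (c + 1) + c' * (c' + 1) ≤ 2 * (α + 1) * (β + 1) →
  c' ≤ α → c' ≤ β → (∃ X : Finset ℂ, X.card = n ∧ Sep X ∧ ∀ x ∈ X, x ∈ Hx α β c c') ∧
    Convex ℝ (Rd (Hx α β c c'))

def UBh_st : Prop := ∀ α β c c' : ℝ, 0 ≤ c → 0 ≤ c' → c ≤ α → c ≤ β → c' ≤ α → c' ≤ β →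
  volume (Hx α β c c') ≤ ENNReal.ofReal (√3 * (2 * α * β - c ^ 2 - c' ^ 2))

def UBb_st : Prop := ∀ α β c c' : ℝ, 0 ≤ c → 0 ≤ c' → c ≤ α → c ≤ β → c' ≤ α → c' ≤ β →
  volume (Rd (Hx α β c c')) ≤
    volume (Hx α β c c') + ENNReal.ofReal (2 * (2 * α + 2 * β - c - c') + π)

def NT1_st : Prop := ∀ M : ℕ, M % 3 = 1 → ∃ x y z u : ℤ, u ≠ 0 ∧
  x ^ 2 + 3 * y ^ 2 + 3 * z ^ 2 = M * u ^ 2

def NT2_st : Prop := ∀ M x y z u : ℤ, u ≠ 0 → x ^ 2 + 3 * y ^ 2 + 3 * z ^ 2 = M * u ^ 2 →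
  ∃ x y z : ℤ, x ^ 2 + 3 * y ^ 2 + 3 * z ^ 2 = M

def NT3_st : Prop := ∀ n p : ℕ, (p + 2) ^ 2 + 3 < 12 * n → 12 * n ≤ (p + 3) ^ 2 + 3 →
  Groemer n p ∨ Groemer n (p + 1)

end MP7b

end
end

section

/-! Induced subcomplexes and the statements of the peeling step. -/

open scoped Classical
open MeasureTheory Metric Real

noncomputable section
namespace MP7b

def rV (V : Finset ℂ) (R : ℂ → ℂ → Prop) (a b : ℂ) : Prop := a ∈ V ∧ b ∈ V ∧ R a b

def pV (V : Finset ℂ) (g : ℂ → ℂ → ℂ → Prop) (a b c : ℂ) : Prop :=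
  a ∈ V ∧ b ∈ V ∧ c ∈ V ∧ g a b c

/-- interior vertices of the subcomplex induced on `V` -/
def inn (t : ℂ → ℂ → ℂ → Prop) (V : Finset ℂ) (g : ℂ → ℂ → ℂ → Prop) : Finset ℂ :=
  V.filter fun v => ∀ a, E t v a → ∃ b, pV V g v a b

def PEs_st : Prop := ∀ X t R g δ, Cx X t R g δ → ∀ V : Finset ℂ,
  Solid t (rV V R) (pV V g) → Solid t (rV (inn t V g) R) (pV (inn t V g) g)

def PEa_st : Prop := ∀ X t R g δ, Cx X t R g δ → Exa X (E t) t → ∀ V : Finset ℂ, V ⊆ X →
  Solid t (rV V R) (pV V g) → (V.Nonempty → 6 ≤ chi6 V R g) ∧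
  ((D2 V R).Nonempty → 6 * ((V.card : ℤ) - (inn t V g).card) + 6 ≤
    6 * (((D2 V R).card : ℤ) - (T3 V g).card) + chi6 V R g)

def PEb_st : Prop := ∀ X t R g δ, Cx X t R g δ → ∀ V : Finset ℂ, V ⊆ X →
  6 * ((inn t V g).card : ℝ) ≤ ((D2 (inn t V g) R).card : ℝ) +
    (((T3 V g).card : ℝ) - (T3 (inn t V g) g).card) / 3 + Del V g δ - Del (inn t V g) g δ

def EXS_st : Prop := ∀ X t (R : ℂ → ℂ → Prop) (P : ℂ → ℂ → ℂ → Prop), Tri X t → Exa X (E t) t →
  (∀ a b, R a b → E t a b) → (∀ a b c, P a b c → t a b c) → Solid t R P → Exa X R P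

def STU_st : Prop := ∀ a b c : ℂ, 0 < D a b c → 2 ≤ dist a b → 2 ≤ dist b c → 2 ≤ dist c a →
  dist a b * dist b c * dist c a ≤ 4 * D a b c → ang a b c - 1 ≤ dl a b c

def STL_st : Prop := ∀ a b c : ℂ, 0 < D a b c → 2 ≤ dist a b → 2 ≤ dist b c → 2 ≤ dist c a →
  dist a b * dist b c * dist c a ≤ 4 * D a b c → 1 - ang a b c ≤ dl a b c

/-- algebraic part of the local inequality: a side of length at least `√8` -/
def STA_st : Prop := ∀ a b c : ℂ, 0 < D a b c → 2 ≤ dist a b → 2 ≤ dist b c → 2 ≤ dist c a →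
  dist a b * dist b c * dist c a ≤ 4 * D a b c →
  (8 ≤ dist a b ^ 2 ∨ 8 ≤ dist b c ^ 2 ∨ 8 ≤ dist c a ^ 2) → 1 / 2 ≤ dl a b c

theorem exs : EXS_st := by
  intro X t R P hT hE hR hP hS z hz
  obtain ⟨c, hc, hzc⟩ := hE z ⟨hz.1, fun a b h => hz.2.1 a b fun h' => h (hR a b h'), hz.2.2⟩
  have hsym : ∀ a b, ¬ R a b → c a b = c b a := fun a b h => by
    have := hzc a b
    rw [hz.2.1 a b h] at this
    linarith
  refine ⟨c, ⟨fun a b d h => hc.1 a b d (hP a b d h), fun a b h => ?_⟩, hzc⟩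
  by_cases h' : ∃ d, t a b d
  · obtain ⟨d, hd⟩ := h'
    exact hS c hc hsym a b d hd fun h2 => h ⟨d, h2⟩
  · exact hc.2 a b h'

end MP7b

end
end

section

/-! The collapse of the bad triangles: area plus boundary length. -/

open scoped Classical
open MeasureTheory Metric Real

noncomputable section
namespace MP7b

theorem rot_Acb (X : Finset ℂ) (P : ℂ → ℂ → ℂ → Prop) (F : ℂ → ℂ → ℂ → ℝ) :
    ∑ q ∈ T3 X P, F q.1 q.2.1 q.2.2 =
      ∑ q ∈ T3 X (fun a b c => P b c a), F q.2.1 q.2.2 q.1 := by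
  refine Finset.sum_nbij' (fun q => (q.2.2, q.1, q.2.1)) (fun q => (q.2.1, q.2.2, q.1)) ?_ ?_
    (fun _ _ => rfl) (fun _ _ => rfl) fun _ _ => rfl
  all_goals
    simp only [T3, Finset.mem_filter, Finset.mem_product]
    tauto

theorem swap_Acb (X : Finset ℂ) (R : ℂ → ℂ → Prop) :
    ∑ q ∈ D2 X R, dist q.1 q.2 = ∑ q ∈ D2 X (fun a b => R b a), dist q.1 q.2 := by
  refine Finset.sum_nbij' Prod.swap Prod.swap ?_ ?_ (fun _ _ => rfl) (fun _ _ => rfl)
    fun _ _ => dist_comm _ _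
  all_goals
    simp only [D2, Finset.mem_filter, Finset.mem_product, Prod.fst_swap, Prod.snd_swap]
    tauto

theorem proj_Acb {X : Finset ℂ} {t P : ℂ → ℂ → ℂ → Prop} (h : Tri X t)
    (hP : ∀ a b c, P a b c → t a b c) :
    ∑ q ∈ T3 X P, dist q.1 q.2.1 = ∑ q ∈ D2 X (fun a b => ∃ c, P a b c), dist q.1 q.2 := by
  refine Finset.sum_nbij (fun q => (q.1, q.2.1)) ?_ ?_ ?_ fun _ _ => rfl
  · simp only [T3, D2, Finset.mem_filter, Finset.mem_product]
    exact fun q hq => ⟨⟨hq.1.1, hq.1.2.1⟩, _, hq.2⟩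
  · rintro ⟨a, b, c⟩ h1 ⟨a', b', c'⟩ h2 e
    obtain ⟨rfl, rfl⟩ := Prod.mk.inj e
    simp only [T3, Finset.coe_filter, Set.mem_ofPred_eq] at h1 h2
    rw [h.uniq (hP _ _ _ h1.2) (hP _ _ _ h2.2)]
  · rintro ⟨a, b⟩ h1
    simp only [D2, Finset.coe_filter, Set.mem_ofPred_eq, Finset.mem_product] at h1
    obtain ⟨⟨ha, hb⟩, c, hc⟩ := h1
    refine ⟨(a, b, c), ?_, rfl⟩
    simp only [T3, Finset.coe_filter, Set.mem_ofPred_eq, Finset.mem_product]
    exact ⟨⟨ha, hb, h.mem (h.rot (h.rot (hP _ _ _ hc)))⟩, hc⟩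

theorem Drot_Acb (a b c : ℂ) : D b c a = D a b c := by
  unfold D
  ring

theorem acb (hB : BAD_st) (hO : OBT_st) (hS : SLK_st) : ACb_st := by
  intro X t h hs hsat
  obtain ⟨b1, b2, -⟩ := hB X t h
  have ng : ∀ a b c, bad t b c a → ¬ good t a b c := fun a b c x y =>
    x.2 (by rw [Drot_Acb]; linarith [y.2])
  have ng' : ∀ a b c, bad t c a b → ¬ good t a b c := fun a b c x y =>
    x.2 (by rw [← Drot_Acb]; linarith [y.2])
  have A : ∑ q ∈ T3 X (good t), D q.1 q.2.1 q.2.2 + 3 * ∑ q ∈ T3 X (ap t), D q.1 q.2.1 q.2.2 ≤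
      ∑ q ∈ T3 X t, D q.1 q.2.1 q.2.2 := by
    have e1 := rot_Acb X (ap t) D
    have e2 := rot_Acb X (fun a b c => ap t b c a) D
    simp only [Drot_Acb] at e1 e2
    have : ∑ q ∈ T3 X (good t), D q.1 q.2.1 q.2.2 + ∑ q ∈ T3 X (ap t), D q.1 q.2.1 q.2.2 +
        ∑ q ∈ T3 X (fun a b c => ap t b c a), D q.1 q.2.1 q.2.2 +
        ∑ q ∈ T3 X (fun a b c => ap t c a b), D q.1 q.2.1 q.2.2 ≤
        ∑ q ∈ T3 X t, D q.1 q.2.1 q.2.2 := by
      simp only [T3, Finset.sum_filter, ← Finset.sum_add_distrib]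
      refine Finset.sum_le_sum fun ⟨a, b, c⟩ _ => ?_
      dsimp only
      by_cases ht : t a b c
      · have p := h.pos ht
        by_cases h1 : ap t a b c
        · have o := hO b c a h1.2
          rw [if_neg fun y : good t a b c => h1.1.2 y.2, if_pos h1,
            if_neg fun y : ap t b c a => o.1.not_gt y.2,
            if_neg fun y : ap t c a b => o.2.1.not_gt y.2, if_pos ht]
          linarith
        by_cases h2 : ap t b c a
        · have o := hO c a b h2.2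
          rw [if_neg (ng _ _ _ h2.1), if_neg h1, if_pos h2,
            if_neg fun y : ap t c a b => o.1.not_gt y.2, if_pos ht]
          linarith
        by_cases h3 : ap t c a b
        · rw [if_neg (ng' _ _ _ h3.1), if_neg h1, if_neg h2, if_pos h3, if_pos ht]
          linarith
        · rw [if_neg h1, if_neg h2, if_neg h3, if_pos ht]
          split_ifs <;> linarith
      · rw [if_neg fun y : good t a b c => ht y.1, if_neg fun y : ap t a b c => ht y.1.1,
          if_neg fun y : ap t b c a => ht (h.rot (h.rot y.1.1)),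
          if_neg fun y : ap t c a b => ht (h.rot y.1.1), if_neg ht]
        simp
    linarith
  have B : ∑ q ∈ D2 X (bd (e0 t) (good t)), dist q.1 q.2 + ∑ q ∈ T3 X (ap t), dist q.2.1 q.2.2 ≤
      ∑ q ∈ D2 X (bd (E t) t), dist q.1 q.2 + ∑ q ∈ T3 X (ap t), dist q.1 q.2.1 +
        ∑ q ∈ T3 X (ap t), dist q.2.2 q.1 := by
    rw [rot_Acb X (ap t) fun _ a b => dist a b, rot_Acb X _ fun b _ a => dist a b,
      rot_Acb X (ap t) fun c _ b => dist b c,
      proj_Acb (P := fun a b c => ap t c a b) h fun a b c y => h.rot y.1.1,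
      proj_Acb (P := fun a b c => ap t b c a) h fun a b c y => h.rot (h.rot y.1.1),
      proj_Acb (P := ap t) h fun a b c y => y.1.1, swap_Acb X fun a b => ∃ c, ap t c a b]
    simp only [D2, Finset.sum_filter, ← Finset.sum_add_distrib]
    refine Finset.sum_le_sum fun ⟨a, b⟩ _ => ?_
    dsimp only
    have p : 0 ≤ dist a b := dist_nonneg
    have key : E t a b → (¬ ∃ c, good t a b c) → ¬ lng t a b →
        dist a b ≤ ((if bd (E t) t a b then dist a b else 0) +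
          if ∃ c, ap t a b c then dist a b else 0) + if ∃ c, ap t b c a then dist a b else 0 := by
      intro x y z
      by_cases ht : ∃ c, t a b c
      · obtain ⟨c, ht⟩ := ht
        rcases b1 hsat a b c ⟨ht, fun w => y ⟨c, ht, w⟩⟩ with w | w | w
        · rw [if_pos (⟨c, w⟩ : ∃ c, ap t a b c)]
          split_ifs <;> linarith
        · rw [if_pos (⟨c, w⟩ : ∃ c, ap t b c a)]
          split_ifs <;> linarith
        · exact absurd ⟨c, w⟩ z
      · have w : bd (E t) t a b := ⟨x, ht⟩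
        rw [if_pos w]
        split_ifs <;> linarith
    by_cases h1 : ∃ c, ap t c b a
    · rw [if_neg fun y : bd (e0 t) (good t) a b => y.1.2.2 h1, if_pos h1, zero_add]
      obtain ⟨c, hc⟩ := h1
      exact key (Or.inr ⟨c, h.rot hc.1.1⟩) (fun ⟨d, y⟩ => (b2 _ _ _ _ hc y.1).1.2 y.2)
        fun ⟨d, y⟩ => (b2 _ _ _ _ hc (h.rot y.1.1)).2.not_gt y.2
    · rw [if_neg h1, add_zero]
      by_cases h2 : bd (e0 t) (good t) a b
      · rw [if_pos h2]
        exact key h2.1.1 h2.2 h2.1.2.1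
      · rw [if_neg h2]
        split_ifs <;> linarith
  have C : ∑ q ∈ T3 X (ap t), (dist q.2.2 q.1 + dist q.1 q.2.1 - dist q.2.1 q.2.2 +
      2 * nu * (3 - ang q.1 q.2.1 q.2.2)) ≤ ∑ q ∈ T3 X (ap t), D q.1 q.2.1 q.2.2 / 2 := by
    refine Finset.sum_le_sum fun ⟨c, a, b⟩ hq => ?_
    simp only [T3, Finset.mem_filter, Finset.mem_product] at hq
    have p := h.pos hq.2.1.1
    refine hS a b c p hq.2.2 (hs _ hq.1.1 _ hq.1.2.1 ?_) (hs _ hq.1.2.2 _ hq.1.1 ?_)
    · rintro rfl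
      simp [D] at p
    · rintro rfl
      simp [D] at p
  rw [Finset.sum_add_distrib, Finset.sum_sub_distrib, Finset.sum_add_distrib, ← Finset.mul_sum,
    ← Finset.sum_div] at C
  unfold SL
  linarith

end MP7b

end
end

section

/-! Angle sum at a hull vertex. -/

open scoped Classical
open MeasureTheory Metric Real

noncomputable section
namespace MP7b

theorem ne_An1 {v p q : ℂ} (h : 0 < D v p q) : p - v ≠ 0 ∧ q - v ≠ 0 := by
  constructor
  · intro h0
    have : p = v := sub_eq_zero.1 h0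
    subst this
    simp [D] at h
  · intro h0
    have : q = v := sub_eq_zero.1 h0
    subst this
    simp [D] at h

theorem im_An1 {v a x : ℂ} (h : D v a x ≤ 0) : 0 ≤ ((a - v) / (x - v)).im := by
  rw [Complex.div_im, ← sub_div]
  refine div_nonneg ?_ (Complex.normSq_nonneg _)
  simp only [Complex.sub_re, Complex.sub_im]
  unfold D at h
  nlinarith

theorem step_An1 (hA : ANG_st) {v a p q : ℂ} (ha : a - v ≠ 0) (h : 0 < D v p q)
    (hp : D v a p ≤ 0) (hq : D v a q ≤ 0) :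
    ang v p q = 3 / π * (Complex.arg ((a - v) / (p - v)) - Complex.arg ((a - v) / (q - v))) := by
  obtain ⟨hp0, hq0⟩ := ne_An1 h
  obtain ⟨h0, h3, -⟩ := hA v p q h
  have hpi := Real.pi_pos
  have h3p : (0 : ℝ) < 3 / π := by positivity
  unfold ang at h0 h3 ⊢
  congr 1
  have hth0 : 0 < Complex.arg ((q - v) / (p - v)) := (mul_pos_iff_of_pos_left h3p).1 h0
  have hbp0 : 0 ≤ Complex.arg ((a - v) / (p - v)) := Complex.arg_nonneg_iff.2 (im_An1 hp)
  have hbq0 : 0 ≤ Complex.arg ((a - v) / (q - v)) := Complex.arg_nonneg_iff.2 (im_An1 hq)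
  have hbp1 := Complex.arg_le_pi ((a - v) / (p - v))
  have hbq1 := Complex.arg_le_pi ((a - v) / (q - v))
  have hth1 : Complex.arg ((q - v) / (p - v)) < π := by
    have : 3 / π * Complex.arg ((q - v) / (p - v)) < 3 / π * π := by
      rwa [div_mul_cancel₀ _ hpi.ne']
    exact lt_of_mul_lt_mul_left this h3p.le
  have hmul : (a - v) / (p - v) = (a - v) / (q - v) * ((q - v) / (p - v)) := by
    field_simp
  have hang : ((Complex.arg ((a - v) / (p - v)) : ℝ) : Real.Angle) =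
      ((Complex.arg ((a - v) / (q - v)) + Complex.arg ((q - v) / (p - v)) : ℝ) : Real.Angle) := by
    rw [hmul, Complex.arg_mul_coe_angle (div_ne_zero ha hq0) (div_ne_zero hq0 hp0)]
    simp
  obtain ⟨k, hk⟩ := Real.Angle.angle_eq_iff_two_pi_dvd_sub.1 hang
  have hk1 : (k : ℝ) < 1 := by
    by_contra hc
    push Not at hc
    nlinarith
  have hk2 : (-1 : ℝ) < k := by
    by_contra hc
    push Not at hc
    nlinarith
  have hk0 : k = 0 := by
    have h1 : k < 1 := by exact_mod_cast hk1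
    have h2 : -1 < k := by exact_mod_cast hk2
    omega
  subst hk0
  simp only [Int.cast_zero, mul_zero] at hk
  linarith

theorem an1 (hM : MID_st) (hA : ANG_st) (hH : HU_st) : AN1_st := by
  intro X t hT v a hb
  obtain ⟨c, hc⟩ : ∃ c, t a v c := hb.1.resolve_left hb.2
  have hD : ∀ x ∈ X, D v a x ≤ 0 := by
    intro x hx
    by_contra hlt
    refine hb.2 (hT.nbr hc hx ?_)
    have : D a v x = - D v a x := by unfold D; ring
    linarith
  have ha0 : a - v ≠ 0 := (ne_An1 (hT.pos (hT.rot hc))).2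
  have haX : a ∈ X := hT.mem hc
  set S := D2 X (t v) with hS
  set N := X.filter (fun x => E t v x) with hN
  set be : ℂ → ℝ := fun x => Complex.arg ((a - v) / (x - v)) with hbe
  have hmem : ∀ q ∈ S, q.1 ∈ X ∧ q.2 ∈ X ∧ t v q.1 q.2 := by
    intro q hq
    simp only [hS, D2, Finset.mem_filter, Finset.mem_product] at hq
    exact ⟨hq.1.1, hq.1.2, hq.2⟩
  have hi1 : Set.InjOn (fun q : ℂ × ℂ => q.1) S := by
    intro q hq r hr h
    have h1 := (hmem q hq).2.2
    have h2 := (hmem r hr).2.2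
    simp only at h
    rw [← h] at h2
    exact Prod.ext h (hT.uniq h1 h2)
  have hi2 : Set.InjOn (fun q : ℂ × ℂ => q.2) S := by
    intro q hq r hr h
    have h1 := hT.rot (hT.rot (hmem q hq).2.2)
    have h2 := hT.rot (hT.rot (hmem r hr).2.2)
    simp only at h
    rw [← h] at h2
    exact Prod.ext (hT.uniq h1 h2) h
  have haN : a ∈ N := Finset.mem_filter.2 ⟨haX, hb.1⟩
  have hA1 : S.image (fun q => q.1) = N.erase a := by
    ext x
    simp only [Finset.mem_image, Finset.mem_erase, hN, Finset.mem_filter]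
    constructor
    · rintro ⟨q, hq, rfl⟩
      obtain ⟨h1, -, h3⟩ := hmem q hq
      refine ⟨fun h => hb.2 ⟨q.2, h ▸ h3⟩, h1, Or.inl ⟨_, h3⟩⟩
    · rintro ⟨hxa, hx, hE⟩
      by_cases h : ∃ d, t v x d
      · obtain ⟨d, hd⟩ := h
        refine ⟨(x, d), ?_, rfl⟩
        simp only [hS, D2, Finset.mem_filter, Finset.mem_product]
        exact ⟨⟨hx, hT.mem (hT.rot (hT.rot hd))⟩, hd⟩
      · exact absurd (hH X t hT v x a ⟨hE, h⟩ hb) hxa
  have hB : S.image (fun q => q.2) ⊆ N := by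
    intro x hx
    obtain ⟨q, hq, rfl⟩ := Finset.mem_image.1 hx
    obtain ⟨-, h2, h3⟩ := hmem q hq
    exact Finset.mem_filter.2 ⟨h2, Or.inr ⟨_, hT.rot (hT.rot h3)⟩⟩
  have hcard : (N \ S.image (fun q => q.2)).card = 1 := by
    have h1 := Finset.card_image_of_injOn hi1
    have h2 := Finset.card_image_of_injOn hi2
    rw [hA1, Finset.card_erase_of_mem haN] at h1
    have h3 : 0 < N.card := Finset.card_pos.2 ⟨a, haN⟩
    rw [Finset.card_sdiff_of_subset hB]
    omega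
  obtain ⟨z, hz⟩ := Finset.card_eq_one.1 hcard
  have hsum : ∑ q ∈ S, ang v q.1 q.2 = 3 / π * (∑ q ∈ S, be q.1 - ∑ q ∈ S, be q.2) := by
    rw [← Finset.sum_sub_distrib, Finset.mul_sum]
    refine Finset.sum_congr rfl fun q hq => ?_
    obtain ⟨h1, h2, h3⟩ := hmem q hq
    exact step_An1 hA ha0 (hT.pos h3) (hD _ h1) (hD _ h2)
  have e1 : ∑ q ∈ S, be q.1 = ∑ x ∈ N, be x - be a := by
    rw [← Finset.sum_image (f := be) hi1, hA1, Finset.sum_erase_eq_sub haN]
  have e2 : ∑ q ∈ S, be q.2 = ∑ x ∈ N, be x - be z := by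
    rw [← Finset.sum_image (f := be) hi2, ← Finset.sum_sdiff hB, hz, Finset.sum_singleton]
    ring
  have hba : be a = 0 := by simp [hbe, div_self ha0]
  have hbz : be z ≤ π := Complex.arg_le_pi _
  have hpi := Real.pi_pos
  rw [hsum, e1, e2, hba]
  calc 3 / π * (∑ x ∈ N, be x - 0 - (∑ x ∈ N, be x - be z)) = 3 / π * be z := by ring
    _ ≤ 3 / π * π := by gcongr
    _ = 3 := by field_simp

end MP7b

end
end

section

/-! The angle sum at an interior vertex. -/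

open scoped Classical
open MeasureTheory Metric Real

noncomputable section
namespace MP7b

theorem im_An2 (v a c : ℂ) : ((c - v) / (a - v)).im = D v a c / Complex.normSq (a - v) := by
  rw [Complex.div_im, D]
  simp only [Complex.sub_re, Complex.sub_im]
  ring

theorem mul_An2 (x y : ℂ) : (x * y).im = ‖x‖ * ‖y‖ * sin (x.arg + y.arg) := by
  rw [Complex.mul_im, sin_add]
  linear_combination (-y.im) * Complex.norm_mul_cos_arg x - ‖x‖ * cos x.arg *
    Complex.norm_mul_sin_arg y - y.re * Complex.norm_mul_sin_arg x - ‖x‖ * sin x.arg *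
    Complex.norm_mul_cos_arg y

theorem ne_An2 {v a b : ℂ} (h : 0 < D v a b) : a - v ≠ 0 ∧ b - v ≠ 0 := by
  constructor <;> intro e <;> rw [sub_eq_zero.1 e] at h <;> simp [D] at h

theorem step_An2 (hM : MID_st) (hA : ANG_st) {X : Finset ℂ} {t : ℂ → ℂ → ℂ → Prop} (hT : Tri X t)
    {v a0 d a b : ℂ} (h0 : t v a0 d) (h : t v a b) :
    π / 3 * ang v a b = (-((b - v) / (a0 - v))).arg - (-((a - v) / (a0 - v))).arg +
      if a = a0 then 2 * π else 0 := by
  have p := pi_pos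
  have n0 := (ne_An2 (hT.pos h0)).1
  obtain ⟨na, nb⟩ := ne_An2 (hT.pos h)
  have q0 := Complex.normSq_pos.2 n0
  have e : π / 3 * ang v a b = ((b - v) / (a - v)).arg := by
    rw [ang]
    field_simp
  obtain ⟨l, u, -⟩ := hA v a b (hT.pos h)
  have l' : 0 < ((b - v) / (a - v)).arg := e ▸ by positivity
  have u' : ((b - v) / (a - v)).arg < π := e ▸ by nlinarith
  rw [e]
  split_ifs with c
  · subst c
    rw [div_self na, Complex.arg_neg_one, Complex.arg_neg_eq_arg_sub_pi_of_im_pos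
      (by rw [im_An2]; exact div_pos (hT.pos h) q0)]
    ring
  have m : -((b - v) / (a0 - v)) = (b - v) / (a - v) * -((a - v) / (a0 - v)) := by field_simp
  have x0 := div_ne_zero nb na
  have y0 := neg_ne_zero.2 (div_ne_zero na n0)
  have w : ((b - v) / (a - v)).arg + (-((a - v) / (a0 - v))).arg ≤ π := by
    by_contra w
    rcases (Complex.arg_le_pi (-((a - v) / (a0 - v)))).eq_or_lt with k | k
    · obtain ⟨k1, k2⟩ := Complex.arg_eq_pi_iff.1 k
      obtain ⟨s, hs⟩ : ∃ s : ℝ, s = ((a - v) / (a0 - v)).re := ⟨_, rfl⟩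
      have s0 : 0 < s := by simpa [hs] using k1
      have z : (a - v) / (a0 - v) = s := Complex.ext (by simp [hs]) (by simpa using k2)
      rw [div_eq_iff n0] at z
      rcases lt_trichotomy s 1 with s1 | s1 | s1
      · exact hM X t hT v a0 a s (.inl ⟨d, h0⟩) (hT.mem (hT.rot h)) s0 s1 (by linear_combination z)
      · rw [s1] at z
        exact c (by push_cast at z; linear_combination z)
      · refine hM X t hT v a a0 s⁻¹ (.inl ⟨b, h⟩) (hT.mem (hT.rot h0)) (inv_pos.2 s0)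
          (inv_lt_one_of_one_lt₀ s1) ?_
        have : (s : ℂ) ≠ 0 := by exact_mod_cast s0.ne'
        rw [z]
        push_cast
        field_simp
        ring
    · have i1 : 0 < (-((a - v) / (a0 - v))).im := by
        rw [← Complex.norm_mul_sin_arg]
        exact mul_pos (norm_pos_iff.2 y0) (sin_pos_of_pos_of_lt_pi (by linarith) k)
      have i2 : (-((b - v) / (a0 - v))).im < 0 := by
        rw [m, mul_An2, ← sin_sub_two_pi]
        exact mul_neg_of_pos_of_neg (mul_pos (norm_pos_iff.2 x0) (norm_pos_iff.2 y0))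
          (sin_neg_of_neg_of_neg_pi_lt (by linarith) (by linarith))
      rw [Complex.neg_im, im_An2] at i1 i2
      have j1 := (div_neg_iff.1 (neg_pos.1 i1)).elim (fun k => absurd k.2 q0.not_gt) And.left
      refine hT.nocross h (.inl h0) ?_ ((div_pos_iff_of_pos_right q0).1 (neg_neg_iff_pos.1 i2))
      unfold D at j1 ⊢
      linarith
  rw [m, (Complex.arg_mul_eq_add_arg_iff x0 y0).2
    ⟨by linarith [Complex.neg_pi_lt_arg (-((a - v) / (a0 - v)))], w⟩]
  ring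

theorem an2 (hM : MID_st) (hA : ANG_st) : AN2_st := by
  intro X t hT v hv hE
  obtain ⟨a0, d, h0⟩ := hT.cover hv
  have mem : ∀ {a b}, t v a b → (a, b) ∈ D2 X (t v) := fun h => Finset.mem_filter.2
    ⟨Finset.mem_product.2 ⟨hT.mem (hT.rot h), hT.mem (hT.rot (hT.rot h))⟩, h⟩
  have i1 : Set.InjOn Prod.fst (D2 X (t v) : Set (ℂ × ℂ)) := fun q hq r hr e =>
    Prod.ext e (hT.uniq (Finset.mem_filter.1 hq).2 (e ▸ (Finset.mem_filter.1 hr).2))
  have i2 : Set.InjOn Prod.snd (D2 X (t v) : Set (ℂ × ℂ)) := fun q hq r hr e =>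
    Prod.ext (hT.uniq (hT.rot (hT.rot (Finset.mem_filter.1 hq).2))
      (e ▸ hT.rot (hT.rot (Finset.mem_filter.1 hr).2))) e
  have im : (D2 X (t v)).image Prod.snd = (D2 X (t v)).image Prod.fst := by
    refine Finset.eq_of_subset_of_card_le (Finset.image_subset_iff.2 fun q hq => ?_)
      (by rw [Finset.card_image_of_injOn i1, Finset.card_image_of_injOn i2])
    obtain ⟨b, hb⟩ := hE q.2 (.inr ⟨q.1, hT.rot (hT.rot (Finset.mem_filter.1 hq).2)⟩)
    exact Finset.mem_image.2 ⟨_, mem hb, rfl⟩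
  have tel : ∑ q ∈ D2 X (t v), (-((q.2 - v) / (a0 - v))).arg =
      ∑ q ∈ D2 X (t v), (-((q.1 - v) / (a0 - v))).arg := by
    rw [← Finset.sum_image (f := fun x => (-((x - v) / (a0 - v))).arg) i1,
      ← Finset.sum_image (f := fun x => (-((x - v) / (a0 - v))).arg) i2, im]
  have one : ∑ q ∈ D2 X (t v), (if q.1 = a0 then 2 * π else 0) = 2 * π := by
    rw [← Finset.sum_image (f := fun x => if x = a0 then 2 * π else 0) i1, Finset.sum_ite_eq',
      if_pos (Finset.mem_image.2 ⟨_, mem h0, rfl⟩)]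
  have := Finset.sum_congr rfl fun q (hq : q ∈ D2 X (t v)) =>
    step_An2 hM hA hT h0 (Finset.mem_filter.1 hq).2
  rw [Finset.sum_add_distrib, Finset.sum_sub_distrib, tel, one, ← Finset.mul_sum] at this
  exact mul_left_cancel₀ (by positivity : π / 3 ≠ 0) (by linarith)

end MP7b

end
end

section

/-! Angles of a triangle. -/

open scoped Classical
open MeasureTheory Metric Real

noncomputable section
namespace MP7b

theorem base_Ang {u v : ℂ} (h : 0 < u.re * v.im - u.im * v.re) :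
    u ≠ 0 ∧ v ≠ 0 ∧ 0 < (v / u).arg ∧ (v / u).arg < π ∧
      u.re * v.im - u.im * v.re = ‖u‖ * ‖v‖ * sin (v / u).arg ∧
      u.re * v.re + u.im * v.im = ‖u‖ * ‖v‖ * cos (v / u).arg := by
  have hu : u ≠ 0 := by
    rintro rfl
    simp at h
  have hv : v ≠ 0 := by
    rintro rfl
    simp at h
  have n1 : 0 < ‖u‖ := norm_pos_iff.2 hu
  have n2 : 0 < ‖v‖ := norm_pos_iff.2 hv
  have hi : (v / u).im = (u.re * v.im - u.im * v.re) / ‖u‖ ^ 2 := by
    rw [Complex.div_im, Complex.normSq_eq_norm_sq]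
    ring
  have hr : (v / u).re = (u.re * v.re + u.im * v.im) / ‖u‖ ^ 2 := by
    rw [Complex.div_re, Complex.normSq_eq_norm_sq]
    ring
  have p : 0 < (v / u).im := by
    rw [hi]
    positivity
  refine ⟨hu, hv, (Complex.arg_nonneg_iff.2 p.le).lt_of_ne fun e =>
    p.ne' (Complex.arg_eq_zero_iff.1 e.symm).2, Complex.arg_lt_pi_iff.2 (Or.inr p.ne'), ?_, ?_⟩
  · rw [Complex.sin_arg, hi, norm_div]
    field_simp
  · rw [Complex.cos_arg (div_ne_zero hv hu), hr, norm_div]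
    field_simp

theorem angs : ANG_st := by
  intro a b c h
  obtain ⟨u1, v1, p1, q1, s1, c1⟩ := base_Ang (u := b - a) (v := c - a) (by simpa [D] using h)
  obtain ⟨u2, v2, p2, q2, -⟩ := base_Ang (u := c - b) (v := a - b) (by
    simp only [Complex.sub_re, Complex.sub_im]
    unfold D at h
    linarith)
  obtain ⟨u3, v3, p3, q3, -⟩ := base_Ang (u := a - c) (v := b - c) (by
    simp only [Complex.sub_re, Complex.sub_im]
    unfold D at h
    linarith)
  have hp := pi_pos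
  have e : π / 3 * ang a b c = ((c - a) / (b - a)).arg := by
    unfold ang
    field_simp
  have w : (c - a) / (b - a) * ((a - b) / (c - b)) * ((b - c) / (a - c)) = -1 := by
    field_simp
    ring
  have w1 := Complex.arg_mul_coe_angle (mul_ne_zero (div_ne_zero v1 u1) (div_ne_zero v2 u2))
    (div_ne_zero v3 u3)
  rw [w, Complex.arg_mul_coe_angle (div_ne_zero v1 u1) (div_ne_zero v2 u2), Complex.arg_neg_one,
    ← Real.Angle.coe_add, ← Real.Angle.coe_add, Real.Angle.angle_eq_iff_two_pi_dvd_sub] at w1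
  obtain ⟨k, hk⟩ := w1
  have k1 : (k : ℝ) < 1 := lt_of_mul_lt_mul_left (a := 2 * π) (by linarith) (by positivity)
  have k2 : (-1 : ℝ) < k := lt_of_mul_lt_mul_left (a := 2 * π) (by linarith) (by positivity)
  have k0 : k = 0 := by
    have a1 : k < 1 := by exact_mod_cast k1
    have a2 : -1 < k := by exact_mod_cast k2
    omega
  rw [k0, Int.cast_zero, mul_zero] at hk
  refine ⟨mul_pos (by positivity) p1, ?_, ?_, ?_, ?_⟩
  · refine lt_of_mul_lt_mul_left (a := π / 3) ?_ (by positivity)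
    linarith
  · unfold ang
    rw [← mul_add, ← mul_add, ← sub_eq_zero.1 hk]
    field_simp
  · rw [e, dist_comm a b, Complex.dist_eq, Complex.dist_eq, ← s1]
    simp [D]
  · rw [e, dist_comm a b, Complex.dist_eq, Complex.dist_eq, ← c1]
    simp [Ip]

theorem sq_Ang (a b : ℂ) : dist a b ^ 2 = (a.re - b.re) ^ 2 + (a.im - b.im) ^ 2 := by
  rw [Complex.dist_eq, ← Complex.normSq_eq_norm_sq, Complex.normSq_apply]
  simp [sq]

theorem obt : OBT_st := by
  intro a b c h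
  unfold Ip at *
  refine ⟨?_, ?_, lt_of_pow_lt_pow_left₀ 2 dist_nonneg ?_, lt_of_pow_lt_pow_left₀ 2 dist_nonneg ?_⟩
  · nlinarith [sq_nonneg (a.re - c.re), sq_nonneg (a.im - c.im)]
  · nlinarith [sq_nonneg (b.re - c.re), sq_nonneg (b.im - c.im)]
  · rw [sq_Ang, sq_Ang]
    nlinarith [sq_nonneg (a.re - c.re), sq_nonneg (a.im - c.im)]
  · rw [sq_Ang, sq_Ang]
    nlinarith [sq_nonneg (b.re - c.re), sq_nonneg (b.im - c.im)]

end MP7b

end
end

section

open scoped Classical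
open MeasureTheory Metric Real

noncomputable section
namespace MP7b

theorem mem_Ch1 {X : Finset ℂ} {t : ℂ → ℂ → ℂ → Prop} (h : Tri X t) {a b : ℂ} (e : E t a b) :
    a ∈ X ∧ b ∈ X := by
  rcases e with ⟨c, hc⟩ | ⟨c, hc⟩
  exacts [⟨h.mem hc, h.mem (h.rot hc)⟩, ⟨h.mem (h.rot hc), h.mem hc⟩]

theorem ch1 (hE : EPS_st) (hL : LL_st) : CH1_st := by
  intro X t hT hX
  obtain ⟨ε, hε⟩ := hE X
  have hl := hL X t hT ε hε
  obtain ⟨f, hf⟩ : ∃ f : ℂ → ℝ, ∀ x, f x = x.re + ε * x.im := ⟨_, fun _ => rfl⟩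
  simp only [← hf] at hε hl
  obtain ⟨m, hm, hmin⟩ := X.exists_min_image f hX
  have low : ∀ v ∈ X, v ≠ m → ∃ a, E t v a ∧ f a < f v := fun v hv h =>
    (hl v hv).1 ⟨m, hm, (hmin v hv).lt_of_ne fun e => h (hε _ hm _ hv e).symm⟩
  refine ⟨?_, fun φ hφ => ?_⟩
  · have ext : ∀ v, v ∈ X.erase m → ∃ a, (E t v a ∧ f a < f v) ∧
        ∀ b, f b < f v → ¬ t v a b := fun v hv => by
      obtain ⟨a₀, h₀⟩ := low v (Finset.mem_of_mem_erase hv) (Finset.ne_of_mem_erase hv)
      obtain ⟨a, ha, hmax⟩ := (X.filter fun a => E t v a ∧ f a < f v).exists_max_image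
        (fun x => (x.im - v.im) / (f x - f v)) ⟨a₀, Finset.mem_filter.2 ⟨(mem_Ch1 hT h₀.1).2, h₀⟩⟩
      have ha' := (Finset.mem_filter.1 ha).2
      refine ⟨a, ha', fun b hb h => ?_⟩
      have h1 := hmax b (Finset.mem_filter.2
        ⟨hT.mem (hT.rot (hT.rot h)), Or.inr ⟨a, hT.rot (hT.rot h)⟩, hb⟩)
      have h2 := hT.pos h
      have h3 : D v a b = (f a - f v) * (b.im - v.im) - (a.im - v.im) * (f b - f v) := by
        simp only [D, hf]
        ring
      rw [div_le_iff_of_neg (sub_neg.2 hb), div_mul_eq_mul_div, div_le_iff_of_neg (sub_neg.2 ha'.2)]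
        at h1
      linarith
    choose! g hg hg' using ext
    set Dl := (D2 X (E t)).filter fun q => f q.2 < f q.1 with hDl
    set Tl := (T3 X t).filter fun q => f q.2.1 < f q.1 ∧ f q.2.2 < f q.1 with hTl
    have mD : ∀ a b, (a, b) ∈ D2 X (E t) ↔ E t a b := fun a b => by
      simp only [D2, Finset.mem_filter, Finset.mem_product]
      exact ⟨fun h => h.2, fun h => ⟨mem_Ch1 hT h, h⟩⟩
    have mT : ∀ a b c, (a, b, c) ∈ T3 X t ↔ t a b c := fun a b c => by
      simp only [T3, Finset.mem_filter, Finset.mem_product]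
      exact ⟨fun h => h.2, fun h =>
        ⟨⟨hT.mem h, hT.mem (hT.rot h), hT.mem (hT.rot (hT.rot h))⟩, h⟩⟩
    have h1 : Dl.card + Dl.card ≤ (D2 X (E t)).card := by
      have : (Dl.image Prod.swap).card = Dl.card :=
        Finset.card_image_of_injective _ Prod.swap_injective
      nth_rw 2 [← this]
      rw [← Finset.card_union_of_disjoint]
      · refine Finset.card_le_card (Finset.union_subset (Finset.filter_subset _ _) ?_)
        rintro ⟨a, b⟩ hq
        obtain ⟨⟨c, d⟩, h, e⟩ := Finset.mem_image.1 hq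
        cases e
        exact (mD _ _).2 ((mD _ _).1 (Finset.mem_filter.1 h).1).symm
      · refine Finset.disjoint_left.2 fun q hq hq' => ?_
        obtain ⟨q', h, rfl⟩ := Finset.mem_image.1 hq'
        exact lt_asymm (Finset.mem_filter.1 h).2 (Finset.mem_filter.1 hq).2
    have h2 : (T3 X t).card ≤ Tl.card + Tl.card + Tl.card := by
      refine (Finset.card_le_card (t := Tl ∪ Tl.image (fun q => (q.2.1, q.2.2, q.1)) ∪
        Tl.image fun q => (q.2.2, q.1, q.2.1)) ?_).trans ((Finset.card_union_le _ _).trans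
          (add_le_add ((Finset.card_union_le _ _).trans
            (add_le_add le_rfl Finset.card_image_le)) Finset.card_image_le))
      rintro ⟨a, b, c⟩ hq
      have h := (mT _ _ _).1 hq
      have ne : ∀ {a b c}, t a b c → f a ≠ f b := fun h e => by
        have := hT.pos h
        rw [hε _ (hT.mem h) _ (hT.mem (hT.rot h)) e] at this
        simp [D] at this
      have n1 := ne h
      have n2 := ne (hT.rot h)
      have n3 := ne (hT.rot (hT.rot h))
      simp only [Finset.mem_union, Finset.mem_image]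
      have key : (f b < f a ∧ f c < f a) ∨ (f a < f c ∧ f b < f c) ∨ (f c < f b ∧ f a < f b) := by
        rcases n1.lt_or_gt with h1 | h1 <;> rcases n2.lt_or_gt with h2 | h2 <;>
          rcases n3.lt_or_gt with h3 | h3 <;> first | tauto | linarith
      rcases key with k | k | k
      · exact .inl (.inl (Finset.mem_filter.2 ⟨hq, k⟩))
      · exact .inl (.inr ⟨(c, a, b), Finset.mem_filter.2
          ⟨(mT _ _ _).2 (hT.rot (hT.rot h)), k⟩, rfl⟩)
      · exact .inr ⟨(b, c, a), Finset.mem_filter.2 ⟨(mT _ _ _).2 (hT.rot h), k⟩, rfl⟩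
    have h3 : Tl.card + (X.erase m).card ≤ Dl.card := by
      have i1 : (Tl.image fun q => (q.1, q.2.1)).card = Tl.card := by
        refine Finset.card_image_of_injOn ?_
        rintro ⟨a, b, c⟩ h ⟨a', b', c'⟩ h' e
        cases e
        rw [hT.uniq ((mT _ _ _).1 (Finset.mem_filter.1 h).1)
          ((mT _ _ _).1 (Finset.mem_filter.1 h').1)]
      have i2 : ((X.erase m).image fun v => (v, g v)).card = (X.erase m).card :=
        Finset.card_image_of_injective _ fun _ _ e => congrArg Prod.fst e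
      rw [← i1, ← i2, ← Finset.card_union_of_disjoint]
      · refine Finset.card_le_card (Finset.union_subset (fun q hq => ?_) fun q hq => ?_)
        · obtain ⟨⟨a, b, c⟩, h, rfl⟩ := Finset.mem_image.1 hq
          exact Finset.mem_filter.2 ⟨(mD _ _).2 (.inl ⟨c, (mT _ _ _).1 (Finset.mem_filter.1 h).1⟩),
            (Finset.mem_filter.1 h).2.1⟩
        · obtain ⟨v, h, rfl⟩ := Finset.mem_image.1 hq
          exact Finset.mem_filter.2 ⟨(mD _ _).2 (hg v h).1, (hg v h).2⟩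
      · refine Finset.disjoint_left.2 fun q hq hq' => ?_
        obtain ⟨v, h, rfl⟩ := Finset.mem_image.1 hq'
        obtain ⟨⟨a, b, c⟩, h', e⟩ := Finset.mem_image.1 hq
        obtain ⟨rfl, rfl⟩ : a = v ∧ b = g v := Prod.ext_iff.1 e
        exact hg' _ h c (Finset.mem_filter.1 h').2.2 ((mT _ _ _).1 (Finset.mem_filter.1 h').1)
    have h4 := Finset.card_erase_add_one hm
    unfold chi6
    omega
  · have key : ∀ v ∈ X, (φ v ↔ φ m) := by
      by_contra! hc
      obtain ⟨v₀, h₀, h₀'⟩ := hc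
      obtain ⟨v, hv, hvm⟩ := (X.filter fun v => ¬ (φ v ↔ φ m)).exists_min_image f
        ⟨v₀, Finset.mem_filter.2 ⟨h₀, by tauto⟩⟩
      obtain ⟨h1, h2⟩ := Finset.mem_filter.1 hv
      obtain ⟨a, e, ha⟩ := low v h1 fun e => h2 (by rw [e])
      refine (hvm a (Finset.mem_filter.2 ⟨(mem_Ch1 hT e).2, fun h => h2 ?_⟩)).not_gt ha
      exact ⟨fun h' => h.1 (hφ _ _ e h'), fun h' => hφ _ _ e.symm (h.2 h')⟩
    exact fun a ha b hb h => (key b hb).2 ((key a ha).1 h)

end MP7b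

end
end

section

/-! The Euler characteristic of a complex without first homology is at least one. -/

open scoped Classical
open MeasureTheory Metric Real

noncomputable section
namespace MP7b

/-- chains form a subspace -/
def chs_Chi (P : ℂ → ℂ → ℂ → Prop) : Submodule ℚ (ℂ → ℂ → ℚ) where
  carrier := {c | Ch P c}
  zero_mem' := ⟨fun _ _ _ _ => rfl, fun _ _ _ => rfl⟩
  add_mem' := fun {x y} hx hy => ⟨fun a b d h => by
    simp only [Pi.add_apply, hx.1 a b d h, hy.1 a b d h], fun a b h => by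
    simp only [Pi.add_apply, hx.2 a b h, hy.2 a b h, add_zero]⟩
  smul_mem' := fun r x hx => ⟨fun a b d h => by
    simp only [Pi.smul_apply, hx.1 a b d h], fun a b h => by
    simp only [Pi.smul_apply, hx.2 a b h, smul_zero]⟩

/-- extension by zero -/
def ex0_Chi (S : Finset (ℂ × ℂ)) (a b : ℂ) : (S → ℚ) →ₗ[ℚ] ℚ :=
  if h : (a, b) ∈ S then LinearMap.proj ⟨(a, b), h⟩ else 0

/-- evaluation of a chain -/
def ev_Chi (P : ℂ → ℂ → ℂ → Prop) (a b : ℂ) : chs_Chi P →ₗ[ℚ] ℚ where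
  toFun c := c.1 a b
  map_add' _ _ := rfl
  map_smul' _ _ := rfl

theorem three_Chi (T : Finset (ℂ × ℂ × ℂ)) {α : Type} [LinearOrder α] (k : ℂ → α)
    (hT : ∀ q ∈ T, (q.2.1, q.2.2, q.1) ∈ T) :
    3 * (T.filter fun q => k q.1 < k q.2.1 ∧ k q.1 < k q.2.2).card ≤ T.card := by
  set A := T.filter fun q => k q.1 < k q.2.1 ∧ k q.1 < k q.2.2 with hA
  set B := T.filter fun q => k q.2.2 < k q.1 ∧ k q.2.2 < k q.2.1 with hB
  set C := T.filter fun q => k q.2.1 < k q.2.2 ∧ k q.2.1 < k q.1 with hC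
  have ij : Function.Injective fun q : ℂ × ℂ × ℂ => (q.2.1, q.2.2, q.1) := by
    rintro ⟨a, b, c⟩ ⟨a', b', c'⟩ h
    simp only [Prod.mk.injEq] at h ⊢
    tauto
  have h1 : A.card ≤ B.card := Finset.card_le_card_of_injOn _ (fun q hq => by
    have := Finset.mem_filter.1 (Finset.mem_coe.1 hq)
    exact Finset.mem_coe.2 (Finset.mem_filter.2 ⟨hT q this.1, this.2⟩)) ij.injOn
  have h2 : B.card ≤ C.card := Finset.card_le_card_of_injOn _ (fun q hq => by
    have := Finset.mem_filter.1 (Finset.mem_coe.1 hq)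
    exact Finset.mem_coe.2 (Finset.mem_filter.2 ⟨hT q this.1, this.2⟩)) ij.injOn
  have d1 : Disjoint A B := Finset.disjoint_filter.2 fun q _ h h' => lt_asymm h.2 h'.1
  have d2 : Disjoint (A ∪ B) C := Finset.disjoint_union_left.2
    ⟨Finset.disjoint_filter.2 fun q _ h h' => lt_asymm h.1 h'.2,
      Finset.disjoint_filter.2 fun q _ h h' => lt_asymm h.2 h'.1⟩
  have h3 : (A ∪ B ∪ C).card ≤ T.card := Finset.card_le_card (Finset.union_subset
    (Finset.union_subset (Finset.filter_subset _ _) (Finset.filter_subset _ _))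
    (Finset.filter_subset _ _))
  rw [Finset.card_union_of_disjoint d2, Finset.card_union_of_disjoint d1] at h3
  omega

theorem chi : CHI_st := by
  intro X V R P hV ⟨v, hv⟩ hR hP _ hE
  obtain ⟨k, hk⟩ : ∃ k : ℂ → Lex (ℝ × ℝ), Function.Injective k :=
    ⟨fun a => toLex (a.re, a.im), fun a b h => by
      have := toLex.injective h
      simp only [Prod.mk.injEq] at this
      exact Complex.ext this.1 this.2⟩
  have mD : ∀ a b, (a, b) ∈ D2 V R ↔ R a b := fun a b => by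
    simp only [D2, Finset.mem_filter, Finset.mem_product]
    exact ⟨fun h => h.2, fun h => ⟨⟨(hR a b h).1, (hR b a (hR a b h).2.2).1⟩, h⟩⟩
  have mT : ∀ a b c, (a, b, c) ∈ T3 V P ↔ P a b c := fun a b c => by
    simp only [T3, Finset.mem_filter, Finset.mem_product]
    refine ⟨fun h => h.2, fun h => ?_⟩
    have h1 := hP a b c h
    have h2 := hP b c a h1.2
    exact ⟨⟨(hR _ _ h1.1).1, (hR _ _ h2.1).1, (hR _ _ (hP c a b h2.2).1).1⟩, h⟩
  set Ep := (D2 V R).filter fun q => k q.1 < k q.2 with hEp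
  set Tp := (T3 V P).filter fun q => k q.1 < k q.2.1 ∧ k q.1 < k q.2.2 with hTp
  have mE : ∀ a b, (a, b) ∈ Ep ↔ R a b ∧ k a < k b := fun a b => by
    rw [hEp, Finset.mem_filter, mD]
  have c1 : (D2 V R).card ≤ 2 * Ep.card := by
    have : D2 V R ⊆ Ep ∪ Ep.image Prod.swap := by
      rintro ⟨a, b⟩ h
      rw [mD] at h
      rcases lt_or_gt_of_ne (hk.ne (hR a b h).2.1) with l | l
      · exact Finset.mem_union_left _ ((mE a b).2 ⟨h, l⟩)
      · exact Finset.mem_union_right _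
          (Finset.mem_image.2 ⟨(b, a), (mE b a).2 ⟨(hR a b h).2.2, l⟩, rfl⟩)
    have h2 := (Finset.card_le_card this).trans (Finset.card_union_le _ _)
    have h3 := Finset.card_image_le (s := Ep) (f := Prod.swap)
    omega
  have c2 : 3 * Tp.card ≤ (T3 V P).card := three_Chi _ k fun ⟨a, b, c⟩ h =>
    (mT b c a).2 (hP a b c ((mT a b c).1 h)).2
  let dv : (Ep → ℚ) →ₗ[ℚ] (V.erase v → ℚ) :=
    LinearMap.pi fun a => ∑ b ∈ X, (ex0_Chi Ep a b - ex0_Chi Ep b a)
  let rs : chs_Chi P →ₗ[ℚ] (Tp → ℚ) := LinearMap.pi fun q => ev_Chi P q.1.1 q.1.2.1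
  let pa : chs_Chi P →ₗ[ℚ] (Ep → ℚ) := LinearMap.pi fun q =>
    ev_Chi P q.1.1 q.1.2 - ev_Chi P q.1.2 q.1.1
  have ri : Function.Injective rs := by
    rw [injective_iff_map_eq_zero]
    rintro ⟨c, hc⟩ h
    have z : ∀ a b d, P a b d → k a < k b → k a < k d → c a b = 0 := fun a b d p l l' =>
      congrFun h ⟨(a, b, d), Finset.mem_filter.2 ⟨(mT a b d).2 p, l, l'⟩⟩
    refine Subtype.ext (funext fun a => funext fun b => ?_)
    change c a b = 0
    by_cases e : ∃ d, P a b d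
    · obtain ⟨d, p1⟩ := e
      have p2 := (hP _ _ _ p1).2
      have p3 := (hP _ _ _ p2).2
      have n1 := hk.ne (hR _ _ (hP _ _ _ p1).1).2.1
      have n2 := hk.ne (hR _ _ (hP _ _ _ p2).1).2.1
      have n3 := hk.ne (hR _ _ (hP _ _ _ p3).1).2.1
      have e1 := hc.1 _ _ _ p1
      have e2 := hc.1 _ _ _ p2
      rcases lt_or_gt_of_ne n1 with l1 | l1
      · rcases lt_or_gt_of_ne n3 with l3 | l3
        · rw [e1, e2, z _ _ _ p3 l3 (l3.trans l1)]
        · exact z _ _ _ p1 l1 l3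
      · rcases lt_or_gt_of_ne n2 with l2 | l2
        · rw [e1, z _ _ _ p2 l2 l1]
        · rw [e1, e2, z _ _ _ p3 (l2.trans l1) l2]
    · exact hc.2 a b e
  have : Module.Finite ℚ (chs_Chi P) := Module.Finite.of_injective rs ri
  have f1 := LinearMap.finrank_le_finrank_of_injective ri
  have kr : LinearMap.ker dv ≤ LinearMap.range pa := by
    intro w hw
    have z0 : ∀ a b, ¬ R a b → ex0_Chi Ep a b w - ex0_Chi Ep b a w = 0 := fun a b h => by
      unfold ex0_Chi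
      rw [dif_neg fun h' => h ((mE a b).1 h').1, dif_neg fun h' => h (hR _ _ ((mE b a).1 h').1).2.2]
      simp
    have z1 : ∀ a, a ≠ v → ∑ b ∈ X, (ex0_Chi Ep a b w - ex0_Chi Ep b a w) = 0 := fun a h => by
      by_cases ha : a ∈ V
      · have := congrFun (LinearMap.mem_ker.1 hw) ⟨a, Finset.mem_erase.2 ⟨h, ha⟩⟩
        simpa [dv, LinearMap.sum_apply] using this
      · exact Finset.sum_eq_zero fun b _ => z0 a b fun r => ha (hR a b r).1
    have z2 : ∑ b ∈ X, (ex0_Chi Ep v b w - ex0_Chi Ep b v w) = 0 := by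
      have t : ∑ a ∈ X, ∑ b ∈ X, (ex0_Chi Ep a b w - ex0_Chi Ep b a w) = 0 := by
        simp only [Finset.sum_sub_distrib]
        rw [Finset.sum_comm, sub_self]
      rwa [Finset.sum_eq_single_of_mem v (hV hv) fun a _ h => z1 a h] at t
    obtain ⟨c, hc, e⟩ := hE (fun a b => ex0_Chi Ep a b w - ex0_Chi Ep b a w)
      ⟨fun a b => (neg_sub _ _).symm, z0, fun a => by
        by_cases h : a = v
        · rw [h]
          exact z2
        · exact z1 a h⟩
    refine ⟨⟨c, hc⟩, funext fun ⟨⟨a, b⟩, h⟩ => ?_⟩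
    change c a b - c b a = _
    rw [← e a b]
    unfold ex0_Chi
    rw [dif_pos h, dif_neg fun h' => lt_asymm ((mE a b).1 h).2 ((mE b a).1 h').2]
    simp
  have f2 := Submodule.finrank_mono kr
  have f3 := LinearMap.finrank_range_le pa
  have f4 := LinearMap.finrank_range_add_finrank_ker dv
  have f5 := Submodule.finrank_le (LinearMap.range dv)
  simp only [Module.finrank_fintype_fun_eq_card, Fintype.card_coe] at f1 f4 f5
  rw [Finset.card_erase_of_mem hv] at f5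
  have f6 := Finset.card_pos.2 ⟨v, hv⟩
  unfold chi6
  omega

end MP7b

end
end

section

open scoped Classical
open MeasureTheory Metric Real

noncomputable section
namespace MP7b

theorem memT_Cnt {X t R g δ} (h : Cx X t R g δ) (q : ℂ × ℂ × ℂ) :
    q ∈ T3 X g ↔ g q.1 q.2.1 q.2.2 := by
  simp only [T3, Finset.mem_filter, Finset.mem_product]
  exact ⟨fun h1 => h1.2, fun h1 => ⟨⟨h.tri.mem (h.gt h1), h.tri.mem (h.gt (h.grot h1)),
    h.tri.mem (h.gt (h.grot (h.grot h1)))⟩, h1⟩⟩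

theorem rot_Cnt {X t R g δ} (h : Cx X t R g δ) (f : ℂ × ℂ × ℂ → ℝ) :
    ∑ q ∈ T3 X g, f (q.2.1, q.2.2, q.1) = ∑ q ∈ T3 X g, f q :=
  Finset.sum_nbij' (fun q => (q.2.1, q.2.2, q.1)) (fun q => (q.2.2, q.1, q.2.1))
    (fun q hq => (memT_Cnt h _).mpr (h.grot ((memT_Cnt h q).mp hq)))
    (fun q hq => (memT_Cnt h _).mpr (h.grot (h.grot ((memT_Cnt h q).mp hq))))
    (fun _ _ => rfl) (fun _ _ => rfl) fun _ _ => rfl

theorem ne_Cnt {a b c : ℂ} (h : 0 < D a b c) : a ≠ b ∧ b ≠ c ∧ a ≠ c := by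
  refine ⟨?_, ?_, ?_⟩ <;> rintro rfl <;> simp only [D] at h <;> linarith

theorem cnt : CNT_st := by
  intro X t R g δ h
  refine ⟨?_, ?_, ?_, fun w => ?_⟩
  · have h1 := Finset.card_filter_add_card_filter_not (s := D2 X R) fun q => ∃ c, g q.1 q.2 c
    have h2 : ((D2 X R).filter fun q => ¬ ∃ c, g q.1 q.2 c) = D2 X (bd R g) := by
      ext q
      simp only [D2, bd, Finset.mem_filter, and_assoc]
    have h3 : (T3 X g).card = ((D2 X R).filter fun q => ∃ c, g q.1 q.2 c).card := by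
      refine Finset.card_bij (fun q _ => (q.1, q.2.1)) (fun q hq => ?_) (fun q hq q' hq' e => ?_)
        fun q hq => ?_
      · have h4 := (memT_Cnt h q).mp hq
        simp only [D2, Finset.mem_filter, Finset.mem_product]
        exact ⟨⟨⟨h.tri.mem (h.gt h4), h.tri.mem (h.gt (h.grot h4))⟩, h.gR h4⟩, _, h4⟩
      · have h4 := h.gt ((memT_Cnt h q).mp hq)
        have h5 := h.gt ((memT_Cnt h q').mp hq')
        obtain ⟨e1, e2⟩ := Prod.mk.inj e
        rw [← e1, ← e2] at h5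
        exact Prod.ext e1 (Prod.ext e2 (h.tri.uniq h4 h5))
      · obtain ⟨c, hc⟩ := (Finset.mem_filter.mp hq).2
        exact ⟨(q.1, q.2, c), (memT_Cnt h _).mpr hc, rfl⟩
    rw [h2, ← h3] at h1
    omega
  · simp only [dg, D2, T3, Finset.card_filter]
    rw [Finset.sum_product X (X ×ˢ X)]
  · simp only [kb, D2, Finset.card_filter]
    rw [Finset.sum_product]
  · have h1 : ∑ q ∈ D2 X (g w), δ w q.1 q.2 =
        ∑ q ∈ T3 X g, if q.1 = w then δ q.1 q.2.1 q.2.2 else 0 := by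
      rw [← Finset.sum_filter]
      refine Finset.sum_nbij' (fun q => (w, q)) (fun q => q.2) (fun q hq => ?_) (fun q hq => ?_)
        (fun _ _ => rfl) (fun q hq => ?_) fun _ _ => rfl
      · exact Finset.mem_filter.mpr ⟨(memT_Cnt h _).mpr (Finset.mem_filter.mp hq).2, rfl⟩
      · obtain ⟨h2, h3⟩ := Finset.mem_filter.mp hq
        have h4 := (memT_Cnt h q).mp h2
        refine Finset.mem_filter.mpr ⟨Finset.mem_product.mpr ⟨h.tri.mem (h.gt (h.grot h4)),
          h.tri.mem (h.gt (h.grot (h.grot h4)))⟩, ?_⟩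
        rw [← h3]
        exact h4
      · exact Prod.ext (Finset.mem_filter.mp hq).2.symm rfl
    have h2 := rot_Cnt h fun q => if q.1 = w then δ q.1 q.2.1 q.2.2 else 0
    have h3 := rot_Cnt h fun q => if q.2.1 = w then δ q.2.1 q.2.2 q.1 else 0
    dsimp only at h2 h3
    have h4 : ∑ q ∈ T3 X g, ((if q.1 = w then δ q.1 q.2.1 q.2.2 else 0) +
        (if q.2.1 = w then δ q.2.1 q.2.2 q.1 else 0) +
        (if q.2.2 = w then δ q.2.2 q.1 q.2.1 else 0)) ≤ ∑ q ∈ T3 X g, δ q.1 q.2.1 q.2.2 := by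
      refine Finset.sum_le_sum fun q hq => ?_
      have h5 := (memT_Cnt h q).mp hq
      obtain ⟨n1, n2, n3⟩ := ne_Cnt (h.tri.pos (h.gt h5))
      have h6 : 0 ≤ δ q.1 q.2.1 q.2.2 := (abs_nonneg _).trans (h.dev h5)
      rw [h.drot (h.grot h5), h.drot h5]
      split_ifs with a1 a2 a3 a4 a5 a6 a7
      · exact absurd (a1.trans a2.symm) n1
      · exact absurd (a1.trans a2.symm) n1
      · exact absurd (a1.trans a4.symm) n3
      · linarith
      · exact absurd (a5.trans a6.symm) n2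
      · linarith
      · linarith
      · linarith
    rw [Finset.sum_add_distrib, Finset.sum_add_distrib] at h4
    unfold Del
    linarith

end MP7b

end
end

section

/-! The collapse of the bad triangles. -/

open scoped Classical
open MeasureTheory Metric Real

noncomputable section
namespace MP7b

theorem Drot_Col (a b c : ℂ) : D b c a = D a b c := by unfold D; ring

theorem badrot_Col {X : Finset ℂ} {t : ℂ → ℂ → ℂ → Prop} (hT : Tri X t) {a b c : ℂ}
    (h : bad t a b c) : bad t b c a := by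
  refine ⟨hT.rot h.1, fun h' => h.2 ?_⟩
  rw [Drot_Col a b c] at h'
  calc dist a b * dist b c * dist c a = dist b c * dist c a * dist a b := by ring
    _ ≤ _ := h'

theorem up_Col (X : Finset ℂ) (Q : ℂ → ℂ → Prop)
    (h : ∀ a b, (∀ a' ∈ X, ∀ b' ∈ X, dist a b < dist a' b' → Q a' b') → Q a b) (a b : ℂ) :
    Q a b := by
  induction hn : ((X ×ˢ X).filter fun q => dist a b < dist q.1 q.2).card
    using Nat.strong_induction_on generalizing a b with
  | _ n ih =>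
    refine h a b fun a' ha b' hb hl => ih _ ?_ a' b' rfl
    rw [← hn]
    refine Finset.card_lt_card ⟨fun q hq => ?_, fun hs => ?_⟩
    · rw [Finset.mem_filter] at hq ⊢
      exact ⟨hq.1, hl.trans hq.2⟩
    · have hm : (a', b') ∈ (X ×ˢ X).filter fun q => dist a b < dist q.1 q.2 :=
        Finset.mem_filter.2 ⟨Finset.mem_product.2 ⟨ha, hb⟩, hl⟩
      exact lt_irrefl _ (Finset.mem_filter.1 (hs hm)).2

theorem down_Col (X : Finset ℂ) (Q : ℂ → ℂ → Prop)
    (h : ∀ a b, (∀ a' ∈ X, ∀ b' ∈ X, dist a' b' < dist a b → Q a' b') → Q a b) (a b : ℂ) :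
    Q a b := by
  induction hn : ((X ×ˢ X).filter fun q => dist q.1 q.2 < dist a b).card
    using Nat.strong_induction_on generalizing a b with
  | _ n ih =>
    refine h a b fun a' ha b' hb hl => ih _ ?_ a' b' rfl
    rw [← hn]
    refine Finset.card_lt_card ⟨fun q hq => ?_, fun hs => ?_⟩
    · rw [Finset.mem_filter] at hq ⊢
      exact ⟨hq.1, hq.2.trans hl⟩
    · have hm : (a', b') ∈ (X ×ˢ X).filter fun q => dist q.1 q.2 < dist a b :=
        Finset.mem_filter.2 ⟨Finset.mem_product.2 ⟨ha, hb⟩, hl⟩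
      exact lt_irrefl _ (Finset.mem_filter.1 (hs hm)).2

theorem swap_Col (X : Finset ℂ) (R : ℂ → ℂ → Prop) :
    (D2 X fun a b => R b a).card = (D2 X R).card := by
  refine Finset.card_nbij' (fun q => (q.2, q.1)) (fun q => (q.2, q.1)) ?_ ?_ ?_ ?_
  · intro q hq
    simp only [D2, Finset.coe_filter, Finset.mem_product, Set.mem_ofPred_eq] at hq ⊢
    exact ⟨⟨hq.1.2, hq.1.1⟩, hq.2⟩
  · intro q hq
    simp only [D2, Finset.coe_filter, Finset.mem_product, Set.mem_ofPred_eq] at hq ⊢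
    exact ⟨⟨hq.1.2, hq.1.1⟩, hq.2⟩
  · intro q _; rfl
  · intro q _; rfl

theorem rot_Col (X : Finset ℂ) (P : ℂ → ℂ → ℂ → Prop) :
    (T3 X fun a b c => P b c a).card = (T3 X P).card := by
  refine Finset.card_nbij' (fun q => (q.2.1, q.2.2, q.1)) (fun q => (q.2.2, q.1, q.2.1))
    ?_ ?_ ?_ ?_
  · intro q hq
    simp only [T3, Finset.coe_filter, Finset.mem_product, Set.mem_ofPred_eq] at hq ⊢
    exact ⟨⟨hq.1.2.1, hq.1.2.2, hq.1.1⟩, hq.2⟩
  · intro q hq
    simp only [T3, Finset.coe_filter, Finset.mem_product, Set.mem_ofPred_eq] at hq ⊢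
    exact ⟨⟨hq.1.2.2, hq.1.1, hq.1.2.1⟩, hq.2⟩
  · intro q _; rfl
  · intro q _; rfl

theorem lngcard_Col {X : Finset ℂ} {t : ℂ → ℂ → ℂ → Prop} (hT : Tri X t) :
    (T3 X (ap t)).card = (D2 X (lng t)).card := by
  refine Finset.card_bij (fun q _ => q.2) ?_ ?_ ?_
  · intro q hq
    simp only [T3, D2, Finset.mem_filter, Finset.mem_product] at hq ⊢
    exact ⟨hq.1.2, q.1, hq.2⟩
  · rintro ⟨c, a, b⟩ hq ⟨c', a', b'⟩ hq' he
    simp only [T3, Finset.mem_filter, Finset.mem_product] at hq hq'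
    simp only [Prod.mk.injEq] at he
    obtain ⟨rfl, rfl⟩ := he
    have := hT.uniq (hT.rot hq.2.1.1) (hT.rot hq'.2.1.1)
    rw [this]
  · rintro ⟨a, b⟩ hq
    simp only [D2, Finset.mem_filter, Finset.mem_product] at hq
    obtain ⟨hab, c, hc⟩ := hq
    refine ⟨(c, a, b), ?_, rfl⟩
    simp only [T3, Finset.mem_filter, Finset.mem_product]
    exact ⟨⟨hT.mem hc.1.1, hab⟩, hc⟩

theorem col (hB : BAD_st) (hO : OBT_st) : COL_st := by
  intro X t hT hS
  obtain ⟨B1, B2, -⟩ := hB X t hT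
  replace B1 := B1 hS
  have gb : ∀ {a b c}, t a b c → ¬ good t a b c → bad t a b c :=
    fun h h' => ⟨h, fun h2 => h' ⟨h, h2⟩⟩
  have ge : ∀ a b c, good t a b c → e0 t a b := by
    intro a b c h
    refine ⟨Or.inl ⟨c, h.1⟩, ?_, ?_⟩
    · rintro ⟨c', hc⟩
      have := hT.uniq h.1 (hT.rot hc.1.1)
      subst this
      exact (badrot_Col hT hc.1).2 h.2
    · rintro ⟨c', hc⟩
      exact (B2 b a c' c hc h.1).1.2 h.2
  refine ⟨?_, ?_, ?_, ge⟩
  · intro c hc hsym
    have key : ∀ a b, lng t a b → c a b = 0 := by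
      refine up_Col X (fun a b => lng t a b → c a b = 0) ?_
      rintro a b ih ⟨c', hc'⟩
      rw [hsym a b fun h => h.2.1 ⟨c', hc'⟩]
      by_cases hd : ∃ d, t b a d
      · obtain ⟨d, hd⟩ := hd
        obtain ⟨h1, h2⟩ := B2 a b c' d hc' hd
        have hbX := hT.mem hd
        have haX := hT.mem (hT.rot hd)
        have hdX := hT.mem (hT.rot (hT.rot hd))
        rcases B1 b a d h1 with h3 | h3 | h3
        · rw [hc.1 b a d hd]
          refine ih a haX d hdX ?_ ⟨b, h3⟩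
          rw [dist_comm a b]
          exact (hO a d b h3.2).2.2.2
        · rw [hc.1 b a d hd, hc.1 a d b (hT.rot hd)]
          refine ih d hdX b hbX ?_ ⟨a, h3⟩
          rw [dist_comm a b]
          exact (hO d b a h3.2).2.2.1
        · exact absurd h3.2 (not_lt.2 h2.le)
      · exact hc.2 b a hd
    intro a b d h hg
    rcases B1 a b d (gb h hg) with h3 | h3 | h3
    · rw [hc.1 a b d h]
      exact key b d ⟨a, h3⟩
    · rw [hc.1 a b d h, hc.1 b d a (hT.rot h)]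
      exact key d a ⟨b, h3⟩
    · exact key a b ⟨d, h3⟩
  · intro hC φ hφ
    refine hC φ ?_
    have key : ∀ a b, E t a b → (φ a ↔ φ b) := by
      refine down_Col X (fun a b => E t a b → (φ a ↔ φ b)) ?_
      intro a b ih hE
      by_cases h1 : lng t a b
      · obtain ⟨c, hc⟩ := h1
        have h := hc.1.1
        have hcX := hT.mem h
        have haX := hT.mem (hT.rot h)
        have hbX := hT.mem (hT.rot (hT.rot h))
        obtain ⟨-, -, o1, o2⟩ := hO a b c hc.2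
        exact (ih c hcX a haX o2 (Or.inl ⟨b, h⟩)).symm.trans
          (ih b hbX c hcX o1 (Or.inl ⟨a, hT.rot (hT.rot h)⟩)).symm
      · by_cases h2 : lng t b a
        · obtain ⟨c, hc⟩ := h2
          have h := hc.1.1
          have hcX := hT.mem h
          have hbX := hT.mem (hT.rot h)
          have haX := hT.mem (hT.rot (hT.rot h))
          obtain ⟨-, -, o1, o2⟩ := hO b a c hc.2
          rw [dist_comm b a] at o1 o2
          exact (ih a haX c hcX o1 (Or.inl ⟨b, hT.rot (hT.rot h)⟩)).trans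
            (ih c hcX b hbX o2 (Or.inl ⟨a, h⟩))
        · exact ⟨hφ a b ⟨hE, h1, h2⟩, hφ b a ⟨hE.symm, h2, h1⟩⟩
    exact fun a b h => (key a b h).1
  · have h2 : (D2 X (E t)).card = (D2 X (e0 t)).card + (D2 X (lng t)).card +
        (D2 X fun a b => lng t b a).card := by
      unfold D2
      simp only [Finset.card_filter]
      rw [← Finset.sum_add_distrib, ← Finset.sum_add_distrib]
      refine Finset.sum_congr rfl fun q _ => ?_
      obtain ⟨a, b⟩ := q
      have i1 : lng t a b → E t a b := fun ⟨c, hc⟩ => Or.inl ⟨c, hT.rot hc.1.1⟩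
      have i2 : lng t b a → E t a b := fun ⟨c, hc⟩ => Or.inr ⟨c, hT.rot hc.1.1⟩
      have i3 : lng t a b → ¬ lng t b a := fun ⟨c, hc⟩ ⟨c', hc'⟩ =>
        absurd hc'.2 (not_lt.2 (B2 a b c c' hc (hT.rot hc'.1.1)).2.le)
      by_cases k1 : lng t a b
      · simp [e0, k1, i1 k1, i3 k1]
      · by_cases k2 : lng t b a
        · simp [e0, k1, k2, i2 k2]
        · simp [e0, k1, k2]
    have h3 : (T3 X t).card = (T3 X (good t)).card + (T3 X (ap t)).card +
        (T3 X fun a b c => ap t b c a).card + (T3 X fun a b c => ap t c a b).card := by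
      unfold T3
      simp only [Finset.card_filter]
      rw [← Finset.sum_add_distrib, ← Finset.sum_add_distrib, ← Finset.sum_add_distrib]
      refine Finset.sum_congr rfl fun q _ => ?_
      obtain ⟨a, b, c⟩ := q
      have i1 : ap t a b c → bad t a b c := fun h => h.1
      have i2 : ap t b c a → bad t a b c := fun h => badrot_Col hT (badrot_Col hT h.1)
      have i3 : ap t c a b → bad t a b c := fun h => badrot_Col hT h.1
      have i4 : bad t a b c → ¬ good t a b c := fun h h' => h.2 h'.2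
      have j1 : ap t a b c → ¬ ap t b c a := fun h h' =>
        absurd h'.2 (not_lt.2 (hO b c a h.2).1.le)
      have j2 : ap t a b c → ¬ ap t c a b := fun h h' =>
        absurd h'.2 (not_lt.2 (hO b c a h.2).2.1.le)
      have j3 : ap t b c a → ¬ ap t c a b := fun h h' =>
        absurd h'.2 (not_lt.2 (hO c a b h.2).1.le)
      by_cases k1 : ap t a b c
      · simp [k1, j1 k1, j2 k1, i4 (i1 k1), (i1 k1).1]
      · by_cases k2 : ap t b c a
        · simp [k1, k2, j3 k2, i4 (i2 k2), (i2 k2).1]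
        · by_cases k3 : ap t c a b
          · simp [k1, k2, k3, i4 (i3 k3), (i3 k3).1]
          · have k4 : t a b c ↔ good t a b c := by
              refine ⟨fun h => ?_, fun h => h.1⟩
              by_contra hg
              rcases B1 a b c (gb h hg) with h3 | h3 | h3
              exacts [k1 h3, k2 h3, k3 h3]
            simp [k1, k2, k3, k4]
    have h4 := swap_Col X (lng t)
    have h5 := rot_Col X (ap t)
    have h6 := rot_Col X (fun a b c => ap t b c a)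
    have h7 := lngcard_Col hT
    unfold chi6
    omega

end MP7b

end
end

section

/-! Generic heights and generic directions. -/

open scoped Classical
open MeasureTheory Metric Real

noncomputable section
namespace MP7b

theorem dense_Gen {ι Y : Type*} [TopologicalSpace Y] (s : Finset ι) (U : ι → Set Y)
    (ho : ∀ i, IsOpen (U i)) (hd : ∀ i, Dense (U i)) : Dense (⋂ i ∈ s, U i) := by
  induction s using Finset.induction_on with
  | empty => simp
  | insert a s _ ih =>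
    rw [Finset.set_biInter_insert]
    exact (hd a).inter_of_isOpen_left ih (ho a)

theorem cont_Gen (a b c d : ℂ) : Continuous fun h : ℂ → ℝ => Qh h a b c d := by
  unfold Qh
  fun_prop

theorem open_Gen {Y : Type*} [TopologicalSpace Y] (p : Prop) {U : Set Y} (h : IsOpen U) :
    IsOpen {y | p → y ∈ U} := by
  by_cases e : p <;> simp [e, h]

theorem line_Gen {a b c d : ℂ} (h0 : D a b c ≠ 0) (ha : d ≠ a) (hb : d ≠ b) (hc : d ≠ c) :
    Dense {h : ℂ → ℝ | Qh h a b c d ≠ 0} := fun h => by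
  by_cases e : Qh h a b c d = 0
  · have t : Filter.Tendsto (fun s : ℝ => h + s • (Pi.single d 1 : ℂ → ℝ)) (nhdsWithin 0 {0}ᶜ)
        (nhds h) := by
      have c : Continuous fun s : ℝ => h + s • (Pi.single d 1 : ℂ → ℝ) := by fun_prop
      simpa using (c.tendsto 0).mono_left (nhdsWithin_le_nhds (s := {0}ᶜ))
    refine mem_closure_of_tendsto t (eventually_nhdsWithin_of_forall fun s hs => ?_)
    have q : Qh (h + s • (Pi.single d 1 : ℂ → ℝ)) a b c d = Qh h a b c d + s * D a b c := by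
      simp only [Qh, Pi.add_apply, Pi.smul_apply, Pi.single_eq_same, Pi.single_eq_of_ne ha.symm,
        Pi.single_eq_of_ne hb.symm, Pi.single_eq_of_ne hc.symm, smul_eq_mul]
      ring
    show Qh _ a b c d ≠ 0
    rw [q, e, zero_add]
    exact mul_ne_zero hs h0
  · exact subset_closure e

theorem gen : GEN_st := by
  intro X
  have hd := dense_Gen (X ×ˢ X ×ˢ X ×ˢ X) (fun q => {h : ℂ → ℝ |
      (D q.1 q.2.1 q.2.2.1 ≠ 0 ∧ q.2.2.2 ≠ q.1 ∧ q.2.2.2 ≠ q.2.1 ∧ q.2.2.2 ≠ q.2.2.1) →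
        h ∈ {h : ℂ → ℝ | Qh h q.1 q.2.1 q.2.2.1 q.2.2.2 ≠ 0}})
    (fun q => open_Gen _ (isOpen_ne_fun (cont_Gen _ _ _ _) continuous_const)) fun q => by
      by_cases e : D q.1 q.2.1 q.2.2.1 ≠ 0 ∧ q.2.2.2 ≠ q.1 ∧ q.2.2.2 ≠ q.2.1 ∧ q.2.2.2 ≠ q.2.2.1
      · exact (line_Gen e.1 e.2.1 e.2.2.1 e.2.2.2).mono fun h hh _ => hh
      · exact dense_univ.mono fun h _ e' => absurd e' e
  have ho : IsOpen ((⋂ q ∈ X ×ˢ X ×ˢ X ×ˢ X, {h : ℂ → ℝ |
      Qh (fun x => Complex.normSq x) q.1 q.2.1 q.2.2.1 q.2.2.2 < 0 →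
        h ∈ {h : ℂ → ℝ | Qh h q.1 q.2.1 q.2.2.1 q.2.2.2 < 0}}) ∩
      ⋂ x ∈ X, {h : ℂ → ℝ | |h x - Complex.normSq x| < 1}) :=
    (isOpen_biInter_finset fun q _ =>
      open_Gen _ (isOpen_lt (cont_Gen _ _ _ _) continuous_const)).inter
      (isOpen_biInter_finset fun x _ => isOpen_lt (by fun_prop) continuous_const)
  obtain ⟨h, h1, h2, h3⟩ := hd.exists_mem_open ho ⟨fun x => Complex.normSq x,
    Set.mem_iInter₂.2 fun _ _ e => e, Set.mem_iInter₂.2 fun x _ => by simp⟩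
  have m : ∀ a ∈ X, ∀ b ∈ X, ∀ c ∈ X, ∀ d ∈ X, (a, b, c, d) ∈ X ×ˢ X ×ˢ X ×ˢ X :=
    fun a ha b hb c hc d hd => by simp [ha, hb, hc, hd]
  exact ⟨h, fun a ha b hb c hc d hd e0 e1 e2 e3 =>
    Set.mem_iInter₂.1 h1 _ (m a ha b hb c hc d hd) ⟨e0, e1, e2, e3⟩,
    fun a ha b hb c hc d hd => Set.mem_iInter₂.1 h2 _ (m a ha b hb c hc d hd),
    fun x hx => Set.mem_iInter₂.1 h3 x hx⟩

theorem eps : EPS_st := by
  intro X
  obtain ⟨ε, hε⟩ := Infinite.exists_notMem_finset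
    ((X ×ˢ X).image fun q => (q.2.re - q.1.re) / (q.1.im - q.2.im))
  refine ⟨ε, fun a ha b hb h => ?_⟩
  by_cases e : a.im = b.im
  · exact Complex.ext (by rw [e] at h; linarith) e
  · refine absurd (Finset.mem_image.2 ⟨(a, b), Finset.mem_product.2 ⟨ha, hb⟩, ?_⟩) hε
    rw [div_eq_iff (sub_ne_zero.2 e)]
    linarith

end MP7b

end
end

section

/-! A closed lattice walk with total turning six is an equiangular hexagon. -/

open scoped Classical
open MeasureTheory Metric Real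

noncomputable section
namespace MP7b

theorem per_L6 {W : Finset ℂ} {F : ℂ → ℂ} (hF : ∀ w ∈ W, F w ∈ W) (hi : Set.InjOn F W) {w : ℂ}
    (hw : w ∈ W) : 0 < Function.minimalPeriod F w := by
  have hm : Set.MapsTo F (W : Set ℂ) W := fun x hx => hF x hx
  obtain ⟨n, hn, h⟩ := (hm.restrict_inj.2 hi).mem_periodicPts ⟨w, hw⟩
  refine Function.minimalPeriod_pos_of_mem_periodicPts ⟨n, hn, ?_⟩
  have := hm.coe_iterate_restrict ⟨w, hw⟩ n
  rw [h.eq] at this
  exact this.symm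

theorem mem_L6 {W : Finset ℂ} {F : ℂ → ℂ} (hF : ∀ w ∈ W, F w ∈ W) {w : ℂ} (hw : w ∈ W) (k : ℕ) :
    F^[k] w ∈ W := by
  induction k with
  | zero => exact hw
  | succ k ih => rw [Function.iterate_succ_apply']; exact hF _ ih

theorem rot_L6 (i : ZMod 6) : e1 (i + 1) = -e2 i ∧ e2 (i + 1) = e1 i + e2 i ∧
    e1 i ^ 2 + e1 i * e2 i + e2 i ^ 2 = 1 := by
  revert i
  decide +kernel

theorem seg_L6 (u v : ℕ → ℚ) (x y : ℚ) (b m : ℕ)
    (h : ∀ k, b ≤ k → k < b + m → u (k + 1) = u k + x ∧ v (k + 1) = v k + y) :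
    u (b + m) = u b + m * x ∧ v (b + m) = v b + m * y ∧
      ∑ k ∈ Finset.range (b + m), (u k * v (k + 1) - v k * u (k + 1)) =
        ∑ k ∈ Finset.range b, (u k * v (k + 1) - v k * u (k + 1)) + m * (u b * y - v b * x) := by
  induction m with
  | zero => simp
  | succ m ih =>
    obtain ⟨h1, h2, h3⟩ := ih fun k hk hk' => h k hk (by omega)
    obtain ⟨h4, h5⟩ := h (b + m) (by omega) (by omega)
    rw [← add_assoc, Finset.sum_range_succ, h3, h4, h5, h1, h2]
    push_cast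
    exact ⟨by ring, by ring, by ring⟩

theorem alg_L6 (x y : ℚ) (hn : x ^ 2 + x * y + y ^ 2 = 1) (a U V S : ℕ → ℚ) (X Y : ℕ → ℚ)
    (h0 : X 0 = x ∧ Y 0 = y) (hr : ∀ j, X (j + 1) = -Y j ∧ Y (j + 1) = X j + Y j)
    (h : ∀ j < 6, U (j + 1) = U j + a j * X j ∧ V (j + 1) = V j + a j * Y j ∧
      S (j + 1) = S j + a j * (U j * Y j - V j * X j))
    (hU : U 6 = U 0) (hV : V 6 = V 0) (hS : S 0 = 0) :
    a 0 + a 5 = a 2 + a 3 ∧ a 1 + a 2 = a 4 + a 5 ∧
      S 6 = 2 * (a 0 + a 5) * (a 1 + a 2) - a 5 ^ 2 - a 2 ^ 2 := by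
  obtain ⟨x0, y0⟩ := h0
  obtain ⟨x1, y1⟩ := hr 0
  obtain ⟨x2, y2⟩ := hr 1
  obtain ⟨x3, y3⟩ := hr 2
  obtain ⟨x4, y4⟩ := hr 3
  obtain ⟨x5, y5⟩ := hr 4
  obtain ⟨u1, v1, s1⟩ := h 0 (by norm_num)
  obtain ⟨u2, v2, s2⟩ := h 1 (by norm_num)
  obtain ⟨u3, v3, s3⟩ := h 2 (by norm_num)
  obtain ⟨u4, v4, s4⟩ := h 3 (by norm_num)
  obtain ⟨u5, v5, s5⟩ := h 4 (by norm_num)
  obtain ⟨u6, v6, s6⟩ := h 5 (by norm_num)
  simp only [Nat.reduceAdd] at x1 y1 x2 y2 x3 y3 x4 y4 x5 y5 u1 v1 s1 u2 v2 s2 u3 v3 s3 u4 v4 s4 u5 v5 s5 u6 v6 s6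
  rw [s5, u5, v5, s4, u4, v4, s3, u3, v3, s2, u2, v2, s1, u1, v1, hS] at s6
  rw [hU, u5, u4, u3, u2, u1] at u6
  rw [hV, v5, v4, v3, v2, v1] at v6
  rw [x5, y5, x4, y4, x3, y3, x2, y2, x1, y1, x0, y0] at s6
  rw [x5, y4, x4, y3, x3, y2, x2, y1, x1, x0, y0] at u6
  rw [y5, y4, x4, y3, x3, y2, x2, y1, x1, x0, y0] at v6
  have p : a 3 = a 0 + a 5 - a 2 := by
    linear_combination (x + y) * u6 + y * v6 + (a 0 + a 5 - a 2 - a 3) * hn
  have q : a 4 = a 1 + a 2 - a 5 := by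
    linear_combination (-y) * u6 + x * v6 + (a 1 + a 2 - a 5 - a 4) * hn
  refine ⟨by linarith, by linarith, ?_⟩
  rw [p, q] at s6
  linear_combination s6 + (2 * (a 0 + a 5) * (a 1 + a 2) - a 5 ^ 2 - a 2 ^ 2) * hn

theorem l6 : L6_st := by
  intro W F G τ y1 y2 hF hi hs h6
  obtain ⟨w0, hw0, ht0⟩ := Finset.exists_ne_zero_of_sum_ne_zero (by omega : ∑ w ∈ W, τ w ≠ 0)
  have hN := per_L6 hF hi hw0
  have hinj : Set.InjOn (fun k => F^[k] w0) (Finset.range (Function.minimalPeriod F w0)) := by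
    rw [Finset.coe_range]
    exact Function.iterate_injOn_Iio_minimalPeriod
  have hmod : ∀ k, F^[k % Function.minimalPeriod F w0] w0 = F^[k] w0 := fun k =>
    Function.iterate_mod_minimalPeriod_eq
  have hpN : F^[Function.minimalPeriod F w0] w0 = w0 := Function.iterate_minimalPeriod
  generalize Function.minimalPeriod F w0 = N at hN hinj hmod hpN
  obtain ⟨p, hp⟩ : ∃ p : ℕ → ℂ, p = fun k => F^[k] w0 := ⟨_, rfl⟩
  rw [← hp] at hinj
  have pW : ∀ k, p k ∈ W := fun k => hp ▸ mem_L6 hF hw0 k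
  have pS : ∀ k, p (k + 1) = F (p k) := fun k => hp ▸ Function.iterate_succ_apply' F k w0
  have p0 : p 0 = w0 := hp ▸ rfl
  have pN : p N = p 0 := hp ▸ hpN
  obtain ⟨c, hc⟩ : ∃ c : ℕ → ℕ, ∀ k, c k = ∑ i ∈ Finset.range k, τ (p (i + 1)) := ⟨_, fun _ => rfl⟩
  have cS : ∀ k, c (k + 1) = c k + τ (p (k + 1)) := fun k => by
    rw [hc, hc, Finset.sum_range_succ]
  have cM : Monotone c := monotone_nat_of_le_succ fun k => by rw [cS]; omega
  have cG : ∀ k, G (p k) = G w0 + (c k : ZMod 6) := fun k => by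
    induction k with
    | zero => simp [hc, p0]
    | succ k ih => rw [cS, pS, (hs _ (pW k)).2.2, ih]; push_cast; ring
  have hO : (Finset.range N).image p ⊆ W := fun w hw => by
    obtain ⟨k, -, rfl⟩ := Finset.mem_image.1 hw
    exact pW k
  have cN : c N = ∑ w ∈ (Finset.range N).image p, τ w := by
    have h1 := Finset.sum_range_succ (fun i => τ (p i)) N
    rw [Finset.sum_range_succ', pN] at h1
    rw [Finset.sum_image hinj, hc]
    omega
  have hsd := Finset.sum_sdiff (f := τ) hO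
  obtain ⟨M, rfl⟩ : ∃ M, N = M + 1 := ⟨N - 1, by omega⟩
  have cM1 := cS M
  rw [pN, p0] at cM1
  have c6 : c (M + 1) = 6 := by
    have h1 := cG (M + 1)
    rw [pN, p0, left_eq_add, ZMod.natCast_eq_zero_iff] at h1
    omega
  have hW : (Finset.range (M + 1)).image p = W := by
    refine hO.antisymm fun w hw => by_contra fun hn => ?_
    have hN' := per_L6 hF hi hw
    have hw' : F^[Function.minimalPeriod F w] w = w := Function.iterate_minimalPeriod
    have hz : ∀ k, τ (F^[k] w) = 0 := fun k => by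
      refine Finset.sum_eq_zero_iff.1 (by omega : ∑ x ∈ W \ (Finset.range (M + 1)).image p, τ x = 0)
        _ (Finset.mem_sdiff.2 ⟨mem_L6 hF hw k, fun h => hn ?_⟩)
      obtain ⟨i, -, hi'⟩ := Finset.mem_image.1 h
      have h1 : F^[Function.minimalPeriod F w * k] w = w :=
        (Function.isPeriodicPt_minimalPeriod F w).mul_const k
      have h2 : Function.minimalPeriod F w * k = (Function.minimalPeriod F w * k - k) + k :=
        (Nat.sub_add_cancel (Nat.le_mul_of_pos_left k hN')).symm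
      rw [h2, Function.iterate_add_apply, ← hi', hp, ← Function.iterate_add_apply, ← hmod] at h1
      exact Finset.mem_image.2 ⟨_, Finset.mem_range.2 (Nat.mod_lt _ hN), (congrFun hp _).trans h1⟩
    have hG : ∀ k, G (F^[k] w) = G w := fun k => by
      induction k with
      | zero => rfl
      | succ k ih =>
        have h1 := hz (k + 1)
        rw [Function.iterate_succ_apply'] at h1 ⊢
        rw [(hs _ (mem_L6 hF hw k)).2.2, h1, ih]
        simp
    obtain ⟨h1, h2, -⟩ := seg_L6 (fun k => y1 (F^[k] w)) (fun k => y2 (F^[k] w)) (e1 (G w))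
      (e2 (G w)) 0 (Function.minimalPeriod F w) fun k _ _ => by
        simp only [Function.iterate_succ_apply']
        rw [(hs _ (mem_L6 hF hw k)).1, (hs _ (mem_L6 hF hw k)).2.1, hG]
        exact ⟨rfl, rfl⟩
    simp only [zero_add, hw', Function.iterate_zero, id, left_eq_add, mul_eq_zero,
      Nat.cast_eq_zero, hN'.ne', false_or] at h1 h2
    have h3 := (rot_L6 (G w)).2.2
    rw [h1, h2] at h3
    norm_num at h3
  obtain ⟨b, hb⟩ : ∃ b : ℕ → ℕ, ∀ j, b j = sInf {k | j ≤ c k} := ⟨_, fun _ => rfl⟩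
  have b1 : ∀ j ≤ 6, j ≤ c (b j) := fun j hj => by
    rw [hb]
    exact Nat.sInf_mem (s := {k | j ≤ c k}) ⟨M + 1, hj.trans c6.ge⟩
  have b2 : ∀ j k, k < b j → c k < j := fun j k hk => by
    rw [hb] at hk
    exact not_le.1 (Nat.notMem_of_lt_sInf (s := {k | j ≤ c k}) hk)
  have b3 : ∀ j < 6, b j ≤ b (j + 1) := fun j hj => by
    by_contra h
    have := b2 j _ (not_le.1 h)
    have := b1 (j + 1) hj
    omega
  have b0 : b 0 = 0 := by
    by_contra h
    have := b2 0 0 (by omega)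
    omega
  have b6 : b 6 = M + 1 := by
    have h1 := b1 6 le_rfl
    have h2 := b2 6 (M + 1)
    have h3 := @cM (b 6) M
    omega
  have key : ∀ j < 6, _ := fun j hj =>
    seg_L6 (fun k => y1 (p k)) (fun k => y2 (p k)) (e1 (G w0 + (j : ZMod 6)))
      (e2 (G w0 + (j : ZMod 6))) (b j) (b (j + 1) - b j) fun k h1 h2 => by
        have h3 := b3 j hj
        have h4 := b2 (j + 1) k (by omega)
        have h5 := (b1 j hj.le).trans (cM h1)
        have h7 : c k = j := by omega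
        simp only [pS]
        rw [(hs _ (pW k)).1, (hs _ (pW k)).2.1, cG, h7]
        exact ⟨rfl, rfl⟩
  have key2 : ∀ j < 6, y1 (p (b (j + 1))) = y1 (p (b j)) +
      ((b (j + 1) - b j : ℕ) : ℚ) * e1 (G w0 + (j : ZMod 6)) ∧ y2 (p (b (j + 1))) = y2 (p (b j)) +
      ((b (j + 1) - b j : ℕ) : ℚ) * e2 (G w0 + (j : ZMod 6)) ∧
      ∑ k ∈ Finset.range (b (j + 1)), (y1 (p k) * y2 (p (k + 1)) - y2 (p k) * y1 (p (k + 1))) =
        ∑ k ∈ Finset.range (b j), (y1 (p k) * y2 (p (k + 1)) - y2 (p k) * y1 (p (k + 1))) +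
        ((b (j + 1) - b j : ℕ) : ℚ) * (y1 (p (b j)) * e2 (G w0 + (j : ZMod 6)) -
          y2 (p (b j)) * e1 (G w0 + (j : ZMod 6))) := fun j hj => by
    have h1 := key j hj
    rw [Nat.add_sub_cancel' (b3 j hj)] at h1
    exact h1
  obtain ⟨r1, r2, r3⟩ := alg_L6 (e1 (G w0)) (e2 (G w0)) (rot_L6 _).2.2
    (fun j => ((b (j + 1) - b j : ℕ) : ℚ)) (fun j => y1 (p (b j))) (fun j => y2 (p (b j)))
    (fun j => ∑ k ∈ Finset.range (b j), (y1 (p k) * y2 (p (k + 1)) - y2 (p k) * y1 (p (k + 1))))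
    (fun j => e1 (G w0 + (j : ZMod 6))) (fun j => e2 (G w0 + (j : ZMod 6))) (by simp)
    (fun j => by
      rw [Nat.cast_succ, ← add_assoc]
      exact ⟨(rot_L6 _).1, (rot_L6 _).2.1⟩)
    key2 (by simp only [b6, b0, pN]) (by simp only [b6, b0, pN]) (by simp [b0])
  refine ⟨fun j => b (j + 1) - b j, G w0, fun j => p (b j), by exact_mod_cast r1,
    by exact_mod_cast r2, ?_, ?_, fun j => pW _,
    fun j hj => ⟨(key2 j (by omega)).1, (key2 j (by omega)).2.1⟩⟩
  · rw [← hW, Finset.card_image_of_injOn hinj, Finset.card_range]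
    have := b3 0 (by norm_num)
    have := b3 1 (by norm_num)
    have := b3 2 (by norm_num)
    have := b3 3 (by norm_num)
    have := b3 4 (by norm_num)
    have := b3 5 (by norm_num)
    simp only [Nat.reduceAdd] at *
    omega
  · rw [← r3, ← hW, Finset.sum_image hinj]
    simp only [b6, pS]

end MP7b

end
end

section

/-! Lower links. -/

open scoped Classical
open MeasureTheory Metric Real

noncomputable section
namespace MP7b

theorem left_Ll {X : Finset ℂ} {t : ℂ → ℂ → ℂ → Prop} (hT : Tri X t) {v a x : ℂ} (h : E t v a)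
    (hx : x ∈ X) (p : 0 < D v a x) : ∃ b, t v a b :=
  h.elim id fun ⟨_, h⟩ => hT.nbr h hx (by unfold D at p ⊢; linarith)

theorem right_Ll {X : Finset ℂ} {t : ℂ → ℂ → ℂ → Prop} (hT : Tri X t) {v a x : ℂ} (h : E t v a)
    (hx : x ∈ X) (p : D v a x < 0) : ∃ b, t a v b :=
  h.elim (fun ⟨_, h⟩ => hT.nbr h hx p) id

theorem mem_Ll {X : Finset ℂ} {t : ℂ → ℂ → ℂ → Prop} (hT : Tri X t) {v a : ℂ} (h : E t v a) :
    a ∈ X ∧ a ≠ v := by
  rcases h with ⟨c, h⟩ | ⟨c, h⟩
  · exact ⟨hT.mem (hT.rot h), fun e => by simpa [e, D] using hT.pos h⟩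
  · exact ⟨hT.mem h, fun e => by simpa [e, D] using hT.pos h⟩

theorem id_Ll (ε : ℝ) (v a c x : ℂ) : (x.re + ε * x.im - (v.re + ε * v.im)) * D v a c =
    (a.re + ε * a.im - (v.re + ε * v.im)) * -D v c x +
      (c.re + ε * c.im - (v.re + ε * v.im)) * D v a x := by
  unfold D
  ring

theorem ll : LL_st := by
  intro X t hT ε inj v hv
  refine ⟨fun ⟨x, hx, lt⟩ => ?_, fun a a' h h' l l' p => ?_⟩
  · by_contra n
    have pos : ∀ a, E t v a → 0 < a.re + ε * a.im - (v.re + ε * v.im) := fun a h =>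
      sub_pos.2 ((not_lt.1 fun k => n ⟨a, h, k⟩).lt_of_ne fun e =>
        (mem_Ll hT h).2 (inj a (mem_Ll hT h).1 v hv e.symm))
    obtain ⟨s, hs⟩ : ∃ s : ℂ → ℝ, s = fun a => (a.im - v.im) /
      (a.re + ε * a.im - (v.re + ε * v.im)) := ⟨_, rfl⟩
    have sl : ∀ a b, E t v a → E t v b → (0 < D v a b ↔ s a < s b) := fun a b h h' => by
      rw [hs, div_lt_div_iff₀ (pos a h) (pos b h'), D]
      constructor <;> intro _ <;> linarith
    have e2 : ∀ {a b}, t v a b → E t v b := fun h => .inr ⟨_, hT.rot (hT.rot h)⟩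
    have mm : ∀ {a}, E t v a → a ∈ X.filter (E t v) := fun h =>
      Finset.mem_filter.2 ⟨(mem_Ll hT h).1, h⟩
    obtain ⟨a, b, h⟩ := hT.cover hv
    have ea : E t v a := .inl ⟨b, h⟩
    obtain ⟨a2, m2, h2⟩ := (X.filter (E t v)).exists_max_image s ⟨a, mm ea⟩
    obtain ⟨a1, m1, h1⟩ := (X.filter (E t v)).exists_min_image s ⟨a, mm ea⟩
    replace m1 := (Finset.mem_filter.1 m1).2
    replace m2 := (Finset.mem_filter.1 m2).2
    have k2 : D v a2 x ≤ 0 := not_lt.1 fun p => by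
      obtain ⟨c, hc⟩ := left_Ll hT m2 hx p
      exact (h2 c (mm (e2 hc))).not_gt ((sl _ _ m2 (e2 hc)).1 (hT.pos hc))
    have k1 : 0 ≤ D v a1 x := not_lt.1 fun p => by
      obtain ⟨c, hc⟩ := right_Ll hT m1 hx p
      have ec : E t v c := .inl ⟨_, hT.rot hc⟩
      exact (h1 c (mm ec)).not_gt ((sl _ _ ec m1).1 (hT.pos (hT.rot hc)))
    have k : 0 < D v a1 a2 := (sl _ _ m1 m2).2 ((h1 a (mm ea)).trans_lt
      (((sl _ _ ea (e2 h)).1 (hT.pos h)).trans_le (h2 b (mm (e2 h)))))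
    linarith [id_Ll ε v a1 a2 x, mul_neg_of_neg_of_pos (sub_neg.2 lt) k,
      mul_nonneg (pos _ m1).le (neg_nonneg.2 k2), mul_nonneg (pos _ m2).le k1]
  · obtain ⟨b, hb⟩ := left_Ll hT h (mem_Ll hT h').1 p
    have k : D v a' b ≤ 0 := not_lt.1 fun q => h'.elim
      (fun ⟨_, e⟩ => hT.nocross hb (.inl e) p q) fun ⟨_, e⟩ => hT.nocross hb (.inr (hT.rot e)) p q
    refine ⟨b, hb, sub_neg.1 (neg_of_mul_neg_left ?_ p.le), k⟩
    linarith [id_Ll ε v a a' b, mul_neg_of_neg_of_pos (sub_neg.2 l') (hT.pos hb),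
      mul_nonpos_of_nonpos_of_nonneg (sub_neg.2 l).le (neg_nonneg.2 k)]

end MP7b

end
end

section

/-! Descent from rational to integral representations. -/

open scoped Classical
open MeasureTheory Metric Real

noncomputable section
namespace MP7b

theorem round_Nt2 (v U : ℤ) (hU : 0 < U) : ∃ w : ℤ, -U < 2 * (v - U * w) ∧ 2 * (v - U * w) ≤ U := by
  have h1 := Int.emod_nonneg v hU.ne'
  have h2 := Int.emod_lt_of_pos v hU
  have h3 := Int.emod_add_mul_ediv v U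
  rcases le_or_gt (2 * (v % U)) U with h | h
  · exact ⟨v / U, by linarith, by linarith⟩
  · exact ⟨v / U + 1, by linarith, by linarith⟩

theorem desc_Nt2 (N : ℤ) (n : ℕ) : ∀ U a b c : ℤ, 0 < U → U ≤ n →
    a ^ 2 + a * b + b ^ 2 + c ^ 2 = N * U ^ 2 → ∃ a b c : ℤ, a ^ 2 + a * b + b ^ 2 + c ^ 2 = N := by
  induction n with
  | zero => intro U a b c h1 h2; omega
  | succ n ih =>
    intro U a b c h1 h2 h
    obtain ⟨x, x1, x2⟩ := round_Nt2 a U h1
    obtain ⟨y', y1, y2⟩ := round_Nt2 (-b) U h1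
    obtain ⟨z, z1, z2⟩ := round_Nt2 c U h1
    obtain ⟨y, rfl⟩ : ∃ y, y' = -y := ⟨-y', by ring⟩
    obtain ⟨F, hF⟩ : ∃ F, F = x ^ 2 + x * y + y ^ 2 + z ^ 2 := ⟨_, rfl⟩
    obtain ⟨B, hB⟩ : ∃ B, B = 2 * a * x + a * y + b * x + 2 * b * y + 2 * c * z := ⟨_, rfl⟩
    obtain ⟨V, hV⟩ : ∃ V, V = N * U - B + U * F := ⟨_, rfl⟩
    obtain ⟨r, hr⟩ : ∃ r, r = a - U * x := ⟨_, rfl⟩
    obtain ⟨s, hs⟩ : ∃ s, s = b - U * y := ⟨_, rfl⟩
    obtain ⟨t, ht⟩ : ∃ t, t = c - U * z := ⟨_, rfl⟩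
    have e : r ^ 2 + r * s + s ^ 2 + t ^ 2 = U * V := by
      rw [hr, hs, ht, hV, hB, hF]; linear_combination h
    have r1 : 0 < U + 2 * r := by linarith
    have r2 : 0 ≤ U - 2 * r := by linarith
    have s1 : 0 < U - 2 * s := by linarith
    have s2 : 0 ≤ U + 2 * s := by linarith
    have t1 : 0 < U + 2 * t := by linarith
    have t2 : 0 ≤ U - 2 * t := by linarith
    have lt : U * V < U * U := by
      linarith [mul_nonneg r1.le r2, mul_nonneg s1.le s2, mul_nonneg t1.le t2, mul_pos r1 s1,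
        mul_nonneg r2 s2]
    have q1 := sq_nonneg (2 * r + s)
    have q2 := sq_nonneg s
    have q3 := sq_nonneg t
    have V0 : 0 ≤ V := nonneg_of_mul_nonneg_right (by linarith) h1
    rcases V0.eq_or_lt with h0 | h0
    · rw [← h0, mul_zero] at e
      have s0 : s = 0 := pow_eq_zero_iff two_ne_zero |>.1 (by linarith)
      have t0 : t = 0 := pow_eq_zero_iff two_ne_zero |>.1 (by linarith)
      have r0 : 2 * r + s = 0 := pow_eq_zero_iff two_ne_zero |>.1 (by linarith)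
      refine ⟨x, y, z, mul_right_cancel₀ (pow_pos h1 2).ne' ?_⟩
      rw [← h, show a = U * x by linarith, show b = U * y by linarith, show c = U * z by linarith]
      ring
    · have := lt_of_mul_lt_mul_left lt h1.le
      refine ih V ((F - N) * a + (2 * N * U - B) * x) ((F - N) * b + (2 * N * U - B) * y)
        ((F - N) * c + (2 * N * U - B) * z) h0 (by push_cast at h2; linarith) ?_
      rw [hV]
      linear_combination (F - N) ^ 2 * h - (F - N) * (2 * N * U - B) * hB - (2 * N * U - B) ^ 2 * hF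

theorem form_Nt2 (a b : ℤ) : ∃ X Y : ℤ, a ^ 2 + a * b + b ^ 2 = X ^ 2 + 3 * Y ^ 2 := by
  rcases Int.even_or_odd' a with ⟨k, rfl | rfl⟩
  · exact ⟨b + k, k, by ring⟩
  · rcases Int.even_or_odd' b with ⟨l, rfl | rfl⟩
    · exact ⟨2 * k + 1 + l, l, by ring⟩
    · exact ⟨k - l, k + l + 1, by ring⟩

theorem three_Nt2 (X c K : ℤ) (h : X ^ 2 + c ^ 2 = 3 * K) : 3 ∣ X ∧ 3 ∣ c := by
  obtain ⟨s, hs⟩ : ∃ s, X = 3 * s ∨ X = 3 * s + 1 ∨ X = 3 * s + 2 := ⟨X / 3, by omega⟩
  obtain ⟨t, ht⟩ : ∃ t, c = 3 * t ∨ c = 3 * t + 1 ∨ c = 3 * t + 2 := ⟨c / 3, by omega⟩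
  rcases hs with rfl | rfl | rfl <;> rcases ht with rfl | rfl | rfl <;> ring_nf at h <;> omega

theorem nt2 : NT2_st := by
  intro M x y z u hu h
  obtain ⟨a, b, c, e⟩ := desc_Nt2 (3 * M) u.natAbs |u| (3 * y - x) (2 * x) (3 * z) (abs_pos.2 hu)
    (by rw [Int.natCast_natAbs]) (by rw [sq_abs]; linear_combination 3 * h)
  obtain ⟨X, Y, e2⟩ := form_Nt2 a b
  obtain ⟨⟨s, rfl⟩, ⟨t, rfl⟩⟩ := three_Nt2 X c (M - Y ^ 2) (by linear_combination e - e2)
  exact ⟨Y, s, t, by linarith⟩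

end MP7b

end
end

section

/-! Area of an open triangle. -/

open scoped Classical
open MeasureTheory Metric Real

noncomputable section
namespace MP7b

/-- the linear part of the affine chart of a triangle -/
def lin_Otv (u v : ℂ) : ℂ →ₗ[ℝ] ℂ := Complex.reLm.smulRight u + Complex.imLm.smulRight v

lemma lin_apply_Otv (u v z : ℂ) : lin_Otv u v z = z.re • u + z.im • v := rfl

lemma det_Otv (u v : ℂ) : LinearMap.det (lin_Otv u v) = u.re * v.im - u.im * v.re := by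
  rw [← LinearMap.det_toMatrix Complex.basisOneI, Matrix.det_fin_two]
  simp [LinearMap.toMatrix_apply, lin_apply_Otv]
  ring

lemma std_Otv : volume {z : ℂ | 0 < z.im ∧ 0 < 1 - z.re - z.im ∧ 0 < z.re}
    = ENNReal.ofReal (1 / 2) := by
  have h1 : {z : ℂ | 0 < z.im ∧ 0 < 1 - z.re - z.im ∧ 0 < z.re} = Complex.measurableEquivRealProd ⁻¹'
      regionBetween (fun _ : ℝ => (0 : ℝ)) (fun x => 1 - x) (Set.Ioc 0 1) := by
    ext z
    simp only [regionBetween, Set.mem_preimage, Set.mem_setOf_eq, Set.mem_Ioc, Set.mem_Ioo,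
      Complex.measurableEquivRealProd_apply]
    constructor
    · rintro ⟨h1, h2, h3⟩
      exact ⟨⟨h3, by linarith⟩, h1, by linarith⟩
    · rintro ⟨⟨h1, _⟩, h3, h4⟩
      exact ⟨h3, by linarith, h1⟩
  rw [h1, Complex.volume_preserving_equiv_real_prod.measure_preimage_equiv, Measure.volume_eq_prod,
    volume_regionBetween_eq_integral]
  · rw [← intervalIntegral.integral_of_le zero_le_one]
    congr 1
    simp only [Pi.sub_apply, sub_zero]
    rw [intervalIntegral.integral_sub (by simp) (by simp)]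
    simp
    norm_num
  · exact integrableOn_const (by simp)
  · exact (Continuous.integrableOn_Icc (by fun_prop)).mono_set Set.Ioc_subset_Icc_self
  · exact measurableSet_Ioc
  · intro x hx
    linarith [hx.2]

theorem otv : OTV_st := by
  intro a b c hD
  have hdet : LinearMap.det (lin_Otv (b - a) (c - a)) = D a b c := by
    rw [det_Otv]; simp [D]
  have h1 : lin_Otv (b - a) (c - a) ⁻¹' ((fun w => a + w) ⁻¹' otri a b c)
      = {z : ℂ | 0 < z.im ∧ 0 < 1 - z.re - z.im ∧ 0 < z.re} := by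
    ext z
    have e1 : D a b (a + lin_Otv (b - a) (c - a) z) = z.im * D a b c := by
      simp [D, lin_apply_Otv]; ring
    have e2 : D b c (a + lin_Otv (b - a) (c - a) z) = (1 - z.re - z.im) * D a b c := by
      simp [D, lin_apply_Otv]; ring
    have e3 : D c a (a + lin_Otv (b - a) (c - a) z) = z.re * D a b c := by
      simp [D, lin_apply_Otv]; ring
    simp only [otri, Set.mem_preimage, Set.mem_setOf_eq, e1, e2, e3, mul_pos_iff_of_pos_right hD]
  have h2 := Measure.addHaar_preimage_linearMap (volume : Measure ℂ)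
    (f := lin_Otv (b - a) (c - a)) (by rw [hdet]; exact hD.ne') ((fun w => a + w) ⁻¹' otri a b c)
  rw [h1, std_Otv, hdet, measure_preimage_add, abs_of_pos (inv_pos.2 hD)] at h2
  have h3 : ENNReal.ofReal (D a b c) * ENNReal.ofReal (D a b c)⁻¹ = 1 := by
    rw [← ENNReal.ofReal_mul hD.le, mul_inv_cancel₀ hD.ne', ENNReal.ofReal_one]
  calc volume (otri a b c)
      = ENNReal.ofReal (D a b c) * (ENNReal.ofReal (D a b c)⁻¹ * volume (otri a b c)) := by
        rw [← mul_assoc, h3, one_mul]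
    _ = ENNReal.ofReal (D a b c / 2) := by
        rw [← h2, ← ENNReal.ofReal_mul hD.le, mul_one_div]

end MP7b

end
end

section

open scoped Classical
open MeasureTheory Metric Real

noncomputable section
namespace MP7b

lemma ne_Pea {X : Finset ℂ} {t : ℂ → ℂ → ℂ → Prop} (hT : Tri X t) {a b : ℂ} (h : E t a b) :
    a ≠ b := by
  rintro rfl
  obtain ⟨c, hc⟩ | ⟨c, hc⟩ := h
  all_goals
    have := hT.pos hc
    unfold D at this
    linarith

lemma chi_Pea (hC : CHI_st) {X : Finset ℂ} {t : ℂ → ℂ → ℂ → Prop} {R : ℂ → ℂ → Prop}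
    {g : ℂ → ℂ → ℂ → Prop} {δ : ℂ → ℂ → ℂ → ℝ} (hX : Cx X t R g δ) (hE : Exa X (E t) t)
    (V : Finset ℂ) (hV : V ⊆ X) (hS : Solid t (rV V R) (pV V g)) (W : Finset ℂ) (hW : W ⊆ V)
    (hne : W.Nonempty) (hWR : ∀ a b, rV V R a b → a ∈ W) :
    6 ≤ 6 * (W.card : ℤ) - 3 * ((D2 V R).card : ℤ) + 2 * ((T3 V g).card : ℤ) := by
  have hsym : ∀ a b, rV V R a b → rV V R b a := fun a b h => ⟨h.2.1, h.1, hX.Rsymm h.2.2⟩
  have hPR : ∀ a b c, pV V g a b c → rV V R a b := fun a b c h => ⟨h.1, h.2.1, hX.gR h.2.2.2⟩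
  have hrot : ∀ a b c, pV V g a b c → pV V g b c a := fun a b c h =>
    ⟨h.2.1, h.2.2.1, h.1, hX.grot h.2.2.2⟩
  have hexa : Exa X (rV V R) (pV V g) :=
    exs X t _ _ hX.tri hE (fun a b h => hX.RE h.2.2) (fun a b c h => hX.gt h.2.2.2) hS
  have h1 := hC X W (rV V R) (pV V g) (hW.trans hV) hne
    (fun a b h => ⟨hWR a b h, ne_Pea hX.tri (hX.RE h.2.2), hsym a b h⟩)
    (fun a b c h => ⟨hPR a b c h, hrot a b c h⟩)
    (fun a b c c' h h' => hX.tri.uniq (hX.gt h.2.2.2) (hX.gt h'.2.2.2)) hexa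
  have e1 : D2 W (rV V R) = D2 V R := by
    ext q
    simp only [D2, Finset.mem_filter, Finset.mem_product]
    constructor
    · rintro ⟨-, h⟩
      exact ⟨⟨h.1, h.2.1⟩, h.2.2⟩
    · rintro ⟨⟨a1, a2⟩, a3⟩
      have h : rV V R q.1 q.2 := ⟨a1, a2, a3⟩
      exact ⟨⟨hWR _ _ h, hWR _ _ (hsym _ _ h)⟩, h⟩
  have e2 : T3 W (pV V g) = T3 V g := by
    ext q
    simp only [T3, Finset.mem_filter, Finset.mem_product]
    constructor
    · rintro ⟨-, h⟩
      exact ⟨⟨h.1, h.2.1, h.2.2.1⟩, h.2.2.2⟩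
    · rintro ⟨⟨a1, a2, a3⟩, a4⟩
      have h : pV V g q.1 q.2.1 q.2.2 := ⟨a1, a2, a3, a4⟩
      exact ⟨⟨hWR _ _ (hPR _ _ _ h), hWR _ _ (hPR _ _ _ (hrot _ _ _ h)),
        hWR _ _ (hPR _ _ _ (hrot _ _ _ (hrot _ _ _ h)))⟩, h⟩
  unfold chi6 at h1
  rwa [e1, e2] at h1

theorem pea (hL : LC_st) (hC : CHI_st) : PEa_st := by
  intro X t R g δ hX hE V hV hS
  refine ⟨fun hne => chi_Pea hC hX hE V hV hS V (Finset.Subset.refl _) hne fun a b h => h.1,
    fun hne => ?_⟩
  set W : Finset ℂ := V.filter fun a => ∃ b, rV V R a b with hW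
  have hWne : W.Nonempty := by
    obtain ⟨q, hq⟩ := hne
    simp only [D2, Finset.mem_filter, Finset.mem_product] at hq
    exact ⟨q.1, Finset.mem_filter.2 ⟨hq.1.1, q.2, hq.1.1, hq.1.2, hq.2⟩⟩
  have h1 := chi_Pea hC hX hE V hV hS W (Finset.filter_subset _ _) hWne
    fun a b h => Finset.mem_filter.2 ⟨h.1, b, h⟩
  set B : Finset (ℂ × ℂ) := (D2 V R).filter fun q => ¬ ∃ c, pV V g q.1 q.2 c with hB
  set B' : Finset (ℂ × ℂ) := (D2 V R).filter fun q => ∃ c, pV V g q.1 q.2 c with hB'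
  have h2 : B'.card + B.card = (D2 V R).card :=
    Finset.card_filter_add_card_filter_not _
  have h3 : (T3 V g).card ≤ B'.card := by
    refine Finset.card_le_card_of_injOn (fun q => (q.1, q.2.1)) ?_ ?_
    · intro q hq
      simp only [T3, Finset.coe_filter, Finset.mem_product, Set.mem_ofPred_eq] at hq
      obtain ⟨⟨a1, a2, a3⟩, a4⟩ := hq
      simp only [hB', D2, Finset.coe_filter, Finset.mem_filter, Finset.mem_product,
        Set.mem_ofPred_eq]
      exact ⟨⟨⟨a1, a2⟩, hX.gR a4⟩, q.2.2, a1, a2, a3, a4⟩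
    · rintro ⟨a, b, c⟩ hq ⟨a', b', c'⟩ hq' e
      simp only [T3, Finset.coe_filter, Finset.mem_product, Set.mem_ofPred_eq] at hq hq'
      simp only [Prod.mk.injEq] at e
      obtain ⟨rfl, rfl⟩ := e
      rw [hX.tri.uniq (hX.gt hq.2) (hX.gt hq'.2)]
  have h4 : W ⊆ B.image Prod.fst ∪ inn t V g := by
    intro w hw
    obtain ⟨hwV, a0, ha0⟩ := Finset.mem_filter.1 hw
    rw [Finset.mem_union, or_iff_not_imp_left]
    intro hnot
    have key : ∀ a, rV V R w a → ∃ c, pV V g w a c := by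
      intro a ha
      by_contra hc
      refine hnot (Finset.mem_image.2 ⟨(w, a), ?_, rfl⟩)
      simp only [hB, D2, Finset.mem_filter, Finset.mem_product]
      exact ⟨⟨⟨ha.1, ha.2.1⟩, ha.2.2⟩, hc⟩
    refine Finset.mem_filter.2 ⟨hwV, fun a ha => key a ?_⟩
    refine hL X t hX.tri w a0 (rV V R w) ha0 (fun x hx => ?_) a ha
    obtain ⟨c, hc⟩ := key x hx
    exact ⟨c, ⟨hwV, hc.2.2.1, hX.Rsymm (hX.gR (hX.grot (hX.grot hc.2.2.2)))⟩, hX.gt hc.2.2.2⟩
  have h5 : W.card ≤ B.card + (inn t V g).card :=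
    (Finset.card_le_card h4).trans ((Finset.card_union_le _ _).trans
      (Nat.add_le_add_right Finset.card_image_le _))
  unfold chi6
  omega

end MP7b

end
end

section

open scoped Classical
open MeasureTheory Metric Real

noncomputable section
namespace MP7b

theorem pes (hL : LC_st) : PEs_st := by
  intro X t R g δ hC V hS c hc hsym
  have hT := hC.tri
  have hU : ∀ {x}, x ∈ inn t V g → x ∈ V := fun hx => (Finset.mem_filter.1 hx).1
  have h0 := hS c hc fun a b h => hsym a b fun h' => h ⟨hU h'.1, hU h'.2.1, h'.2.2⟩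
  have h1 : ∀ w x, c w x ≠ 0 → ∃ d, pV V g w x d ∧ t w x d := fun w x h => by
    obtain ⟨d, hd⟩ : ∃ d, t w x d := by_contra fun h' => h (hc.2 w x h')
    exact ⟨d, by_contra fun h' => h (h0 w x d hd h'), hd⟩
  have key : ∀ w a, c w a ≠ 0 → w ∈ inn t V g := fun w a h => by
    by_contra hw
    refine hw (Finset.mem_filter.2 ⟨(h1 w a h).choose_spec.1.1, fun x hx => ?_⟩)
    have h2 := hL X t hT w a (fun x => c w x = c w a) rfl (fun y hy => by
      obtain ⟨d, -, hd⟩ := h1 w y (hy ▸ h)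
      refine ⟨d, ?_, hd⟩
      rw [hsym w d fun h' => hw h'.1, ← hc.1 y d w (hT.rot hd), ← hc.1 w y d hd, hy]) x hx
    obtain ⟨d, hd, -⟩ := h1 w x (h2 ▸ h)
    exact ⟨d, hd⟩
  intro a b d hd hn
  by_contra h
  have e1 := hc.1 a b d hd
  have e2 := hc.1 b d a (hT.rot hd)
  exact hn ⟨key a b h, key b d (e1 ▸ h), key d a (e2 ▸ e1 ▸ h),
    (by_contra fun h' => h (h0 a b d hd h') : pV V g a b d).2.2.2⟩

end MP7b

end
end

section

/-! Closed cochains on an acyclic complex have a potential. -/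

open scoped Classical
open MeasureTheory Metric Real

noncomputable section
namespace MP7b

def ev_Pot (a b : ℂ) : (ℂ → ℂ → ℚ) →ₗ[ℚ] ℚ where
  toFun w := w a b
  map_add' _ _ := rfl
  map_smul' _ _ := rfl

def zz_Pot (R : ℂ → ℂ → Prop) (a b : ℂ) : (ℂ → ℂ → ℚ) →ₗ[ℚ] ℚ :=
  if R a b then ev_Pot a b - ev_Pot b a else 0

theorem zz_apply_Pot (R : ℂ → ℂ → Prop) (a b : ℂ) (w : ℂ → ℂ → ℚ) :
    zz_Pot R a b w = if R a b then w a b - w b a else 0 := by
  rw [zz_Pot]
  split_ifs <;> rfl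

theorem closed_Pot {X : Finset ℂ} {P : ℂ → ℂ → ℂ → Prop} (hX : ∀ a b c, P a b c → c ∈ X)
    (hP : ∀ a b c, P a b c → P b c a) (hu : ∀ a b c c', P a b c → P a b c' → c = c')
    {γ c : ℂ → ℂ → ℚ} (hγ : ∀ a b c, P a b c → γ a b + γ b c + γ c a = 0) (hc : Ch P c) :
    ∑ a ∈ X, ∑ b ∈ X, γ a b * c a b = 0 := by
  obtain ⟨F, hF⟩ : ∃ F : ℂ → ℂ → ℂ → ℚ, ∀ a b d, F a b d = if P a b d then γ a b * c a b else 0 :=
    ⟨_, fun _ _ _ => rfl⟩
  have e1 : ∀ a b, γ a b * c a b = ∑ d ∈ X, F a b d := fun a b => by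
    by_cases h : ∃ d, P a b d
    · obtain ⟨d, hd⟩ := h
      rw [Finset.sum_eq_single_of_mem d (hX a b d hd) fun d' _ hn => by
        rw [hF, if_neg fun h => hn (hu a b d' d h hd)], hF, if_pos hd]
    · rw [hc.2 a b h, mul_zero]
      exact (Finset.sum_eq_zero fun d _ => by rw [hF, if_neg fun e => h ⟨d, e⟩]).symm
  have e2 : ∀ a b d, F a b d + F b d a + F d a b = 0 := fun a b d => by
    rw [hF, hF, hF]
    by_cases h : P a b d
    · have h2 := hP _ _ _ h
      have h3 := hP _ _ _ h2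
      rw [if_pos h, if_pos h2, if_pos h3, ← hc.1 _ _ _ h2, ← hc.1 _ _ _ h]
      linear_combination c a b * hγ a b d h
    · rw [if_neg h, if_neg fun e => h (hP _ _ _ (hP _ _ _ e)), if_neg fun e => h (hP _ _ _ e)]
      ring
  have r : ∀ G : ℂ → ℂ → ℂ → ℚ, ∑ a ∈ X, ∑ b ∈ X, ∑ d ∈ X, G b d a =
      ∑ a ∈ X, ∑ b ∈ X, ∑ d ∈ X, G a b d := fun G => by
    rw [Finset.sum_comm]
    exact Finset.sum_congr rfl fun _ _ => Finset.sum_comm
  have e3 : ∑ a ∈ X, ∑ b ∈ X, ∑ d ∈ X, (F a b d + F b d a + F d a b) = 0 := by simp only [e2]; simp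
  simp only [Finset.sum_add_distrib] at e3
  have r1 := r F
  have r2 := r fun a b d => F b d a
  simp only [e1]
  linarith

theorem pot : POT_st := by
  intro X R P hR hP hu hE γ ha hγ
  have key : ∑ a ∈ X, ∑ b ∈ X, γ a b • zz_Pot R a b ∈
      Submodule.span ℚ (Set.range fun a : X => ∑ b ∈ X, zz_Pot R a b) := by
    refine mem_span_of_iInf_ker_le_ker fun w hw => ?_
    simp only [Submodule.mem_iInf, LinearMap.mem_ker, LinearMap.sum_apply] at hw
    obtain ⟨c, hc, hz⟩ := hE (fun a b => zz_Pot R a b w) ⟨fun a b => by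
      simp only [zz_apply_Pot]
      by_cases h : R a b
      · rw [if_pos h, if_pos (hR a b h).2, neg_sub]
      · rw [if_neg h, if_neg fun e => h (hR b a e).2, neg_zero],
      fun a b h => by simp only [zz_apply_Pot, if_neg h], fun a => by
        by_cases h : a ∈ X
        · exact hw ⟨a, h⟩
        · exact Finset.sum_eq_zero fun b _ => by
            simp only [zz_apply_Pot, if_neg fun e => h (hR a b e).1]⟩
    have h0 := closed_Pot (X := X) (fun a b d h => (hR _ _ (hP _ _ _ (hP _ _ _ (hP a b d h).2).2).1).1)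
      (fun a b d h => (hP a b d h).2) hu hγ hc
    have h1 : ∑ a ∈ X, ∑ b ∈ X, γ a b * c b a = -∑ a ∈ X, ∑ b ∈ X, γ a b * c a b := by
      rw [Finset.sum_comm, ← Finset.sum_neg_distrib]
      refine Finset.sum_congr rfl fun a _ => ?_
      rw [← Finset.sum_neg_distrib]
      refine Finset.sum_congr rfl fun b _ => ?_
      by_cases h : ∃ d, P a b d
      · obtain ⟨d, hd⟩ := h
        rw [ha a b (hP a b d hd).1, neg_mul]
      · rw [hc.2 a b h, mul_zero, mul_zero, neg_zero]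
    simp only [LinearMap.mem_ker, LinearMap.sum_apply, LinearMap.smul_apply, smul_eq_mul]
    have hz' : ∀ a b, zz_Pot R a b w = c a b - c b a := hz
    simp only [hz', mul_sub, Finset.sum_sub_distrib, h1, h0]
    simp
  obtain ⟨μ, hμ⟩ := (Submodule.mem_span_range_iff_exists_fun ℚ).1 key
  refine ⟨fun x => if h : x ∈ X then -μ ⟨x, h⟩ / 2 else 0, fun a b h => ?_⟩
  have aX := (hR a b h).1
  have h' := (hR a b h).2
  have bX := (hR b a h').1
  have e : ∀ x y, zz_Pot R x y (fun x y => if x = a ∧ y = b then 1 else 0) =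
      (if x = a then if y = b then 1 else 0 else 0) -
        if x = b then if y = a then 1 else 0 else 0 := fun x y => by
    rw [zz_apply_Pot, ← ite_and, ← ite_and]
    by_cases hxy : R x y
    · rw [if_pos hxy]
      simp only [and_comm]
    · rw [if_neg hxy, if_neg, if_neg, sub_zero]
      · rintro ⟨rfl, rfl⟩
        exact hxy h'
      · rintro ⟨rfl, rfl⟩
        exact hxy h
  have := LinearMap.congr_fun hμ fun x y => if x = a ∧ y = b then 1 else 0
  simp only [LinearMap.sum_apply, LinearMap.smul_apply, smul_eq_mul, e] at this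
  simp only [mul_sub, Finset.sum_sub_distrib, mul_ite, mul_one, mul_zero, Finset.sum_ite_irrel,
    Finset.sum_const_zero, Finset.sum_ite_eq', aX, bX, if_true] at this
  have s : ∀ x (hx : x ∈ X), ∑ i : X, (if (i : ℂ) = x then μ i else 0) = μ ⟨x, hx⟩ := fun x hx => by
    rw [Finset.sum_eq_single_of_mem ⟨x, hx⟩ (Finset.mem_univ _) fun i _ hi =>
      if_neg fun e => hi (Subtype.ext e), if_pos rfl]
  rw [s a aX, s b bX, ha a b h] at this
  simp only [dif_pos aX, dif_pos bX]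
  linarith

end MP7b

end
end

section

/-! The angle count at a vertex. -/

open scoped Classical
open MeasureTheory Metric Real

noncomputable section
namespace MP7b

theorem cnt_Ra (hB : BAD_st) {X : Finset ℂ} {t : ℂ → ℂ → ℂ → Prop} (hT : Tri X t) (hS : Sat X)
    (w : ℂ) : kb X (e0 t) (good t) w ≤ (D2 X (ap t w)).card + (X.filter (bd (E t) t w)).card := by
  obtain ⟨b1, b2, -⟩ := hB X t hT
  have gb : ∀ a c, t w a c → good t w a c ∨ bad t w a c := fun a c h =>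
    (em _).imp (fun e => ⟨h, e⟩) fun e => ⟨h, e⟩
  have s : X.filter (bd (e0 t) (good t) w) ∪ X.filter (fun c => lng t c w) ⊆
      (D2 X (ap t w)).image Prod.fst ∪ X.filter (fun a => ∃ c, ap t a c w) ∪
        X.filter (bd (E t) t w) := by
    have key : ∀ a ∈ X, ∀ c, bad t w a c → ¬ap t c w a → a ∈ (D2 X (ap t w)).image Prod.fst ∪
        X.filter (fun a => ∃ c, ap t a c w) ∪ X.filter (bd (E t) t w) := fun a ha c h n => by
      rcases b1 hS _ _ _ h with e | e | e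
      · exact Finset.mem_union_left _ (Finset.mem_union_left _ (Finset.mem_image.2 ⟨(a, c),
          Finset.mem_filter.2 ⟨Finset.mem_product.2 ⟨ha, hT.mem (hT.rot (hT.rot h.1))⟩, e⟩, rfl⟩))
      · exact Finset.mem_union_left _ (Finset.mem_union_right _ (Finset.mem_filter.2 ⟨ha, c, e⟩))
      · exact (n e).elim
    intro a ha
    rcases Finset.mem_union.1 ha with ha | ha
    · obtain ⟨ha, ⟨e, l, -⟩, n⟩ := Finset.mem_filter.1 ha
      by_cases h : ∃ c, t w a c
      · obtain ⟨c, h⟩ := h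
        exact key a ha c ((gb a c h).resolve_left fun g => n ⟨c, g⟩) fun p => l ⟨c, p⟩
      · exact Finset.mem_union_right _ (Finset.mem_filter.2 ⟨ha, e, h⟩)
    · obtain ⟨ha, c, p⟩ := Finset.mem_filter.1 ha
      by_cases h : ∃ d, t w a d
      · obtain ⟨d, h⟩ := h
        have := b2 _ _ _ _ p h
        exact key a ha d this.1 fun q => lt_asymm q.2 this.2
      · exact Finset.mem_union_right _
          (Finset.mem_filter.2 ⟨ha, .inr ⟨c, hT.rot p.1.1⟩, h⟩)
  have d : Disjoint (X.filter (bd (e0 t) (good t) w)) (X.filter fun c => lng t c w) :=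
    Finset.disjoint_filter.2 fun a _ h => h.1.2.2
  have i : (X.filter fun a => ∃ c, ap t a c w).card ≤ (X.filter fun c => lng t c w).card :=
    Finset.card_le_card_of_forall_subsingleton (fun a c => ap t a c w)
      (fun a ha => by
        obtain ⟨-, c, p⟩ := Finset.mem_filter.1 ha
        exact ⟨c, Finset.mem_filter.2 ⟨hT.mem (hT.rot p.1.1), a, p⟩, p⟩)
      fun c _ a ha a' ha' => hT.uniq (hT.rot ha.2.1.1) (hT.rot ha'.2.1.1)
  have c1 := Finset.card_le_card s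
  rw [Finset.card_union_of_disjoint d] at c1
  have c2 := c1.trans ((Finset.card_union_le _ _).trans
    (Nat.add_le_add_right (Finset.card_union_le _ _) _))
  have c3 := Finset.card_image_le (s := D2 X (ap t w)) (f := Prod.fst)
  unfold kb
  omega

theorem ra (hB : BAD_st) (_hO : OBT_st) (hH : HU_st) (hA : ANG_st) (h1 : AN1_st) (h2 : AN2_st)
    (hC : CNT_st) : RA_st := by
  intro X t hX hS hd w hw
  have hT := hX.tri
  have k := cnt_Ra hB hT hS w
  have up : ∑ q ∈ D2 X (t w), ang w q.1 q.2 + 3 * ((X.filter (bd (E t) t w)).card : ℝ) ≤ 6 := by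
    rcases (X.filter (bd (E t) t w)).eq_empty_or_nonempty with e | ⟨a, ha⟩
    · rw [e, h2 X t hT w hw fun a ha => ?_]
      · simp
      · by_contra n
        have : a ∈ X := ha.elim (fun ⟨_, h⟩ => hT.mem (hT.rot h)) fun ⟨_, h⟩ => hT.mem h
        exact Finset.notMem_empty a (e ▸ Finset.mem_filter.2 ⟨this, ha, n⟩)
    · have : (X.filter (bd (E t) t w)).card ≤ 1 := Finset.card_le_one.2 fun a ha b hb =>
        hH X t hT w a b (Finset.mem_filter.1 ha).2 (Finset.mem_filter.1 hb).2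
      have : ((X.filter (bd (E t) t w)).card : ℝ) ≤ 1 := by exact_mod_cast this
      linarith [h1 X t hT w a (Finset.mem_filter.1 ha).2]
  have lo : ∑ q ∈ D2 X (good t w), ang w q.1 q.2 + ∑ q ∈ D2 X (ap t w), ang w q.1 q.2 ≤
      ∑ q ∈ D2 X (t w), ang w q.1 q.2 := by
    have dj : Disjoint (D2 X (good t w)) (D2 X (ap t w)) :=
      Finset.disjoint_filter.2 fun q _ h h' => h'.1.2 h.2
    rw [← Finset.sum_union dj]
    refine Finset.sum_le_sum_of_subset_of_nonneg (Finset.union_subset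
      (Finset.monotone_filter_right _ fun q _ h => h.1)
      (Finset.monotone_filter_right _ fun q _ h => h.1.1)) fun q hq _ =>
        (hA _ _ _ (hT.pos (Finset.mem_filter.1 hq).2)).1.le
  have g : (dg X (good t) w : ℝ) ≤
      ∑ q ∈ D2 X (good t w), ang w q.1 q.2 + ∑ q ∈ D2 X (good t w), dl w q.1 q.2 := by
    rw [dg, Finset.card_eq_sum_ones, ← Finset.sum_add_distrib]
    push_cast
    exact Finset.sum_le_sum fun q hq => by
      linarith [(abs_le.1 (hX.dev (Finset.mem_filter.1 hq).2)).1]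
  have b : ∑ q ∈ D2 X (ap t w), (3 - ang w q.1 q.2) ≤ SL X t := by
    have := Finset.sum_image (s := D2 X (ap t w)) (g := fun q => (w, q))
      (f := fun q : ℂ × ℂ × ℂ => 3 - ang q.1 q.2.1 q.2.2) fun _ _ _ _ e => (Prod.mk.inj e).2
    rw [← this]
    refine Finset.sum_le_sum_of_subset_of_nonneg (Finset.image_subset_iff.2 fun q hq => ?_)
      fun q hq _ => sub_nonneg.2 (hA _ _ _ (hT.pos (Finset.mem_filter.1 hq).2.1.1)).2.1.le
    exact Finset.mem_filter.2 ⟨Finset.mem_product.2 ⟨hw, (Finset.mem_filter.1 hq).1⟩,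
      (Finset.mem_filter.1 hq).2⟩
  rw [Finset.sum_sub_distrib, Finset.sum_const, nsmul_eq_mul] at b
  have c := (hC X t _ _ _ hX).2.2.2 w
  have k' : (kb X (e0 t) (good t) w : ℝ) ≤
      (D2 X (ap t w)).card + (X.filter (bd (E t) t w)).card := by exact_mod_cast k
  have : (dg X (good t) w : ℝ) + 3 * kb X (e0 t) (good t) w < 7 := by linarith
  have : dg X (good t) w + 3 * kb X (e0 t) (good t) w < 7 := by exact_mod_cast this
  omega

end MP7b

end
end

section

/-! Fans of triangles at a vertex. -/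

open scoped Classical
open MeasureTheory Metric Real

noncomputable section
namespace MP7b

variable {X : Finset ℂ} {t g C : ℂ → ℂ → ℂ → Prop} {R : ℂ → ℂ → Prop} {δ : ℂ → ℂ → ℂ → ℝ}

theorem fan_Rb1 (hL : LC_st) (h : Cx X t R g δ) (h1 : ∀ a b c, C a b c → g a b c ∧ C b c a)
    (h2 : ∀ a b c d, C a b c → g b a d → C b a d) {w p q : ℂ} (hw : C w p q) :
    (∀ c, E t w c → ∃ q, C w c q) ∨ ∃ p q, C w p q ∧ bd R g w q := by
  by_cases e : ∀ a, (∃ q, C w a q) → ∃ b, (∃ q, C w b q) ∧ t w a b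
  · exact Or.inl (hL X t h.tri w p (fun a => ∃ q, C w a q) ⟨q, hw⟩ e)
  · right
    obtain ⟨a, e⟩ := not_forall.1 e
    obtain ⟨⟨b, hb⟩, e⟩ := Classical.not_imp.1 e
    have r := (h1 _ _ _ (h1 _ _ _ hb).2).2
    exact ⟨a, b, hb, h.Rsymm (h.gR (h1 _ _ _ r).1), fun ⟨c, hc⟩ =>
      e ⟨b, ⟨c, h2 _ _ _ _ r hc⟩, h.gt (h1 _ _ _ hb).1⟩⟩

theorem mem_Rb1 (h : Cx X t R g δ) {a b : ℂ} (r : R a b) : a ∈ X := by
  rcases h.RE r with ⟨c, hc⟩ | ⟨c, hc⟩
  · exact h.tri.mem hc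
  · exact h.tri.mem (h.tri.rot hc)

theorem memk_Rb1 (h : Cx X t R g δ) {w a : ℂ} (r : bd R g w a) : a ∈ X.filter (bd R g w) :=
  Finset.mem_filter.2 ⟨mem_Rb1 h (h.Rsymm r.1), r⟩

theorem memd_Rb1 (h : Tri X t) {P : ℂ → ℂ → Prop} {w a b : ℂ} (r : t w a b) (e : P a b) :
    (a, b) ∈ D2 X P :=
  Finset.mem_filter.2 ⟨Finset.mem_product.2 ⟨h.mem (h.rot r), h.mem (h.rot (h.rot r))⟩, e⟩

theorem rb1 (hL : LC_st) (h2 : AN2_st) (hC : CNT_st) : RB1_st := by
  intro X t R g δ h hc hT hD hk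
  have F : ∀ {w p q : ℂ}, g w p q →
      (∀ c, E t w c → ∃ q, g w c q) ∨ ∃ p q, g w p q ∧ bd R g w q := fun hw =>
    fan_Rb1 hL h (fun _ _ _ e => ⟨e, h.grot e⟩) (fun _ _ _ _ _ e => e) hw
  have K : ∀ {w p q : ℂ}, g w p q → 0 < dg X g w ∧ kb X R g w ≤ 1 := fun {w p q} hw => by
    have a : 0 < dg X g w := Finset.card_pos.2 ⟨_, memd_Rb1 h.tri (h.gt hw) hw⟩
    have b := hk w (h.tri.mem (h.gt hw))
    omega
  have U : ∀ {w p q a b : ℂ}, g w p q → bd R g w a → bd R g w b → a = b := fun hw ha hb =>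
    Finset.card_le_one.1 (K hw).2 _ (memk_Rb1 h ha) _ (memk_Rb1 h hb)
  have A : ∀ w a, (∃ p q, g w p q) → R w a → (∃ c, g w a c) ∨ ∃ c, g a w c := by
    rintro w a ⟨p, q, hw⟩ r
    by_cases e : ∃ c, g w a c
    · exact Or.inl e
    · rcases F hw with f | ⟨p', q', f, f'⟩
      · exact Or.inl (f a (h.RE r))
      · rw [U hw ⟨r, e⟩ f']
        exact Or.inr ⟨p', h.grot (h.grot f)⟩
  have P : ∀ w ∈ X, ∃ p q, g w p q := fun w hw => by
    obtain ⟨s, hs⟩ := hT
    have e := (Finset.mem_filter.1 hs).2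
    refine hc (fun w => ∃ p q, g w p q) (fun a b r ha => ?_) _ (h.tri.mem (h.gt e)) w hw ⟨_, _, e⟩
    rcases A a b ha r with ⟨c, f⟩ | ⟨c, f⟩
    · exact ⟨_, _, h.grot f⟩
    · exact ⟨_, _, f⟩
  have A' : ∀ a b, R a b → (∃ c, g a b c) ∨ ∃ c, g b a c := fun a b r =>
    A a b (P a (mem_Rb1 h r)) r
  refine ⟨A', fun w hw => ?_, fun C c1 c2 ⟨a0, b0, c0, h0⟩ => ?_⟩
  · obtain ⟨p, q, e⟩ := P w hw
    have k1 := K e
    have k2 := hk w hw
    by_cases k0 : kb X R g w = 0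
    · refine Or.inl ⟨k0, ?_⟩
      rcases F e with f | ⟨p', q', -, f⟩
      · have s := h2 X t h.tri w hw fun a ha => (f a ha).imp fun _ => h.gt
        have d : D2 X (t w) = D2 X (g w) := Finset.filter_congr fun x _ =>
          ⟨fun r => by
            obtain ⟨y, hy⟩ := f x.1 (Or.inl ⟨_, r⟩)
            rwa [h.tri.uniq r (h.gt hy)], h.gt⟩
        rw [d] at s
        have b : |(6 : ℝ) - dg X g w| < 1 := by
          have b1 : (6 : ℝ) - dg X g w = ∑ x ∈ D2 X (g w), (ang w x.1 x.2 - 1) := by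
            rw [Finset.sum_sub_distrib, s]
            simp [dg]
          rw [b1]
          exact ((Finset.abs_sum_le_sum_abs _ _).trans ((Finset.sum_le_sum fun x hx =>
            h.dev (Finset.mem_filter.1 hx).2).trans ((hC X t R g δ h).2.2.2 w))).trans_lt hD
        have b2 : (5 : ℝ) < dg X g w := by linarith [(abs_lt.1 b).2]
        have b3 : 5 < dg X g w := by exact_mod_cast b2
        omega
      · exact absurd k0 (Finset.card_pos.2 ⟨_, memk_Rb1 h f⟩).ne'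
    · exact Or.inr (by omega)
  · have B : ∀ w, (∃ p q, C w p q) → ∀ p q, g w p q → C w p q := by
      rintro w ⟨p, q, hw⟩ p' q' e
      by_contra n
      rcases fan_Rb1 hL h c1 c2 hw with f | ⟨p1, q1, f, f'⟩
      · obtain ⟨y, hy⟩ := f p' (Or.inl ⟨_, h.gt e⟩)
        exact n (h.tri.uniq (h.gt (c1 _ _ _ hy).1) (h.gt e) ▸ hy)
      · rcases fan_Rb1 (C := fun a b c => g a b c ∧ ¬ C a b c) hL h
          (fun a b c r => ⟨r.1, h.grot r.1, fun s => r.2 (c1 _ _ _ (c1 _ _ _ s).2).2⟩)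
          (fun a b c d r s => ⟨s, fun u => r.2 (c2 _ _ _ _ u r.1)⟩) ⟨e, n⟩ with
          f2 | ⟨p2, q2, f2, f2'⟩
        · obtain ⟨y, hy⟩ := f2 p1 (Or.inl ⟨_, h.gt (c1 _ _ _ f).1⟩)
          exact hy.2 (h.tri.uniq (h.gt (c1 _ _ _ f).1) (h.gt hy.1) ▸ f)
        · obtain rfl := U e f' f2'
          obtain rfl := h.tri.uniq (h.gt (h.grot (h.grot (c1 _ _ _ f).1)))
            (h.gt (h.grot (h.grot f2.1)))
          exact f2.2 f
    intro a b c e
    refine B a (hc (fun w => ∃ p q, C w p q) (fun a b r ha => ?_) a0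
      (h.tri.mem (h.gt (c1 _ _ _ h0).1)) a (h.tri.mem (h.gt e)) ⟨_, _, h0⟩) b c e
    rcases A' a b r with ⟨c, f⟩ | ⟨c, f⟩
    · exact ⟨_, _, (c1 _ _ _ (B a ha _ _ f)).2⟩
    · exact ⟨_, _, (c1 _ _ _ (c1 _ _ _ (B a ha _ _ (h.grot f))).2).2⟩

end MP7b

end
end

section

open scoped Classical
open MeasureTheory Metric Real

noncomputable section
namespace MP7b

section
variable {X : Finset ℂ} {t : ℂ → ℂ → ℂ → Prop} {R : ℂ → ℂ → Prop} {g : ℂ → ℂ → ℂ → Prop}
  {δ : ℂ → ℂ → ℂ → ℝ}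

theorem rmem_Rb5 (H : Cx X t R g δ) {a b : ℂ} (h : R a b) : a ∈ X := by
  rcases H.RE h with ⟨c, hc⟩ | ⟨c, hc⟩
  · exact H.tri.mem hc
  · exact H.tri.mem (H.tri.rot hc)

theorem gmem_Rb5 (H : Cx X t R g δ) {a b c : ℂ} (h : g a b c) : a ∈ X ∧ b ∈ X ∧ c ∈ X :=
  ⟨H.tri.mem (H.gt h), H.tri.mem (H.gt (H.grot h)), H.tri.mem (H.gt (H.grot (H.grot h)))⟩

theorem memD_Rb5 (H : Cx X t R g δ) (w : ℂ) (q : ℂ × ℂ) : q ∈ D2 X (g w) ↔ g w q.1 q.2 := by
  unfold D2
  rw [Finset.mem_filter, Finset.mem_product]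
  exact ⟨fun h => h.2, fun h => ⟨(gmem_Rb5 H h).2, h⟩⟩

theorem memT_Rb5 (H : Cx X t R g δ) (q : ℂ × ℂ × ℂ) : q ∈ T3 X g ↔ g q.1 q.2.1 q.2.2 := by
  unfold T3
  rw [Finset.mem_filter, Finset.mem_product, Finset.mem_product]
  exact ⟨fun h => h.2, fun h => ⟨gmem_Rb5 H h, h⟩⟩

theorem fst_Rb5 (H : Cx X t R g δ) {A : Type} [AddCommMonoid A] (f : ℂ → A) (w : ℂ) :
    ∑ q ∈ D2 X (g w), f q.1 + ∑ p ∈ X.filter (bd R g w), f p = ∑ p ∈ X.filter (R w), f p := by
  rw [← Finset.sum_filter_add_sum_filter_not (X.filter (R w)) (fun p => ∃ c, g w p c)]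
  congr 1
  · refine Finset.sum_bij (fun q _ => q.1) ?_ ?_ ?_ ?_
    · intro q hq
      rw [memD_Rb5 H] at hq
      simp only [Finset.mem_filter]
      exact ⟨⟨(gmem_Rb5 H hq).2.1, H.gR hq⟩, _, hq⟩
    · intro q hq q' hq' e
      rw [memD_Rb5 H] at hq hq'
      refine Prod.ext e ?_
      rw [e] at hq
      exact H.tri.uniq (H.gt hq) (H.gt hq')
    · intro p hp
      simp only [Finset.mem_filter] at hp
      obtain ⟨c, hc⟩ := hp.2
      exact ⟨(p, c), (memD_Rb5 H w _).2 hc, rfl⟩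
    · intro q _
      rfl
  · rw [Finset.filter_filter]
    refine Finset.sum_congr ?_ fun _ _ => rfl
    ext p
    simp only [Finset.mem_filter, bd]

theorem snd_Rb5 (H : Cx X t R g δ) {A : Type} [AddCommMonoid A] (f : ℂ → A) (w : ℂ) :
    ∑ q ∈ D2 X (g w), f q.2 + ∑ p ∈ X.filter (fun a => bd R g a w), f p =
      ∑ p ∈ X.filter (R w), f p := by
  rw [← Finset.sum_filter_add_sum_filter_not (X.filter (R w)) (fun p => ∃ c, g p w c)]
  congr 1
  · refine Finset.sum_bij (fun q _ => q.2) ?_ ?_ ?_ ?_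
    · intro q hq
      rw [memD_Rb5 H] at hq
      simp only [Finset.mem_filter]
      have h2 := H.grot (H.grot hq)
      exact ⟨⟨(gmem_Rb5 H hq).2.2, H.Rsymm (H.gR h2)⟩, _, h2⟩
    · intro q hq q' hq' e
      rw [memD_Rb5 H] at hq hq'
      refine Prod.ext ?_ e
      have e' : q.2 = q'.2 := e
      rw [e'] at hq
      exact H.tri.uniq (H.gt (H.grot (H.grot hq))) (H.gt (H.grot (H.grot hq')))
    · intro p hp
      simp only [Finset.mem_filter] at hp
      obtain ⟨c, hc⟩ := hp.2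
      exact ⟨(c, p), (memD_Rb5 H w _).2 (H.grot hc), rfl⟩
    · intro q _
      rfl
  · rw [Finset.filter_filter]
    refine Finset.sum_congr ?_ fun _ _ => rfl
    ext p
    simp only [Finset.mem_filter, bd]
    exact ⟨fun h => ⟨h.1, H.Rsymm h.2.1, h.2.2⟩, fun h => ⟨h.1, H.Rsymm h.2.1, h.2.2⟩⟩

theorem key_Rb5 (H : Cx X t R g δ) {A : Type} [AddCommMonoid A] (f : ℂ → A) (w : ℂ) :
    ∑ q ∈ D2 X (g w), f q.1 + ∑ p ∈ X.filter (bd R g w), f p =
      ∑ q ∈ D2 X (g w), f q.2 + ∑ p ∈ X.filter (fun a => bd R g a w), f p :=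
  (fst_Rb5 H f w).trans (snd_Rb5 H f w).symm

theorem card_Rb5 (H : Cx X t R g δ) (w : ℂ) :
    (X.filter (fun a => bd R g a w)).card = kb X R g w := by
  have h := key_Rb5 H (fun _ => (1 : ℕ)) w
  simp only [Finset.sum_const, smul_eq_mul, mul_one] at h
  unfold kb
  omega

theorem iter_Rb5 (f : ℂ → ℂ → ℂ → ℚ) :
    ∑ q ∈ T3 X g, f q.1 q.2.1 q.2.2 = ∑ w ∈ X, ∑ q ∈ D2 X (g w), f w q.1 q.2 := by
  unfold T3 D2
  rw [Finset.sum_filter, Finset.sum_product]
  refine Finset.sum_congr rfl fun w _ => ?_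
  rw [Finset.sum_filter]

theorem rot_Rb5 (H : Cx X t R g δ) (f : ℂ → ℂ → ℂ → ℚ) :
    ∑ q ∈ T3 X g, f q.2.1 q.2.2 q.1 = ∑ q ∈ T3 X g, f q.1 q.2.1 q.2.2 := by
  refine Finset.sum_nbij' (fun q => (q.2.1, q.2.2, q.1)) (fun q => (q.2.2, q.1, q.2.1)) ?_ ?_ ?_ ?_ ?_
  · intro q hq
    rw [memT_Rb5 H] at hq ⊢
    exact H.grot hq
  · intro q hq
    rw [memT_Rb5 H] at hq ⊢
    exact H.grot (H.grot hq)
  · intro q _
    rfl
  · intro q _
    rfl
  · intro q _
    rfl

theorem stokes_Rb5 (H : Cx X t R g δ) (ω : ℂ → ℂ → ℚ) (hω : ∀ a b, ω a b = - ω b a) :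
    ∑ q ∈ T3 X g, (ω q.1 q.2.1 + ω q.2.1 q.2.2 + ω q.2.2 q.1) =
      3 * ∑ w ∈ X, ∑ a ∈ X.filter (fun a => bd R g a w), ω w a := by
  have h1 := rot_Rb5 H (fun a b _ => ω a b)
  have h2 := rot_Rb5 H (fun _ b c => ω b c)
  have h3 := iter_Rb5 (X := X) (g := g) (fun a b _ => ω a b)
  have h4 := iter_Rb5 (X := X) (g := g) (fun a _ c => ω a c)
  have h5 : ∑ q ∈ T3 X g, ω q.2.2 q.1 = - ∑ q ∈ T3 X g, ω q.1 q.2.2 := by
    rw [← Finset.sum_neg_distrib]
    exact Finset.sum_congr rfl fun q _ => hω _ _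
  have h6 : ∑ w ∈ X, ∑ q ∈ D2 X (g w), ω w q.1 + ∑ w ∈ X, ∑ p ∈ X.filter (bd R g w), ω w p =
      ∑ w ∈ X, ∑ q ∈ D2 X (g w), ω w q.2 +
        ∑ w ∈ X, ∑ p ∈ X.filter (fun a => bd R g a w), ω w p := by
    rw [← Finset.sum_add_distrib, ← Finset.sum_add_distrib]
    exact Finset.sum_congr rfl fun w _ => key_Rb5 H (ω w) w
  have h7 : ∑ w ∈ X, ∑ p ∈ X.filter (bd R g w), ω w p =
      - ∑ w ∈ X, ∑ p ∈ X.filter (fun a => bd R g a w), ω w p := by
    simp only [Finset.sum_filter]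
    rw [Finset.sum_comm, ← Finset.sum_neg_distrib]
    refine Finset.sum_congr rfl fun w _ => ?_
    rw [← Finset.sum_neg_distrib]
    refine Finset.sum_congr rfl fun p _ => ?_
    split_ifs
    · exact hω _ _
    · simp
  rw [Finset.sum_add_distrib, Finset.sum_add_distrib]
  linarith

end

theorem det_Rb5 (i : ZMod 6) : e1 i * e2 (i + 2) - e2 i * e1 (i + 2) = 1 := by
  revert i
  decide +kernel

theorem rb5 : RB5_st := by
  intro X t R g δ H _ hk G y1 y2 hG hG' hy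
  have hex : ∀ w, ∃ a, kb X R g w = 1 → X.filter (fun a => bd R g a w) = {a} := by
    intro w
    by_cases h : kb X R g w = 1
    · obtain ⟨a, ha⟩ := Finset.card_eq_one.1 ((card_Rb5 H w).trans h)
      exact ⟨a, fun _ => ha⟩
    · exact ⟨w, fun h' => absurd h' h⟩
  choose F hF using hex
  have hF1 : ∀ w, kb X R g w = 1 → F w ∈ X ∧ bd R g (F w) w := by
    intro w h
    have : F w ∈ X.filter (fun a => bd R g a w) := by
      rw [hF w h]; exact Finset.mem_singleton_self _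
    exact Finset.mem_filter.1 this
  have hF2 : ∀ w ∈ X, kb X R g w = 1 → kb X R g (F w) = 1 ∧ dg X g (F w) ≤ 3 := by
    intro w hw h
    rcases hk (F w) (hF1 w h).1 with h1 | h1
    · have h2 : w ∈ X.filter (bd R g (F w)) := Finset.mem_filter.2 ⟨hw, (hF1 w h).2⟩
      have h3 : X.filter (bd R g (F w)) = ∅ := Finset.card_eq_zero.1 h1.1
      rw [h3] at h2
      exact absurd h2 (Finset.notMem_empty _)
    · exact h1
  have hF3 : ∀ w ∈ X, kb X R g w = 1 → X.filter (bd R g (F w)) = {w} := by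
    intro w hw h
    obtain ⟨a, ha⟩ := Finset.card_eq_one.1 (hF2 w hw h).1
    have h2 : w ∈ X.filter (bd R g (F w)) := Finset.mem_filter.2 ⟨hw, (hF1 w h).2⟩
    rw [ha] at h2 ⊢
    rw [Finset.mem_singleton.1 h2]
  refine ⟨F, fun w hw => ?_, fun w hw w' hw' e => ?_, ?_⟩
  · obtain ⟨hw, h⟩ := Finset.mem_filter.1 hw
    have hR : R w (F w) := H.Rsymm (hF1 w h).2.1
    refine ⟨Finset.mem_filter.2 ⟨(hF1 w h).1, (hF2 w hw h).1⟩, hR, ?_⟩
    have h1 := key_Rb5 H (G (F w)) (F w)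
    rw [hF3 w hw h, hF (F w) (hF2 w hw h).1, Finset.sum_singleton, Finset.sum_singleton] at h1
    have h2 : ∑ q ∈ D2 X (g (F w)), G (F w) q.2 =
        ∑ q ∈ D2 X (g (F w)), G (F w) q.1 + (dg X g (F w) : ZMod 6) := by
      unfold dg
      rw [Finset.card_eq_sum_ones, Nat.cast_sum, ← Finset.sum_add_distrib]
      refine Finset.sum_congr rfl fun q hq => ?_
      rw [memD_Rb5 H] at hq
      have e1 := hG _ _ _ hq
      have e2 := hG _ _ _ (H.grot hq)
      have e3 := hG' _ _ (H.gR (H.grot (H.grot hq)))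
      have e4 : (6 : ZMod 6) = 0 := rfl
      rw [e3, e2, e1]
      push_cast
      linear_combination e4
    have h3 := hG' _ _ hR
    rw [Nat.cast_sub (hF2 w hw h).2]
    push_cast
    linear_combination h3 - h1 - h2
  · obtain ⟨hw, h⟩ := Finset.mem_filter.1 (Finset.mem_coe.1 hw)
    obtain ⟨hw', h'⟩ := Finset.mem_filter.1 (Finset.mem_coe.1 hw')
    have h1 := hF3 w hw h
    rw [e, hF3 w' hw' h'] at h1
    exact (Finset.singleton_injective h1).symm
  · have h1 := stokes_Rb5 H (fun a b => y1 a * y2 b - y2 a * y1 b) (fun a b => by ring)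
    have h2 : ∑ q ∈ T3 X g, ((y1 q.1 * y2 q.2.1 - y2 q.1 * y1 q.2.1) +
        (y1 q.2.1 * y2 q.2.2 - y2 q.2.1 * y1 q.2.2) + (y1 q.2.2 * y2 q.1 - y2 q.2.2 * y1 q.1)) =
        ((T3 X g).card : ℚ) := by
      rw [Finset.card_eq_sum_ones, Nat.cast_sum]
      refine Finset.sum_congr rfl fun q hq => ?_
      rw [memT_Rb5 H] at hq
      obtain ⟨a1, a2⟩ := hy _ _ (H.gR hq)
      obtain ⟨b1, b2⟩ := hy _ _ (H.gR (H.grot hq))
      rw [hG _ _ _ hq] at b1 b2
      have e := det_Rb5 (G q.1 q.2.1)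
      rw [b1, b2, a1, a2]
      push_cast
      linear_combination e
    rw [← h2, h1, Finset.sum_filter]
    congr 1
    refine Finset.sum_congr rfl fun w hw => ?_
    split_ifs with h
    · rw [hF w h, Finset.sum_singleton]
    · have h3 : X.filter (fun a => bd R g a w) = ∅ := by
        rw [← Finset.card_eq_zero, card_Rb5 H]
        rcases hk w hw with h4 | h4
        · exact h4.1
        · exact absurd h4.1 h
      rw [h3, Finset.sum_empty]

end MP7b

end
end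

section

open scoped Classical
open MeasureTheory Metric Real

noncomputable section
namespace MP7b

lemma cases_Rig : ∀ i : ZMod 6, i = 0 ∨ i = 1 ∨ i = 2 ∨ i = 3 ∨ i = 4 ∨ i = 5 := by decide

lemma e1_three_Rig : ∀ i : ZMod 6, e1 (i + 3) = - e1 i := by
  intro i
  rcases cases_Rig i with rfl | rfl | rfl | rfl | rfl | rfl <;> simp +decide [e1]

lemma e2_three_Rig : ∀ i : ZMod 6, e2 (i + 3) = - e2 i := by
  intro i
  rcases cases_Rig i with rfl | rfl | rfl | rfl | rfl | rfl <;> simp +decide [e2]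

lemma e1_sum_Rig : ∀ i : ZMod 6, e1 i + e1 (i + 2) + e1 (i + 2 + 2) = 0 := by
  intro i
  rcases cases_Rig i with rfl | rfl | rfl | rfl | rfl | rfl <;> simp +decide [e1]

lemma e2_sum_Rig : ∀ i : ZMod 6, e2 i + e2 (i + 2) + e2 (i + 2 + 2) = 0 := by
  intro i
  rcases cases_Rig i with rfl | rfl | rfl | rfl | rfl | rfl <;> simp +decide [e2]

lemma om_sq_Rig : om ^ 2 = om - 1 := by
  have h : √3 * √3 = 3 := Real.mul_self_sqrt (by norm_num)
  apply Complex.ext
  · simp [om, sq]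
    linarith
  · simp [om, sq]
    ring

lemma om_six_Rig : om ^ 6 = 1 := by
  have h := om_sq_Rig
  linear_combination (om ^ 4 + om ^ 3 - om - 1) * h

lemma om_exp_Rig : Complex.exp (((π / 3 : ℝ) : ℂ) * Complex.I) = om := by
  apply Complex.ext
  · rw [Complex.exp_ofReal_mul_I_re, Real.cos_pi_div_three]
    rfl
  · rw [Complex.exp_ofReal_mul_I_im, Real.sin_pi_div_three]
    rfl

lemma ev_Rig : ∀ i : ZMod 6, ((e1 i : ℚ) : ℂ) + ((e2 i : ℚ) : ℂ) * om = om ^ i.val := by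
  have h := om_sq_Rig
  intro i
  rcases cases_Rig i with rfl | rfl | rfl | rfl | rfl | rfl
  · rw [show (0 : ZMod 6).val = 0 from rfl]
    simp +decide [e1, e2]
  · rw [show (1 : ZMod 6).val = 1 from rfl]
    simp +decide [e1, e2]
  · rw [show (2 : ZMod 6).val = 2 from rfl]
    simp +decide only [e1, e2, if_true, if_false]
    push_cast
    linear_combination (-1 : ℂ) * h
  · rw [show (3 : ZMod 6).val = 3 from rfl]
    simp +decide only [e1, e2, if_true, if_false]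
    push_cast
    linear_combination (- om - 1) * h
  · rw [show (4 : ZMod 6).val = 4 from rfl]
    simp +decide only [e1, e2, if_true, if_false]
    push_cast
    linear_combination (- om ^ 2 - om) * h
  · rw [show (5 : ZMod 6).val = 5 from rfl]
    simp +decide only [e1, e2, if_true, if_false]
    push_cast
    linear_combination (- om ^ 3 - om ^ 2 + 1) * h

lemma om_add_Rig (i : ZMod 6) (j : ℕ) : om ^ (i + (j : ZMod 6)).val = om ^ i.val * om ^ j := by
  rw [ZMod.val_add, ← pow_eq_pow_mod _ om_six_Rig, pow_add, ZMod.val_natCast,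
    ← pow_eq_pow_mod _ om_six_Rig]

lemma norm_om_Rig : ‖om‖ = 1 := by
  rw [← om_exp_Rig, Complex.norm_exp_ofReal_mul_I]

theorem rig (hC : CNT_st) (h1 : RB1_st) (h3 : RB3_st) (hP : POT_st) (h5 : RB5_st) (h6 : L6_st) :
    RIG_st := by
  intro X t R g δ hX hconn hexa hchi hne hDel hdeg
  obtain ⟨c1, c2, c3, -⟩ := hC X t R g δ hX
  obtain ⟨hR, hdeg2, hstr⟩ := h1 X t R g δ hX hconn hne (by linarith) hdeg
  obtain ⟨G, φ, hG1, hG2, hG3⟩ := h3 X t R g δ hX hDel hR hstr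
  have hRX : ∀ a b, R a b → a ∈ X ∧ R b a := by
    intro a b h
    refine ⟨?_, hX.Rsymm h⟩
    obtain ⟨c, hc⟩ | ⟨c, hc⟩ := hX.RE h
    · exact hX.tri.mem hc
    · exact hX.tri.mem (hX.tri.rot hc)
  have hgR : ∀ a b c, g a b c → R a b ∧ g b c a := fun a b c h => ⟨hX.gR h, hX.grot h⟩
  have huq : ∀ a b c c', g a b c → g a b c' → c = c' := fun a b c c' h h' =>
    hX.tri.uniq (hX.gt h) (hX.gt h')
  obtain ⟨y1, hy1⟩ := hP X R g hRX hgR huq hexa (fun a b => e1 (G a b))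
    (fun a b h => by rw [hG2 a b h, e1_three_Rig])
    (fun a b c h => by rw [hG1 b c a (hX.grot h), hG1 a b c h, e1_sum_Rig])
  obtain ⟨y2, hy2⟩ := hP X R g hRX hgR huq hexa (fun a b => e2 (G a b))
    (fun a b h => by rw [hG2 a b h, e2_three_Rig])
    (fun a b c h => by rw [hG1 b c a (hX.grot h), hG1 a b c h, e2_sum_Rig])
  obtain ⟨F, hF1, hF2, hF3⟩ := h5 X t R g δ hX hR hdeg2 G y1 y2 hG1 hG2
    fun a b h => ⟨hy1 a b h, hy2 a b h⟩
  set W : Finset ℂ := X.filter fun w => kb X R g w = 1 with hW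
  have s1 : ∑ w ∈ W, (3 - dg X g w) + ∑ w ∈ X, dg X g w + 3 * ∑ w ∈ X, kb X R g w =
      6 * X.card := by
    rw [hW, Finset.sum_filter, Finset.mul_sum, ← Finset.sum_add_distrib, ← Finset.sum_add_distrib,
      Finset.card_eq_sum_ones, Finset.mul_sum]
    refine Finset.sum_congr rfl fun w hw => ?_
    rcases hdeg2 w hw with ⟨a1, a2⟩ | ⟨a1, a2⟩
    · rw [if_neg (by omega)]
      omega
    · rw [if_pos a1]
      omega
  have s2 : W.card = ∑ w ∈ X, kb X R g w := by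
    rw [hW, Finset.card_filter]
    refine Finset.sum_congr rfl fun w hw => ?_
    rcases hdeg2 w hw with ⟨a1, -⟩ | ⟨a1, -⟩
    · rw [if_neg (by omega), a1]
    · rw [if_pos a1, a1]
  have s3 : 6 * X.card = 6 + 3 * (D2 X (bd R g)).card + (T3 X g).card := by
    unfold chi6 at hchi
    omega
  have s4 : ∑ w ∈ W, (3 - dg X g w) = 6 := by omega
  obtain ⟨a, G0, z, b1, b2, b3, b4, b5, b6⟩ := h6 W F (fun w => G w (F w)) (fun w => 3 - dg X g w)
    y1 y2 (fun w hw => (hF1 w hw).1) hF2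
    (fun w hw => ⟨hy1 _ _ (hF1 w hw).2.1, hy2 _ _ (hF1 w hw).2.1, (hF1 w hw).2.2⟩) s4
  have hb : (D2 X (bd R g)).card = a 0 + a 1 + a 2 + a 3 + a 4 + a 5 := by omega
  refine ⟨a, b1, b2, hb, ?_, fun hD0 hd2 => ?_⟩
  · rw [b4] at hF3
    have q1 : (6 * X.card : ℚ) = 6 + 3 * (a 0 + a 1 + a 2 + a 3 + a 4 + a 5) + (T3 X g).card := by
      rw [hb] at s3
      exact_mod_cast s3
    have q2 : (a 0 + a 5 : ℚ) = a 2 + a 3 := by exact_mod_cast b1
    have q3 : (a 1 + a 2 : ℚ) = a 4 + a 5 := by exact_mod_cast b2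
    have q4 : (2 * X.card + a 5 * (a 5 + 1) + a 2 * (a 2 + 1) : ℚ) =
        2 * (a 0 + a 5 + 1) * (a 1 + a 2 + 1) := by
      linear_combination (1 / 3) * q1 - (1 / 3) * hF3 - q2 - q3
    exact_mod_cast q4
  · set v : ℂ := Complex.exp ((φ : ℂ) * Complex.I) with hv
    have step : ∀ a b, R a b → b - a = 2 * v * om ^ (G a b).val := by
      intro a b h
      obtain ⟨e, he, hab⟩ := hG3 a b h
      have he0 : e = 0 := abs_nonpos_iff.1 (he.trans hD0)
      have hd : dist a b = 2 := by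
        obtain ⟨c, hc⟩ | ⟨c, hc⟩ := hR a b h
        · exact hd2 a b c hc
        · rw [dist_comm]
          exact hd2 b a c hc
      rw [hab, hd, he0, ← om_exp_Rig, ← Complex.exp_nat_mul, hv, mul_assoc, ← Complex.exp_add]
      push_cast
      congr 2
      ring
    set ψ : ℂ → ℂ := fun x => x - 2 * v * ((y1 x : ℂ) + (y2 x : ℂ) * om) with hψ
    have inv : ∀ a b, R a b → ψ b = ψ a := by
      intro a b h
      have k1 := step a b h
      rw [← ev_Rig] at k1
      simp only [hψ]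
      rw [hy1 a b h, hy2 a b h]
      push_cast
      linear_combination k1
    have hzX : ∀ j, z j ∈ X := fun j => (Finset.mem_filter.1 (b5 j)).1
    refine ⟨v * om ^ G0.val, z, ?_, hzX, fun j hj => ?_⟩
    · rw [norm_mul, norm_pow, norm_om_Rig, hv, Complex.norm_exp_ofReal_mul_I]
      simp
    · have k1 : ψ (z (j + 1)) = ψ (z j) :=
        hconn (fun x => ψ x = ψ (z j)) (fun a b h ha => (inv a b h).trans ha) _ (hzX j) _
          (hzX (j + 1)) rfl
      have k2 := ev_Rig (G0 + (j : ZMod 6))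
      rw [om_add_Rig] at k2
      simp only [hψ] at k1
      rw [(b6 j hj).1, (b6 j hj).2] at k1
      push_cast at k1
      linear_combination k1 + 2 * v * (a j : ℂ) * k2

end MP7b

end
end

section

/-! Every packing extends to a saturated packing inside its convex hull. -/

open scoped Classical
open MeasureTheory Metric Real

noncomputable section
namespace MP7b

lemma bdd_Sat {K : Set ℂ} (hK : IsCompact K) :
    ∃ N : ℕ, ∀ Y : Finset ℂ, Sep Y → (Y : Set ℂ) ⊆ K → Y.card ≤ N := by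
  obtain ⟨T, hT, hcov⟩ := Metric.totallyBounded_iff.1 hK.totallyBounded 1 one_pos
  have hch : ∀ y : ℂ, ∃ c : ℂ, y ∈ K → c ∈ T ∧ dist y c < 1 := by
    intro y
    by_cases hy : y ∈ K
    · have := hcov hy
      simp only [Set.mem_iUnion, mem_ball, exists_prop] at this
      obtain ⟨c, hc1, hc2⟩ := this
      exact ⟨c, fun _ => ⟨hc1, hc2⟩⟩
    · exact ⟨0, fun h => absurd h hy⟩
  choose c hc using hch
  refine ⟨hT.toFinset.card, fun Y hY hYK => ?_⟩
  refine Finset.card_le_card_of_injOn c (fun y hy => ?_) ?_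
  · have := (hc y (hYK hy)).1
    simpa using this
  · intro a ha b hb e
    by_contra hne
    have h1 := hY a ha b hb hne
    have h2 := (hc a (hYK ha)).2
    have h3 := (hc b (hYK hb)).2
    have h4 := dist_triangle_right a b (c a)
    rw [← e] at h3
    linarith

theorem sat : SAT_st := by
  intro X hX
  obtain ⟨N, hN⟩ := bdd_Sat (X.finite_toSet.isCompact_convexHull (𝕜 := ℝ))
  have key : ∀ k : ℕ, ∀ Y : Finset ℂ, X ⊆ Y → Sep Y → (Y : Set ℂ) ⊆ convexHull ℝ (X : Set ℂ) →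
      N ≤ Y.card + k → ∃ Z : Finset ℂ, X ⊆ Z ∧ Sep Z ∧ Sat Z ∧
        (Z : Set ℂ) ⊆ convexHull ℝ (X : Set ℂ) := by
    have step : ∀ Y : Finset ℂ, X ⊆ Y → Sep Y → (Y : Set ℂ) ⊆ convexHull ℝ (X : Set ℂ) →
        ¬ Sat Y → ∃ Z : Finset ℂ, X ⊆ Z ∧ Sep Z ∧ (Z : Set ℂ) ⊆ convexHull ℝ (X : Set ℂ) ∧
          Z.card = Y.card + 1 := by
      intro Y hXY hY hYK hs
      unfold Sat at hs
      push Not at hs
      obtain ⟨p, hp, hfar⟩ := hs
      have hpY : p ∉ Y := fun h => by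
        have := hfar p h
        rw [dist_self] at this
        linarith
      have hpK : p ∈ convexHull ℝ (X : Set ℂ) :=
        convexHull_min hYK (convex_convexHull ℝ _) hp
      refine ⟨insert p Y, hXY.trans (Finset.subset_insert _ _), ?_, ?_,
        Finset.card_insert_of_notMem hpY⟩
      · intro a ha b hb hne
        rcases Finset.mem_insert.1 ha with rfl | ha'
        · rcases Finset.mem_insert.1 hb with rfl | hb'
          · exact absurd rfl hne
          · exact (hfar b hb').le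
        · rcases Finset.mem_insert.1 hb with rfl | hb'
          · rw [dist_comm]
            exact (hfar a ha').le
          · exact hY a ha' b hb' hne
      · rw [Finset.coe_insert]
        exact Set.insert_subset hpK hYK
    intro k
    induction k with
    | zero =>
      intro Y hXY hY hYK hc
      by_cases hs : Sat Y
      · exact ⟨Y, hXY, hY, hs, hYK⟩
      · obtain ⟨Z, -, h2, h3, h4⟩ := step Y hXY hY hYK hs
        have := hN Z h2 h3
        omega
    | succ k ih =>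
      intro Y hXY hY hYK hc
      by_cases hs : Sat Y
      · exact ⟨Y, hXY, hY, hs, hYK⟩
      · obtain ⟨Z, h1, h2, h3, h4⟩ := step Y hXY hY hYK hs
        exact ih Z h1 h2 h3 (by omega)
  exact key N X (Finset.Subset.refl _) hX (subset_convexHull ℝ _) (Nat.le_add_left _ _)

end MP7b

end
end

section

open scoped Classical
open MeasureTheory Metric Real

noncomputable section
namespace MP7b

lemma bary_TRa (p q r : ℝ) (a b c d : ℂ) :
    (p + q * d.re + r * d.im) * D a b c = (p + q * a.re + r * a.im) * D d b c +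
      (p + q * b.re + r * b.im) * D a d c + (p + q * c.re + r * c.im) * D a b d := by
  unfold D
  ring

lemma touch_TRa {X : Finset ℂ} {h : ℂ → ℝ} (hG : Gen X h) {a b c d : ℂ} (ha : a ∈ X)
    (hb : b ∈ X) (hc : c ∈ X) (hd : d ∈ X) (hD : 0 < D a b c) {p q r : ℝ}
    (e1 : p + q * a.re + r * a.im = h a) (e2 : p + q * b.re + r * b.im = h b)
    (e3 : p + q * c.re + r * c.im = h c) (e4 : p + q * d.re + r * d.im = h d) :
    d = a ∨ d = b ∨ d = c := by
  by_contra hne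
  rw [not_or, not_or] at hne
  refine hG.1 a ha b hb c hc d hd hD.ne' hne.1 hne.2.1 hne.2.2 ?_
  have := bary_TRa p q r a b c d
  rw [e1, e2, e3, e4] at this
  unfold Qh
  linarith

lemma D_aba_TRa (a b : ℂ) : D a b a = 0 := by unfold D; ring

lemma D_abb_TRa (a b : ℂ) : D a b b = 0 := by unfold D; ring

lemma D_aab_TRa (a b : ℂ) : D a a b = 0 := by unfold D; ring

lemma D_rot_TRa (a b c : ℂ) : D b c a = D a b c := by unfold D; ring

lemma D_swap_TRa (a b c : ℂ) : D b a c = - D a b c := by unfold D; ring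

/-- an affine function below the heights is below the face on the triangle -/
lemma below_TRa {h : ℂ → ℝ} {a b c x : ℂ} {p q r p' q' r' : ℝ}
    (e1 : p + q * a.re + r * a.im = h a) (e2 : p + q * b.re + r * b.im = h b)
    (e3 : p + q * c.re + r * c.im = h c) :
    ((p + q * x.re + r * x.im) - (p' + q' * x.re + r' * x.im)) * D a b c =
      (h a - (p' + q' * a.re + r' * a.im)) * D b c x +
      (h b - (p' + q' * b.re + r' * b.im)) * D c a x +
      (h c - (p' + q' * c.re + r' * c.im)) * D a b x := by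
  rw [← e1, ← e2, ← e3]
  unfold D
  ring

theorem tra : TRa_st := by
  intro X h hG
  refine ⟨?_, ?_, ?_⟩
  · rintro a b c c' ⟨ha, hb, hc, hD, p, q, r, h0, e1, e2, e3⟩
      ⟨-, -, hc', hD', p', q', r', h0', e1', e2', e3'⟩
    have k := below_TRa (x := c') (p' := p') (q' := q') (r' := r') e1 e2 e3
    rw [e1', e2', e3', sub_self, sub_self, zero_mul, zero_mul, zero_add, zero_add] at k
    have a1 := h0 c' hc'
    have a2 := h0' c hc
    have a3 : 0 ≤ (h c - (p' + q' * c.re + r' * c.im)) * D a b c' :=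
      mul_nonneg (by linarith) hD'.le
    have a4 : p + q * c'.re + r * c'.im = h c' := by
      by_contra hne
      have : (p + q * c'.re + r * c'.im - h c') * D a b c < 0 :=
        mul_neg_of_neg_of_pos (sub_neg.2 (lt_of_le_of_ne a1 hne)) hD
      linarith
    rcases touch_TRa hG ha hb hc hc' hD e1 e2 e3 a4 with rfl | rfl | rfl
    · rw [D_aba_TRa] at hD'
      exact absurd hD' (lt_irrefl _)
    · rw [D_abb_TRa] at hD'
      exact absurd hD' (lt_irrefl _)
    · rfl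
  · rintro a b c a' b' c' x ⟨ha, hb, hc, hD, p, q, r, h0, e1, e2, e3⟩
      ⟨ha', hb', hc', hD', p', q', r', h0', e1', e2', e3'⟩ ⟨x1, x2, x3⟩ ⟨y1, y2, y3⟩
    have k := below_TRa (x := x) (p' := p') (q' := q') (r' := r') e1 e2 e3
    have k' := below_TRa (x := x) (p' := p) (q' := q) (r' := r) e1' e2' e3'
    have a1 := mul_nonneg (sub_nonneg.2 (h0' a ha)) x2.le
    have a2 := mul_nonneg (sub_nonneg.2 (h0' b hb)) x3.le
    have a3 := mul_nonneg (sub_nonneg.2 (h0' c hc)) x1.le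
    have b1 := mul_nonneg (sub_nonneg.2 (h0 a' ha')) y2.le
    have b2 := mul_nonneg (sub_nonneg.2 (h0 b' hb')) y3.le
    have b3 := mul_nonneg (sub_nonneg.2 (h0 c' hc')) y1.le
    have c1 : 0 ≤ (p + q * x.re + r * x.im) - (p' + q' * x.re + r' * x.im) :=
      nonneg_of_mul_nonneg_left (by linarith) hD
    have c2 : ((p' + q' * x.re + r' * x.im) - (p + q * x.re + r * x.im)) * D a' b' c' ≤ 0 :=
      mul_nonpos_of_nonpos_of_nonneg (by linarith) hD'.le
    have d1 : (h a' - (p + q * a'.re + r * a'.im)) * D b' c' x = 0 := by linarith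
    have d2 : (h b' - (p + q * b'.re + r * b'.im)) * D c' a' x = 0 := by linarith
    have d3 : (h c' - (p + q * c'.re + r * c'.im)) * D a' b' x = 0 := by linarith
    have f1 := touch_TRa hG ha hb hc ha' hD e1 e2 e3
      (sub_eq_zero.1 ((mul_eq_zero.1 d1).resolve_right y2.ne')).symm
    have f2 := touch_TRa hG ha hb hc hb' hD e1 e2 e3
      (sub_eq_zero.1 ((mul_eq_zero.1 d2).resolve_right y3.ne')).symm
    have f3 := touch_TRa hG ha hb hc hc' hD e1 e2 e3
      (sub_eq_zero.1 ((mul_eq_zero.1 d3).resolve_right y1.ne')).symm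
    clear k k' a1 a2 a3 b1 b2 b3 c1 c2 d1 d2 d3 e1 e2 e3 e1' e2' e3' x1 x2 x3 y1 y2 y3 h0 h0'
    rcases f1 with rfl | rfl | rfl <;> rcases f2 with rfl | rfl | rfl <;>
      rcases f3 with rfl | rfl | rfl <;>
      first
        | exact Or.inl ⟨rfl, rfl, rfl⟩
        | exact Or.inr (Or.inl ⟨rfl, rfl, rfl⟩)
        | exact Or.inr (Or.inr ⟨rfl, rfl, rfl⟩)
        | (exfalso; unfold D at hD hD'; linarith)
  · rintro v a b c d ⟨hv, ha, hb, hD, p, q, r, h0, e1, e2, e3⟩ h2 x1 x2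
    obtain ⟨hc, p', q', r', h0', e1', e2'⟩ : c ∈ X ∧ ∃ p' q' r' : ℝ,
        (∀ x ∈ X, p' + q' * x.re + r' * x.im ≤ h x) ∧ p' + q' * v.re + r' * v.im = h v ∧
          p' + q' * c.re + r' * c.im = h c := by
      rcases h2 with ⟨-, hc, -, -, p', q', r', h0', e1', e2', -⟩ |
        ⟨-, -, hc, -, p', q', r', h0', e1', -, e2'⟩
      · exact ⟨hc, p', q', r', h0', e1', e2'⟩
      · exact ⟨hc, p', q', r', h0', e1', e2'⟩
    have k := below_TRa (x := c) (p' := p') (q' := q') (r' := r') e1 e2 e3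
    rw [e1', e2', sub_self, zero_mul, zero_add] at k
    have x3 : 0 < D b v c := by rwa [D_rot_TRa v c b |>.symm, D_rot_TRa c b v |>.symm] at x2
    have a1 := mul_nonneg (sub_nonneg.2 (h0' a ha)) x3.le
    have a2 := mul_nonneg (sub_nonneg.2 (h0' b hb)) x1.le
    have a4 : p + q * c.re + r * c.im = h c := by
      by_contra hne
      have : (p + q * c.re + r * c.im - h c) * D v a b < 0 :=
        mul_neg_of_neg_of_pos (sub_neg.2 (lt_of_le_of_ne (h0 c hc) hne)) hD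
      linarith
    rcases touch_TRa hG hv ha hb hc hD e1 e2 e3 a4 with rfl | rfl | rfl
    · rw [D_aba_TRa] at x1
      exact lt_irrefl _ x1
    · rw [D_abb_TRa] at x1
      exact lt_irrefl _ x1
    · rw [D_abb_TRa] at x2
      exact lt_irrefl _ x2

end MP7b

end
end

section

open scoped Classical
open MeasureTheory Metric Real

noncomputable section
namespace MP7b

theorem qh_TRc (h : ℂ → ℝ) {a b c : ℂ} {p q r : ℝ} (ha : p + q * a.re + r * a.im = h a)
    (hb : p + q * b.re + r * b.im = h b) (hc : p + q * c.re + r * c.im = h c) (x : ℂ) :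
    Qh h a b c x = (h x - (p + q * x.re + r * x.im)) * D a b c := by
  unfold Qh D
  rw [← ha, ← hb, ← hc]
  ring

theorem aff_TRc (h : ℂ → ℝ) {a b c : ℂ} (hD : D a b c ≠ 0) : ∃ p q r : ℝ,
    p + q * a.re + r * a.im = h a ∧ p + q * b.re + r * b.im = h b ∧
      p + q * c.re + r * c.im = h c := by
  obtain ⟨q, hq⟩ : ∃ q, q * D a b c = (h b - h a) * (c.im - a.im) - (h c - h a) * (b.im - a.im) :=
    ⟨_, div_mul_cancel₀ _ hD⟩
  obtain ⟨r, hr⟩ : ∃ r, r * D a b c = (h c - h a) * (b.re - a.re) - (h b - h a) * (c.re - a.re) :=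
    ⟨_, div_mul_cancel₀ _ hD⟩
  refine ⟨h a - q * a.re - r * a.im, q, r, by ring, mul_right_cancel₀ hD ?_,
    mul_right_cancel₀ hD ?_⟩
  · unfold D at hq hr ⊢
    linear_combination (b.re - a.re) * hq + (b.im - a.im) * hr
  · unfold D at hq hr ⊢
    linear_combination (c.re - a.re) * hq + (c.im - a.im) * hr

theorem dist_TRc (x : ℂ) (p q r : ℝ) : dist x ⟨q / 2, r / 2⟩ =
    √(Complex.normSq x - (p + q * x.re + r * x.im) + (p + q ^ 2 / 4 + r ^ 2 / 4)) := by
  rw [Complex.dist_eq_re_im, Complex.normSq_apply]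
  congr 1
  ring

theorem trc : ∀ X h, Gen X h → ∀ a b c, tH X h a b c → ∃ O : ℂ, dist b O = dist a O ∧ dist c O = dist a O ∧ ∀ x ∈ X, dist a O ≤ dist x O := by
  rintro X h hG a b c ⟨ha, hb, hc, hD, p', q', r', h1, h2, h3, h4⟩
  obtain ⟨p, q, r, k1, k2, k3⟩ := aff_TRc (fun x => Complex.normSq x) hD.ne'
  refine ⟨⟨q / 2, r / 2⟩, ?_, ?_, fun x hx => ?_⟩
  · rw [dist_TRc a p, dist_TRc b p, k1, k2, sub_self, sub_self]
  · rw [dist_TRc a p, dist_TRc c p, k1, k3, sub_self, sub_self]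
  · rw [dist_TRc a p, dist_TRc x p, k1, sub_self]
    refine Real.sqrt_le_sqrt (add_le_add_left (not_lt.mp fun hlt => ?_) _)
    have h5 := hG.2.1 a ha b hb c hc x hx (by
      rw [qh_TRc _ k1 k2 k3]
      exact mul_neg_of_neg_of_pos hlt hD)
    rw [qh_TRc h h2 h3 h4] at h5
    exact absurd h5 (not_lt.mpr (mul_nonneg (sub_nonneg.mpr (h1 x hx)) hD.le))

end MP7b

end
end

section

/-! The triangles of a triangulation have total area at most the area of the hull. -/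

open scoped Classical
open MeasureTheory Metric Real

noncomputable section
namespace MP7b

theorem meas_Trv (a b c : ℂ) : MeasurableSet (otri a b c) := by
  have h : ∀ a b : ℂ, IsOpen {p | 0 < D a b p} := fun a b =>
    isOpen_lt continuous_const (by unfold D; fun_prop)
  exact ((h a b).inter ((h b c).inter (h c a))).measurableSet

theorem sub_Trv {K : Set ℂ} (hK : Convex ℝ K) {a b c p : ℂ} (ha : a ∈ K) (hb : b ∈ K) (hc : c ∈ K)
    (hp : p ∈ otri a b c) : p ∈ K := by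
  obtain ⟨h1, h2, h3⟩ := hp
  have hs : D b c p + D c a p + D a b p = D a b c := by unfold D; ring
  have h0 : 0 < D a b c := by linarith
  have h := hK.sum_mem (t := (Finset.univ : Finset (Fin 3)))
    (w := ![D b c p / D a b c, D c a p / D a b c, D a b p / D a b c]) (z := ![a, b, c])
    (fun i _ => by fin_cases i <;> simp <;> positivity)
    (by rw [Fin.sum_univ_three]; simp; rw [← add_div, ← add_div, hs, div_self h0.ne'])
    (fun i _ => by fin_cases i <;> simpa)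
  rw [Fin.sum_univ_three] at h
  convert h using 1
  apply Complex.ext
  · simp only [Matrix.cons_val_zero, Matrix.cons_val_one, Matrix.cons_val, Complex.add_re,
      Complex.smul_re, smul_eq_mul]
    field_simp
    unfold D
    ring
  · simp only [Matrix.cons_val_zero, Matrix.cons_val_one, Matrix.cons_val, Complex.add_im,
      Complex.smul_im, smul_eq_mul]
    field_simp
    unfold D
    ring

theorem trv (h : OTV_st) : TRV_st := by
  intro X t hT
  have hm : ∀ q ∈ T3 X t, t q.1 q.2.1 q.2.2 := fun q hq => (Finset.mem_filter.1 hq).2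
  have h1 : ∀ p : ℂ, ∑ q ∈ T3 X t, (otri q.1 q.2.1 q.2.2).indicator (fun _ => (1 : ENNReal)) p ≤
      (convexHull ℝ (X : Set ℂ)).indicator (fun _ => (3 : ENNReal)) p := by
    intro p
    by_cases hp : ∃ q ∈ T3 X t, p ∈ otri q.1 q.2.1 q.2.2
    · obtain ⟨⟨a, b, c⟩, hq, hpq⟩ := hp
      have ht : t a b c := hm _ hq
      have hin : p ∈ convexHull ℝ (X : Set ℂ) :=
        sub_Trv (convex_convexHull ℝ _) (subset_convexHull ℝ _ (hT.mem ht))
          (subset_convexHull ℝ _ (hT.mem (hT.rot ht)))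
          (subset_convexHull ℝ _ (hT.mem (hT.rot (hT.rot ht)))) hpq
      rw [Set.indicator_of_mem hin]
      simp only [Set.indicator_apply]
      rw [← Finset.sum_filter, Finset.sum_const, nsmul_eq_mul, mul_one]
      have h2 : ((T3 X t).filter fun q => p ∈ otri q.1 q.2.1 q.2.2) ⊆
          {(a, b, c), (b, c, a), (c, a, b)} := by
        rintro ⟨a', b', c'⟩ hq'
        rw [Finset.mem_filter] at hq'
        rcases hT.disj ht (hm _ hq'.1) hpq hq'.2 with ⟨e1, e2, e3⟩ | ⟨e1, e2, e3⟩ | ⟨e1, e2, e3⟩ <;>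
          simp only at e1 e2 e3 <;> simp [e1, e2, e3]
      exact_mod_cast (Finset.card_le_card h2).trans Finset.card_le_three
    · rw [Finset.sum_eq_zero fun q hq => Set.indicator_of_notMem (fun h' => hp ⟨q, hq, h'⟩) _]
      exact zero_le
  have h2 := (lintegral_mono (μ := volume) h1).trans (lintegral_indicator_const_le _ _)
  rw [lintegral_finsetSum _ fun q _ => measurable_const.indicator (meas_Trv _ _ _)] at h2
  have h3 : ∑ q ∈ T3 X t, ∫⁻ p, (otri q.1 q.2.1 q.2.2).indicator (fun _ => (1 : ENNReal)) p =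
      3 * ENNReal.ofReal ((∑ q ∈ T3 X t, D q.1 q.2.1 q.2.2) / 6) := by
    rw [← ENNReal.ofReal_ofNat 3, ← ENNReal.ofReal_mul (by norm_num),
      show (3 : ℝ) * ((∑ q ∈ T3 X t, D q.1 q.2.1 q.2.2) / 6) =
        ∑ q ∈ T3 X t, D q.1 q.2.1 q.2.2 / 2 by rw [← Finset.sum_div]; ring,
      ENNReal.ofReal_sum_of_nonneg fun q hq => (half_pos (hT.pos (hm q hq))).le]
    refine Finset.sum_congr rfl fun q hq => ?_
    rw [lintegral_indicator_const (meas_Trv _ _ _), one_mul, h _ _ _ (hT.pos (hm q hq))]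
  rw [h3] at h2
  exact (ENNReal.mul_le_mul_iff_right (by norm_num) (by norm_num)).1 h2

end MP7b

end
end
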